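import Pool.Agent.P.MP_e94e4b_nt.PF.Basic
import Pool.Agent.P.MP_74dd9d_nt.PM

/-! The upper bound sieve for pairs with a fixed sum in a short interval. -/

namespace Pool.Agent.P.MP_e94e4b_nt.PF

open Finset Real Filter Topology
open Pool.Agent.P.MP_8be758_nt.Avg (PL Vz mem_PL prime_of_mem_PL ev_pow ev_const t_HR)
open Pool.Agent.P.MP_74dd9d_nt (PM)

noncomputable section

/-- the density -/
def SV_g (M p : ℕ) : ℝ := if 5 ≤ p ∧ ¬ p ∣ M then 2 / p else 0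

/-- the indicator of the two excluded classes -/
def SV_x (M p n : ℕ) : ℝ :=
  if (5 ≤ p ∧ ¬ p ∣ M) ∧ (p ∣ n ∨ (p : ℤ) ∣ 2 * M - n) then 1 else 0

theorem SV_x01 (M n : ℕ) : Unit01 fun p => SV_x M p n := fun p => by
  simp only [SV_x]
  split_ifs <;> norm_num

theorem SV_g_bd (M p : ℕ) : 0 ≤ SV_g M p ∧ SV_g M p ≤ 1 / 2 ∧ SV_g M p ≤ 2 / p := by
  rw [SV_g]
  split_ifs with h
  · have h5 : (5 : ℝ) ≤ p := by exact_mod_cast h.1
    refine ⟨by positivity, ?_, le_rfl⟩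
    rw [div_le_iff₀ (by linarith)]
    linarith
  · exact ⟨le_rfl, by norm_num, by positivity⟩

theorem SV_PM (M : ℕ) {p : ℕ} (hp : p.Prime) : PM p (SV_x M p) (SV_g M p) := by
  refine ⟨hp.pos, fun a => ?_, fun a => ?_, ?_⟩
  · have e : ((p : ℤ) ∣ 2 * M - ((a + p : ℕ) : ℤ)) ↔ (p : ℤ) ∣ 2 * M - a := by
      push_cast
      rw [← sub_sub]
      exact dvd_sub_self_right
    simp only [SV_x, e, Nat.dvd_add_self_right]
  · rw [abs_le]
    have := SV_x01 M a p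
    constructor <;> linarith [this.1, this.2]
  · by_cases h : 5 ≤ p ∧ ¬ p ∣ M
    · have hp0 : (p : ℝ) ≠ 0 := by exact_mod_cast hp.ne_zero
      have h2 : ¬ p ∣ 2 * M := fun h3 => by
        rcases (Nat.Prime.dvd_mul hp).1 h3 with h4 | h4
        · have := Nat.le_of_dvd two_pos h4
          omega
        · exact h.2 h4
      have e : (range p).filter (fun n => p ∣ n ∨ (p : ℤ) ∣ 2 * M - n) = {0, 2 * M % p} := by
        ext n
        have e1 : ((p : ℤ) ∣ 2 * M - n) ↔ n ≡ 2 * M [MOD p] := by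
          rw [Nat.modEq_iff_dvd]
          push_cast
          rfl
        rw [mem_filter, mem_range, mem_insert, mem_singleton, e1]
        constructor
        · rintro ⟨h3, h4 | h4⟩
          · exact Or.inl (Nat.eq_zero_of_dvd_of_lt h4 h3)
          · exact Or.inr (by rw [← Nat.mod_eq_of_lt h3]; exact h4)
        · rintro (rfl | rfl)
          · exact ⟨hp.pos, Or.inl (dvd_zero _)⟩
          · exact ⟨Nat.mod_lt _ hp.pos, Or.inr (Nat.mod_modEq _ _)⟩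
      have h3 : (0 : ℕ) ≠ 2 * M % p := fun h4 => h2 (Nat.dvd_of_mod_eq_zero h4.symm)
      simp only [SV_x, SV_g, h, not_false_eq_true, and_self, true_and, if_true]
      rw [sum_boole, e, card_pair h3]
      field_simp
      norm_num
    · simp [SV_x, SV_g, h]

theorem SV_scale {m : ℕ} {f : ℕ → ℝ} {μ c : ℝ} (h : PM m f μ) (hc : |c| ≤ 1) :
    PM m (fun a => c * f a) (c * μ) := by
  refine ⟨h.1, fun a => by simp only [h.2.1 a], fun a => ?_, ?_⟩
  · rw [abs_mul]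
    exact mul_le_one₀ hc (abs_nonneg _) (h.2.2.1 a)
  · rw [← mul_sum, h.2.2.2]
    ring

/-- the sieve weights summed over an interval -/
theorem SV_sum (M s A : ℕ) {P : Finset ℕ} (hP : ∀ p ∈ P, p.Prime) {Q : ℝ} (hQ : 0 ≤ Q)
    {lam : Finset ℕ → ℝ} (hl : Sup P Q lam) :
    ∑ a ∈ range A, ev P lam (fun p => SV_x M p (s + a)) ≤ A * ev P lam (SV_g M) + 2 * Q ^ 2 := by
  classical
  have h1 : ∀ E ∈ P.powerset, ∑ a ∈ range A, lam E * ∏ p ∈ E, SV_x M p (s + a) ≤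
      A * (lam E * ∏ p ∈ E, SV_g M p) + if lam E ≠ 0 then 2 * (pr E : ℝ) else 0 := by
    intro E hE
    have hE' : ∀ p ∈ E, p.Prime := fun p hp => hP p (mem_powerset.1 hE hp)
    split_ifs with h0
    · exact (SV_scale (PM.prod hE' fun p hp => SV_PM M (hE' p hp)) (hl.1 E)).approx s A
    · rw [not_not] at h0
      simp [h0]
  have h2 : ∑ E ∈ P.powerset.filter (fun E => lam E ≠ 0), 2 * (pr E : ℝ) ≤
      ∑ q ∈ Icc 1 ⌊Q⌋₊, 2 * (q : ℝ) := by
    refine sum_pr_le (F := fun q : ℕ => 2 * (q : ℝ)) (fun E hE p hp => ?_)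
      (fun E hE => ?_) fun q _ => by positivity
    · exact hP p (mem_powerset.1 (mem_filter.1 hE).1 hp)
    have h3 := mem_powerset.1 (mem_filter.1 hE).1
    exact mem_Icc.2 ⟨pr_pos fun p hp => hP p (h3 hp), Nat.le_floor (hl.2 E h3 (mem_filter.1 hE).2)⟩
  have h3 : ∑ q ∈ Icc 1 ⌊Q⌋₊, 2 * (q : ℝ) ≤ 2 * Q ^ 2 := by
    have h4 := Nat.floor_le hQ
    calc _ ≤ ∑ _q ∈ Icc 1 ⌊Q⌋₊, 2 * Q := sum_le_sum fun q hq => by
          have : (q : ℝ) ≤ ⌊Q⌋₊ := by exact_mod_cast (mem_Icc.1 hq).2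
          linarith
      _ = ⌊Q⌋₊ * (2 * Q) := by simp
      _ ≤ _ := by nlinarith
  simp only [ev]
  rw [sum_comm, mul_sum]
  refine (sum_le_sum h1).trans ?_
  rw [sum_add_distrib, ← sum_filter]
  linarith

theorem SV_fac {p : ℕ} (h : 5 ≤ p) : 1 ≤ (1 - 2 / (p : ℝ))⁻¹ := by
  have h5 : (5 : ℝ) ≤ p := by exact_mod_cast h
  have h1 : 0 < 2 / (p : ℝ) := by positivity
  have h2 : 2 / (p : ℝ) < 1 := by rw [div_lt_one (by linarith)]; linarith
  exact (one_le_inv₀ (by linarith)).2 (by linarith)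

theorem SV_one_le (M : ℕ) : 1 ≤ sgm M :=
  one_le_prod fun _ hp => SV_fac (mem_filter.1 hp).2

theorem SV_VP (w : ℝ) {M : ℕ} (hM : 0 < M) : VP (PL w) (SV_g M) ≤ 9 * sgm M * Vz w ^ 2 := by
  set T := M.primeFactors.filter (5 ≤ ·) with hT
  have h1 : ∀ p ∈ PL w, 1 - SV_g M p ≤ (1 - 1 / (p : ℝ)) ^ 2 * ((if p = 2 then 4 else 1) *
      (if p = 3 then 9 / 4 else 1) * if p ∈ T then (1 - 2 / (p : ℝ))⁻¹ else 1) := by
    intro p hp
    have hp' := prime_of_mem_PL hp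
    have hm : p ∈ T ↔ 5 ≤ p ∧ p ∣ M := by
      rw [hT, mem_filter, Nat.mem_primeFactors]
      exact ⟨fun h => ⟨h.2, h.1.2.1⟩, fun h => ⟨⟨hp', h.2, hM.ne'⟩, h.1⟩⟩
    by_cases h5 : 5 ≤ p
    · have h5' : (5 : ℝ) ≤ p := by exact_mod_cast h5
      have h2 : 1 - 2 / (p : ℝ) ≤ (1 - 1 / (p : ℝ)) ^ 2 := by
        have : 2 / (p : ℝ) = 2 * (1 / p) := by ring
        nlinarith [sq_nonneg (1 / (p : ℝ))]
      have h3 : 0 < 1 - 2 / (p : ℝ) := by
        rw [sub_pos, div_lt_one (by linarith)]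
        linarith
      rw [if_neg (by omega), if_neg (by omega), SV_g]
      by_cases hd : p ∣ M
      · rw [if_neg (by simp [hd]), if_pos (hm.2 ⟨h5, hd⟩), one_mul, one_mul, ← div_eq_mul_inv,
          le_div_iff₀ h3]
        linarith
      · rw [if_pos ⟨h5, hd⟩, if_neg fun h => hd (hm.1 h).2]
        linarith
    · have h2 := hp'.two_le
      have h4 : p ≠ 4 := by rintro rfl; norm_num at hp'
      rw [SV_g, if_neg fun h => h5 h.1, if_neg fun h => h5 (hm.1 h).1]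
      obtain rfl | rfl : p = 2 ∨ p = 3 := by omega
      · norm_num
      · norm_num
  have h2 : ∏ p ∈ PL w, (if p = 2 then (4 : ℝ) else 1) ≤ 4 := by
    rw [prod_ite_eq']
    split_ifs <;> norm_num
  have h3 : ∏ p ∈ PL w, (if p = 3 then (9 / 4 : ℝ) else 1) ≤ 9 / 4 := by
    rw [prod_ite_eq']
    split_ifs <;> norm_num
  have h4 : ∏ p ∈ PL w, (if p ∈ T then (1 - 2 / (p : ℝ))⁻¹ else 1) ≤ sgm M := by
    rw [prod_ite_mem]
    exact prod_le_prod_of_subset_of_one_le inter_subset_right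
      (fun p hp => zero_le_one.trans (SV_fac (mem_filter.1 (mem_inter.1 hp).2).2))
      fun p hp _ => SV_fac (mem_filter.1 hp).2
  have h5 : 0 ≤ ∏ p ∈ PL w, (if p = 3 then (9 / 4 : ℝ) else 1) :=
    prod_nonneg fun p _ => by split_ifs <;> norm_num
  have h6 : 0 ≤ ∏ p ∈ PL w, (if p ∈ T then (1 - 2 / (p : ℝ))⁻¹ else 1) :=
    prod_nonneg fun p _ => by
      split_ifs with h
      exacts [zero_le_one.trans (SV_fac (mem_filter.1 h).2), zero_le_one]
  refine (prod_le_prod (fun p _ => by linarith [(SV_g_bd M p).2.1]) h1).trans ?_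
  rw [prod_mul_distrib, prod_mul_distrib, prod_mul_distrib, prod_pow, mul_comm]
  refine mul_le_mul_of_nonneg_right ?_ (sq_nonneg _)
  calc _ ≤ 4 * (9 / 4) * sgm M :=
        mul_le_mul (mul_le_mul h2 h3 h5 (by norm_num)) h4 h6 (by norm_num)
    _ = _ := by ring

theorem t_SV (hFL : S_FL) : S_SV := by
  obtain ⟨s, C, hs, -, hFL⟩ := hFL 1 one_pos
  obtain ⟨C1, hC1, hH⟩ := t_HR
  have hs' : (1 : ℝ) ≤ s := by exact_mod_cast hs
  refine ⟨36 * (10 * s * C1) ^ 2 + 1, by positivity, ?_⟩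
  filter_upwards [ev_const 2 (b := 1 / (10 * s)) (by positivity),
    ev_pow 2 2 (show (1 / 5 : ℝ) < 1 by norm_num), eventually_gt_atTop 1] with H h1 h2 h3 x M S hx hM hS
  have h0 : 0 < H := by linarith
  set w := H ^ (1 / (10 * s) : ℝ) with hw
  obtain ⟨lam, Del, hl, -, hx01, hg⟩ := hFL w h1
  have hL : 0 < Real.log H := Real.log_pos h3
  have hws : w ^ s = H ^ (1 / 10 : ℝ) := by
    rw [hw, ← Real.rpow_natCast, ← Real.rpow_mul h0.le]
    congr 1
    field_simp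
  have hw10 : w ≤ H ^ (1 / 10 : ℝ) := by
    rw [← hws]
    exact le_self_pow₀ (by linarith) (by omega)
  have hsub : S ⊆ Ico (⌊x⌋₊ + 1) (⌊x⌋₊ + 1 + (⌊H⌋₊ + 1)) := fun n hn => by
    obtain ⟨h4, h5, -⟩ := hS n hn
    have h6 := Nat.lt_floor_add_one x
    have h7 := Nat.lt_floor_add_one H
    refine mem_Ico.2 ⟨(Nat.floor_lt hx).2 h4, ?_⟩
    have : (n : ℝ) < (⌊x⌋₊ + 1 + (⌊H⌋₊ + 1) : ℕ) := by push_cast; linarith
    exact_mod_cast this
  have hV : ∀ n, 0 ≤ VP (PL w) fun p => SV_x M p n := fun n =>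
    VP_nonneg fun p _ => (SV_x01 M n p).2
  have h4 : (S.card : ℝ) ≤ ∑ a ∈ range (⌊H⌋₊ + 1),
      ev (PL w) lam (fun p => SV_x M p (⌊x⌋₊ + 1 + a)) := by
    calc (S.card : ℝ) = ∑ n ∈ S, VP (PL w) fun p => SV_x M p n := by
          rw [card_eq_sum_ones, Nat.cast_sum]
          refine sum_congr rfl fun n hn => ?_
          rw [Nat.cast_one]
          refine (prod_eq_one fun p hp => ?_).symm
          obtain ⟨h5, h6⟩ := (mem_PL (by linarith)).1 hp
          have h7 := (hS n hn).2.2 p h6 (h5.trans hw10)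
          simp only [SV_x]
          rw [if_neg fun h => h.2.elim h7.1 h7.2, sub_zero]
      _ ≤ ∑ n ∈ Ico (⌊x⌋₊ + 1) (⌊x⌋₊ + 1 + (⌊H⌋₊ + 1)), VP (PL w) fun p => SV_x M p n :=
          sum_le_sum_of_subset_of_nonneg hsub fun n _ _ => hV n
      _ ≤ ∑ n ∈ Ico (⌊x⌋₊ + 1) (⌊x⌋₊ + 1 + (⌊H⌋₊ + 1)), ev (PL w) lam fun p => SV_x M p n :=
          sum_le_sum fun n _ => (hx01 _ (SV_x01 M n)).1
      _ = _ := by rw [sum_Ico_eq_sum_range, Nat.add_sub_cancel_left]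
  have h5 := SV_sum M (⌊x⌋₊ + 1) (⌊H⌋₊ + 1) (fun p hp => prime_of_mem_PL hp) (by positivity) hl
  have h6 : (w ^ s) ^ 2 = H ^ (1 / 5 : ℝ) := by
    rw [hws, ← Real.rpow_natCast, ← Real.rpow_mul h0.le]
    norm_num
  have h7 : ev (PL w) lam (SV_g M) ≤ 2 * VP (PL w) (SV_g M) := by
    have h8 := (hg (SV_g M) fun p _ => SV_g_bd M p).1
    have h9 := (hx01 (SV_g M) fun p => ⟨(SV_g_bd M p).1, by linarith [(SV_g_bd M p).2.1]⟩).2.1
    linarith
  have h8 := SV_VP w hM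
  obtain ⟨h9, h10, -⟩ := hH w w h1 le_rfl
  have h11 : C1 / Real.log w = 10 * s * C1 / Real.log H := by
    rw [hw, Real.log_rpow h0]
    field_simp
  rw [h11] at h10
  have h12 : Vz w ^ 2 ≤ (10 * s * C1) ^ 2 / Real.log H ^ 2 := by
    rw [← div_pow]
    exact pow_le_pow_left₀ h9 h10 2
  have h13 := SV_one_le M
  have h14 : ((⌊H⌋₊ + 1 : ℕ) : ℝ) ≤ 2 * H := by
    have := Nat.floor_le h0.le
    push_cast
    linarith
  have h15 : ev (PL w) lam (SV_g M) ≤ 18 * sgm M * ((10 * s * C1) ^ 2 / Real.log H ^ 2) := by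
    have := mul_le_mul_of_nonneg_left h12 (show 0 ≤ 9 * sgm M by linarith)
    linarith
  have h16 : ((⌊H⌋₊ + 1 : ℕ) : ℝ) * ev (PL w) lam (SV_g M) ≤
      2 * H * (18 * sgm M * ((10 * s * C1) ^ 2 / Real.log H ^ 2)) :=
    (mul_le_mul_of_nonneg_left h15 (Nat.cast_nonneg _)).trans
      (mul_le_mul_of_nonneg_right h14 (by positivity))
  have h17 : 2 * H ^ (1 / 5 : ℝ) ≤ sgm M * H / Real.log H ^ 2 := by
    rw [le_div_iff₀ (by positivity)]
    rw [Real.rpow_one] at h2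
    nlinarith
  rw [h6] at h5
  calc (S.card : ℝ) ≤ 2 * H * (18 * sgm M * ((10 * s * C1) ^ 2 / Real.log H ^ 2)) +
        sgm M * H / Real.log H ^ 2 := by linarith
    _ = _ := by ring

end

end Pool.Agent.P.MP_e94e4b_nt.PF
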