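import Pool.Agent.P.MP_e94e4b_nt.PF.Basic

/-! The fundamental lemma of the sieve from the blocks and their tensor products. -/

namespace Pool.Agent.P.MP_e94e4b_nt.PF

open Finset Real Filter Topology
open Pool.Agent.P.MP_8be758_nt.Avg (PL mem_PL)

theorem fl_mono {P : Finset ℕ} {Q Q' a a' C : ℝ} {lam Del : Finset ℕ → ℝ}
    (h : Pack P Q a C lam Del) (hQ : Q ≤ Q') (ha : a ≤ a') (hC : 0 ≤ C) :
    Pack P Q' a' C lam Del :=
  ⟨h.1, fun E hE h0 => (h.2.1 E hE h0).trans hQ, h.2.2.1, fun g hg f hf =>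
    (h.2.2.2 g hg f hf).trans (mul_le_mul_of_nonneg_right
      (mul_le_mul_of_nonneg_right ha (pow_nonneg hC _))
      (VP_nonneg fun p hp => (hg p hp).2.1.trans (by norm_num)))⟩

theorem fl_empty (C : ℝ) : Pack ∅ 1 1 C (fun _ => 1) (fun _ => 0) := by
  refine ⟨by simp, fun E hE _ => ?_, by simp [ev, VP], fun g _ f hf => ?_⟩
  · simp [subset_empty.1 hE, pr]
  · simp [subset_empty.1 hf, tw_empty, ev, VP]

theorem fl_eta {L : ℝ} (hL : 0 < L) (k : ℕ) :
    1 + 2 * Real.exp (4 * L) * (2 * L) ^ (2 * k + 1) / (2 * k + 1).factorial ≤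
      Real.exp (2 * Real.exp (4 * L) ^ 2 * (1 / 2) ^ (k + 1)) := by
  refine le_trans ?_ (Real.add_one_le_exp _)
  have h1 := Real.pow_div_factorial_le_exp (4 * L) (by positivity) (2 * k + 1)
  have h2 : (1 / 2 : ℝ) ^ (2 * k + 1) ≤ (1 / 2) ^ (k + 1) :=
    pow_le_pow_of_le_one (by norm_num) (by norm_num) (by omega)
  rw [add_comm, add_le_add_iff_right]
  calc _ = 2 * Real.exp (4 * L) * ((4 * L) ^ (2 * k + 1) / (2 * k + 1).factorial *
        (1 / 2) ^ (2 * k + 1)) := by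
        rw [show 2 * L = 4 * L * (1 / 2) by ring, mul_pow (4 * L)]
        ring
    _ ≤ 2 * Real.exp (4 * L) * (Real.exp (4 * L) * (1 / 2) ^ (k + 1)) := by gcongr
    _ = _ := by ring

theorem fl_ind (hTEN : S_TEN) (hBLK : S_BLK) {L : ℝ} (hL : 0 < L) (h : ∀ u : ℝ, 1 ≤ u →
    ∑ p ∈ (PL (u ^ 2)).filter (fun p : ℕ => u < (p : ℝ)), 1 / (p : ℝ) ≤ L) (J : ℕ) :
    ∀ (k : ℕ) (w : ℝ), 1 ≤ w → w < 2 ^ 2 ^ J → ∃ lam Del, Pack (PL w) (w ^ (4 * k + 6))
      (Real.exp (2 * Real.exp (4 * L) ^ 2 * (1 / 2) ^ k)) (Real.exp (6 * L)) lam Del := by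
  induction J with
  | zero =>
    intro k w h1 h2
    have e : PL w = ∅ := eq_empty_of_forall_notMem fun p hp => by
      obtain ⟨a2, a1⟩ := (mem_PL (by linarith)).1 hp
      have a3 : (2 : ℝ) ≤ p := by exact_mod_cast a1.two_le
      norm_num at h2
      linarith
    exact ⟨_, _, e ▸ fl_mono (fl_empty _) (one_le_pow₀ h1) (Real.one_le_exp (by positivity))
      (Real.exp_pos _).le⟩
  | succ J ih =>
    intro k w h1 h2
    obtain ⟨u, hu, rfl⟩ : ∃ u : ℝ, 1 ≤ u ∧ w = u ^ 2 :=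
      ⟨√w, Real.one_le_sqrt.2 h1, (Real.sq_sqrt (by linarith)).symm⟩
    obtain ⟨l1, D1, p1⟩ := ih (k + 1) u hu
      (lt_of_pow_lt_pow_left₀ 2 (by positivity) (by rwa [← pow_mul, ← pow_succ]))
    obtain ⟨l2, D2, p2⟩ := hBLK _ L (u ^ 2) (2 * k) (even_two_mul k) h1
      (fun p hp => ((mem_PL (sq_nonneg u)).1 (mem_filter.1 hp).1).1) (h u hu)
    have e : PL (u ^ 2) = PL u ∪ (PL (u ^ 2)).filter fun p : ℕ => u < (p : ℝ) := by
      ext p
      simp only [mem_union, mem_filter, mem_PL (sq_nonneg u), mem_PL (zero_le_one.trans hu)]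
      exact ⟨fun a => (le_or_gt (p : ℝ) u).imp (fun b => ⟨b, a.2⟩) fun b => ⟨a, b⟩,
        fun a => a.elim (fun b => ⟨by nlinarith [b.1], b.2⟩) fun b => b.1⟩
    have p3 := hTEN _ _ _ _ _ _ _ _ _ _ _ (disjoint_left.2 fun p a b =>
      (mem_filter.1 b).2.not_ge ((mem_PL (by linarith)).1 a).1) p1 p2
    rw [← e] at p3
    refine ⟨_, _, fl_mono p3 (le_of_eq (by ring)) ?_ (Real.exp_pos _).le⟩
    refine (mul_le_mul_of_nonneg_left (fl_eta hL k) (Real.exp_pos _).le).trans (le_of_eq ?_)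
    rw [← Real.exp_add]
    congr 1
    ring

theorem t_FL (hMR1 : S_MR1) (hTEN : S_TEN) (hBLK : S_BLK) : S_FL := by
  obtain ⟨L, hL, h⟩ := hMR1.2
  intro η hη
  obtain ⟨k, hk⟩ := exists_pow_lt_of_lt_one (show 0 < Real.log (1 + η) / (2 * Real.exp (4 * L) ^ 2)
    from div_pos (Real.log_pos (by linarith)) (by positivity)) (show (1 / 2 : ℝ) < 1 by norm_num)
  rw [lt_div_iff₀' (by positivity), Real.lt_log_iff_exp_lt (by linarith)] at hk
  refine ⟨4 * k + 6, max (Real.exp (6 * L)) (1 + η), by omega,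
    le_max_of_le_right (by linarith), fun w hw => ?_⟩
  obtain ⟨J, hJ⟩ := pow_unbounded_of_one_lt w (show (1 : ℝ) < 2 by norm_num)
  obtain ⟨lam, Del, p⟩ := fl_ind hTEN hBLK hL h J k w (by linarith)
    (hJ.trans (pow_lt_pow_right₀ (by norm_num) Nat.lt_two_pow_self))
  obtain ⟨p1, p2, p3, p4⟩ := fl_mono p le_rfl hk.le (Real.exp_pos _).le
  refine ⟨lam, Del, ⟨fun E => by linarith [p1 E, abs_nonneg (Del E)],
    fun E hE h0 => p2 E hE (Or.inl h0)⟩, ⟨fun E => by linarith [p1 E, abs_nonneg (lam E)],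
    fun E hE h0 => p2 E hE (Or.inr h0)⟩, p3, fun g hg => ?_⟩
  have hV : 0 ≤ VP (PL w) g := VP_nonneg fun p hp => (hg p hp).2.1.trans (by norm_num)
  have key : ∀ f ⊆ PL w, |tw (PL w) lam g f| + |tw (PL w) Del g f| ≤
      VP (PL w) g * max (Real.exp (6 * L)) (1 + η) ^ (f.card + 1) := fun f hf => by
    refine (p4 g hg f hf).trans ?_
    rw [mul_comm, pow_succ']
    gcongr
    exacts [le_max_right _ _, le_max_left _ _]
  refine ⟨?_, fun f hf => le_trans (le_add_of_nonneg_right (abs_nonneg _)) (key f hf),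
    fun f hf => le_trans (le_add_of_nonneg_left (abs_nonneg _)) (key f hf)⟩
  have a1 := p4 g hg ∅ (empty_subset _)
  have a2 := (p3 (fun p => if p ∈ PL w then g p else 0) fun p => by
    dsimp only
    split_ifs with hp
    · exact ⟨(hg p hp).1, (hg p hp).2.1.trans (by norm_num)⟩
    · norm_num).1
  rw [show VP (PL w) (fun p => if p ∈ PL w then g p else 0) = VP (PL w) g from
      prod_congr rfl fun p hp => by simp only [if_pos hp],
    show ev (PL w) lam (fun p => if p ∈ PL w then g p else 0) = ev (PL w) lam g from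
      sum_congr rfl fun E hE => congrArg _ (prod_congr rfl fun p hp =>
        if_pos (mem_powerset.1 hE hp))] at a2
  rw [tw_empty, tw_empty, card_empty, pow_zero] at a1
  linarith [le_abs_self (ev (PL w) lam g), le_abs_self (ev (PL w) Del g)]

end Pool.Agent.P.MP_e94e4b_nt.PF
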