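import Pool.Agent.P.MP_e94e4b_nt.PF.Basic

/-! The multiplicative large sieve for primitive characters. -/

namespace Pool.Agent.P.MP_e94e4b_nt.PF

open Finset Real Filter Topology
open Pool.Agent.P.MP_8be758_nt.Avg (gs Rough PL red ft en nsq ls_main ls_sep nsq_nonneg en_nonneg)
open ArithmeticFunction (cardFactors)

theorem MLS_gauss {f : ℕ} [NeZero f] {ψ : DirichletCharacter ℂ f} (h : ψ.IsPrimitive) :
    ‖gaussSum ψ ZMod.stdAddChar‖ ^ 2 = f := by
  have e : gaussSum ψ ZMod.stdAddChar * star (gaussSum ψ ZMod.stdAddChar) = f := by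
    rw [star_gaussSum_eq]
    nth_rewrite 2 [gaussSum]
    rw [mul_sum]
    have e1 : ∀ j : ZMod f, gaussSum ψ ZMod.stdAddChar * (ψ⁻¹ j * ZMod.stdAddChar⁻¹ j) =
        ∑ r : ZMod f, ψ r * ZMod.stdAddChar (j * (r - 1)) := fun j => by
      rw [← mul_assoc, mul_comm _ (ψ⁻¹ j), ← gaussSum_mulShift_of_isPrimitive _ h, gaussSum,
        sum_mul]
      refine sum_congr rfl fun r _ => ?_
      rw [AddChar.mulShift_apply, AddChar.inv_apply, mul_assoc, ← AddChar.map_add_eq_mul]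
      congr 2
      ring
    rw [sum_congr rfl fun j _ => e1 j, sum_comm]
    simp only [← mul_sum, AddChar.sum_mulShift _ (ZMod.isPrimitive_stdAddChar f), sub_eq_zero]
    rw [sum_eq_single 1 (fun b _ hb => by simp [hb]) (by simp)]
    simp
  rw [Complex.star_def, Complex.mul_conj'] at e
  exact_mod_cast e

theorem MLS_orth {f : ℕ} [NeZero f] (r s : ZMod f) :
    ∑ χ : DirichletCharacter ℂ f, (starRingEnd ℂ) (χ s) * χ r =
      if IsUnit s ∧ s = r then (f.totient : ℂ) else 0 := by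
  by_cases hs : IsUnit s
  · have e : ∀ χ : DirichletCharacter ℂ f, (starRingEnd ℂ) (χ s) = χ s⁻¹ := fun χ => by
      obtain ⟨u, rfl⟩ := hs
      rw [← Complex.star_def, MulChar.star_apply', MulChar.inv_apply, Ring.inverse_unit,
        ZMod.inv_coe_unit]
    simp only [e, DirichletCharacter.sum_char_inv_mul_char_eq ℂ hs, hs, true_and]
  · simp [hs, MulChar.map_nonunit _ hs]

open Classical in
theorem MLS_pars {f : ℕ} [NeZero f] (T : ZMod f → ℂ) :
    ∑ χ : DirichletCharacter ℂ f, ‖∑ r, χ r * T r‖ ^ 2 =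
      f.totient * ∑ r ∈ univ.filter IsUnit, ‖T r‖ ^ 2 := by
  apply Complex.ofReal_injective
  push_cast
  have e : ∀ χ : DirichletCharacter ℂ f, ((‖∑ r, χ r * T r‖ : ℝ) : ℂ) ^ 2 =
      ∑ s, ∑ r, (starRingEnd ℂ) (χ s) * χ r * ((starRingEnd ℂ) (T s) * T r) := fun χ => by
    rw [← Complex.conj_mul', map_sum, sum_mul_sum]
    exact sum_congr rfl fun s _ => sum_congr rfl fun r _ => by rw [map_mul]; ring
  rw [sum_congr rfl fun χ _ => e χ, sum_comm, sum_filter, mul_sum]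
  refine sum_congr rfl fun s _ => ?_
  rw [sum_comm]
  simp only [← sum_mul, MLS_orth]
  rw [sum_eq_single s (fun b _ hb => by simp [hb.symm]) (by simp), Complex.conj_mul']
  by_cases hs : IsUnit s <;> simp [hs]

theorem MLS_std {f : ℕ} [NeZero f] (n r : ℕ) :
    ZMod.stdAddChar ((n : ZMod f) * (r : ZMod f)) = MP_e86632_nt.ee (n * ((r : ℝ) / f)) := by
  have := ZMod.stdAddChar_coe (N := f) (n * r : ℤ)
  push_cast at this
  rw [this, MP_e86632_nt.ee]
  congr 1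
  push_cast
  ring

theorem MLS_one (f : ℕ) (hf : 1 ≤ f) (I : Finset ℕ) (a : ℕ → ℂ) :
    ∑ ψ ∈ prim f, ‖∑ n ∈ I, a n * ψ (n : ZMod f)‖ ^ 2 ≤
      en I (fun n => (starRingEnd ℂ) (a n)) f := by
  classical
  haveI : NeZero f := ⟨by omega⟩
  have hf' : (0 : ℝ) < f := by exact_mod_cast hf
  set T : ZMod f → ℂ := fun r => ∑ n ∈ I, (starRingEnd ℂ) (a n) *
    ZMod.stdAddChar ((n : ZMod f) * r) with hT
  have e1 : ∀ ψ ∈ prim f, (f : ℝ) * ‖∑ n ∈ I, a n * ψ (n : ZMod f)‖ ^ 2 =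
      ‖∑ r, ψ r * T r‖ ^ 2 := fun ψ hψ => by
    have hp : ψ.IsPrimitive := (mem_filter.1 hψ).2
    rw [← MLS_gauss hp, ← mul_pow, ← Complex.norm_conj (∑ n ∈ I, _), ← norm_mul, map_sum, mul_sum]
    simp only [hT, mul_sum]
    rw [sum_comm]
    congr 2
    refine sum_congr rfl fun n _ => ?_
    rw [map_mul, show (starRingEnd ℂ) (ψ n) = ψ⁻¹ n from MulChar.star_apply' ψ _, mul_left_comm,
      mul_comm _ (ψ⁻¹ _), ← gaussSum_mulShift_of_isPrimitive _ hp, gaussSum, mul_sum]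
    refine sum_congr rfl fun r _ => ?_
    rw [AddChar.mulShift_apply]
    ring
  have e2 : ∑ r ∈ univ.filter IsUnit, ‖T r‖ ^ 2 = en I (fun n => (starRingEnd ℂ) (a n)) f := by
    symm
    refine sum_nbij' (fun r => (r : ZMod f)) ZMod.val (fun r hr => ?_) (fun r hr => ?_)
      (fun r hr => ?_) (fun r _ => ?_) (fun r _ => ?_)
    · simpa [ZMod.isUnit_iff_coprime] using (mem_filter.1 hr).2
    · refine mem_filter.2 ⟨mem_range.2 (ZMod.val_lt r), ?_⟩
      rw [← ZMod.isUnit_iff_coprime, ZMod.natCast_zmod_val]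
      simpa using hr
    · exact ZMod.val_cast_of_lt (mem_range.1 (mem_filter.1 hr).1)
    · exact ZMod.natCast_zmod_val r
    · simp only [hT, ft, MLS_std]
  refine le_of_mul_le_mul_left ?_ hf'
  rw [mul_sum, sum_congr rfl e1]
  refine (sum_le_sum_of_subset_of_nonneg (subset_univ _) fun _ _ _ => by positivity).trans ?_
  rw [MLS_pars, e2]
  exact mul_le_mul_of_nonneg_right (by exact_mod_cast Nat.totient_le f) (en_nonneg _ _ _)

theorem MLS_far (F : ℕ) (H : ℝ) (I : Finset ℕ) (γ : ℕ → ℂ) (hF : 1 ≤ F) (hH : 0 ≤ H)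
    (hI : ∀ a ∈ I, (a : ℝ) ≤ H) :
    ∑ q ∈ Icc 1 F, en I γ q ≤ 3 * (H + (F : ℝ) ^ 2) * nsq I γ := by
  have hF' : (1 : ℝ) ≤ F := by exact_mod_cast hF
  have key := ls_main (Σ _ : ℕ, ℕ) ((Icc 1 F).sigma red) (fun x => (x.2 : ℝ) / x.1)
    (1 / (F : ℝ) ^ 2) H I γ (by positivity)
    (by rw [div_le_one (by positivity)]; nlinarith) hH hI (by
      rintro ⟨q, r⟩ hx ⟨q', r'⟩ hy hne k
      obtain ⟨h1, h2⟩ := mem_sigma.1 hx
      obtain ⟨h3, h4⟩ := mem_sigma.1 hy
      refine le_trans ?_ (ls_sep h2 h4 (by rintro ⟨rfl, rfl⟩; exact hne rfl) k)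
      obtain ⟨a1, a2⟩ := mem_Icc.1 h1
      obtain ⟨a3, a4⟩ := mem_Icc.1 h3
      have b1 : (0 : ℝ) < q := by exact_mod_cast (show 0 < q by dsimp only at a1; omega)
      have b2 : (0 : ℝ) < q' := by exact_mod_cast (show 0 < q' by dsimp only at a3; omega)
      have b3 : (q : ℝ) ≤ F := by exact_mod_cast a2
      have b4 : (q' : ℝ) ≤ F := by exact_mod_cast a4
      exact one_div_le_one_div_of_le (mul_pos b1 b2) (by nlinarith))
  rwa [sum_sigma, one_div_one_div] at key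

theorem MLS_shift (I : Finset ℕ) (γ : ℕ → ℂ) (m : ℕ) (h : ∀ n ∈ I, m ≤ n) :
    (∀ q, en I γ q = en (I.image (· - m)) (fun n => γ (n + m)) q) ∧
      nsq I γ = nsq (I.image (· - m)) fun n => γ (n + m) := by
  have inj : ∀ a ∈ I, ∀ b ∈ I, a - m = b - m → a = b := fun a ha b hb e => by
    have := h a ha
    have := h b hb
    omega
  refine ⟨fun q => sum_congr rfl fun r _ => ?_, ?_⟩
  · rw [ft, ft, sum_image inj, ← mul_one ‖∑ x ∈ I, γ (x - m + m) * _‖,
      ← MP_e86632_nt.norm_ee (m * ((r : ℝ) / q)), ← norm_mul, sum_mul]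
    congr 2
    refine sum_congr rfl fun n hn => ?_
    rw [Nat.sub_add_cancel (h n hn), mul_assoc, ← MP_e86632_nt.ee_add, Nat.cast_sub (h n hn)]
    congr 2
    ring
  · rw [nsq, nsq, sum_image inj]
    exact sum_congr rfl fun n hn => by rw [Nat.sub_add_cancel (h n hn)]

theorem t_MLS : S_MLS := by
  refine ⟨6, by norm_num, fun F L x I a hF hL hI => ?_⟩
  have hm : ∀ n ∈ I, ⌈x - L⌉₊ ≤ n := fun n hn =>
    Nat.ceil_le.2 (by linarith [(abs_le.1 (hI n hn)).1])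
  obtain ⟨h1, h2⟩ := MLS_shift I (fun n => (starRingEnd ℂ) (a n)) _ hm
  have key := MLS_far F (2 * L) (I.image (· - ⌈x - L⌉₊))
    (fun n => (starRingEnd ℂ) (a (n + ⌈x - L⌉₊))) hF (by linarith) (fun b hb => by
      obtain ⟨n, hn, rfl⟩ := mem_image.1 hb
      rw [Nat.cast_sub (hm n hn)]
      linarith [(abs_le.1 (hI n hn)).2, Nat.le_ceil (x - L)])
  have h3 : nsq I (fun n => (starRingEnd ℂ) (a n)) = nsq I a := by simp [nsq]
  rw [← h2, h3, ← sum_congr rfl fun q _ => h1 q] at key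
  refine ((sum_le_sum fun f hf => MLS_one f (mem_Icc.1 hf).1 I a).trans key).trans ?_
  exact mul_le_mul_of_nonneg_right (by nlinarith [sq_nonneg (F : ℝ)]) (nsq_nonneg I a)

end Pool.Agent.P.MP_e94e4b_nt.PF
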