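import Pool.Agent.P.MP_e94e4b_nt.PF.Basic
import Pool.Agent.P.MP_8b7eba_nt.Dens.MertAPA

/-! The second theorem of Mertens in short form. -/

namespace Pool.Agent.P.MP_e94e4b_nt.PF

open Finset Real Filter Topology
open Pool.Agent.P.MP_e86632_nt (abel_anti)
open Pool.Agent.P.MP_8be758_nt.Avg (PL mem_PL)
open Pool.Agent.P.MP_8b7eba_nt.Dens (PS mertens_prime)

/-- one step of the iterated logarithm -/
theorem MR1_step {x y : ℝ} (hx : 0 < x) (hxy : x ≤ y) :
    0 ≤ Real.log y - Real.log x - (y - x) / y ∧ Real.log y - Real.log x ≤ (y - x) / x := by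
  have hy : 0 < y := hx.trans_le hxy
  rw [← Real.log_div hy.ne' hx.ne']
  have h1 := Real.one_sub_inv_le_log_of_pos (div_pos hy hx)
  have h2 := Real.log_le_sub_one_of_pos (div_pos hy hx)
  have h3 : 1 - (y / x)⁻¹ = (y - x) / y := by field_simp
  have h4 : y / x - 1 = (y - x) / x := by field_simp
  constructor <;> linarith

theorem MR1_tele {a : ℕ} (ha : 2 ≤ a) {b : ℕ} (hb : a ≤ b) :
    0 ≤ Real.log (Real.log b) - Real.log (Real.log a) -
      ∑ n ∈ Ioc a b, (Real.log n - Real.log (n - 1 : ℕ)) * (1 / Real.log n) ∧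
    Real.log (Real.log b) - Real.log (Real.log a) -
      ∑ n ∈ Ioc a b, (Real.log n - Real.log (n - 1 : ℕ)) * (1 / Real.log n) ≤
      1 / Real.log a - 1 / Real.log b := by
  induction b, hb using Nat.le_induction with
  | base => simp
  | succ b hb ih =>
    have hb' : (2 : ℝ) ≤ b := by exact_mod_cast ha.trans hb
    have hx : 0 < Real.log b := Real.log_pos (by linarith)
    have hxy : Real.log b ≤ Real.log (b + 1 : ℕ) :=
      Real.log_le_log (by linarith) (by push_cast; linarith)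
    have hd : Real.log (b + 1 : ℕ) - Real.log b ≤ 1 := by
      have := (MR1_step (x := b) (y := (b + 1 : ℕ)) (by linarith) (by push_cast; linarith)).2
      refine this.trans ?_
      rw [div_le_one (by linarith)]
      push_cast
      linarith
    obtain ⟨h1, h2⟩ := MR1_step hx hxy
    rw [sum_Ioc_succ_top hb, Nat.add_sub_cancel]
    generalize Real.log (b + 1 : ℕ) = y at *
    generalize Real.log b = x at *
    have hy : 0 < y := hx.trans_le hxy
    have h3 : (y - x) * (1 / y) = (y - x) / y := by ring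
    have h4 : (y - x) / x - (y - x) / y = (y - x) * (1 / x - 1 / y) := by ring
    have h5 : 0 ≤ 1 / x - 1 / y := sub_nonneg.2 (one_div_le_one_div_of_le hx hxy)
    have h6 : (y - x) * (1 / x - 1 / y) ≤ 1 / x - 1 / y := mul_le_of_le_one_left h5 hd
    constructor <;> linarith [ih.1, ih.2]

theorem MR1_nat : ∃ C : ℝ, 0 ≤ C ∧ ∀ a b : ℕ, 2 ≤ a → a ≤ b →
    |∑ p ∈ (Ioc a b).filter Nat.Prime, 1 / (p : ℝ) -
      (Real.log (Real.log b) - Real.log (Real.log a))| ≤ C / Real.log a := by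
  obtain ⟨K, hK, h⟩ := mertens_prime
  refine ⟨2 * K + 1, by positivity, fun a b ha hab => ?_⟩
  have ha' : (2 : ℝ) ≤ a := by exact_mod_cast ha
  have hla : 0 < Real.log a := Real.log_pos (by linarith)
  let c : ℕ → ℝ := fun n => (if n.Prime then Real.log n / n else 0) -
    (Real.log n - Real.log (n - 1 : ℕ))
  have hc : ∀ n, a ≤ n → ∑ i ∈ Ioc a n, c i =
      (PS (fun _ => 1) n - Real.log n) - (PS (fun _ => 1) a - Real.log a) := by
    intro n hn
    induction n, hn using Nat.le_induction with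
    | base => simp
    | succ n hn ih =>
      rw [sum_Ioc_succ_top hn, ih]
      simp only [PS, sum_filter, sum_Ioc_succ_top (Nat.zero_le n), c, Nat.add_sub_cancel, one_mul]
      ring
  have h1 := abel_anti c (fun n => 1 / Real.log n) a b (2 * K) (by positivity)
    (fun n _ => by
      rcases le_or_gt a n with hn | hn
      · rw [hc n hn]
        have h2 := abs_le.1 (h n (by omega))
        have h3 := abs_le.1 (h a (by omega))
        exact abs_le.2 ⟨by linarith, by linarith⟩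
      · rw [Ioc_eq_empty (by omega), sum_empty, abs_zero]
        positivity)
    (fun i => one_div_nonneg.2 (Real.log_natCast_nonneg i))
    (fun i hi => by
      have : (2 : ℝ) ≤ i := by exact_mod_cast (by omega : 2 ≤ i)
      exact one_div_le_one_div_of_le (Real.log_pos (by linarith))
        (Real.log_le_log (by linarith) (by push_cast; linarith)))
  have h2 : ∑ i ∈ Ioc a b, c i * (1 / Real.log i) =
      ∑ p ∈ (Ioc a b).filter Nat.Prime, 1 / (p : ℝ) -
        ∑ n ∈ Ioc a b, (Real.log n - Real.log (n - 1 : ℕ)) * (1 / Real.log n) := by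
    rw [sum_filter, ← sum_sub_distrib]
    refine sum_congr rfl fun i hi => ?_
    have : (2 : ℝ) ≤ i := by exact_mod_cast (by have := (mem_Ioc.1 hi).1; omega : 2 ≤ i)
    have : Real.log i ≠ 0 := (Real.log_pos (by linarith)).ne'
    simp only [c]
    split_ifs
    · field_simp
    · ring
  have h3 : 1 / Real.log (a + 1 : ℕ) ≤ 1 / Real.log a :=
    one_div_le_one_div_of_le hla (Real.log_le_log (by linarith) (by push_cast; linarith))
  have h4 := mul_le_mul_of_nonneg_left h3 (show 0 ≤ 2 * K by positivity)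
  obtain ⟨h5, h6⟩ := MR1_tele ha hab
  have h7 : 0 ≤ 1 / Real.log b := one_div_nonneg.2 (Real.log_natCast_nonneg b)
  have h8 : 0 ≤ 1 / Real.log a := by positivity
  rw [h2] at h1
  have h9 := abs_le.1 h1
  have h10 : (2 * K + 1) / Real.log a = 2 * K * (1 / Real.log a) + 1 / Real.log a := by ring
  rw [h10]
  exact abs_le.2 ⟨by linarith, by linarith⟩

theorem MR1_ceil {y : ℝ} (hy : 3 ≤ y) : 2 ≤ ⌈y⌉₊ - 1 ∧ y - 1 ≤ (⌈y⌉₊ - 1 : ℕ) ∧
    0 ≤ Real.log (Real.log y) - Real.log (Real.log (⌈y⌉₊ - 1 : ℕ)) ∧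
    Real.log (Real.log y) - Real.log (Real.log (⌈y⌉₊ - 1 : ℕ)) ≤ 1 / Real.log (⌈y⌉₊ - 1 : ℕ) := by
  have h1 : 3 ≤ ⌈y⌉₊ := by
    have := Nat.ceil_mono hy
    simpa using this
  have h2 : ((⌈y⌉₊ - 1 : ℕ) : ℝ) = ⌈y⌉₊ - 1 := by
    rw [Nat.cast_sub (by omega), Nat.cast_one]
  have h3 := Nat.le_ceil y
  have h4 := Nat.ceil_lt_add_one (show 0 ≤ y by linarith)
  refine ⟨by omega, by linarith, ?_⟩
  generalize ((⌈y⌉₊ - 1 : ℕ) : ℝ) = m at *
  have hm : 0 < Real.log m := Real.log_pos (by linarith)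
  have h5 : Real.log m ≤ Real.log y := Real.log_le_log (by linarith) (by linarith)
  have h6 := (MR1_step (x := m) (y := y) (by linarith) (by linarith)).2
  have h7 : (y - m) / m ≤ 1 := by
    rw [div_le_one (by linarith)]
    linarith
  refine ⟨sub_nonneg.2 (Real.log_le_log hm h5), (MR1_step hm h5).2.trans ?_⟩
  exact div_le_div_of_nonneg_right (h6.trans h7) hm.le

theorem MR1_one (δ : ℝ) (hδ : 0 < δ) : ∀ᶠ w : ℝ in atTop, ∀ y1 y2 : ℝ, w ≤ y1 → y1 ≤ y2 →
    |∑ p ∈ (PL y2).filter (fun p : ℕ => y1 ≤ (p : ℝ) ∧ (p : ℝ) < y2), 1 / (p : ℝ) -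
      Real.log (Real.log y2 / Real.log y1)| ≤ δ := by
  obtain ⟨C, hC, h⟩ := MR1_nat
  filter_upwards [eventually_ge_atTop 3, eventually_ge_atTop (Real.exp ((C + 1) / δ) + 1)]
    with w hw1 hw2 y1 y2 h1 h2
  obtain ⟨a1, a2, a3, a4⟩ := MR1_ceil (hw1.trans h1)
  obtain ⟨b1, b2, b3, b4⟩ := MR1_ceil ((hw1.trans h1).trans h2)
  have hab : ⌈y1⌉₊ - 1 ≤ ⌈y2⌉₊ - 1 := Nat.sub_le_sub_right (Nat.ceil_mono h2) 1
  have e : (PL y2).filter (fun p : ℕ => y1 ≤ (p : ℝ) ∧ (p : ℝ) < y2) =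
      (Ioc (⌈y1⌉₊ - 1) (⌈y2⌉₊ - 1)).filter Nat.Prime := by
    ext p
    rw [mem_filter, mem_filter, mem_PL (by linarith), mem_Ioc, ← Nat.ceil_le, ← Nat.lt_ceil]
    constructor
    · rintro ⟨⟨-, h3⟩, h4, h5⟩
      exact ⟨⟨by omega, by omega⟩, h3⟩
    · rintro ⟨⟨h3, h4⟩, h5⟩
      have h6 : p < ⌈y2⌉₊ := by omega
      exact ⟨⟨(Nat.lt_ceil.1 h6).le, h5⟩, by omega, h6⟩
  have h3 := abs_le.1 (h _ _ a1 hab)
  rw [e, Real.log_div (Real.log_pos (by linarith)).ne' (Real.log_pos (by linarith)).ne']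
  have hab' : ((⌈y1⌉₊ - 1 : ℕ) : ℝ) ≤ (⌈y2⌉₊ - 1 : ℕ) := by exact_mod_cast hab
  generalize ((⌈y1⌉₊ - 1 : ℕ) : ℝ) = a at *
  generalize ((⌈y2⌉₊ - 1 : ℕ) : ℝ) = b at *
  have hla : 0 < Real.log a := Real.log_pos (by linarith)
  have h4 : 1 / Real.log b ≤ 1 / Real.log a :=
    one_div_le_one_div_of_le hla (Real.log_le_log (by linarith) hab')
  have h5 : (C + 1) / δ ≤ Real.log a := by
    rw [Real.le_log_iff_exp_le (by linarith)]
    linarith
  have h6 : C / Real.log a + 1 / Real.log a ≤ δ := by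
    rw [← add_div, div_le_iff₀ hla]
    rw [div_le_iff₀ hδ] at h5
    linarith
  exact abs_le.2 ⟨by linarith, by linarith⟩

theorem t_MR1 : S_MR1 := by
  refine ⟨MR1_one, ?_⟩
  obtain ⟨w, hw⟩ := eventually_atTop.1 (MR1_one 1 one_pos)
  obtain ⟨W, hW⟩ := exists_nat_ge (max w 2)
  have hW1 : w ≤ W := (le_max_left _ _).trans hW
  have hW2 : (2 : ℝ) ≤ W := (le_max_right _ _).trans hW
  refine ⟨W ^ 2 + 3, by positivity, fun u hu => ?_⟩
  have hu2 : 0 ≤ u ^ 2 := sq_nonneg u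
  rcases le_total u W with h | h
  · have h1 : (PL (u ^ 2)).filter (fun p : ℕ => u < (p : ℝ)) ⊆ Ioc 0 (W ^ 2) := by
      intro p hp
      obtain ⟨h2, h3⟩ := (mem_PL hu2).1 (mem_filter.1 hp).1
      refine mem_Ioc.2 ⟨h3.pos, ?_⟩
      have : (p : ℝ) ≤ (W : ℝ) ^ 2 := h2.trans (pow_le_pow_left₀ (by linarith) h 2)
      exact_mod_cast this
    have h2 : ∑ p ∈ (PL (u ^ 2)).filter (fun p : ℕ => u < (p : ℝ)), 1 / (p : ℝ) ≤
        ∑ p ∈ Ioc 0 (W ^ 2), (1 : ℝ) := by
      refine (sum_le_sum_of_subset_of_nonneg h1 fun _ _ _ => by positivity).trans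
        (sum_le_sum fun p hp => ?_)
      have : (1 : ℝ) ≤ p := by exact_mod_cast (mem_Ioc.1 hp).1
      exact (div_le_one (by linarith)).2 this
    simp only [sum_const, Nat.card_Ioc, Nat.sub_zero, nsmul_eq_mul, mul_one, Nat.cast_pow] at h2
    linarith
  · have h1 := (abs_le.1 (hw w le_rfl u (u ^ 2 + 1) (hW1.trans h) (by nlinarith))).2
    have h2 : (PL (u ^ 2)).filter (fun p : ℕ => u < (p : ℝ)) ⊆
        (PL (u ^ 2 + 1)).filter (fun p : ℕ => u ≤ (p : ℝ) ∧ (p : ℝ) < u ^ 2 + 1) := by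
      intro p hp
      obtain ⟨h2, h3⟩ := (mem_PL hu2).1 (mem_filter.1 hp).1
      exact mem_filter.2 ⟨(mem_PL (by linarith)).2 ⟨by linarith, h3⟩, (mem_filter.1 hp).2.le,
        by linarith⟩
    have h3 := sum_le_sum_of_subset_of_nonneg h2 (f := fun p : ℕ => 1 / (p : ℝ))
      fun _ _ _ => by positivity
    have hl : 0 < Real.log u := Real.log_pos (by linarith)
    have h4 : Real.log (u ^ 2 + 1) ≤ 3 * Real.log u := by
      have := Real.log_le_log (by linarith) (show u ^ 2 + 1 ≤ u ^ 3 by nlinarith)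
      rwa [Real.log_pow] at this
    have h5 := Real.log_le_sub_one_of_pos
      (div_pos (Real.log_pos (show 1 < u ^ 2 + 1 by nlinarith)) hl)
    have h6 : Real.log (u ^ 2 + 1) / Real.log u ≤ 3 := (div_le_iff₀ hl).2 h4
    have h7 : (0 : ℝ) ≤ (W : ℝ) ^ 2 := sq_nonneg _
    linarith

end Pool.Agent.P.MP_e94e4b_nt.PF
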