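import Pool.Agent.P.MP_e94e4b_nt.PF.Basic
import Pool.Agent.P.MP_8be758_nt.Avg.PNTM

/-! Primes in residue classes in an interval. -/

namespace Pool.Agent.P.MP_e94e4b_nt.PF

open Finset Real Filter Topology
open Pool.Agent.P.MP_8be758_nt.Avg (red ev_pow ev_const ev_log pntm_ap pntm_Ioc)
open ArithmeticFunction (vonMangoldt)
open ArithmeticFunction.vonMangoldt (residueClass)

theorem PNT_theta (f : ℕ) (η : ℝ) (hf : 1 ≤ f) (hη : 0 < η) : ∀ᶠ u : ℝ in atTop, ∀ (v : ℝ) (r : ℕ),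
    u ≤ v → v ≤ 8 * u → r.Coprime f →
    |∑ p ∈ (Ioc ⌊u⌋₊ ⌊v⌋₊).filter (fun p => p.Prime ∧ p ≡ r [MOD f]), Real.log p -
      (v - u) / f.totient| ≤ η * u := by
  obtain ⟨n0, hn0⟩ := eventually_atTop.1 (pntm_ap f hf (η := η / 27) (by positivity))
  obtain ⟨C, hC⟩ := Chebyshev.psi_sub_theta_le_mul_sqrt
  filter_upwards [eventually_ge_atTop (1 : ℝ), eventually_ge_atTop (n0 : ℝ),
    eventually_ge_atTop (3 / η), ev_pow (9 * |C| / η) 0 (show (1 / 2 : ℝ) < 1 by norm_num)]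
    with u hu1 hun hu2 hu3 v r huv hv hr
  rw [Real.rpow_one, pow_zero, mul_one, ← Real.sqrt_eq_rpow, div_mul_eq_mul_div,
    div_le_iff₀ hη] at hu3
  rw [div_le_iff₀ hη] at hu2
  have hφ : (1 : ℝ) ≤ f.totient := by exact_mod_cast Nat.totient_pos.2 hf
  have hs : r % f ∈ red f := mem_filter.2 ⟨mem_range.2 (Nat.mod_lt _ hf), by
    rw [Nat.Coprime, ← Nat.gcd_rec, Nat.gcd_comm]; exact hr⟩
  have hab : ⌊u⌋₊ ≤ ⌊v⌋₊ := Nat.floor_le_floor huv
  have ha : n0 ≤ ⌊u⌋₊ := Nat.le_floor hun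
  have a1 := abs_le.1 (hn0 _ ha _ hs)
  have a2 := abs_le.1 (hn0 _ (ha.trans hab) _ hs)
  have e1 := pntm_Ioc (residueClass ((r % f : ℕ) : ZMod f)) hab
  have b1 : (⌊u⌋₊ : ℝ) ≤ u := Nat.floor_le (by linarith)
  have b2 : (⌊v⌋₊ : ℝ) ≤ v := Nat.floor_le (by linarith)
  have b3 : u < ⌊u⌋₊ + 1 := Nat.lt_floor_add_one u
  have b4 : v < ⌊v⌋₊ + 1 := Nat.lt_floor_add_one v
  have key : ∀ m : ℕ, (if m.Prime ∧ m ≡ r [MOD f] then Real.log m else 0) ≤
      residueClass ((r % f : ℕ) : ZMod f) m ∧ residueClass ((r % f : ℕ) : ZMod f) m ≤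
      (if m.Prime ∧ m ≡ r [MOD f] then Real.log m else 0) +
        if ¬m.Prime then vonMangoldt m else 0 := by
    intro m
    have h0 : 0 ≤ vonMangoldt m := ArithmeticFunction.vonMangoldt_nonneg
    have h1 : residueClass ((r % f : ℕ) : ZMod f) m =
        if m ≡ r [MOD f] then vonMangoldt m else 0 := by
      rw [residueClass, Set.indicator_apply]
      simp only [Set.mem_ofPred_eq, ZMod.natCast_mod, ZMod.natCast_eq_natCast_iff]
    rw [h1]
    by_cases hp : m.Prime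
    · rw [ArithmeticFunction.vonMangoldt_apply_prime hp]
      simp [hp]
    · simp only [hp, false_and, if_false, not_false_eq_true, if_true, zero_add]
      split_ifs <;> constructor <;> linarith
  have c1 := sum_le_sum fun m (_ : m ∈ Ioc ⌊u⌋₊ ⌊v⌋₊) => (key m).1
  have c2 := sum_le_sum fun m (_ : m ∈ Ioc ⌊u⌋₊ ⌊v⌋₊) => (key m).2
  rw [sum_add_distrib] at c2
  have c3 : ∑ m ∈ Ioc ⌊u⌋₊ ⌊v⌋₊, (if ¬m.Prime then vonMangoldt m else 0) ≤ 3 * |C| * √u := by
    have d1 := hC v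
    rw [Chebyshev.psi_sub_theta_eq_sum_not_prime] at d1
    rw [← sum_filter]
    refine le_trans (sum_le_sum_of_subset_of_nonneg
      (filter_subset_filter _ (Ioc_subset_Ioc_left (Nat.zero_le _)))
      fun _ _ _ => ArithmeticFunction.vonMangoldt_nonneg) (d1.trans ?_)
    have d2 : √v ≤ 3 * √u := Real.sqrt_le_iff.2 ⟨by positivity, by
      rw [mul_pow, Real.sq_sqrt (by linarith)]; linarith⟩
    calc C * √v ≤ |C| * √v := mul_le_mul_of_nonneg_right (le_abs_self C) (Real.sqrt_nonneg v)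
      _ ≤ |C| * (3 * √u) := mul_le_mul_of_nonneg_left d2 (abs_nonneg C)
      _ = _ := by ring
  have c4 : |((⌊v⌋₊ : ℝ) - ⌊u⌋₊) / f.totient - (v - u) / f.totient| ≤ 1 := by
    rw [← sub_div, abs_div, abs_of_pos (by linarith : (0 : ℝ) < f.totient), div_le_one (by linarith),
      abs_le]
    constructor <;> linarith
  rw [sub_div] at c4
  have c5 := abs_le.1 c4
  have c6 : η / 27 * ⌊u⌋₊ ≤ η / 27 * u := by gcongr
  have c7 : η / 27 * ⌊v⌋₊ ≤ η / 27 * (8 * u) := by gcongr; linarith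
  rw [sum_filter, abs_le]
  constructor <;> linarith [a1.1, a1.2, a2.1, a2.2, c5.1, c5.2]

theorem t_PNT : S_PNT := by
  intro f ε hf hε
  filter_upwards [PNT_theta f (min (ε / 2) 1) hf (by positivity), eventually_gt_atTop (1 : ℝ),
    ev_log (48 / ε)] with u hu hu1 hl v r huv hv hr
  have h1 := abs_le.1 (hu v r huv hv hr)
  have hL : 0 < Real.log u := Real.log_pos hu1
  have hφ : (1 : ℝ) ≤ f.totient := by exact_mod_cast Nat.totient_pos.2 hf
  set S := (Ioc ⌊u⌋₊ ⌊v⌋₊).filter fun p => p.Prime ∧ p ≡ r [MOD f] with hS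
  have hmem : ∀ p ∈ S, u < p ∧ (p : ℝ) ≤ v := fun p hp => by
    have := mem_Ioc.1 (mem_filter.1 hp).1
    exact ⟨(Nat.floor_lt (by linarith)).1 this.1, (Nat.le_floor_iff (by linarith)).1 this.2⟩
  have h2 : (S.card : ℝ) * Real.log u ≤ ∑ p ∈ S, Real.log p := by
    rw [← nsmul_eq_mul, ← sum_const]
    exact sum_le_sum fun p hp => Real.log_le_log (by linarith) (hmem p hp).1.le
  have h8 : Real.log 8 ≤ 3 := by
    rw [show (8 : ℝ) = 2 ^ 3 by norm_num, Real.log_pow]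
    have := Real.log_two_lt_d9
    push_cast
    linarith
  have h3 : ∑ p ∈ S, Real.log p ≤ (S.card : ℝ) * (Real.log u + 3) := by
    rw [← nsmul_eq_mul, ← sum_const]
    refine sum_le_sum fun p hp => ?_
    have := Real.log_le_log (by linarith [(hmem p hp).1]) ((hmem p hp).2.trans hv)
    rw [Real.log_mul (by norm_num) (by linarith)] at this
    linarith
  have m1 : min (ε / 2) 1 * u ≤ ε / 2 * u := by gcongr; exact min_le_left _ _
  have m2 : min (ε / 2) 1 * u ≤ 1 * u := by gcongr; exact min_le_right _ _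
  have h4 : (v - u) / f.totient ≤ 7 * u := (div_le_self (by linarith) hφ).trans (by linarith)
  have h5 : (S.card : ℝ) * Real.log u ≤ 8 * u := by linarith [h1.2]
  have h6 : 3 * (S.card : ℝ) ≤ ε / 2 * u := by
    rw [div_le_iff₀ hε] at hl
    have h0 : (0 : ℝ) ≤ S.card := Nat.cast_nonneg _
    have a1 : (S.card : ℝ) * 48 ≤ S.card * (Real.log u * ε) := by gcongr
    have a2 : (S.card : ℝ) * Real.log u * ε ≤ 8 * u * ε := by gcongr
    nlinarith
  have e : (S.card : ℝ) - (v - u) / (f.totient * Real.log u) =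
      (S.card * Real.log u - (v - u) / f.totient) / Real.log u := by
    field_simp
  rw [e, abs_div, abs_of_pos hL]
  refine div_le_div_of_nonneg_right ?_ hL.le
  rw [abs_le]
  have : 0 < ε * u := by positivity
  constructor <;> linarith [h1.1, h1.2]

theorem PNT_gam (y : ℝ) (S : Finset ℕ) (f r : ℕ) :
    ∑ n ∈ S.filter (· ≡ r [MOD f]), gam1 y n =
      (∑ p ∈ S.filter (fun p => p.Prime ∧ p ≡ r [MOD f]), Real.log p) / Real.log (3 * y ^ 2) := by
  rw [sum_div, sum_filter, sum_filter]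
  refine sum_congr rfl fun n _ => ?_
  unfold gam1
  by_cases h1 : n.Prime <;> by_cases h2 : n ≡ r [MOD f] <;> simp [h1, h2]

theorem t_EQ1 (_hPNT : S_PNT) : S_EQ1 := by
  intro R ε hε
  have h0 : ∀ᶠ u : ℝ in atTop, ∀ f ∈ Icc 1 (R + 1), ∀ (v : ℝ) (r : ℕ),
      u ≤ v → v ≤ 8 * u → r.Coprime f →
      |∑ p ∈ (Ioc ⌊u⌋₊ ⌊v⌋₊).filter (fun p => p.Prime ∧ p ≡ r [MOD f]), Real.log p -
        (v - u) / f.totient| ≤ ε / 6 * u :=
    (eventually_all_finset _).2 fun f hf => PNT_theta f (ε / 6) (mem_Icc.1 hf).1 (by positivity)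
  obtain ⟨u0, hu0⟩ := eventually_atTop.1 h0
  filter_upwards [eventually_ge_atTop (2 : ℝ), eventually_ge_atTop u0, ev_log (3 / ε)]
    with y hy hyu hl X1 X2 h1 h12 h2
  have hl0 : 0 < Real.log y := Real.log_pos (by linarith)
  have h12' : (X1 : ℝ) ≤ X2 := by exact_mod_cast h12
  have hX : u0 ≤ X1 := by nlinarith
  have key : ∀ f ∈ Icc 1 (R + 1), ∀ r : ℕ, r.Coprime f →
      |∑ p ∈ (Ioc X1 X2).filter (fun p => p.Prime ∧ p ≡ r [MOD f]), Real.log p -
        ((X2 : ℝ) - X1) / f.totient| ≤ ε / 2 * y ^ 2 := by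
    intro f hf r hr
    have := hu0 X1 hX f hf X2 r h12' (by nlinarith) hr
    rw [Nat.floor_natCast, Nat.floor_natCast] at this
    refine this.trans ?_
    have a1 : ε / 6 * X1 ≤ ε / 6 * (3 * y ^ 2) := by gcongr; linarith
    linarith
  have h3 : Real.log 3 ≤ 2 := by
    have := Real.log_le_sub_one_of_pos (show (0 : ℝ) < 3 by norm_num)
    linarith
  have h3' : 0 < Real.log 3 := Real.log_pos (by norm_num)
  have hL : Real.log (3 * y ^ 2) = Real.log 3 + 2 * Real.log y := by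
    rw [Real.log_mul (by norm_num) (by positivity), Real.log_pow]
    norm_num
  set l := Real.log y with hldef
  set L := Real.log (3 * y ^ 2) with hLdef
  have hL0 : 0 < L := by linarith
  have hE : ε / 2 * y ^ 2 / L ≤ ε / 4 * y ^ 2 / l := by
    rw [div_le_div_iff₀ hL0 hl0]
    have : 0 < ε * y ^ 2 := by positivity
    nlinarith
  have hpos : 0 < ε * y ^ 2 / l := by positivity
  have e4 : ε / 4 * y ^ 2 / l = ε * y ^ 2 / l / 4 := by ring
  constructor
  · have a1 := abs_le.1 (key 1 (by simp) 0 (by simp))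
    have a2 := PNT_gam y (Ioc X1 X2) 1 0
    rw [filter_true_of_mem fun n _ => Nat.modEq_one] at a2
    rw [a2]
    rw [Nat.totient_one, Nat.cast_one, div_one] at a1
    have a3 : ((X2 : ℝ) - X1 - ε / 2 * y ^ 2) / L ≤
        (∑ p ∈ (Ioc X1 X2).filter (fun p => p.Prime ∧ p ≡ 0 [MOD 1]), Real.log p) / L :=
      div_le_div_of_nonneg_right (by linarith [a1.1]) hL0.le
    refine le_trans ?_ a3
    have a4 : ((X2 : ℝ) - X1) / (2 * l) - ((X2 : ℝ) - X1) / L ≤ ε * y ^ 2 / l / 2 := by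
      have e : ((X2 : ℝ) - X1) / (2 * l) - ((X2 : ℝ) - X1) / L =
          ((X2 : ℝ) - X1) * Real.log 3 / L / l / 2 := by
        have : Real.log 3 = L - 2 * l := by linarith
        rw [this]
        field_simp
      rw [e]
      gcongr
      rw [div_le_iff₀ hL0]
      rw [div_le_iff₀ hε] at hl
      have b0 : (0 : ℝ) ≤ X1 := Nat.cast_nonneg _
      have b1 : ((X2 : ℝ) - X1) * Real.log 3 ≤ 3 * y ^ 2 * 2 :=
        mul_le_mul (by linarith) h3 h3'.le (by positivity)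
      have b2 : y ^ 2 * 6 ≤ y ^ 2 * (ε * L) := by
        gcongr
        nlinarith
      nlinarith
    rw [sub_div _ _ L]
    linarith
  · intro f r r' hf hfR hr hr'
    have hm : f ∈ Icc 1 (R + 1) := mem_Icc.2 ⟨hf, by omega⟩
    have a1 := abs_le.1 (key f hm r hr)
    have a2 := abs_le.1 (key f hm r' hr')
    rw [PNT_gam, PNT_gam, ← sub_div, abs_div, abs_of_pos hL0]
    have a3 : |∑ p ∈ (Ioc X1 X2).filter (fun p => p.Prime ∧ p ≡ r [MOD f]), Real.log p -
        ∑ p ∈ (Ioc X1 X2).filter (fun p => p.Prime ∧ p ≡ r' [MOD f]), Real.log p| ≤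
        2 * (ε / 2 * y ^ 2) := by
      rw [abs_le]
      constructor <;> linarith [a1.1, a1.2, a2.1, a2.2]
    refine (div_le_div_of_nonneg_right a3 hL0.le).trans ?_
    rw [mul_div_assoc]
    linarith

end Pool.Agent.P.MP_e94e4b_nt.PF
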