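import Pool.Agent.P.MP_e94e4b_nt.PF.Basic

/-! Counting the roots of the quadratic congruence. -/

namespace Pool.Agent.P.MP_e94e4b_nt.PF

open Finset Real Filter Topology
open Pool.Agent.P.MP_e86632_nt (ee)
open Pool.Agent.P.MP_8be758_nt.Avg (gs Rough PL red ft en nsq gs_pos gs_le_one prime_of_mem_PL
  ev_pow ev_const ev_log)
open ArithmeticFunction (cardFactors)

theorem RT_mN {a b q : ℕ} (h : a ≡ b [MOD q]) : mN a ≡ mN b [MOD q] :=
  (((h.pow 2).add h).add_right 1).mul_left 2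

theorem RT_mul (q1 q2 n : ℕ) (h : q1.Coprime q2) : rh (q1 * q2) n = rh q1 n * rh q2 n := by
  rcases Nat.eq_zero_or_pos q1 with rfl | h1
  · simp [rh, rts]
  rcases Nat.eq_zero_or_pos q2 with rfl | h2
  · simp [rh, rts]
  rw [rh, rh, rh, ← card_product]
  refine card_bij (fun ν _ => (ν % q1, ν % q2)) (fun ν hν => ?_) (fun a ha b hb e => ?_)
    fun x hx => ?_
  · obtain ⟨-, h3⟩ := mem_rts.1 hν
    obtain ⟨h4, h5⟩ := (Nat.modEq_and_modEq_iff_modEq_mul h).2 h3
    exact mem_product.2 ⟨mem_rts.2 ⟨Nat.mod_lt _ h1, (RT_mN (Nat.mod_modEq _ _)).trans h4⟩,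
      mem_rts.2 ⟨Nat.mod_lt _ h2, (RT_mN (Nat.mod_modEq _ _)).trans h5⟩⟩
  · rw [Prod.mk.injEq] at e
    exact Nat.ModEq.eq_of_lt_of_lt ((Nat.modEq_and_modEq_iff_modEq_mul h).1 e)
      (mem_rts.1 ha).1 (mem_rts.1 hb).1
  · obtain ⟨h3, h4⟩ := mem_product.1 hx
    obtain ⟨h5, h6⟩ := mem_rts.1 h3
    obtain ⟨h7, h8⟩ := mem_rts.1 h4
    have c := (Nat.chineseRemainder h x.1 x.2).2
    refine ⟨Nat.chineseRemainder h x.1 x.2, mem_rts.2
      ⟨Nat.chineseRemainder_lt_mul h _ _ h1.ne' h2.ne', (Nat.modEq_and_modEq_iff_modEq_mul h).1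
        ⟨(RT_mN c.1).trans h6, (RT_mN c.2).trans h8⟩⟩, ?_⟩
    exact Prod.ext (Eq.trans c.1 (Nat.mod_eq_of_lt h5)) (Eq.trans c.2 (Nat.mod_eq_of_lt h7))

theorem RT_one (n : ℕ) : rh 1 n = 1 := by simp [rh, rts]

theorem RT_pr (E : Finset ℕ) (n : ℕ) (h : ∀ p ∈ E, p.Prime) : rh (pr E) n = ∏ p ∈ E, rh p n := by
  induction E using Finset.induction_on with
  | empty => simp [pr, RT_one]
  | insert p E hp ih =>
    have h1 : p.Coprime (pr E) := Nat.Coprime.prod_right fun q hq =>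
      (Nat.coprime_primes (h p (mem_insert_self _ _)) (h q (mem_insert_of_mem hq))).2
        fun e => hp (e ▸ hq)
    rw [pr, prod_insert hp, prod_insert hp, ← ih fun q hq => h q (mem_insert_of_mem hq)]
    exact RT_mul _ _ _ h1

theorem RT_two {p : ℕ} (hp : p.Prime) (n : ℕ) : rh p n ≤ 2 := by
  rcases hp.eq_two_or_odd' with rfl | h2
  · exact rh_le _ _
  have hp' : Prime (p : ℤ) := Nat.prime_iff_prime_int.1 hp
  have key : ∀ a ∈ rts p n, ∀ b ∈ rts p n, a ≠ b → (p : ℤ) ∣ a + b + 1 := fun a ha b hb hab => by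
    obtain ⟨h3, h4⟩ := mem_filter.1 ha
    obtain ⟨h5, h6⟩ := mem_filter.1 hb
    have h7 := dvd_sub h4 h6
    rw [show 2 * MM a - n - (2 * MM b - n) = 2 * ((a - b) * (a + b + 1)) by
      simp only [MM]; ring] at h7
    rcases hp'.dvd_or_dvd h7 with h8 | h8
    · have := (Nat.prime_dvd_prime_iff_eq hp Nat.prime_two).1 (by exact_mod_cast h8)
      exact absurd h2 (by rw [this]; decide)
    · refine (hp'.dvd_or_dvd h8).resolve_left fun h9 => hab ?_
      exact Nat.ModEq.eq_of_lt_of_lt (Nat.modEq_iff_dvd.2 (dvd_sub_comm.1 h9)) (mem_range.1 h3)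
        (mem_range.1 h5)
  by_contra h
  obtain ⟨a, ha, b, hb, c, hc, h3, h4, h5⟩ := two_lt_card.1 (not_le.1 h)
  have h6 := dvd_sub (key a ha c hc h4) (key a ha b hb h3)
  rw [show (a : ℤ) + c + 1 - (a + b + 1) = c - b by ring] at h6
  exact h5 (Nat.ModEq.eq_of_lt_of_lt (Nat.modEq_iff_dvd.2 h6) (mem_rts.1 hb).1 (mem_rts.1 hc).1)

theorem RT_tau (q n : ℕ) (h : Squarefree q) : rh q n ≤ q.divisors.card := by
  conv_lhs => rw [← pr_primeFactors h]
  rw [RT_pr _ _ fun p hp => Nat.prime_of_mem_primeFactors hp, Nat.card_divisors h.ne_zero]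
  refine prod_le_prod' fun p hp => (RT_two (Nat.prime_of_mem_primeFactors hp) n).trans ?_
  have := (Nat.prime_of_mem_primeFactors hp).factorization_pos_of_dvd h.ne_zero
    (Nat.dvd_of_mem_primeFactors hp)
  omega

theorem RT_congr (q n n' : ℕ) (h : n ≡ n' [MOD q]) : rh q n = rh q n' := by
  rw [rh, rh]
  congr 1
  ext ν
  rw [mem_rts, mem_rts]
  exact and_congr_right fun _ => ⟨fun h1 => h1.trans h, fun h1 => h1.trans h.symm⟩

theorem RT_gg (p : ℕ) (hp : p.Prime) :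
    0 ≤ gg p ∧ gg p ≤ 1 / 2 ∧ gg p ≤ 2 / p ∧ |gg p - 1 / p| ≤ 2 / (p : ℝ) ^ 2 := by
  rcases hp.two_le.eq_or_lt with rfl | h
  · have : rh 2 0 = 2 := by decide
    norm_num [gg, this]
  have h3 : (3 : ℝ) ≤ p := by exact_mod_cast h
  have h0 : (0 : ℝ) ≤ rh p 0 := Nat.cast_nonneg _
  have h2 : (rh p 0 : ℝ) ≤ 2 := by exact_mod_cast RT_two hp 0
  have h4 : (0 : ℝ) < p * (p - 1) := mul_pos (by linarith) (by linarith)
  have h5 : gg p - 1 / p = (1 - rh p 0) / (p * (p - 1)) := by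
    have : (p : ℝ) - 1 ≠ 0 := by linarith
    rw [gg]
    field_simp
    ring
  refine ⟨div_nonneg (by linarith) h4.le, ?_, ?_, ?_⟩
  · rw [gg, div_le_div_iff₀ h4 two_pos]
    nlinarith
  · rw [gg, div_le_div_iff₀ h4 (by linarith)]
    nlinarith
  · have h6 : |1 - (rh p 0 : ℝ)| ≤ 1 := abs_le.2 ⟨by linarith, by linarith⟩
    rw [h5, abs_div, abs_of_pos h4, div_le_div_iff₀ h4 (by positivity)]
    nlinarith

theorem RT_xi (p n : ℕ) (hp : p.Prime) : |xi p n| ≤ 2 := by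
  unfold xi
  split_ifs
  · norm_num
  obtain ⟨h1, -, h2, -⟩ := RT_gg p hp
  have h0 : (0 : ℝ) < p := by exact_mod_cast hp.pos
  rw [le_div_iff₀ h0] at h2
  have h3 : (0 : ℝ) ≤ rh p n := Nat.cast_nonneg _
  have h4 : (rh p n : ℝ) ≤ 2 := by exact_mod_cast RT_two hp n
  have h5 := mul_nonneg h0.le h1
  exact abs_le.2 ⟨by linarith, by linarith⟩

theorem RT_sum {q : ℕ} (hq : 0 < q) : ∑ n ∈ range q, rh q n = q := by
  have h := card_eq_sum_card_fiberwise (s := range q) (t := range q) (f := fun ν => mN ν % q)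
    fun ν _ => mem_coe.2 (mem_range.2 (Nat.mod_lt _ hq))
  rw [card_range] at h
  refine (sum_congr rfl fun n hn => ?_).trans h.symm
  rw [rh]
  congr 1
  ext ν
  rw [mem_rts, mem_filter, mem_range, Nat.ModEq, Nat.mod_eq_of_lt (mem_range.1 hn)]

theorem RT_sum_xi (p : ℕ) (hp : p.Prime) : ∑ n ∈ range p, xi p n = 0 := by
  have h1 : ∑ n ∈ range p, ((rh p n : ℝ) - p * gg p) = p - p * (p * gg p) := by
    rw [sum_sub_distrib, ← Nat.cast_sum, RT_sum hp.pos]
    simp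
  have h2 : ∀ n ∈ range p, xi p n =
      (rh p n - p * gg p) - if n = 0 then (rh p 0 - p * gg p) else 0 := fun n hn => by
    by_cases h : n = 0
    · simp [xi, h]
    · rw [xi, if_neg h, if_neg fun h' => h (Nat.eq_zero_of_dvd_of_lt h' (mem_range.1 hn)), sub_zero]
  rw [sum_congr rfl h2, sum_sub_distrib, h1, sum_ite_eq', if_pos (mem_range.2 hp.pos), gg]
  have h3 : (2 : ℝ) ≤ p := by exact_mod_cast hp.two_le
  have h4 : (p : ℝ) - 1 ≠ 0 := by linarith
  field_simp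
  ring

theorem RT_count (f k n : ℕ) :
    ((range (f * k)).filter fun ν => mN ν ≡ n [MOD f]).card = k * rh f n := by
  have e : rh f n = Nat.count (fun ν => mN ν ≡ n [MOD f]) f := by
    rw [rh, Nat.count_eq_card_filter_range]
    congr 1
    ext ν
    rw [mem_rts, mem_filter, mem_range]
  rw [← Nat.count_eq_card_filter_range, e]
  induction k with
  | zero => simp
  | succ k ih =>
    rw [mul_add, mul_one, Nat.count_add, ih, add_mul, one_mul]
    rw [Nat.count_eq_card_filter_range _ f, Nat.count_eq_card_filter_range _ f]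
    congr 2
    refine filter_congr fun ν _ => ?_
    have h : mN (f * k + ν) ≡ mN ν [MOD f] := RT_mN (by simp [Nat.ModEq])
    exact ⟨fun h1 => h.symm.trans h1, fun h1 => h.trans h1⟩

theorem RT_pairs (q f : ℕ) (hq : Squarefree q) (hf : f ∣ q) :
    ((range q ×ˢ range q).filter fun x => mN x.1 ≡ mN x.2 [MOD f]).card * f ≤
      q ^ 2 * f.divisors.card := by
  have hs := hq.squarefree_of_dvd hf
  obtain ⟨k, rfl⟩ := hf
  have h1 : ((range (f * k) ×ˢ range (f * k)).filter fun x => mN x.1 ≡ mN x.2 [MOD f]).card ≤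
      f * k * (k * f.divisors.card) := by
    rw [card_filter, sum_product_right]
    refine (sum_le_card_nsmul _ _ (k * f.divisors.card) fun b _ => ?_).trans (by simp)
    rw [← card_filter]
    exact (RT_count f k (mN b)).trans_le (Nat.mul_le_mul_left _ (RT_tau _ _ hs))
  exact (Nat.mul_le_mul_right f h1).trans_eq (by ring)

theorem t_RT : S_RT :=
  ⟨RT_mul, RT_pr, RT_tau, RT_congr, RT_gg, RT_xi, RT_sum_xi, RT_pairs⟩

end Pool.Agent.P.MP_e94e4b_nt.PF
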