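import Pool.Agent.P.MP_e94e4b_nt.PF.Basic

/-! The second moment of the singular series and the final step. -/

namespace Pool.Agent.P.MP_e94e4b_nt.PF

open Finset Real Filter Topology
open Pool.Agent.P.MP_8be758_nt.Avg (t_DIV ev_log)
open ArithmeticFunction (cardFactors)

theorem sm_sq {M : ℕ} (hM : 0 < M) : sgm M ^ 2 ≤
    ∑ d ∈ M.divisors.filter Squarefree, (9 : ℝ) ^ d.primeFactors.card / d := by
  set P := M.primeFactors.filter (5 ≤ ·) with hP
  have hp : ∀ p ∈ P, p.Prime := fun p h => Nat.prime_of_mem_primeFactors (mem_filter.1 h).1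
  calc sgm M ^ 2 = ∏ p ∈ P, ((1 - 2 / (p : ℝ))⁻¹) ^ 2 := by rw [sgm, prod_pow]
    _ ≤ ∏ p ∈ P, (1 + 9 / (p : ℝ)) := by
        refine prod_le_prod (fun p _ => sq_nonneg _) fun p h => ?_
        have h5 : (5 : ℝ) ≤ p := by exact_mod_cast (mem_filter.1 h).2
        have h0 : (0 : ℝ) < p := by linarith
        have e : (1 - 2 / (p : ℝ))⁻¹ = p / (p - 2) := by
          rw [one_sub_div h0.ne', inv_div]
        rw [e, div_pow, div_le_iff₀ (by nlinarith), one_add_div h0.ne', div_mul_eq_mul_div,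
          le_div_iff₀ h0]
        nlinarith
    _ = ∑ E ∈ P.powerset, (9 : ℝ) ^ (pr E).primeFactors.card / pr E := by
        rw [prod_one_add]
        refine sum_congr rfl fun E hE => ?_
        rw [primeFactors_pr fun p h => hp p (mem_powerset.1 hE h), prod_div_distrib, prod_const,
          pr_cast]
    _ ≤ _ := by
        refine sum_pr_le (F := fun d => (9 : ℝ) ^ d.primeFactors.card / d)
          (fun E hE p h => hp p (mem_powerset.1 hE h)) (fun E hE => ?_) fun _ _ => by positivity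
        have h1 : ∀ p ∈ E, p.Prime := fun p h => hp p (mem_powerset.1 hE h)
        refine mem_filter.2 ⟨Nat.mem_divisors.2 ⟨?_, hM.ne'⟩, squarefree_pr h1⟩
        exact Finset.prod_primes_dvd _ (fun p h => (h1 p h).prime) fun p h =>
          Nat.dvd_of_mem_primeFactors (mem_filter.1 (mem_powerset.1 hE h)).1

theorem sm_per (p : ℕ → Prop) [DecidablePred p] {d : ℕ} (h : Function.Periodic p d) (k : ℕ) :
    ((range (d * k)).filter p).card = k * ((range d).filter p).card := by
  induction k with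
  | zero => simp
  | succ k ih =>
    rw [range_eq_Ico, mul_add_one, ← Ico_union_Ico_eq_Ico (Nat.zero_le (d * k)) (Nat.le_add_right _ _),
      filter_union, card_union_of_disjoint (disjoint_filter_filter (Ico_disjoint_Ico_consecutive _ _ _)),
      ← range_eq_Ico, ih, Nat.filter_Ico_card_eq_of_periodic _ _ _ h, Nat.count_eq_card_filter_range,
      add_mul, one_mul]

theorem sm_cnt {d : ℕ} (hd : 0 < d) (Y : ℕ) :
    (((Icc 1 Y).filter fun N => d ∣ N ^ 2 + N + 1).card : ℝ) ≤ (Y / d + 1) * rh d 0 := by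
  have h1 : Function.Periodic (fun N => mN N ≡ 0 [MOD d]) d := fun N => by
    have : mN (N + d) ≡ mN N [MOD d] := by
      rw [show mN (N + d) = mN N + d * (2 * (2 * N + d + 1)) by simp only [mN]; ring]
      simp [Nat.ModEq]
    exact propext ⟨fun h => this.symm.trans h, fun h => this.trans h⟩
  have h2 : (range d).filter (fun N => mN N ≡ 0 [MOD d]) = rts d 0 := by
    ext ν; rw [mem_rts, mem_filter, mem_range]
  have h3 : ((Icc 1 Y).filter fun N => d ∣ N ^ 2 + N + 1).card ≤ (Y / d + 1) * rh d 0 := by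
    rw [rh, ← h2, ← sm_per _ h1]
    refine card_le_card fun N hN => ?_
    rw [mem_filter, mem_Icc] at hN
    exact mem_filter.2 ⟨mem_range.2 (hN.1.2.trans_lt (Nat.lt_mul_div_succ Y hd)),
      Nat.modEq_zero_iff_dvd.2 (hN.2.mul_left 2)⟩
  refine le_trans (by exact_mod_cast h3 : _ ≤ (((Y / d : ℕ) : ℝ) + 1) * rh d 0) ?_
  exact mul_le_mul_of_nonneg_right (add_le_add Nat.cast_div_le le_rfl) (Nat.cast_nonneg _)

theorem sm_two {d : ℕ} (hd : d ≠ 0) : 2 ^ d.primeFactors.card ≤ d.divisors.card := by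
  rw [Nat.card_divisors hd]
  refine pow_card_le_prod _ _ _ fun p hp => ?_
  have := (Nat.prime_of_mem_primeFactors hp).factorization_pos_of_dvd hd
    (Nat.dvd_of_mem_primeFactors hp)
  omega

theorem t_SM (hRT : S_RT) : S_SM := by
  obtain ⟨C, hC, hτ⟩ := t_DIV (1 / 10) (by norm_num)
  have hs : Summable fun d : ℕ => 1 / (d : ℝ) ^ (3 / 2 : ℝ) :=
    Real.summable_one_div_nat_rpow.2 (by norm_num)
  set S := ∑' d : ℕ, 1 / (d : ℝ) ^ (3 / 2 : ℝ)
  have hS : 0 ≤ S := tsum_nonneg fun _ => by positivity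
  refine ⟨C ^ 5 * (S + 4), by positivity, fun Y => ?_⟩
  set T := (Ioc 0 (3 * Y ^ 2)).filter Squarefree
  calc ∑ N ∈ Icc 1 Y, sgm (N ^ 2 + N + 1) ^ 2
      ≤ ∑ N ∈ Icc 1 Y, ∑ d ∈ T,
          if d ∣ N ^ 2 + N + 1 then (9 : ℝ) ^ d.primeFactors.card / d else 0 := by
        refine sum_le_sum fun N hN => (sm_sq (by omega)).trans ?_
        rw [← sum_filter]
        refine sum_le_sum_of_subset_of_nonneg (fun d hd => ?_) fun _ _ _ => by positivity
        rw [mem_filter, Nat.mem_divisors] at hd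
        rw [mem_Icc] at hN
        have h1 := Nat.le_of_dvd (by omega) hd.1.1
        refine mem_filter.2 ⟨mem_filter.2 ⟨mem_Ioc.2 ⟨Nat.pos_of_ne_zero hd.2.ne_zero, ?_⟩,
          hd.2⟩, hd.1.1⟩
        nlinarith [hN.1, hN.2]
    _ ≤ ∑ d ∈ T, C ^ 5 * (Y * (1 / (d : ℝ) ^ (3 / 2 : ℝ)) + 1 / √(d : ℝ)) := by
        rw [sum_comm]
        refine sum_le_sum fun d hd => ?_
        rw [mem_filter, mem_Ioc] at hd
        have h0 : (0 : ℝ) < d := by exact_mod_cast hd.1.1
        have h1 : (rh d 0 : ℝ) ≤ d.divisors.card := by exact_mod_cast hRT.2.2.1 d 0 hd.2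
        have h2 : (9 : ℝ) ^ d.primeFactors.card ≤ (d.divisors.card : ℝ) ^ 4 := by
          have h3 : (2 : ℝ) ^ d.primeFactors.card ≤ d.divisors.card := by
            exact_mod_cast sm_two hd.1.1.ne'
          refine le_trans ?_ (pow_le_pow_left₀ (by positivity) h3 4)
          rw [← pow_mul, mul_comm, pow_mul]
          exact pow_le_pow_left₀ (by norm_num) (by norm_num) _
        have h3 : (d.divisors.card : ℝ) ^ 5 ≤ C ^ 5 * √(d : ℝ) := by
          refine (pow_le_pow_left₀ (by positivity) (hτ d) 5).trans_eq ?_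
          rw [mul_pow, ← Real.rpow_natCast (_ ^ _), ← Real.rpow_mul h0.le, Real.sqrt_eq_rpow]
          norm_num
        have h4 : (d : ℝ) ^ (3 / 2 : ℝ) = d * √(d : ℝ) := by
          rw [Real.sqrt_eq_rpow, show (3 / 2 : ℝ) = 1 + 1 / 2 by norm_num, Real.rpow_add h0,
            Real.rpow_one]
        have h5 := Real.mul_self_sqrt h0.le
        have h6 := Real.sqrt_pos.2 h0
        rw [← sum_filter, sum_const, nsmul_eq_mul]
        calc _ ≤ ((Y / d + 1) * d.divisors.card) * ((d.divisors.card : ℝ) ^ 4 / d) := by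
              refine mul_le_mul ((sm_cnt hd.1.1 Y).trans ?_) (by gcongr) (by positivity)
                (by positivity)
              gcongr
          _ = (Y / d + 1) / d * (d.divisors.card : ℝ) ^ 5 := by ring
          _ ≤ (Y / d + 1) / d * (C ^ 5 * √(d : ℝ)) := by gcongr
          _ = _ := by
              rw [h4]
              generalize √(d : ℝ) = r at h5 h6
              rw [← h5]
              field_simp
    _ ≤ _ := by
        rw [← mul_sum, sum_add_distrib, ← mul_sum, mul_assoc]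
        refine mul_le_mul_of_nonneg_left ?_ (by positivity)
        have h1 : ∑ d ∈ T, 1 / (d : ℝ) ^ (3 / 2 : ℝ) ≤ S :=
          hs.sum_le_tsum _ fun _ _ => by positivity
        have h2 : ∑ d ∈ T, 1 / √(d : ℝ) ≤ 2 * √((3 * Y ^ 2 : ℕ) : ℝ) :=
          (sum_le_sum_of_subset_of_nonneg (filter_subset _ _) fun _ _ _ => by positivity).trans
            (MP_e86632_nt.sum_inv_sqrt_le _)
        have h3 : √((3 * Y ^ 2 : ℕ) : ℝ) ≤ 2 * Y := by
          rw [Real.sqrt_le_left (by positivity)]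
          push_cast
          nlinarith [sq_nonneg (Y : ℝ)]
        have h4 := mul_le_mul_of_nonneg_left h1 (Nat.cast_nonneg (α := ℝ) Y)
        linarith

open Classical in
theorem t_FIN (hCMP : S_CMP) (hMAIN : S_MAIN) (hUB : S_UB) (hSM : S_SM) : S_FIN := by
  obtain ⟨c, hc, h1⟩ := hMAIN
  obtain ⟨C, hC, h2⟩ := hUB
  obtain ⟨D, hD, h3⟩ := hSM
  obtain ⟨y0, hy⟩ := eventually_atTop.1 ((hCMP 1 one_pos).and (h1.and (h2.and
    ((ev_nat (ev_log 1)).and (eventually_ge_atTop 1)))))
  refine ⟨c ^ 2 / (6 * C ^ 2 * D), by positivity, 2 * y0, fun Y hY => ?_⟩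
  obtain ⟨k1, k2, k3, k4, k5⟩ := hy (Y / 2) (by omega)
  set y := Y / 2 with hyd
  set L := Real.log y
  have hy0 : (0 : ℝ) < y := by exact_mod_cast k5
  have hL : 0 < L := by linarith
  set G := (Icc 1 (2 * y)).filter Good
  have e1 : ∑ N ∈ Icc 1 (2 * y), RR y N = ∑ N ∈ G, RR y N := by
    refine (sum_filter_of_ne fun N _ hN => ?_).symm
    obtain ⟨n, hn, -⟩ := exists_ne_zero_of_sum_ne_zero hN
    rw [mem_filter, mem_Ioc] at hn
    obtain ⟨N', e0, -, -, -, -, -, -, e4⟩ := k1 N n hn.1.1 hn.1.2 hn.2.1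
    obtain rfl : N' = N := Nat.cast_injective e0
    exact e4 hn.2.2.1 hn.2.2.2.2
  have e2 : ∑ N ∈ G, RR y N ^ 2 ≤ (C * y / L ^ 2) ^ 2 * (D * (2 * y : ℕ)) := by
    refine (sum_le_sum_of_subset_of_nonneg (filter_subset _ _) fun _ _ _ => sq_nonneg _).trans ?_
    refine le_trans ?_ (mul_le_mul_of_nonneg_left (h3 (2 * y)) (sq_nonneg _))
    rw [mul_sum]
    refine sum_le_sum fun N hN => ?_
    have h4 : 0 ≤ RR y N := sum_nonneg fun n _ => om_nonneg hL.le _ _
    exact (pow_le_pow_left₀ h4 (k3 N hN) 2).trans_eq (by ring)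
  have e3 : (c * (y : ℝ) ^ 2 / L ^ 2) ^ 2 ≤ G.card * ((C * y / L ^ 2) ^ 2 * (D * (2 * y : ℕ))) :=
    (pow_le_pow_left₀ (by positivity) (k2.trans_eq e1) 2).trans (sq_sum_le_card_mul_sum_sq.trans
      (mul_le_mul_of_nonneg_left e2 (Nat.cast_nonneg _)))
  have e4 : c ^ 2 * y ≤ G.card * (2 * C ^ 2 * D) := by
    refine le_of_mul_le_mul_right (e3.trans_eq' ?_ |>.trans_eq ?_)
      (by positivity : 0 < (y : ℝ) ^ 3 / L ^ 4)
    · ring
    · push_cast; ring
  have e5 : (G.card : ℝ) ≤ ((Icc 1 Y).filter Good).card := by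
    exact_mod_cast card_le_card (filter_subset_filter _ (Icc_subset_Icc_right (by omega)))
  have e6 : (Y : ℝ) ≤ 3 * y := by exact_mod_cast (by omega : Y ≤ 3 * y)
  rw [div_mul_eq_mul_div, div_le_iff₀ (by positivity)]
  have e7 := mul_le_mul_of_nonneg_right e5 (by positivity : 0 ≤ 2 * C ^ 2 * D)
  have e8 := mul_le_mul_of_nonneg_left e6 (sq_nonneg c)
  linarith

end Pool.Agent.P.MP_e94e4b_nt.PF
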