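import Pool.Agent.P.MP_e94e4b_nt.PF.Basic
import Pool.Agent.P.MP_8be758_nt.Avg.FL

/-! Tensor products of sieve weights and the weights of one block. -/

namespace Pool.Agent.P.MP_e94e4b_nt.PF

open Finset Real Filter Topology
open Pool.Agent.P.MP_6f5b02_nt (es exp_le_one_sub)
open Pool.Agent.P.MP_8be758_nt.Avg (fl_es_zero fl_es_insert fl_bonf)

theorem TEN_abs (a b c d : ℝ) : |a * c| + |b * c + a * d| ≤ (|a| + |b|) * (|c| + |d|) := by
  have h1 := abs_add_le (b * c) (a * d)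
  simp only [abs_mul] at h1 ⊢
  nlinarith [mul_nonneg (abs_nonneg b) (abs_nonneg d)]

theorem t_TEN : S_TEN := by
  intro P1 P2 Q1 Q2 a1 a2 C l1 D1 l2 D2 h ⟨a1', b1, c1, d1⟩ ⟨a2', b2, c2, d2⟩
  refine ⟨fun E => ?_, fun E hE h0 => ?_, fun x hx => ?_, fun g hg f hf => ?_⟩
  · exact (TEN_abs _ _ _ _).trans (mul_le_one₀ (a1' _) (by positivity) (a2' _))
  · have h3 : l1 (E ∩ P1) ≠ 0 ∨ D1 (E ∩ P1) ≠ 0 := by
      by_contra hc
      rw [not_or, not_not, not_not] at hc
      simp [tens, hc.1, hc.2] at h0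
    have h4 : l2 (E ∩ P2) ≠ 0 ∨ D2 (E ∩ P2) ≠ 0 := by
      by_contra hc
      rw [not_or, not_not, not_not] at hc
      simp [tens, hc.1, hc.2] at h0
    have h5 := b1 _ inter_subset_right h3
    have h6 := b2 _ inter_subset_right h4
    rw [← pr_inter_mul h hE, Nat.cast_mul]
    exact mul_le_mul h5 h6 (Nat.cast_nonneg _) ((Nat.cast_nonneg _).trans h5)
  · obtain ⟨e1, e2, e3⟩ := c1 x hx
    obtain ⟨f1, f2, f3⟩ := c2 x hx
    have v1 : 0 ≤ VP P1 x := VP_nonneg fun p _ => (hx p).2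
    have v2 : 0 ≤ VP P2 x := VP_nonneg fun p _ => (hx p).2
    rw [ev_add, ev_tens h, ev_tens h, ev_tens h, VP_union h]
    have u1 := v1.trans e1
    have u2 := v2.trans f1
    refine ⟨mul_le_mul e1 f1 v2 u1, ?_, by positivity⟩
    have g1 := mul_le_mul_of_nonneg_right e2 u2
    have g2 := mul_le_mul_of_nonneg_right e1 f3
    have g3 := mul_le_mul_of_nonneg_left f2 v1
    linarith
  · have e1 := d1 g (fun p hp => hg p (mem_union_left _ hp)) (f ∩ P1) inter_subset_right
    have e2 := d2 g (fun p hp => hg p (mem_union_right _ hp)) (f ∩ P2) inter_subset_right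
    rw [tw_add, tw_tens h hf, tw_tens h hf, tw_tens h hf, VP_union h, ← card_inter_add h hf]
    refine (TEN_abs _ _ _ _).trans ?_
    refine (mul_le_mul e1 e2 (by positivity) (le_trans (by positivity) e1)).trans_eq ?_
    ring

theorem TEN_es_nonneg {P : Finset ℕ} {g : ℕ → ℝ} (hg : ∀ p ∈ P, 0 ≤ g p) (m : ℕ) : 0 ≤ es P m g :=
  sum_nonneg fun _ hE => prod_nonneg fun p hp => hg p ((mem_powersetCard.1 hE).1 hp)

theorem TEN_es_le {g : ℕ → ℝ} (P : Finset ℕ) (hg : ∀ p ∈ P, 0 ≤ g p) (m : ℕ) :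
    (m.factorial : ℝ) * es P m g ≤ (∑ p ∈ P, g p) ^ m := by
  induction P using Finset.induction_on generalizing m with
  | empty =>
    rcases m with _ | m
    · simp [fl_es_zero]
    · rw [es, powersetCard_eq_empty.2 (by simp)]; simp
  | insert p P hp ih =>
    rcases m with _ | m
    · simp [fl_es_zero]
    have hg' : ∀ q ∈ P, 0 ≤ g q := fun q hq => hg q (mem_insert_of_mem hq)
    have h0 := hg p (mem_insert_self _ _)
    have h1 := ih hg' (m + 1)
    have h2 := ih hg' m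
    have h3 : 0 ≤ ∑ p ∈ P, g p := sum_nonneg hg'
    have h4 := pow_add_mul_le_add_pow (a := ∑ p ∈ P, g p) (b := g p) h3 (by positivity) (m + 1)
    rw [fl_es_insert hp, sum_insert hp, add_comm (g p), mul_add]
    refine le_trans (add_le_add h1 ?_) h4
    rw [Nat.factorial_succ, Nat.cast_mul, Nat.add_sub_cancel]
    calc ((m + 1 : ℕ) : ℝ) * m.factorial * (g p * es P m g)
        = ((m + 1 : ℕ) : ℝ) * (m.factorial * es P m g) * g p := by ring
      _ ≤ _ := by gcongr

theorem TEN_es_eq (P : Finset ℕ) (j : ℕ) (x : ℕ → ℝ) :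
    es P j x = ∑ E ∈ P.powerset, if E.card = j then ∏ p ∈ E, x p else 0 := by
  rw [es, powersetCard_eq_filter, sum_filter]

theorem TEN_ev_lam (P : Finset ℕ) (m : ℕ) (x : ℕ → ℝ) :
    ev P (fun E => if E.card ≤ m then (-1) ^ E.card else 0) x =
      ∑ j ∈ range (m + 1), (-1) ^ j * es P j x := by
  simp only [TEN_es_eq, mul_sum, mul_ite, mul_zero]
  rw [sum_comm, ev]
  refine sum_congr rfl fun E _ => ?_
  rw [sum_ite_eq]
  simp only [mem_range, Nat.lt_succ_iff, ite_mul, zero_mul]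

theorem TEN_ev_del (P : Finset ℕ) (m : ℕ) (x : ℕ → ℝ) :
    ev P (fun E => if E.card = m then 1 else 0) x = es P m x := by
  simp only [TEN_es_eq, ev, ite_mul, one_mul, zero_mul]

theorem TEN_bonf {P : Finset ℕ} {m : ℕ} (hm : Even m) {x : ℕ → ℝ}
    (hx : ∀ p ∈ P, 0 ≤ x p ∧ x p ≤ 1) :
    VP P x ≤ ∑ j ∈ range (m + 1), (-1) ^ j * es P j x ∧
      ∑ j ∈ range (m + 1), (-1) ^ j * es P j x - es P (m + 1) x ≤ VP P x := by
  have h1 := fl_bonf x P hx (m + 1)
  have h2 := fl_bonf x P hx (m + 1 + 1)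
  have e : (-1 : ℝ) ^ (m + 1) = -1 := by rw [pow_succ, hm.neg_one_pow]; simp
  rw [sum_range_succ, pow_succ, e] at h2
  rw [e] at h1
  unfold VP
  constructor <;> linarith

theorem TEN_tw {P f : Finset ℕ} {lam Del : Finset ℕ → ℝ} {g : ℕ → ℝ}
    (hl : ∀ E, |lam E| + |Del E| ≤ 1) (hg : ∀ p ∈ P, 0 ≤ g p) :
    |tw P lam g f| + |tw P Del g f| ≤ ∏ p ∈ P, (1 + g p) := by
  have h1 := abs_tw_le (P := P) (f := f) (lam := fun E => lam E + Del E)
    (fun E => (abs_add_le _ _).trans (hl E)) hg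
  have h2 := abs_tw_le (P := P) (f := f) (lam := fun E => lam E + -Del E)
    (fun E => (abs_add_le _ _).trans (by rw [abs_neg]; exact hl E)) hg
  have h3 : tw P (fun E => -Del E) g f = -tw P Del g f := by simp [tw]
  rw [tw_add] at h1 h2
  rw [h3] at h2
  rw [abs_le] at h1 h2
  rcases abs_cases (tw P lam g f) with a | a <;> rcases abs_cases (tw P Del g f) with b | b <;>
    linarith [a.1, b.1, h1.1, h1.2, h2.1, h2.2]

theorem t_BLK : S_BLK := by
  intro P L u m hm hu hP hL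
  have hl : ∀ E : Finset ℕ, |(if E.card ≤ m then (-1 : ℝ) ^ E.card else 0)| +
      |(if E.card = m + 1 then (1 : ℝ) else 0)| ≤ 1 := fun E => by
    split_ifs with h1 h2 <;> first | omega | simp
  refine ⟨fun E => if E.card ≤ m then (-1) ^ E.card else 0,
    fun E => if E.card = m + 1 then 1 else 0, hl, fun E hE h0 => ?_, fun x hx => ?_,
    fun g hg f hf => ?_⟩
  · have h1 : E.card ≤ m + 1 := by
      by_contra hc
      simp only [if_neg (show ¬ E.card ≤ m by omega), if_neg (show ¬ E.card = m + 1 by omega),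
        ne_eq, not_true, or_self] at h0
    rw [pr_cast]
    calc ∏ p ∈ E, (p : ℝ) ≤ ∏ _p ∈ E, u :=
          prod_le_prod (fun p _ => Nat.cast_nonneg _) fun p hp => hP p (hE hp)
      _ = u ^ E.card := prod_const _
      _ ≤ _ := pow_le_pow_right₀ hu h1
  · rw [TEN_ev_lam, TEN_ev_del]
    obtain ⟨h1, h2⟩ := TEN_bonf (P := P) hm fun p _ => hx p
    exact ⟨h1, h2, TEN_es_nonneg (fun p _ => (hx p).1) _⟩
  · have hg0 : ∀ p ∈ P, 0 ≤ g p := fun p hp => (hg p hp).1
    have hL0 : 0 ≤ L := le_trans (sum_nonneg fun p _ => by positivity) hL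
    have h1 : ∑ p ∈ P, g p ≤ 2 * L := by
      refine le_trans ?_ (mul_le_mul_of_nonneg_left hL zero_le_two)
      rw [mul_sum]
      exact sum_le_sum fun p hp => (hg p hp).2.2.trans_eq (by ring)
    have h2 : Real.exp (-(4 * L)) ≤ VP P g := by
      calc Real.exp (-(4 * L)) ≤ Real.exp (∑ p ∈ P, -(2 * g p)) := by
            rw [Real.exp_le_exp, sum_neg_distrib, ← mul_sum]; linarith
        _ = ∏ p ∈ P, Real.exp (-(2 * g p)) := Real.exp_sum _ _
        _ ≤ _ := prod_le_prod (fun p _ => (Real.exp_pos _).le) fun p hp =>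
            exp_le_one_sub (hg p hp).1 (hg p hp).2.1
    have h3 : 1 ≤ Real.exp (4 * L) * VP P g := by
      have := mul_le_mul_of_nonneg_left h2 (Real.exp_pos (4 * L)).le
      rwa [← Real.exp_add, add_neg_cancel, Real.exp_zero] at this
    have hV : 0 ≤ VP P g := (Real.exp_pos _).le.trans h2
    have hA : 0 ≤ (2 * L) ^ (m + 1) / ((m + 1).factorial : ℝ) := by positivity
    rcases f.eq_empty_or_nonempty with rfl | hne
    · rw [tw_empty, tw_empty, TEN_ev_lam, TEN_ev_del, card_empty, pow_zero, mul_one]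
      obtain ⟨e1, e2⟩ := TEN_bonf (P := P) hm fun p hp => ⟨hg0 p hp, by linarith [(hg p hp).2.1]⟩
      have e3 := TEN_es_nonneg hg0 (m + 1)
      have e4 : es P (m + 1) g ≤ (2 * L) ^ (m + 1) / ((m + 1).factorial : ℝ) := by
        rw [le_div_iff₀' (by positivity)]
        exact (TEN_es_le P hg0 _).trans (pow_le_pow_left₀ (sum_nonneg hg0) h1 _)
      have e5 := mul_le_mul_of_nonneg_left h3 hA
      rw [abs_of_nonneg (hV.trans e1), abs_of_nonneg e3, mul_div_assoc]
      linarith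
    · have e1 : ∏ p ∈ P, (1 + g p) ≤ Real.exp (2 * L) := by
        calc ∏ p ∈ P, (1 + g p) ≤ ∏ p ∈ P, Real.exp (g p) :=
              prod_le_prod (fun p hp => by linarith [hg0 p hp]) fun p _ => by
                linarith [Real.add_one_le_exp (g p)]
          _ = Real.exp (∑ p ∈ P, g p) := (Real.exp_sum _ _).symm
          _ ≤ _ := Real.exp_le_exp.2 h1
      have e2 : Real.exp (2 * L) ≤ Real.exp (6 * L) * VP P g := by
        have := mul_le_mul_of_nonneg_left h3 (Real.exp_pos (2 * L)).le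
        rwa [mul_one, ← mul_assoc, ← Real.exp_add, show 2 * L + 4 * L = 6 * L by ring] at this
      have e3 : Real.exp (6 * L) ≤ Real.exp (6 * L) ^ f.card :=
        le_self_pow₀ (Real.one_le_exp (by linarith)) hne.card_ne_zero
      refine (TEN_tw hl hg0).trans (e1.trans (e2.trans ?_))
      refine mul_le_mul_of_nonneg_right (e3.trans (le_mul_of_one_le_left (by positivity) ?_)) hV
      exact le_add_of_nonneg_right (by positivity)

end Pool.Agent.P.MP_e94e4b_nt.PF
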