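import Pool.Agent.P.MP_e94e4b_nt.PF.Basic

/-! The weighted multiplicative large sieve. -/

namespace Pool.Agent.P.MP_e94e4b_nt.PF

open Finset Real Filter Topology
open Pool.Agent.P.MP_8be758_nt.Avg (gs nsq gs_pos t_GS2 t_GS1)

theorem wls_sub {a b X : ℝ} (ha : 0 < a) (hab : a ≤ b) (hX : b ≤ X) :
    b - a ≤ X * (Real.log b - Real.log a) := by
  have hb : 0 < b := ha.trans_le hab
  have h1 := Real.log_le_sub_one_of_pos (div_pos ha hb)
  rw [Real.log_div ha.ne' hb.ne'] at h1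
  have h2 : 0 ≤ Real.log b - Real.log a := sub_nonneg.2 (Real.log_le_log ha hab)
  have h3 : b * (a / b) = a := by field_simp
  nlinarith [mul_le_mul_of_nonneg_left h1 hb.le, mul_le_mul_of_nonneg_right hX h2]

theorem wls_abs {a b X : ℝ} (ha : 0 < a) (hb : 0 < b) (haX : a ≤ X) (hbX : b ≤ X) :
    |a - b| ≤ X * |Real.log a - Real.log b| := by
  rcases le_total a b with h | h
  · rw [abs_sub_comm, abs_sub_comm (Real.log a), abs_of_nonneg (sub_nonneg.2 h),
      abs_of_nonneg (sub_nonneg.2 (Real.log_le_log ha h))]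
    exact wls_sub ha h hbX
  · rw [abs_of_nonneg (sub_nonneg.2 h), abs_of_nonneg (sub_nonneg.2 (Real.log_le_log hb h))]
    exact wls_sub hb h haX

theorem wls_gs (x : ℝ) : gs (√2 * x) ^ 2 / gs (round x : ℤ) ≤ Real.exp π * gs x := by
  rw [div_le_iff₀ (gs_pos _)]
  simp only [gs, ← Real.exp_nat_mul, ← Real.exp_add, mul_pow, Real.sq_sqrt (zero_le_two (α := ℝ))]
  refine Real.exp_le_exp.2 ?_
  have h1 := abs_le.1 (abs_sub_round x)
  have h2 : ((round x : ℤ) : ℝ) ^ 2 ≤ 3 * x ^ 2 + 1 := by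
    nlinarith [sq_nonneg (x + (x - round x)), sq_nonneg x]
  push_cast
  nlinarith [Real.pi_pos]

theorem t_WLS (hMLS : S_MLS) : S_WLS := by
  obtain ⟨C, hC, h⟩ := hMLS
  refine ⟨8 * (2 * C * Real.exp π), by positivity, fun F Z X c v I a hF hZ hc1 hc2 hI => ?_⟩
  have hZ0 : 0 < Z := by linarith
  rcases I.eq_empty_or_nonempty with rfl | ⟨n0, hn0⟩
  · simp
  have hX : 0 ≤ X := (Nat.cast_nonneg n0).trans (hI n0 hn0).2
  let x : ℕ → ℝ := fun n => Z * (v - c * Real.log n)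
  let j : ℕ → ℤ := fun n => round (x n)
  let b : ℕ → ℂ := fun n => a n * (gs (√2 * Z * (v - c * Real.log n)) : ℂ)
  set T := I.image j
  have hw : ∑ k ∈ T, gs (k : ℝ) ≤ 8 := by
    have h1 := (t_GS1 1 0 0 one_pos).1.sum_le_tsum T fun k _ => (gs_pos _).le
    have h2 := t_GS2 1 0 one_pos
    simp only [one_mul, sub_zero] at h1 h2
    linarith
  have hb : ∀ k ∈ T, ∑ f ∈ Icc 1 F, ∑ ψ ∈ prim f,
      ‖∑ n ∈ I.filter (j · = k), b n * ψ (n : ZMod f)‖ ^ 2 ≤
        2 * C * ((F : ℝ) ^ 2 + X / Z) * nsq (I.filter (j · = k)) b := fun k hk => by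
    obtain ⟨m, hm, rfl⟩ := mem_image.1 hk
    refine (h F (2 * (X / Z)) m _ b hF (by positivity) fun n hn => ?_).trans ?_
    · rw [mem_filter] at hn
      have p1 : (0 : ℝ) < n := by exact_mod_cast (hI n hn.1).1
      have p2 : (0 : ℝ) < m := by exact_mod_cast (hI m hm).1
      refine (wls_abs p1 p2 (hI n hn.1).2 (hI m hm).2).trans ?_
      have h1 := abs_le.1 (abs_sub_round (x n))
      have h2 := abs_le.1 (abs_sub_round (x m))
      have h3 : ((round (x n) : ℤ) : ℝ) = (round (x m) : ℤ) := congrArg _ hn.2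
      have h4 : |x m - x n| ≤ 1 := abs_le.2 ⟨by linarith, by linarith⟩
      rw [show x m - x n = Z * c * (Real.log n - Real.log m) by simp only [x]; ring, abs_mul,
        abs_of_pos (by positivity : 0 < Z * c)] at h4
      have h5 : |Real.log n - Real.log m| ≤ 2 / Z := by
        rw [le_div_iff₀ hZ0]
        nlinarith [mul_nonneg (abs_nonneg (Real.log n - Real.log m)) hZ0.le]
      exact (mul_le_mul_of_nonneg_left h5 hX).trans_eq (by ring)
    · refine mul_le_mul_of_nonneg_right ?_ (MP_8be758_nt.Avg.nsq_nonneg _ _)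
      nlinarith [mul_nonneg hC.le (sq_nonneg (F : ℝ))]
  calc ∑ f ∈ Icc 1 F, ∑ ψ ∈ prim f, ‖∑ n ∈ I, b n * ψ (n : ZMod f)‖ ^ 2
      ≤ ∑ f ∈ Icc 1 F, ∑ ψ ∈ prim f, 8 * ∑ k ∈ T,
          ‖∑ n ∈ I.filter (j · = k), b n * ψ (n : ZMod f)‖ ^ 2 / gs (k : ℝ) := by
        refine sum_le_sum fun f _ => sum_le_sum fun ψ _ => ?_
        rw [← sum_fiberwise_of_maps_to (g := j) (t := T) fun n hn => mem_image_of_mem j hn]
        refine (pow_le_pow_left₀ (norm_nonneg _) (norm_sum_le _ _) 2).trans ?_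
        have h1 := sq_sum_div_le_sum_sq_div T
          (fun k => ‖∑ n ∈ I.filter (j · = k), b n * ψ (n : ZMod f)‖) fun k _ => gs_pos (k : ℝ)
        rw [div_le_iff₀ (sum_pos (fun k _ => gs_pos _) ⟨_, mem_image_of_mem j hn0⟩), mul_comm] at h1
        exact h1.trans (mul_le_mul_of_nonneg_right hw
          (sum_nonneg fun k _ => div_nonneg (sq_nonneg _) (gs_pos _).le))
    _ = 8 * ∑ k ∈ T, (∑ f ∈ Icc 1 F, ∑ ψ ∈ prim f,
          ‖∑ n ∈ I.filter (j · = k), b n * ψ (n : ZMod f)‖ ^ 2) / gs (k : ℝ) := by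
        simp only [← mul_sum, sum_div]
        rw [sum_comm (s := T)]
        exact congrArg _ (sum_congr rfl fun f _ => sum_comm)
    _ ≤ 8 * ∑ k ∈ T, ∑ n ∈ I.filter (j · = k),
          2 * C * ((F : ℝ) ^ 2 + X / Z) * (Real.exp π * (‖a n‖ ^ 2 * gs (x n))) := by
        refine mul_le_mul_of_nonneg_left (sum_le_sum fun k hk => ?_) (by norm_num)
        refine (div_le_div_of_nonneg_right (hb k hk) (gs_pos _).le).trans ?_
        rw [mul_div_assoc, nsq, sum_div, mul_sum]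
        refine sum_le_sum fun n hn => mul_le_mul_of_nonneg_left ?_ (by positivity)
        rw [← (mem_filter.1 hn).2, norm_mul, Complex.norm_real, Real.norm_of_nonneg (gs_pos _).le,
          mul_pow, mul_div_assoc, mul_left_comm, mul_assoc √2]
        exact mul_le_mul_of_nonneg_left (wls_gs (x n)) (sq_nonneg _)
    _ = _ := by
        rw [sum_fiberwise_of_maps_to (g := j) (t := T) fun n hn => mem_image_of_mem j hn,
          ← mul_sum, ← mul_sum]
        ring

end Pool.Agent.P.MP_e94e4b_nt.PF
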