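import Pool.Agent.P.MP_e94e4b_nt.PF.Basic

/-! The hybrid large sieve with a Gaussian weight. -/

namespace Pool.Agent.P.MP_e94e4b_nt.PF

open Finset Real Filter Topology MeasureTheory
open Pool.Agent.P.MP_8be758_nt.Avg (gs Rough PL red ft en nsq gs_pos gs_le_one gs_cast)

theorem HG_gs_eq (Z u v : ℝ) : gs (Z * (v - u)) = Real.exp (-(π * Z ^ 2) * (v - u) ^ 2) := by
  rw [gs]
  congr 1
  ring

theorem HG_integrable {Z : ℝ} (hZ : 0 < Z) (u : ℝ) : Integrable fun v : ℝ => gs (Z * (v - u)) := by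
  simp_rw [HG_gs_eq]
  exact (integrable_exp_neg_mul_sq (b := π * Z ^ 2) (by positivity)).comp_sub_right u

theorem HG_integral {Z : ℝ} (hZ : 0 < Z) (u : ℝ) : ∫ v : ℝ, gs (Z * (v - u)) = 1 / Z := by
  simp_rw [HG_gs_eq]
  rw [integral_sub_right_eq_self (fun v : ℝ => Real.exp (-(π * Z ^ 2) * v ^ 2)) u,
    integral_gaussian]
  have e : π / (π * Z ^ 2) = (1 / Z) ^ 2 := by
    have := Real.pi_pos
    field_simp
  rw [e, Real.sqrt_sq (by positivity)]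

theorem HG_prod (Z u1 u2 v : ℝ) : gs (√2 * Z * (v - u1)) * gs (√2 * Z * (v - u2)) =
    gs (Z * (u1 - u2)) * gs (2 * Z * (v - (u1 + u2) / 2)) := by
  have h : √2 ^ 2 = (2 : ℝ) := Real.sq_sqrt (by norm_num)
  simp only [gs]
  rw [← Real.exp_add, ← Real.exp_add]
  congr 1
  simp only [mul_pow, h]
  ring

theorem HG_four_eq (Z u t : ℝ) (hZ : 0 < Z) : (gs (t / Z) : ℂ) * MP_e86632_nt.ee (-(t * u)) =
    Complex.exp (((-(π / Z ^ 2) : ℝ) : ℂ) * (t : ℂ) ^ 2 + (-(2 * π * u) * Complex.I) * t + 0) := by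
  have hZ' : (Z : ℂ) ≠ 0 := Complex.ofReal_ne_zero.2 hZ.ne'
  rw [gs_cast, MP_e86632_nt.ee, ← Complex.exp_add]
  congr 1
  push_cast
  field_simp
  ring

theorem HG_four_integrable {Z : ℝ} (hZ : 0 < Z) (u : ℝ) :
    Integrable fun t : ℝ => (gs (t / Z) : ℂ) * MP_e86632_nt.ee (-(t * u)) := by
  simp_rw [fun t => HG_four_eq Z u t hZ]
  refine integrable_cexp_quadratic' ?_ _ _
  rw [Complex.ofReal_re]
  have : 0 < π / Z ^ 2 := by positivity
  linarith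

theorem HG_four {Z : ℝ} (hZ : 0 < Z) (u : ℝ) :
    ∫ t : ℝ, (gs (t / Z) : ℂ) * MP_e86632_nt.ee (-(t * u)) = Z * gs (Z * u) := by
  have hZ' : (Z : ℂ) ≠ 0 := Complex.ofReal_ne_zero.2 hZ.ne'
  have hp : (π : ℂ) ≠ 0 := Complex.ofReal_ne_zero.2 Real.pi_ne_zero
  simp_rw [fun t => HG_four_eq Z u t hZ]
  rw [integral_cexp_quadratic]
  · have hs : ((Z : ℂ) ^ 2) ^ (1 / 2 : ℂ) = Z := by
      have h1 : ((Z ^ 2 : ℝ) : ℂ) ^ ((1 / 2 : ℝ) : ℂ) = (((Z ^ 2) ^ (1 / 2 : ℝ) : ℝ) : ℂ) :=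
        (Complex.ofReal_cpow (sq_nonneg Z) _).symm
      rw [← Real.sqrt_eq_rpow, Real.sqrt_sq hZ.le] at h1
      push_cast at h1
      exact h1
    have e1 : (π : ℂ) / -((-(π / Z ^ 2) : ℝ) : ℂ) = (Z : ℂ) ^ 2 := by
      push_cast
      field_simp
    rw [e1, hs, gs_cast]
    congr 2
    push_cast
    field_simp
    linear_combination (4 * π * (Z : ℂ) ^ 2 * (u : ℂ) ^ 2) * Complex.I_mul_I
  · rw [Complex.ofReal_re]
    have : 0 < π / Z ^ 2 := by positivity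
    linarith

theorem HG_sq (I : Finset ℕ) (z : ℕ → ℂ) :
    ((‖∑ n ∈ I, z n‖ ^ 2 : ℝ) : ℂ) = ∑ n ∈ I, ∑ m ∈ I, z n * (starRingEnd ℂ) (z m) := by
  rw [← sum_mul_sum, ← map_sum, Complex.mul_conj, Complex.normSq_eq_norm_sq]

theorem HG_left (Z : ℝ) (I : Finset ℕ) (b : ℕ → ℂ) (u : ℕ → ℝ) (t : ℝ) :
    ((gs (t / Z) * ‖∑ n ∈ I, b n * MP_e86632_nt.ee (-(t * u n))‖ ^ 2 : ℝ) : ℂ) =
      ∑ n ∈ I, ∑ m ∈ I, b n * (starRingEnd ℂ) (b m) *
        ((gs (t / Z) : ℂ) * MP_e86632_nt.ee (-(t * (u n - u m)))) := by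
  rw [Complex.ofReal_mul, HG_sq, mul_sum]
  refine sum_congr rfl fun n _ => ?_
  rw [mul_sum]
  refine sum_congr rfl fun m _ => ?_
  rw [map_mul, ← MP_e86632_nt.ee_neg, show -(t * (u n - u m)) = -(t * u n) + - -(t * u m) by ring, MP_e86632_nt.ee_add]
  ring

theorem HG_right (Z : ℝ) (I : Finset ℕ) (b : ℕ → ℂ) (u : ℕ → ℝ) (v : ℝ) :
    ((‖∑ n ∈ I, b n * (gs (√2 * Z * (v - u n)) : ℂ)‖ ^ 2 : ℝ) : ℂ) =
      ∑ n ∈ I, ∑ m ∈ I, b n * (starRingEnd ℂ) (b m) * (gs (Z * (u n - u m)) : ℂ) *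
        ((gs (2 * Z * (v - (u n + u m) / 2)) : ℝ) : ℂ) := by
  rw [HG_sq]
  refine sum_congr rfl fun n _ => sum_congr rfl fun m _ => ?_
  rw [map_mul, Complex.conj_ofReal]
  have h := congrArg (fun x : ℝ => (x : ℂ)) (HG_prod Z (u n) (u m) v)
  simp only [Complex.ofReal_mul] at h
  linear_combination b n * (starRingEnd ℂ) (b m) * h

theorem HG_int_of {f : ℝ → ℝ} (h : Integrable fun t => (f t : ℂ)) : Integrable f := by
  simpa using h.re

theorem HG_left_int {Z : ℝ} (hZ : 0 < Z) (I : Finset ℕ) (b : ℕ → ℂ) (u : ℕ → ℝ) :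
    Integrable fun t : ℝ => gs (t / Z) * ‖∑ n ∈ I, b n * MP_e86632_nt.ee (-(t * u n))‖ ^ 2 := by
  refine HG_int_of ?_
  simp_rw [HG_left]
  exact integrable_finsetSum _ fun n _ => integrable_finsetSum _ fun m _ =>
    (HG_four_integrable hZ _).const_mul _

theorem HG_right_int {Z : ℝ} (hZ : 0 < Z) (I : Finset ℕ) (b : ℕ → ℂ) (u : ℕ → ℝ) :
    Integrable fun v : ℝ => ‖∑ n ∈ I, b n * (gs (√2 * Z * (v - u n)) : ℂ)‖ ^ 2 := by
  refine HG_int_of ?_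
  simp_rw [HG_right]
  exact integrable_finsetSum _ fun n _ => integrable_finsetSum _ fun m _ =>
    (HG_integrable (by positivity) _).ofReal.const_mul _

/-- Plancherel identity for finite sums -/
theorem HG_key {Z : ℝ} (hZ : 0 < Z) (I : Finset ℕ) (b : ℕ → ℂ) (u : ℕ → ℝ) :
    ∫ t : ℝ, gs (t / Z) * ‖∑ n ∈ I, b n * MP_e86632_nt.ee (-(t * u n))‖ ^ 2 =
      2 * Z ^ 2 * ∫ v : ℝ, ‖∑ n ∈ I, b n * (gs (√2 * Z * (v - u n)) : ℂ)‖ ^ 2 := by
  have hZ' : (Z : ℂ) ≠ 0 := Complex.ofReal_ne_zero.2 hZ.ne'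
  have h2 : (0 : ℝ) < 2 * Z := by positivity
  apply Complex.ofReal_injective
  rw [Complex.ofReal_mul, ← integral_complex_ofReal, ← integral_complex_ofReal]
  simp_rw [HG_left, HG_right]
  rw [integral_finsetSum _ fun n _ => integrable_finsetSum _ fun m _ =>
      (HG_four_integrable hZ _).const_mul _,
    integral_finsetSum _ fun n _ => integrable_finsetSum _ fun m _ =>
      (HG_integrable h2 _).ofReal.const_mul _, mul_sum]
  refine sum_congr rfl fun n _ => ?_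
  rw [integral_finsetSum _ fun m _ => (HG_four_integrable hZ _).const_mul _,
    integral_finsetSum _ fun m _ => (HG_integrable h2 _).ofReal.const_mul _, mul_sum]
  refine sum_congr rfl fun m _ => ?_
  rw [integral_const_mul, integral_const_mul, HG_four hZ, integral_complex_ofReal, HG_integral h2]
  push_cast
  field_simp

theorem t_HG (hWLS : S_WLS) : S_HG := by
  obtain ⟨C, hC, hW⟩ := hWLS
  refine ⟨2 * C, by positivity, fun F Z X c I a hF hZ hc1 hc2 hI => ?_⟩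
  have hZ0 : 0 < Z := by linarith
  have hdp : ∀ (f : ℕ) (ψ : DirichletCharacter ℂ f) (t : ℝ), dp f ψ I a (c * t) =
      ∑ n ∈ I, (a n * ψ (n : ZMod f)) * MP_e86632_nt.ee (-(t * (c * Real.log n))) := by
    intro f ψ t
    refine sum_congr rfl fun n _ => ?_
    congr 3
    ring
  have hre : ∀ (f : ℕ) (ψ : DirichletCharacter ℂ f) (v : ℝ),
      ∑ n ∈ I, a n * (gs (√2 * Z * (v - c * Real.log n)) : ℂ) * ψ (n : ZMod f) =
      ∑ n ∈ I, (a n * ψ (n : ZMod f)) * (gs (√2 * Z * (v - c * Real.log n)) : ℂ) :=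
    fun f ψ v => sum_congr rfl fun n _ => by ring
  have hL := fun (f : ℕ) (ψ : DirichletCharacter ℂ f) =>
    HG_left_int hZ0 I (fun n => a n * ψ (n : ZMod f)) (fun n => c * Real.log n)
  have hR := fun (f : ℕ) (ψ : DirichletCharacter ℂ f) =>
    HG_right_int hZ0 I (fun n => a n * ψ (n : ZMod f)) (fun n => c * Real.log n)
  have hK := fun (f : ℕ) (ψ : DirichletCharacter ℂ f) =>
    HG_key hZ0 I (fun n => a n * ψ (n : ZMod f)) (fun n => c * Real.log n)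
  have h1 : ∫ t : ℝ, gs (t / Z) * ∑ f ∈ Icc 1 F, ∑ ψ ∈ prim f, ‖dp f ψ I a (c * t)‖ ^ 2 =
      2 * Z ^ 2 * ∫ v : ℝ, ∑ f ∈ Icc 1 F, ∑ ψ ∈ prim f,
        ‖∑ n ∈ I, (a n * ψ (n : ZMod f)) * (gs (√2 * Z * (v - c * Real.log n)) : ℂ)‖ ^ 2 := by
    have e : ∀ t : ℝ, gs (t / Z) * ∑ f ∈ Icc 1 F, ∑ ψ ∈ prim f, ‖dp f ψ I a (c * t)‖ ^ 2 =
        ∑ f ∈ Icc 1 F, ∑ ψ ∈ prim f, gs (t / Z) * ‖∑ n ∈ I, (a n * ψ (n : ZMod f)) *
          MP_e86632_nt.ee (-(t * (c * Real.log n)))‖ ^ 2 := by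
      intro t
      rw [mul_sum]
      refine sum_congr rfl fun f _ => ?_
      rw [mul_sum]
      exact sum_congr rfl fun ψ _ => by rw [hdp]
    simp_rw [e]
    rw [integral_finsetSum _ fun f _ => integrable_finsetSum _ fun ψ _ => hL f ψ,
      integral_finsetSum _ fun f _ => integrable_finsetSum _ fun ψ _ => hR f ψ, mul_sum]
    refine sum_congr rfl fun f _ => ?_
    rw [integral_finsetSum _ fun ψ _ => hL f ψ, integral_finsetSum _ fun ψ _ => hR f ψ, mul_sum]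
    exact sum_congr rfl fun ψ _ => hK f ψ
  have hG : ∀ n : ℕ, Integrable fun v : ℝ => ‖a n‖ ^ 2 * gs (Z * (v - c * Real.log n)) :=
    fun n => (HG_integrable hZ0 _).const_mul _
  have h2 : ∫ v : ℝ, C * ((F : ℝ) ^ 2 + X / Z) *
      ∑ n ∈ I, ‖a n‖ ^ 2 * gs (Z * (v - c * Real.log n)) =
      C * ((F : ℝ) ^ 2 + X / Z) * (nsq I a / Z) := by
    rw [integral_const_mul, integral_finsetSum _ fun n _ => hG n, nsq, sum_div]
    congr 1
    refine sum_congr rfl fun n _ => ?_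
    rw [integral_const_mul, HG_integral hZ0]
    ring
  have h3 := integral_mono
    (integrable_finsetSum (Icc 1 F) fun f _ => integrable_finsetSum (prim f) fun ψ _ => hR f ψ)
    ((integrable_finsetSum I fun n _ => hG n).const_mul (C * ((F : ℝ) ^ 2 + X / Z)))
    fun v => by
      have h := hW F Z X c v I a hF hZ hc1 hc2 hI
      simp_rw [hre] at h
      exact h
  rw [h2] at h3
  rw [h1]
  refine (mul_le_mul_of_nonneg_left h3 (by positivity)).trans (le_of_eq ?_)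
  field_simp

end Pool.Agent.P.MP_e94e4b_nt.PF
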