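import Pool.Agent.P.MP_e94e4b_nt.PF.Basic

/-! The mass of the primes with a given index of the sifting parameter. -/

namespace Pool.Agent.P.MP_e94e4b_nt.PF

open Finset Real Filter Topology
open Pool.Agent.P.MP_e86632_nt (ee)
open Pool.Agent.P.MP_8be758_nt.Avg (gs Rough PL red ft en nsq gs_pos gs_le_one prime_of_mem_PL
  ev_pow ev_const ev_log)
open ArithmeticFunction (cardFactors)

theorem BIN_lt {D z : ℝ} (hz : 1 < z) (hk : 0 < idx D z) :
    (idx D z : ℝ) * Real.log z < 10 * Real.log D := by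
  have h1 : 0 < Real.log z := Real.log_pos hz
  have h2 : idx D z < ⌈10 * Real.log D / Real.log z⌉₊ := by
    rw [idx] at hk ⊢
    omega
  rwa [Nat.lt_ceil, lt_div_iff₀ h1] at h2

theorem BIN_le {D z : ℝ} (hz : 1 < z) : 10 * Real.log D ≤ ((idx D z : ℝ) + 1) * Real.log z := by
  have h1 : 0 < Real.log z := Real.log_pos hz
  have h2 : ⌈10 * Real.log D / Real.log z⌉₊ ≤ idx D z + 1 := by
    rw [idx]
    omega
  rw [Nat.ceil_le, div_le_iff₀ h1] at h2
  exact_mod_cast h2

theorem BIN_le_idx {D z : ℝ} (hz : 1 < z) {k : ℕ} (h : (k : ℝ) * Real.log z < 10 * Real.log D) :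
    k ≤ idx D z := by
  have h1 : 0 < Real.log z := Real.log_pos hz
  have h2 : k < ⌈10 * Real.log D / Real.log z⌉₊ := by
    rwa [Nat.lt_ceil, lt_div_iff₀ h1]
  rw [idx]
  omega

theorem BIN_anti {D p z : ℝ} (hD : 1 ≤ D) (hp : 1 < p) (h : p ≤ z) : idx D z ≤ idx D p := by
  have h1 : 0 < Real.log p := Real.log_pos hp
  have h2 : Real.log p ≤ Real.log z := Real.log_le_log (by linarith) h
  have h3 : 0 ≤ Real.log D := Real.log_nonneg hD
  refine Nat.sub_le_sub_right (Nat.ceil_mono ?_) 1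
  exact div_le_div_of_nonneg_left (by positivity) h1 h2

theorem BIN_below (P : Finset ℕ) (g : ℕ → ℝ) (t : ℝ) :
    VP (below P t) g = 1 - ∑ p ∈ below P t, g p * VP (below P p) g := by
  rw [VP_buchstab]
  congr 1
  refine sum_congr rfl fun p hp => ?_
  have h1 := (mem_filter.1 hp).2
  have e : below (below P t) p = below P p := by
    rw [below, below, below, filter_filter]
    exact filter_congr fun q _ => ⟨fun h => h.2, fun h => ⟨h.trans h1, h⟩⟩
  rw [e]

theorem BIN_split (P : Finset ℕ) {a b : ℝ} (h : a ≤ b) :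
    below P b = below P a ∪ P.filter (fun p : ℕ => a ≤ (p : ℝ) ∧ (p : ℝ) < b) ∧
      Disjoint (below P a) (P.filter fun p : ℕ => a ≤ (p : ℝ) ∧ (p : ℝ) < b) := by
  constructor
  · ext p
    simp only [below, mem_filter, mem_union]
    constructor
    · rintro ⟨h1, h2⟩
      rcases lt_or_ge (p : ℝ) a with h3 | h3
      exacts [Or.inl ⟨h1, h3⟩, Or.inr ⟨h1, h3, h2⟩]
    · rintro (⟨h1, h2⟩ | ⟨h1, -, h2⟩)
      exacts [⟨h1, h2.trans_le h⟩, ⟨h1, h2⟩]
  · rw [disjoint_left]
    intro p h1 h2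
    exact absurd (mem_filter.1 h2).2.1 (not_le.2 (mem_filter.1 h1).2)

theorem BIN_tele (P : Finset ℕ) (g : ℕ → ℝ) {a b : ℝ} (h : a ≤ b) :
    ∑ p ∈ P.filter (fun p : ℕ => a ≤ (p : ℝ) ∧ (p : ℝ) < b), g p * VP (below P p) g =
      VP (below P a) g - VP (below P b) g := by
  rw [BIN_below P g a, BIN_below P g b, (BIN_split P h).1, sum_union (BIN_split P h).2]
  ring

theorem BIN_est {P : Finset ℕ} {g : ℕ → ℝ} {w z δ t : ℝ} (hw : 2 ≤ w)
    (hP : ∀ p ∈ P, w ≤ p ∧ (p : ℝ) < z) (hg : ∀ p ∈ P, 0 ≤ g p ∧ g p ≤ 1 / 2)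
    (hR : Reg P g w z δ) (h1 : w ≤ t) (h2 : t ≤ z) :
    (1 - δ) * Real.log t * VP (below P t) g ≤ Real.log z * VP P g ∧
      Real.log z * VP P g ≤ (1 + δ) * Real.log t * VP (below P t) g := by
  have h3 : below P z = P := filter_true_of_mem fun p hp => (hP p hp).2
  have h4 : VP P g = VP (below P t) g *
      VP (P.filter fun p : ℕ => t ≤ (p : ℝ) ∧ (p : ℝ) < z) g := by
    rw [← VP_union (BIN_split P h2).2, ← (BIN_split P h2).1, h3]
  have h5 := abs_le.1 (hR t z h1 h2 le_rfl)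
  have h6 : 0 < Real.log t := Real.log_pos (by linarith)
  have h7 : 0 ≤ VP (below P t) g :=
    VP_nonneg fun p hp => by linarith [(hg p (mem_filter.1 hp).1).2]
  set V := VP (P.filter fun p : ℕ => t ≤ (p : ℝ) ∧ (p : ℝ) < z) g
  have h8 : V * (Real.log z / Real.log t) * Real.log t = V * Real.log z := by field_simp
  have h9 : (1 - δ) * Real.log t ≤ V * Real.log z := by
    rw [← h8]
    exact mul_le_mul_of_nonneg_right (by linarith [h5.1]) h6.le
  have h10 : V * Real.log z ≤ (1 + δ) * Real.log t := by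
    rw [← h8]
    exact mul_le_mul_of_nonneg_right (by linarith [h5.2]) h6.le
  rw [h4]
  constructor
  · have := mul_le_mul_of_nonneg_right h9 h7
    linarith
  · have := mul_le_mul_of_nonneg_right h10 h7
    linarith

theorem BIN_num {δ κ i L a b A B X : ℝ} (hδ : 0 < δ) (hδ1 : δ < 1) (hi : 0 < i) (_hL : 0 < L)
    (hκ : 1 + δ + 2 * i * δ ≤ κ * (1 - δ)) (hX : 0 ≤ X) (hA : 0 ≤ A) (hB : 0 ≤ B)
    (ha : L / (i + 1) ≤ a) (hb : b ≤ L / i) (h1 : (1 - δ) * a * A ≤ X)
    (h2 : X ≤ (1 + δ) * b * B) : (A - B) * L ≤ κ * X := by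
  have h3 : (1 - δ) * L * A ≤ (i + 1) * X := by
    rw [div_le_iff₀ (by linarith)] at ha
    have h4 : (1 - δ) * L * A ≤ (1 - δ) * (a * (i + 1)) * A :=
      mul_le_mul_of_nonneg_right (mul_le_mul_of_nonneg_left ha (by linarith)) hA
    have h5 := mul_le_mul_of_nonneg_left h1 (by linarith : 0 ≤ i + 1)
    linarith
  have h4 : i * X ≤ (1 + δ) * L * B := by
    rw [le_div_iff₀ hi] at hb
    have h5 : (1 + δ) * (b * i) * B ≤ (1 + δ) * L * B :=
      mul_le_mul_of_nonneg_right (mul_le_mul_of_nonneg_left hb (by linarith)) hB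
    have h6 := mul_le_mul_of_nonneg_left h2 hi.le
    linarith
  have h5 : 0 < (1 - δ) * (1 + δ) := mul_pos (by linarith) (by linarith)
  have hκ0 : 0 ≤ κ * (1 - δ) := by nlinarith
  refine le_of_mul_le_mul_left ?_ h5
  have h6 := mul_le_mul_of_nonneg_left h3 (by linarith : 0 ≤ 1 + δ)
  have h7 := mul_le_mul_of_nonneg_left h4 (by linarith : 0 ≤ 1 - δ)
  have h8 := mul_le_mul_of_nonneg_right hκ hX
  have h9 : 0 ≤ κ * (1 - δ) * X * δ := by positivity
  nlinarith

theorem t_BIN : S_BIN := by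
  intro κ S hκ hS
  have hden : 0 < κ + 20 * S + 1 := by linarith
  refine ⟨(κ - 1) / (κ + 20 * S + 1), div_pos (by linarith) hden, ?_⟩
  intro P g u w z D hw hz hP hg hR hD hL hu
  set δ := (κ - 1) / (κ + 20 * S + 1) with hδ
  have hδ0 : 0 < δ := div_pos (by linarith) hden
  have hδ1 : δ < 1 := by
    rw [hδ, div_lt_one hden]
    linarith
  have hδ2 : δ * (κ + 20 * S + 1) = κ - 1 := by
    rw [hδ]
    field_simp
  have hD1 : 1 < D := by linarith
  have hz1 : 1 < z := by linarith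
  have hlD : 0 < Real.log D := Real.log_pos hD1
  have hlz : 0 < Real.log z := Real.log_pos hz1
  have hlw : 0 < Real.log w := Real.log_pos (by linarith)
  have hP1 : ∀ p ∈ P, (1 : ℝ) < p := fun p hp => by linarith [(hP p hp).1]
  have hV : 0 ≤ VP P g := VP_nonneg fun p hp => by linarith [(hg p hp).2]
  have hF : ∀ t : ℝ, 0 ≤ VP (below P t) g := fun t =>
    VP_nonneg fun p hp => by linarith [(hg p (mem_filter.1 hp).1).2]
  have hj : 10 ≤ idx D z := by
    refine BIN_le_idx hz1 ?_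
    have := Real.log_lt_log (by linarith) hD
    push_cast
    linarith
  have hj0 : (0 : ℝ) < idx D z := by exact_mod_cast (by omega : 0 < idx D z)
  have hge : ∀ p ∈ P, idx D z ≤ idx D p := fun p hp => BIN_anti hD1.le (hP1 p hp) (hP p hp).2.le
  have hlt : ∀ p ∈ P, (idx D p : ℝ) < 10 * S := by
    intro p hp
    have h1 := BIN_lt (D := D) (hP1 p hp) (by linarith [hge p hp])
    have h2 : Real.log w ≤ Real.log p := Real.log_le_log (by linarith) (hP p hp).1
    have h3 := mul_le_mul_of_nonneg_left h2 (Nat.cast_nonneg (α := ℝ) (idx D p))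
    refine lt_of_mul_lt_mul_right ?_ hlw.le
    linarith
  refine ⟨⌈10 * S⌉₊, ?_⟩
  have hmap : ∀ p ∈ P, idx D p ∈ Ico (idx D z) ⌈10 * S⌉₊ := fun p hp =>
    mem_Ico.2 ⟨hge p hp, Nat.lt_ceil.2 (hlt p hp)⟩
  rw [← sum_fiberwise_of_maps_to hmap, mul_sum, sum_div, sum_mul]
  refine sum_le_sum fun i hi => ?_
  have hmass : ∑ p ∈ P.filter (fun p : ℕ => idx D p = i), g p * VP (below P p) g ≤
      κ / idx D z * VP P g := by
    rcases (P.filter fun p : ℕ => idx D p = i).eq_empty_or_nonempty with h0 | ⟨p0, hp0⟩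
    · rw [h0, sum_empty]
      positivity
    have hi0 : (0 : ℝ) < i := by
      have := (mem_Ico.1 hi).1
      exact_mod_cast (by omega : 0 < i)
    have hiS : (i : ℝ) < 10 * S := (mem_filter.1 hp0).2 ▸ hlt p0 (mem_filter.1 hp0).1
    set a := max (Real.exp (10 * Real.log D / (i + 1))) w with ha
    set b := min (Real.exp (10 * Real.log D / i)) z with hb
    have hin : ∀ p ∈ P.filter (fun p : ℕ => idx D p = i), a ≤ (p : ℝ) ∧ (p : ℝ) < b := by
      intro p hp
      obtain ⟨hp1, hp2⟩ := mem_filter.1 hp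
      have h0 : (0 : ℝ) < p := by linarith [hP1 p hp1]
      have h1 := BIN_lt (D := D) (hP1 p hp1) (by linarith [hge p hp1])
      have h2 := BIN_le (D := D) (hP1 p hp1)
      rw [hp2] at h1 h2
      refine ⟨max_le ?_ (hP p hp1).1, lt_min ?_ (hP p hp1).2⟩
      · rw [← Real.le_log_iff_exp_le h0, div_le_iff₀ (by linarith)]
        linarith
      · rw [← Real.log_lt_iff_lt_exp h0, lt_div_iff₀ hi0]
        linarith
    have hab : a ≤ b := ((hin p0 hp0).1.trans_lt (hin p0 hp0).2).le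
    have haw : w ≤ a := le_max_right _ _
    have hbz : b ≤ z := min_le_right _ _
    have h1 : ∑ p ∈ P.filter (fun p : ℕ => idx D p = i), g p * VP (below P p) g ≤
        VP (below P a) g - VP (below P b) g := by
      rw [← BIN_tele P g hab]
      exact sum_le_sum_of_subset_of_nonneg
        (fun p hp => mem_filter.2 ⟨(mem_filter.1 hp).1, hin p hp⟩)
        fun p hp _ => mul_nonneg (hg p (mem_filter.1 hp).1).1 (hF p)
    have h2 := (BIN_est hw hP hg hR haw (hab.trans hbz)).1
    have h3 := (BIN_est hw hP hg hR (haw.trans hab) hbz).2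
    have h4 : 10 * Real.log D / (i + 1) ≤ Real.log a := by
      rw [Real.le_log_iff_exp_le (by linarith)]
      exact le_max_left _ _
    have h5 : Real.log b ≤ 10 * Real.log D / i := by
      rw [Real.log_le_iff_le_exp (by linarith)]
      exact min_le_left _ _
    have h6 := BIN_num (κ := κ) hδ0 hδ1 hi0 (by positivity) (by nlinarith) (by positivity)
      (hF a) (hF b) h4 h5 h2 h3
    have h7 := BIN_lt (D := D) hz1 (by omega)
    refine h1.trans ?_
    rw [div_mul_eq_mul_div, le_div_iff₀ hj0]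
    refine le_of_mul_le_mul_right ?_ (by positivity : 0 < 10 * Real.log D)
    have h8 := mul_le_mul_of_nonneg_right h6 hj0.le
    have h9 := mul_le_mul_of_nonneg_left h7.le (by positivity : 0 ≤ κ * VP P g)
    linarith
  calc ∑ p ∈ P.filter (fun p : ℕ => idx D p = i), g p * VP (below P p) g * u (idx D p)
      = (∑ p ∈ P.filter (fun p : ℕ => idx D p = i), g p * VP (below P p) g) * u i := by
        rw [sum_mul]
        exact sum_congr rfl fun p hp => by rw [(mem_filter.1 hp).2]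
    _ ≤ κ / idx D z * VP P g * u i := mul_le_mul_of_nonneg_right hmass (hu i)
    _ = _ := by ring

end Pool.Agent.P.MP_e94e4b_nt.PF
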