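import Pool.Agent.P.MP_e94e4b_nt.PF.Basic

/-! The bound for one block of the bilinear form. -/

namespace Pool.Agent.P.MP_e94e4b_nt.PF

open Finset Real Filter Topology
open Pool.Agent.P.MP_e86632_nt (ee)
open Pool.Agent.P.MP_8be758_nt.Avg (gs Rough PL red ft en nsq gs_pos gs_le_one prime_of_mem_PL
  ev_pow ev_const ev_log)
open ArithmeticFunction (cardFactors)

theorem bs_terms {e F H A B Y K Q s y m : ℝ} (he : 1 ≤ e) (hF : 1 ≤ F) (hH : 1 ≤ H) (hK : 1 ≤ K)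
    (hs : 1 ≤ s) (hY : 0 < Y) (hB : 0 ≤ B) (hA : s / 2 ≤ A) (hA2 : A ≤ 2 * y)
    (hAB : A * B = Y ^ 2) (hY3 : Y ^ 2 ≤ 3 * y ^ 2) (hQ : Q ^ 2 * s ^ 2 = y) (hFe : F * e ≤ Q)
    (hHK : H ≤ 3 * K ^ 2 * (F * e)) (hm0 : 0 ≤ m) (hmH : m ≤ H) (hmF : m ≤ F) :
    Y ^ 3 * m / (F ^ 2 * e ^ 3 * H) * ((F * H * Y / e + A ^ 2) * (F * H * Y / e + B) ^ 2) ≤
      3328 * K ^ 4 * y ^ 8 / (s ^ 2 * e ^ 4) := by
  have hA0 : 0 < A := by linarith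
  have hy : 0 < y := by linarith
  have hFQ : F ≤ Q := by nlinarith
  have heQ : e ≤ Q := by nlinarith
  have hQ1 : 1 ≤ Q := hF.trans hFQ
  have hY2 : Y ≤ 2 * y := by nlinarith
  have hK2 : 1 ≤ K ^ 2 := one_le_pow₀ hK
  have hK4 : K ^ 2 ≤ K ^ 4 := pow_le_pow_right₀ hK (by norm_num)
  have hBs : B ≤ 6 * y ^ 2 / s := by
    rw [le_div_iff₀ (by linarith)]
    nlinarith
  have hF2 : F ^ 2 ≤ y / s ^ 2 := by
    rw [le_div_iff₀ (by positivity), ← hQ]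
    gcongr
  have hF3 : F ^ 2 ≤ y := hF2.trans (div_le_self hy.le (one_le_pow₀ hs))
  have hQs : Q ≤ y / s ^ 2 := by
    rw [le_div_iff₀ (by positivity), ← hQ]
    gcongr
    nlinarith
  obtain ⟨P, hP⟩ : ∃ P, P = Y ^ 3 * m / (F ^ 2 * e ^ 3 * H) := ⟨_, rfl⟩
  obtain ⟨ζ, hζ⟩ : ∃ ζ, ζ = F * H * Y / e := ⟨_, rfl⟩
  obtain ⟨T, hT⟩ : ∃ T, T = y ^ 8 / (s ^ 2 * e ^ 4) := ⟨_, rfl⟩
  have P0 : 0 ≤ P := by rw [hP]; positivity
  have ζ0 : 0 ≤ ζ := by rw [hζ]; positivity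
  have T0 : 0 ≤ T := by rw [hT]; positivity
  have h1 : P * ζ ≤ (2 * y) ^ 4 / e ^ 4 := by
    calc P * ζ = Y ^ 4 / e ^ 4 * (m / F) := by rw [hP, hζ]; field_simp
      _ ≤ (2 * y) ^ 4 / e ^ 4 * 1 := by
          gcongr
          exact (div_le_one (by linarith)).2 hmF
      _ = _ := mul_one _
  have h2 : ζ ≤ 3 * K ^ 2 * F ^ 2 * (2 * y) := by
    calc ζ = F * H * Y / e := hζ
      _ ≤ F * (3 * K ^ 2 * (F * e)) * (2 * y) / e := by gcongr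
      _ = _ := by field_simp
  have t1 : P * ζ ^ 3 ≤ 576 * K ^ 4 * T := by
    calc P * ζ ^ 3 = P * ζ * (ζ * ζ) := by ring
      _ ≤ (2 * y) ^ 4 / e ^ 4 * ((3 * K ^ 2 * (y / s ^ 2) * (2 * y)) *
          (3 * K ^ 2 * y * (2 * y))) := by
          gcongr
          · exact h2.trans (by gcongr)
          · exact h2.trans (by gcongr)
      _ = _ := by rw [hT]; field_simp; ring
  have t2 : P * (ζ * B ^ 2) ≤ 576 * T := by
    calc P * (ζ * B ^ 2) = P * ζ * B ^ 2 := by ring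
      _ ≤ (2 * y) ^ 4 / e ^ 4 * (6 * y ^ 2 / s) ^ 2 := by gcongr
      _ = _ := by rw [hT]; field_simp; ring
  have t3 : P * (A ^ 2 * ζ ^ 2) ≤ 384 * K ^ 2 * T := by
    calc P * (A ^ 2 * ζ ^ 2) = P * ζ * (A ^ 2 * ζ) := by ring
      _ ≤ (2 * y) ^ 4 / e ^ 4 * ((2 * y) ^ 2 * (3 * K ^ 2 * (y / s ^ 2) * (2 * y))) := by
          gcongr
          exact h2.trans (by gcongr)
      _ = _ := by rw [hT]; field_simp; ring
  have t4 : P * (A ^ 2 * B ^ 2) ≤ 128 * T := by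
    calc P * (A ^ 2 * B ^ 2) = Y ^ 7 / e ^ 4 * e * (m / H) / F ^ 2 := by
          rw [← mul_pow, hAB, hP]; field_simp
      _ ≤ (2 * y) ^ 7 / e ^ 4 * (y / s ^ 2) * 1 / 1 := by
          gcongr
          · exact heQ.trans hQs
          · exact (div_le_one (by linarith)).2 hmH
          · exact one_le_pow₀ hF
      _ = _ := by rw [hT]; field_simp; ring
  have h3 : (ζ + A ^ 2) * (ζ + B) ^ 2 ≤ (ζ + A ^ 2) * (2 * (ζ ^ 2 + B ^ 2)) := by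
    gcongr
    nlinarith [sq_nonneg (ζ - B)]
  have h4 : T ≤ K ^ 4 * T := le_mul_of_one_le_left T0 (hK2.trans hK4)
  have h5 : K ^ 2 * T ≤ K ^ 4 * T := mul_le_mul_of_nonneg_right hK4 T0
  rw [← hP, ← hζ, mul_div_assoc, ← hT]
  calc P * ((ζ + A ^ 2) * (ζ + B) ^ 2) ≤ P * ((ζ + A ^ 2) * (2 * (ζ ^ 2 + B ^ 2))) := by gcongr
    _ = 2 * (P * ζ ^ 3 + P * (ζ * B ^ 2) + P * (A ^ 2 * ζ ^ 2) + P * (A ^ 2 * B ^ 2)) := by ring
    _ ≤ _ := by linarith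

theorem bs_side {e F H A B K Q s y : ℝ} (he : 1 ≤ e) (hF : 1 ≤ F) (hH : 1 ≤ H)
    (hs : 8 ≤ s) (hy : 32 ≤ y) (hA : s / 2 ≤ A) (hA2 : A ≤ 2 * y) (hAB : y ^ 2 / 2 ≤ A * B)
    (hAB2 : A * B ≤ 3 * y ^ 2) (e3 : Q ^ 2 * s ^ 2 = y) (h6 : 6 * K ^ 2 ≤ s) (hFe : F * e ≤ Q)
    (hHK : H ≤ 3 * K ^ 2 * (F * e)) :
    1 ≤ B ∧ H ^ 2 ≤ H * √(A * B) / (F * e) ∧ 4 * A ^ 2 + 4 * H ^ 2 ≤ y ^ 3 := by
  have hA1 : 1 ≤ A := by linarith
  have hB1 : 1 ≤ B := by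
    by_contra h
    nlinarith [not_le.1 h]
  have hY1 : y / 2 ≤ √(A * B) := Real.le_sqrt_of_sq_le (by nlinarith)
  have hY2 : √(A * B) ≤ 2 * y := Real.sqrt_le_iff.2 ⟨by linarith, by nlinarith⟩
  generalize √(A * B) = Y at *
  have hFe1 : 1 ≤ F * e := one_le_mul_of_one_le_of_one_le hF he
  have hHY : H * (F * e) ≤ Y := by
    calc H * (F * e) ≤ 3 * K ^ 2 * Q * Q := by
          have : 0 ≤ Q := by linarith
          gcongr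
          exact hHK.trans (by gcongr)
      _ = 6 * K ^ 2 * Q ^ 2 / 2 := by ring
      _ ≤ s ^ 2 * Q ^ 2 / 2 := by
          gcongr
          exact h6.trans (le_self_pow₀ (by linarith) two_ne_zero)
      _ ≤ Y := by rw [mul_comm, e3]; exact hY1
  have hH2 : H ≤ 2 * y :=
    ((le_mul_of_one_le_right (by linarith) hFe1).trans hHY).trans hY2
  refine ⟨hB1, ?_, ?_⟩
  · rw [le_div_iff₀ (by positivity), sq, mul_assoc]
    gcongr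
  · calc 4 * A ^ 2 + 4 * H ^ 2 ≤ 4 * (2 * y) ^ 2 + 4 * (2 * y) ^ 2 := by gcongr
      _ = 32 * y ^ 2 := by ring
      _ ≤ y * y ^ 2 := by gcongr
      _ = _ := by ring

theorem bs_fin {C e F H A B Y K τ r y m : ℝ} (hC : 0 < C) (he : 1 ≤ e) (hF : 1 ≤ F) (hH : 1 ≤ H)
    (hτ : 1 ≤ τ) (hY0 : 0 < Y) (hY : A * B = Y ^ 2) (hm : 0 ≤ m) (e1 : τ ^ 7 = r)
    (hZ : H ^ 2 ≤ H * Y / (F * e)) (hc : 400 * 3328 * C * K ^ 8 ≤ r)
    (k2 : Y ^ 3 * m / (F ^ 2 * e ^ 3 * H) * ((F * H * Y / e + A ^ 2) * (F * H * Y / e + B) ^ 2) ≤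
      3328 * K ^ 4 * y ^ 8 / ((r ^ 3) ^ 2 * e ^ 4)) :
    C * (F * e) ^ 2 * (A * B) * ((H * Y / (F * e) + H ^ 2) * τ * F *
      (10 * K ^ 2 * τ ^ 2 / (F * e) ^ 2) * (20 * K ^ 2 * τ ^ 3 * m / (F * e) ^ 2) / H ^ 2) *
      ((F ^ 2 * (H * Y / (F * e)) + A ^ 2) * τ) * (F ^ 2 * (H * Y / (F * e)) + B) ^ 2 ≤
      (y ^ 2 / r / e) ^ 4 := by
  have hr0 : 0 < r := by rw [← e1]; positivity
  rw [hY]
  calc _ ≤ C * (F * e) ^ 2 * Y ^ 2 *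
        ((H * Y / (F * e) + H * Y / (F * e)) * τ * F * (10 * K ^ 2 * τ ^ 2 / (F * e) ^ 2) *
          (20 * K ^ 2 * τ ^ 3 * m / (F * e) ^ 2) / H ^ 2) *
        ((F ^ 2 * (H * Y / (F * e)) + A ^ 2) * τ) *
        (F ^ 2 * (H * Y / (F * e)) + B) ^ 2 := by gcongr
    _ = 400 * C * K ^ 4 * τ ^ 7 * (Y ^ 3 * m / (F ^ 2 * e ^ 3 * H) *
        ((F * H * Y / e + A ^ 2) * (F * H * Y / e + B) ^ 2)) := by
        field_simp; ring
    _ ≤ 400 * C * K ^ 4 * τ ^ 7 * (3328 * K ^ 4 * y ^ 8 / ((r ^ 3) ^ 2 * e ^ 4)) := by gcongr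
    _ = 400 * 3328 * C * K ^ 8 * (y ^ 8 / (r ^ 5 * e ^ 4)) := by
        rw [e1]; field_simp
    _ ≤ r * (y ^ 8 / (r ^ 5 * e ^ 4)) := by gcongr
    _ = _ := by field_simp

theorem t_BS (hCB : S_CB) (hUV : S_UV) : S_BS := by
  intro η h0 h4
  obtain ⟨C, hC, hCB⟩ := hCB
  have h3 : 0 < η / 3 := by positivity
  filter_upwards [ev_tau 3 (ε := η / 21) (by positivity), ev_pow (400 * 3328 * C) 8 h3,
    ev_pow 6 2 h0, ev_log 1, eventually_ge_atTop 32, ev_const 2 h3]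
    with y hτ hc h6 hK hy hr e F H A B I J α β he hF hH hA hA2 hAB hAB2 hI hJ hα hβ
  have hy0 : 0 < y := by linarith
  obtain ⟨K, hKd⟩ : ∃ K, K = Real.log y := ⟨_, rfl⟩
  obtain ⟨τ, hτd⟩ : ∃ τ, τ = y ^ (η / 21) := ⟨_, rfl⟩
  obtain ⟨r, hrd⟩ : ∃ r, r = y ^ (η / 3) := ⟨_, rfl⟩
  obtain ⟨Q, hQd⟩ : ∃ Q, Q = y ^ (1 / 2 - η) := ⟨_, rfl⟩
  have e1 : τ ^ 7 = r := by
    rw [hτd, hrd, ← Real.rpow_natCast, ← Real.rpow_mul hy0.le]; congr 1; push_cast; ring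
  have e2 : y ^ η = r ^ 3 := by
    rw [hrd, ← Real.rpow_natCast, ← Real.rpow_mul hy0.le]; congr 1; push_cast; ring
  have e3 : Q ^ 2 * (r ^ 3) ^ 2 = y := by
    rw [← mul_pow, hQd, ← e2, ← Real.rpow_add hy0, ← Real.rpow_natCast, ← Real.rpow_mul hy0.le]
    norm_num
  have e4 : y ^ (2 - η / 3) = y ^ 2 / r := by
    rw [Real.rpow_sub hy0, hrd]; norm_num
  have hτ1 : 1 ≤ τ := hτd ▸ Real.one_le_rpow (by linarith) (by positivity)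
  have hQ0 : 0 < Q := hQd ▸ Real.rpow_pos_of_pos hy0 _
  rw [Real.rpow_zero, mul_one] at hc h6
  rw [← hKd] at hc h6 hK
  rw [← hrd] at hc hr
  rw [e2] at h6 hA
  rw [← hτd] at hτ
  rw [← hKd, ← hQd, e4]
  have hs : 8 ≤ r ^ 3 := by linarith [pow_le_pow_left₀ two_pos.le hr 3]
  have he' : (1 : ℝ) ≤ e := by exact_mod_cast he
  have hF' : (1 : ℝ) ≤ F := by exact_mod_cast hF
  have hH' : (1 : ℝ) ≤ H := by exact_mod_cast hH
  have hQ3 : Q ≤ y ^ 3 := by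
    have h1 : Q ≤ y ^ (1 : ℝ) := hQd ▸ Real.rpow_le_rpow_of_exponent_le (by linarith) (by linarith)
    rw [Real.rpow_one] at h1
    exact h1.trans (le_self_pow₀ (by linarith) three_ne_zero)
  obtain ⟨u1, u2⟩ := hUV K Q τ e F H hK he hF hH hτ1 fun m hm => hτ m (hm.trans hQ3)
  have hr0 : 0 < r := by linarith
  by_cases hz : ∃ f ∈ Ico F (2 * F), ∃ ψ ∈ prim f, ∃ h ∈ Ico H (2 * H), dd K Q e f ψ h ≠ 0
  swap
  · push Not at hz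
    have : blk e F H (dd K Q e) I J α β = 0 :=
      sum_eq_zero fun f hf => sum_eq_zero fun ψ hψ => by
        rw [sum_eq_zero fun h hh => by rw [hz f hf ψ hψ h hh, zero_mul], norm_zero]
    rw [this]
    positivity
  obtain ⟨hFe, hHK⟩ := u1 hz
  obtain ⟨hB1, hZ, hm⟩ := bs_side he' hF' hH' hs hy hA hA2 hAB hAB2 e3 h6 hFe hHK
  have hA1 : 1 ≤ A := by linarith
  have hY0 : 0 < √(A * B) := Real.sqrt_pos.2 (by positivity)
  have hY : A * B = √(A * B) ^ 2 := (Real.sq_sqrt (by positivity)).symm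
  have hm0 : 0 ≤ min (H : ℝ) F := le_min (by positivity) (by positivity)
  have key := hCB e F H A B _ τ (10 * K ^ 2 * τ ^ 2 / ((F : ℝ) * e) ^ 2)
    (20 * K ^ 2 * τ ^ 3 * min (H : ℝ) F / ((F : ℝ) * e) ^ 2) I J α β (dd K Q e) he hF hH hA1 hB1 rfl
    ((one_le_pow₀ hH').trans hZ) (by positivity) (by positivity) hI hJ hα hβ
    (fun m h => hτ m (h.trans hm)) (fun f hf => (u2 f hf).1) fun f hf => (u2 f hf).2
  exact le_of_pow_le_pow_left₀ four_ne_zero (by positivity) (key.trans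
    (bs_fin hC he' hF' hH' hτ1 hY0 hY hm0 e1 hZ hc (bs_terms he' hF' hH' hK (by linarith) hY0
      (by linarith) hA hA2 hY (hY.symm.trans_le hAB2) e3 hFe hHK hm0 (min_le_left _ _)
      (min_le_right _ _))))

end Pool.Agent.P.MP_e94e4b_nt.PF
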