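import Pool.Agent.P.MP_e94e4b_nt.PF.Basic

/-! The Cahen-Mellin integral on the line of real part one half, with uniform decay. -/

namespace Pool.Agent.P.MP_e94e4b_nt.PF

open Finset Real Filter Topology MeasureTheory

theorem cm_gamma (y : ℝ) :
    ‖Complex.Gamma ((1 / 2 : ℝ) + y * Complex.I)‖ ≤ 3 * Real.exp (-(π / 2 * |y|)) := by
  have h := Complex.Gamma_mul_Gamma_one_sub ((1 / 2 : ℝ) + y * Complex.I)
  have e1 : 1 - (((1 / 2 : ℝ) : ℂ) + y * Complex.I) =
      (starRingEnd ℂ) ((1 / 2 : ℝ) + y * Complex.I) := by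
    simp only [map_add, map_mul, Complex.conj_ofReal, Complex.conj_I]
    push_cast
    ring
  have e2 : (π : ℂ) * ((1 / 2 : ℝ) + y * Complex.I) = (π * y : ℝ) * Complex.I + π / 2 := by
    push_cast
    ring
  rw [e1, Complex.Gamma_conj, e2, Complex.sin_add_pi_div_two, Complex.cos_mul_I,
    ← Complex.ofReal_cosh] at h
  have h1 := congrArg norm h
  rw [norm_mul, Complex.norm_conj, norm_div, Complex.norm_real, Complex.norm_real,
    Real.norm_of_nonneg pi_pos.le, Real.norm_of_nonneg (cosh_pos _).le, ← cosh_abs, abs_mul,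
    abs_of_pos pi_pos, cosh_eq] at h1
  refine abs_le_of_sq_le_sq' ?_ (by positivity) |>.2
  rw [sq, h1, mul_pow, ← Real.exp_nat_mul, div_le_iff₀ (by positivity)]
  have e3 : Real.exp ((2 : ℕ) * -(π / 2 * |y|)) * Real.exp (π * |y|) = 1 := by
    rw [← Real.exp_add, Real.exp_eq_one_iff]
    push_cast
    ring
  have p : 0 < Real.exp ((2 : ℕ) * -(π / 2 * |y|)) * Real.exp (-(π * |y|)) := by positivity
  linarith [pi_le_four]

theorem cm_bound {Z : ℝ} {w : ℂ} (hZ : 1 ≤ Z) (h1 : 1 ≤ ‖w‖) (h2 : ‖w‖ ≤ Z * w.re) (y : ℝ) :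
    ‖Complex.Gamma ((1 / 2 : ℝ) + y * Complex.I) * w ^ (-((1 / 2 : ℝ) + y * Complex.I))‖ ≤
      3 * Real.exp (-(|y| / Z)) := by
  have hw : w ≠ 0 := norm_pos_iff.1 (by linarith)
  have hr : 0 < w.re := by nlinarith
  have ha := Complex.abs_arg_lt_pi_div_two_iff.2 (Or.inl hr)
  have hb : 1 / Z ≤ π / 2 - |w.arg| := by
    refine le_trans ?_ (Real.sin_le (by linarith))
    rw [sin_pi_div_two_sub, cos_abs, Complex.cos_arg hw, div_le_div_iff₀ (by linarith) (by linarith)]
    linarith
  have hc : ‖w ^ (-((1 / 2 : ℝ) + y * Complex.I))‖ ≤ Real.exp (|w.arg| * |y|) := by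
    rw [Complex.norm_cpow_of_ne_zero hw, div_eq_mul_inv, ← Real.exp_neg]
    refine (mul_le_of_le_one_left (Real.exp_pos _).le
      (Real.rpow_le_one_of_one_le_of_nonpos h1 (by simp))).trans (Real.exp_le_exp.2 ?_)
    rw [← abs_mul]
    simpa using le_abs_self (w.arg * y)
  rw [norm_mul]
  refine (mul_le_mul (cm_gamma y) hc (norm_nonneg _) (by positivity)).trans ?_
  rw [mul_assoc, ← Real.exp_add]
  have := mul_le_mul_of_nonneg_right hb (abs_nonneg y)
  gcongr
  rw [div_eq_mul_one_div |y|]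
  linarith

theorem cm_cont {w : ℂ} (hw : w ≠ 0) : Continuous fun y : ℝ =>
    Complex.Gamma ((1 / 2 : ℝ) + y * Complex.I) * w ^ (-((1 / 2 : ℝ) + y * Complex.I)) := by
  refine Continuous.mul (continuous_iff_continuousAt.2 fun y => ContinuousAt.comp
    (f := fun y : ℝ => ((1 / 2 : ℝ) : ℂ) + y * Complex.I)
    (Complex.continuousAt_Gamma _ fun m hm => ?_) (by fun_prop))
    (Continuous.const_cpow (by fun_prop) (Or.inl hw))
  have := congrArg Complex.re hm
  simp at this
  linarith [(Nat.cast_nonneg m : (0 : ℝ) ≤ m)]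

theorem cm_int {Z : ℝ} (hZ : 0 < Z) : Integrable fun y : ℝ => Real.exp (-(|y| / Z)) := by
  rw [← integrableOn_univ, ← Set.Iic_union_Ioi (a := (0 : ℝ))]
  refine IntegrableOn.union
    ((integrableOn_exp_mul_Iic (inv_pos.2 hZ) 0).congr_fun (fun y hy => ?_) measurableSet_Iic)
    ((exp_neg_integrableOn_Ioi 0 (inv_pos.2 hZ)).congr_fun (fun y hy => ?_) measurableSet_Ioi)
  · simp only [abs_of_nonpos (show y ≤ 0 from hy)]
    congr 1
    ring
  · simp only [abs_of_pos (show 0 < y from hy)]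
    congr 1
    ring

theorem t_CM (hGM : S_GM) : S_CM := by
  refine ⟨3, by norm_num, fun Z w hZ h1 h2 => ?_⟩
  have hw : w ≠ 0 := norm_pos_iff.1 (by linarith)
  have hr : 0 < w.re := by nlinarith
  have hm : ∀ y : ℝ, mellin (fun u : ℝ => Complex.exp (-(w * u))) ((1 / 2 : ℝ) + y * Complex.I) =
      Complex.Gamma ((1 / 2 : ℝ) + y * Complex.I) * w ^ (-((1 / 2 : ℝ) + y * Complex.I)) :=
    fun y => hGM _ w (by simp) hr
  refine ⟨fun t => Complex.Gamma ((1 / 2 : ℝ) + (2 * π * t : ℝ) * Complex.I) *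
      w ^ (-((1 / 2 : ℝ) + (2 * π * t : ℝ) * Complex.I)),
    (cm_cont hw).comp (continuous_const.mul continuous_id), fun t => ?_, fun u hu => ?_⟩
  · refine (cm_bound hZ h1 h2 _).trans ?_
    rw [abs_mul, abs_of_pos two_pi_pos]
    gcongr
    exact le_mul_of_one_le_left (abs_nonneg t) (by linarith [pi_gt_three])
  · have k := mellinInv_mellin_eq (1 / 2) (fun u : ℝ => Complex.exp (-(w * u))) hu ?_ ?_
      (by fun_prop)
    · rw [← k, mellinInv_eq_fourierInv _ _ hu, Real.fourierInv_eq', ← integral_smul]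
      refine integral_congr_ae (Eventually.of_forall fun t => ?_)
      have e1 : (u : ℂ) ^ (-((1 / 2 : ℝ) : ℂ)) = ((1 / √u : ℝ) : ℂ) := by
        rw [← Complex.ofReal_neg, ← Complex.ofReal_cpow hu.le, Real.rpow_neg hu.le,
          ← Real.sqrt_eq_rpow, inv_eq_one_div]
      have e2 := hm (2 * π * t)
      rw [Complex.ofReal_mul, Complex.ofReal_mul, Complex.ofReal_ofNat] at e2
      simp only [smul_eq_mul, e1, e2, MP_e86632_nt.ee, Complex.ofReal_mul, Complex.ofReal_ofNat]
      rw [show inner ℝ t (-Real.log u) = -(t * Real.log u) by simp [mul_comm], mul_comm Complex.I]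
      ring
    · refine Integrable.mono' (integrableOn_rpow_mul_exp_neg_mul_rpow (s := 1 / 2 - 1)
        (by norm_num) one_pos hr) (ContinuousOn.aestronglyMeasurable (fun x hx =>
          (ContinuousAt.smul (Complex.continuousAt_ofReal_cpow_const _ _ (Or.inr (ne_of_gt hx)))
            (by fun_prop)).continuousWithinAt) measurableSet_Ioi)
        ((ae_restrict_iff' measurableSet_Ioi).2 (Eventually.of_forall fun x hx => le_of_eq ?_))
      rw [norm_smul, Complex.norm_cpow_eq_rpow_re_of_pos hx, Complex.norm_exp]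
      simp
    · unfold Complex.VerticalIntegrable
      simp only [hm]
      exact ((cm_int (by linarith : 0 < Z)).const_mul 3).mono' (cm_cont hw).aestronglyMeasurable
        (Eventually.of_forall (cm_bound hZ h1 h2))

end Pool.Agent.P.MP_e94e4b_nt.PF
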