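import Pool.Agent.P.MP_e94e4b_nt.PF.Basic

namespace Pool.Agent.P.MP_e94e4b_nt.PF

open Finset Real Filter Topology
open Pool.Agent.P.MP_e86632_nt (ee)
open Pool.Agent.P.MP_8be758_nt.Avg (gs Rough PL red ft en nsq gs_pos gs_le_one prime_of_mem_PL
  ev_pow ev_const ev_log mem_PL)
open ArithmeticFunction (cardFactors)

theorem comb_twb {P1 P2 : Finset ℕ} {g : ℕ → ℝ} {l1 l2 : Finset ℕ → ℝ} {C0 c : ℝ}
    (hd : Disjoint P1 P2) (h1 : Twb P1 (VP P1 g) C0 g l1) (h2 : ∀ E, |l2 E| ≤ 1)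
    (hg : ∀ p ∈ P2, 0 ≤ g p ∧ g p ≤ 1 / 2) (hV1 : 0 ≤ VP P1 g) (hc : 0 < c) (hc1 : c ≤ 1)
    (hV : c ≤ VP P2 g) (hC : 1 ≤ C0) :
    Twb (P1 ∪ P2) (VP (P1 ∪ P2) g) (C0 / c ^ 2) g (tens P1 P2 l1 l2) := by
  intro f hf
  rw [tw_tens hd hf, abs_mul, VP_union hd]
  have a1 := h1 (f ∩ P1) inter_subset_right
  have a2 : |tw P2 l2 g (f ∩ P2)| ≤ ∏ p ∈ P2, (1 + g p) := abs_tw_le h2 fun p hp => (hg p hp).1
  have a3 : (∏ p ∈ P2, (1 + g p)) * VP P2 g ≤ 1 := by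
    rw [VP, ← prod_mul_distrib]
    refine prod_le_one (fun p hp => ?_) fun p hp => ?_
    · have := hg p hp
      nlinarith
    · nlinarith [sq_nonneg (g p)]
  have a4 : 0 ≤ ∏ p ∈ P2, (1 + g p) := (abs_nonneg _).trans a2
  have a5 : (∏ p ∈ P2, (1 + g p)) * c ^ 2 ≤ VP P2 g := by
    have b1 : (∏ p ∈ P2, (1 + g p)) * c ≤ 1 := (mul_le_mul_of_nonneg_left hV a4).trans a3
    nlinarith
  have hc2 : 0 < c ^ 2 := by positivity
  have hc3 : c ^ 2 ≤ 1 := pow_le_one₀ hc.le hc1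
  have a6 : |tw P2 l2 g (f ∩ P2)| ≤ VP P2 g / c ^ 2 := a2.trans ((le_div_iff₀ hc2).2 a5)
  have a7 : C0 ^ ((f ∩ P1).card + 1) / c ^ 2 ≤ (C0 / c ^ 2) ^ (f.card + 1) := by
    rw [div_pow]
    have b1 : C0 ^ ((f ∩ P1).card + 1) ≤ C0 ^ (f.card + 1) :=
      pow_le_pow_right₀ hC (Nat.succ_le_succ (card_le_card inter_subset_left))
    have b2 : (c ^ 2) ^ (f.card + 1) ≤ c ^ 2 := pow_le_of_le_one hc2.le hc3 (by omega)
    exact div_le_div₀ (by positivity) b1 (by positivity) b2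
  have hV2 : 0 ≤ VP P2 g := hc.le.trans hV
  calc _ ≤ VP P1 g * C0 ^ ((f ∩ P1).card + 1) * (VP P2 g / c ^ 2) :=
        mul_le_mul a1 a6 (abs_nonneg _) (by positivity)
    _ = VP P1 g * VP P2 g * (C0 ^ ((f ∩ P1).card + 1) / c ^ 2) := by ring
    _ ≤ _ := mul_le_mul_of_nonneg_left a7 (mul_nonneg hV1 hV2)

theorem comb_low {a d l u V1 V2 : ℝ} (h1 : V1 ≤ a) (h2 : a - d ≤ V1) (h3 : 0 ≤ d) (h4 : l ≤ V2)
    (h5 : V2 ≤ u) (h6 : 0 ≤ V1) (h7 : 0 ≤ V2) : a * l - d * u ≤ V1 * V2 := by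
  rcases le_total l 0 with h | h
  · have b1 : a * l ≤ 0 := mul_nonpos_of_nonneg_of_nonpos (h6.trans h1) h
    have b2 : 0 ≤ d * u := mul_nonneg h3 (h7.trans h5)
    have b3 : 0 ≤ V1 * V2 := mul_nonneg h6 h7
    linarith
  · have b1 : a * l ≤ (V1 + d) * l := mul_le_mul_of_nonneg_right (by linarith) h
    have b2 : V1 * l ≤ V1 * V2 := mul_le_mul_of_nonneg_left h4 h6
    have b3 : d * l ≤ d * u := mul_le_mul_of_nonneg_left (h4.trans h5) h3
    linarith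

theorem t_COMB (hRT : S_RT) (hMR2 : S_MR2) (hTAB : S_TAB) (hRS : S_RS) (hFL : S_FL) :
    S_COMB := by
  classical
  obtain ⟨s, C0, hs, hC0, HF⟩ := hFL (1 / 200) (by norm_num)
  obtain ⟨pa, qa, hT, hT2⟩ := hTAB
  have hs1 : (1 : ℝ) ≤ s := by exact_mod_cast hs
  obtain ⟨δ, hδ, HR⟩ := hRS pa qa (1001 / 1000) (194 * s) (27 / 100) (24 / 100) hT (by norm_num)
    (by positivity) hT2
  have hgg := hRT.2.2.2.2.1
  set c : ℝ := 1 / (160 * s) with hc
  have hc0 : 0 < c := by positivity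
  have hc1 : c ≤ 1 := by
    rw [hc, div_le_one (by positivity)]; linarith
  have hc2 : c ^ 2 ≤ 1 := pow_le_one₀ hc0.le hc1
  refine ⟨C0 / c ^ 2, (one_le_div (by positivity)).2 (hc2.trans hC0), ?_⟩
  have he : (0 : ℝ) < 1 / (400 * s) := by positivity
  have hreg := (tendsto_rpow_atTop he).eventually (hMR2.1 (min δ (1 / 2)) (lt_min hδ (by norm_num)))
  filter_upwards [hreg, ev_const 2 he, ev_const 9 (show (0 : ℝ) < 1 / 200 by norm_num),
    ev_const 2 (show (0 : ℝ) < 1 / 25 by norm_num), eventually_gt_atTop 1] with y hreg hw2 h9 h2 hy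
  have hy0 : 0 < y := by linarith
  have hly : 0 < Real.log y := Real.log_pos hy
  set w : ℝ := y ^ (1 / (400 * s) : ℝ) with hw
  set D : ℝ := y ^ (97 / 200 : ℝ) with hD
  set z' : ℝ := (⌊zz y⌋₊ : ℝ) + 1 with hz'
  have hwz : w ≤ zz y := by
    refine Real.rpow_le_rpow_of_exponent_le hy.le ?_
    rw [div_le_iff₀ (by positivity)]
    linarith
  have hz1 : zz y < z' := Nat.lt_floor_add_one _
  have hz0 : 0 ≤ zz y := by linarith
  have hz2 : z' ≤ 2 * zz y := by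
    have := Nat.floor_le hz0
    linarith
  have hlt : ∀ p : ℕ, (p : ℝ) < z' ↔ (p : ℝ) ≤ zz y := fun p => by
    rw [← Nat.le_floor_iff hz0, hz', ← Nat.cast_succ, Nat.cast_lt, Nat.lt_succ_iff]
  set P1 := PL w with hP1
  set P2 := (PL (zz y)).filter fun p : ℕ => w < p with hP2
  have m2 : ∀ p : ℕ, p ∈ P2 ↔ p.Prime ∧ w < p ∧ (p : ℝ) < z' := fun p => by
    rw [hP2, mem_filter, mem_PL hz0, hlt]
    tauto
  have m1 : ∀ p : ℕ, p ∈ P1 ↔ (p : ℝ) ≤ w ∧ p.Prime := fun p => mem_PL (by linarith)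
  have hU : PL (zz y) = P1 ∪ P2 := by
    ext p
    rw [mem_union, m1, m2, hlt, mem_PL hz0]
    constructor
    · rintro ⟨a, b⟩
      rcases le_or_gt (p : ℝ) w with h | h
      exacts [Or.inl ⟨h, b⟩, Or.inr ⟨b, h, a⟩]
    · rintro (⟨a, b⟩ | ⟨a, -, b⟩)
      exacts [⟨a.trans hwz, b⟩, ⟨b, a⟩]
  have hd : Disjoint P1 P2 := disjoint_left.2 fun p a b =>
    absurd ((m1 p).1 a).1 (not_le.2 ((m2 p).1 b).2.1)
  have R2 := hreg z' P2 m2
  have hg2 : ∀ p ∈ P2, 0 ≤ gg p ∧ gg p ≤ 1 / 2 := fun p hp =>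
    ⟨(hgg p ((m2 p).1 hp).1).1, (hgg p ((m2 p).1 hp).1).2.1⟩
  have hA : Adm P1 gg := fun p hp =>
    ⟨(hgg p ((m1 p).1 hp).2).1, (hgg p ((m1 p).1 hp).2).2.1, (hgg p ((m1 p).1 hp).2).2.2.1⟩
  have lw : Real.log w = 1 / (400 * s) * Real.log y := Real.log_rpow hy0 _
  have hz3 : z' ^ 3 < D := by
    have e1 : zz y ^ 3 = y ^ (12 / 25 : ℝ) := by
      rw [zz, ← Real.rpow_natCast, ← Real.rpow_mul hy0.le]; norm_num
    have e2 : D = y ^ (1 / 200 : ℝ) * y ^ (12 / 25 : ℝ) := by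
      rw [hD, ← Real.rpow_add hy0]; norm_num
    have e3 : 0 < y ^ (12 / 25 : ℝ) := by positivity
    calc z' ^ 3 ≤ (2 * zz y) ^ 3 := pow_le_pow_left₀ (by linarith) hz2 3
      _ = 8 * y ^ (12 / 25 : ℝ) := by rw [mul_pow, e1]; norm_num
      _ < D := by rw [e2]; nlinarith
  obtain ⟨lU, lL, sU, sL, hx2, hU2, hL2⟩ := HR P2 gg w z' D hw2 (by linarith)
    (fun p hp => ⟨((m2 p).1 hp).2.1.le, ((m2 p).1 hp).2.2⟩) hg2 (R2.mono (min_le_left _ _)) hz3
    (by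
      rw [lw, hD, Real.log_rpow hy0]
      refine le_of_eq ?_
      field_simp
      ring)
  obtain ⟨lam, Del, sl, sD, hx1, hG⟩ := HF w hw2
  obtain ⟨hDel, tl, tD⟩ := hG gg hA
  have hQ : w ^ s * D ≤ QQ y := by
    rw [hw, ← Real.rpow_natCast, ← Real.rpow_mul hy0.le, hD, ← Real.rpow_add hy0, QQ]
    refine Real.rpow_le_rpow_of_exponent_le hy.le ?_
    have : 1 / (400 * (s : ℝ)) * s = 1 / 400 := by field_simp
    rw [this]
    norm_num
  have hV1 : 0 ≤ VP P1 gg := VP_nonneg fun p hp => by linarith [(hA p hp).2.1]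
  have hV2 : c ≤ VP P2 gg := by
    have r := R2.mono (min_le_right _ _) w z' le_rfl (by linarith) le_rfl
    rw [filter_true_of_mem fun p hp => ⟨((m2 p).1 hp).2.1.le, ((m2 p).1 hp).2.2⟩, abs_le] at r
    have v0 : 0 ≤ VP P2 gg := VP_nonneg fun p hp => by linarith [(hg2 p hp).2]
    have lz : Real.log z' ≤ 1 / 5 * Real.log y := by
      rw [← Real.log_rpow hy0]
      refine Real.log_le_log (by linarith) (hz2.trans ?_)
      have e : y ^ (1 / 5 : ℝ) = y ^ (1 / 25 : ℝ) * zz y := by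
        rw [zz, ← Real.rpow_add hy0]; norm_num
      rw [e]
      exact mul_le_mul_of_nonneg_right h2 hz0
    have lq : Real.log z' / Real.log w ≤ 80 * s := by
      rw [div_le_iff₀ (Real.log_pos (by linarith)), lw]
      refine lz.trans (le_of_eq ?_)
      field_simp
      ring
    have := mul_le_mul_of_nonneg_left lq v0
    rw [hc, div_le_iff₀ (by positivity)]
    linarith [r.1]
  have hV2' : 0 ≤ VP P2 gg := hc0.le.trans hV2
  have u01 : Unit01 fun p => if p ∈ P1 then gg p else 0 := fun p => by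
    dsimp only
    split_ifs with h
    · exact ⟨(hA p h).1, by linarith [(hA p h).2.1]⟩
    · norm_num
  have u02 : Unit01 fun p => if p ∈ P2 then gg p else 0 := fun p => by
    dsimp only
    split_ifs with h
    · exact ⟨(hg2 p h).1, by linarith [(hg2 p h).2]⟩
    · norm_num
  have cev : ∀ (P : Finset ℕ) (l : Finset ℕ → ℝ),
      ev P l (fun p => if p ∈ P then gg p else 0) = ev P l gg := fun P l =>
    sum_congr rfl fun E hE => congrArg _ (prod_congr rfl fun p hp => if_pos (mem_powerset.1 hE hp))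
  have cV : ∀ P : Finset ℕ, VP P (fun p => if p ∈ P then gg p else 0) = VP P gg := fun P =>
    prod_congr rfl fun p hp => by simp only [if_pos hp]
  have g1 := hx1 _ u01
  have g2 := hx2 _ u02
  rw [cev, cev, cV] at g1 g2
  rw [hU]
  refine ⟨tens P1 P2 lam lU, tens P1 P2 lam lL, tens P1 P2 Del lU, ?_, ?_, ?_, ?_⟩
  · intro l hl
    simp only [List.mem_cons, List.not_mem_nil, or_false] at hl
    rcases hl with rfl | rfl | rfl
    · exact ⟨(sl.tens hd sU).mono hQ, comb_twb hd tl sU.1 hg2 hV1 hc0 hc1 hV2 hC0⟩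
    · exact ⟨(sl.tens hd sL).mono hQ, comb_twb hd tl sL.1 hg2 hV1 hc0 hc1 hV2 hC0⟩
    · exact ⟨(sD.tens hd sU).mono hQ, comb_twb hd tD sU.1 hg2 hV1 hc0 hc1 hV2 hC0⟩
  · intro x hx
    have ux : Unit01 x := fun p => by rcases hx p with h | h <;> rw [h] <;> norm_num
    obtain ⟨a1, a2, a3⟩ := hx1 x ux
    obtain ⟨b1, b2⟩ := hx2 x ux
    have v1 : 0 ≤ VP P1 x := VP_nonneg fun p _ => (ux p).2
    have v2 : 0 ≤ VP P2 x := VP_nonneg fun p _ => (ux p).2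
    rw [ev_tens hd, ev_tens hd, ev_tens hd, VP_union hd]
    exact ⟨comb_low a1 a2 a3 b1 b2 v1 v2, mul_le_mul a1 b2 v2 (v1.trans a1)⟩
  · rw [ev_tens hd, VP_union hd]
    have a1 : ev P1 lam gg ≤ (1 + 1 / 200) * VP P1 gg := by linarith [g1.2.1]
    calc _ ≤ (1 + 1 / 200) * VP P1 gg * ((1 + 27 / 100) * VP P2 gg) :=
          mul_le_mul a1 hU2 (hV2'.trans g2.2) (by positivity)
      _ ≤ _ := by nlinarith [mul_nonneg hV1 hV2']
  · rw [ev_tens hd, ev_tens hd, VP_union hd]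
    have a1 : VP P1 gg * ((1 - 24 / 100) * VP P2 gg) ≤ ev P1 lam gg * ev P2 lL gg :=
      mul_le_mul g1.1 hL2 (by positivity) (hV1.trans g1.1)
    have a2 : ev P1 Del gg * ev P2 lU gg ≤ 1 / 200 * VP P1 gg * ((1 + 27 / 100) * VP P2 gg) :=
      mul_le_mul hDel hU2 (hV2'.trans g2.2) (by positivity)
    nlinarith [mul_nonneg hV1 hV2']

end Pool.Agent.P.MP_e94e4b_nt.PF
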