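import Pool.Agent.P.MP_e94e4b_nt.PF.Basic

/-! Equidistribution and total mass of the switched sequence. -/

namespace Pool.Agent.P.MP_e94e4b_nt.PF

open Finset Real Filter Topology
open Pool.Agent.P.MP_e86632_nt (ee)
open Pool.Agent.P.MP_8be758_nt.Avg (gs Rough PL red ft en nsq gs_pos gs_le_one prime_of_mem_PL
  ev_pow ev_const ev_log)
open ArithmeticFunction (cardFactors)

/-- number of primes `a` with `a * b` in a class -/
noncomputable def EQ2_cnt (z : ℝ) (X1 X2 f r b : ℕ) : ℝ :=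
  (((Ioc ⌊max ((X1 : ℝ) / b) z⌋₊ ⌊(X2 : ℝ) / b⌋₊).filter
    fun a => a.Prime ∧ a * b ≡ r [MOD f]).card : ℝ)

/-- its expected value -/
noncomputable def EQ2_main (z : ℝ) (X1 X2 f b : ℕ) : ℝ :=
  if max ((X1 : ℝ) / b) z ≤ (X2 : ℝ) / b then
    ((X2 : ℝ) / b - max ((X1 : ℝ) / b) z) / (f.totient * Real.log (max ((X1 : ℝ) / b) z)) else 0

theorem EQ2_res {f b r : ℕ} (hf : 1 ≤ f) (hb : b.Coprime f) (a : ℕ) :
    a * b ≡ r [MOD f] ↔ a ≡ r * b ^ (f.totient - 1) [MOD f] := by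
  have h1 : b ^ (f.totient - 1) * b ≡ 1 [MOD f] := by
    rw [← pow_succ, Nat.sub_add_cancel (Nat.totient_pos.2 hf)]
    exact Nat.ModEq.pow_totient hb
  constructor
  · intro h
    have h2 := h.mul_right (b ^ (f.totient - 1))
    have h3 := h1.mul_left a
    rw [mul_one, mul_comm (b ^ _), ← mul_assoc] at h3
    exact h3.symm.trans h2
  · intro h
    have h2 := h.mul_right b
    have h3 := h1.mul_left r
    rw [mul_one, ← mul_assoc] at h3
    exact h2.trans h3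

theorem EQ2_be_nonneg (z : ℝ) (b : ℕ) : 0 ≤ be z b := by
  unfold be
  split_ifs
  exacts [by positivity, le_rfl]

theorem EQ2_be_rough {z : ℝ} {b : ℕ} (h : be z b ≠ 0) : Rough z b := by
  unfold be at h
  split_ifs at h with h1
  exacts [h1.2.1, absurd rfl h]

theorem EQ2_key (hPNT : S_PNT) {f : ℕ} {ε : ℝ} (hf : 1 ≤ f) (hε : 0 < ε) :
    ∀ᶠ y : ℝ in atTop, ∀ X1 X2 r b : ℕ, y ^ 2 / 2 ≤ X1 → (X2 : ℝ) ≤ 3 * y ^ 2 → r.Coprime f →
      be (zz y) b ≠ 0 → |EQ2_cnt (zz y) X1 X2 f r b - EQ2_main (zz y) X1 X2 f b| ≤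
        ε * (X2 / Real.log (zz y) * (1 / b)) := by
  obtain ⟨u0, hu⟩ := eventually_atTop.1 (hPNT f ε hf hε)
  filter_upwards [ev_zz u0, ev_zz f, ev_zz 2] with y h1 h2 h3 X1 X2 r b x1 x2 hr hb
  have hl : 0 < Real.log (zz y) := Real.log_pos (by linarith)
  have hc := (EQ2_be_rough hb).coprime_of_le hf h2
  unfold EQ2_cnt EQ2_main
  set u := max ((X1 : ℝ) / b) (zz y)
  have u1 : zz y ≤ u := le_max_right _ _
  have u2 : (X1 : ℝ) / b ≤ u := le_max_left _ _
  split_ifs with h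
  · have h4 : (X2 : ℝ) / b ≤ 8 * u := by
      have : (X2 : ℝ) / b ≤ 6 * X1 / b :=
        div_le_div_of_nonneg_right (by linarith) (Nat.cast_nonneg b)
      rw [mul_div_assoc] at this
      linarith
    have h5 := hu u (h1.trans u1) _ (r * b ^ (f.totient - 1)) h h4
      (Nat.Coprime.mul_left hr (hc.pow_left _))
    simp only [EQ2_res hf hc]
    refine h5.trans ?_
    rw [mul_div_assoc]
    refine mul_le_mul_of_nonneg_left ?_ hε.le
    calc u / Real.log u ≤ (X2 : ℝ) / b / Real.log (zz y) :=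
          div_le_div₀ (by positivity) h hl (Real.log_le_log (by linarith) u1)
      _ = _ := by ring
  · rw [Ioc_eq_empty_of_le (Nat.floor_le_floor (not_le.1 h).le)]
    simp only [filter_empty, card_empty, Nat.cast_zero, sub_zero, abs_zero]
    positivity

theorem EQ2_err (hG2 : S_G2) : ∃ C : ℝ, 0 < C ∧ ∀ᶠ y : ℝ in atTop, ∀ X2 : ℕ,
    (X2 : ℝ) ≤ 3 * y ^ 2 →
    ∑ b ∈ Icc 1 X2, be (zz y) b * (X2 / Real.log (zz y) * (1 / b)) ≤ C * y ^ 2 / Real.log y := by
  obtain ⟨C, hC, h⟩ := Pool.Agent.P.MP_8be758_nt.Avg.t_HR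
  refine ⟨400 * C, by positivity, ?_⟩
  filter_upwards [ev_zz 2, eventually_ge_atTop 3] with y h1 h2 X2 x2
  have hy : 0 < y := by linarith
  have hL : 0 < Real.log y := Real.log_pos (by linarith)
  have hl : 0 < Real.log (zz y) := Real.log_pos (by linarith)
  have h3 : zz y ≤ 3 * y ^ 2 := by
    have : zz y ≤ y := by
      conv_rhs => rw [← Real.rpow_one y]
      exact Real.rpow_le_rpow_of_exponent_le (by linarith) (by norm_num)
    nlinarith
  have h4 := (h _ _ h1 h3).2.2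
  have h5 : Real.log (3 * y ^ 2) ≤ 3 * Real.log y := by
    rw [Real.log_mul (by norm_num) (by positivity), Real.log_pow]
    have := Real.log_le_log (by norm_num) h2
    push_cast
    linarith
  have h6 : ∑ b ∈ Icc 1 X2, be (zz y) b * (1 / (b : ℝ)) ≤
      ∑ d ∈ (Icc 1 ⌊3 * y ^ 2⌋₊).filter (Rough (zz y)), 1 / (d : ℝ) := by
    rw [sum_filter]
    refine le_trans (sum_le_sum fun b _ => ?_) (sum_le_sum_of_subset_of_nonneg
      (Icc_subset_Icc_right (Nat.le_floor x2)) fun b _ _ => by split_ifs <;> positivity)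
    split_ifs with hb
    · exact mul_le_of_le_one_left (by positivity) ((le_abs_self _).trans ((hG2 _).2.1 b).1)
    · have : be (zz y) b = 0 := by
        by_contra h0
        exact hb (EQ2_be_rough h0)
      rw [this, zero_mul]
  have h7 : C * Real.log (3 * y ^ 2) / Real.log (zz y) ≤ 20 * C := by
    rw [div_le_iff₀ hl, log_zz hy]
    nlinarith [mul_le_mul_of_nonneg_left h5 hC.le, mul_pos hC hL]
  have h8 : X2 / Real.log (zz y) ≤ 20 * y ^ 2 / Real.log y := by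
    rw [log_zz hy, div_le_div_iff₀ (by positivity) hL]
    nlinarith [mul_le_mul_of_nonneg_right x2 hL.le, mul_pos (pow_pos hy 2) hL]
  calc ∑ b ∈ Icc 1 X2, be (zz y) b * (X2 / Real.log (zz y) * (1 / b))
      = X2 / Real.log (zz y) * ∑ b ∈ Icc 1 X2, be (zz y) b * (1 / (b : ℝ)) := by
        rw [mul_sum]
        exact sum_congr rfl fun b _ => by ring
    _ ≤ 20 * y ^ 2 / Real.log y * (20 * C) :=
        mul_le_mul h8 (h6.trans (h4.trans h7))
          (sum_nonneg fun b _ => mul_nonneg (EQ2_be_nonneg _ _) (by positivity)) (by positivity)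
    _ = _ := by ring

theorem EQ2_sum (hPNT : S_PNT) (hG2 : S_G2) (hDEC : S_DEC) {f : ℕ} {ε : ℝ} (hf : 1 ≤ f)
    (hε : 0 < ε) : ∀ᶠ y : ℝ in atTop, ∀ X1 X2 r : ℕ, y ^ 2 / 2 ≤ X1 → (X2 : ℝ) ≤ 3 * y ^ 2 →
      r.Coprime f → |∑ n ∈ (Ioc X1 X2).filter (· ≡ r [MOD f]), gam2 (zz y) n -
        ∑ b ∈ Icc 1 X2, be (zz y) b * EQ2_main (zz y) X1 X2 f b| ≤ ε * y ^ 2 / Real.log y := by
  obtain ⟨C, hC, h⟩ := EQ2_err hG2
  filter_upwards [h, EQ2_key hPNT hf (div_pos hε hC), ev_zz 0] with y h1 h2 h3 X1 X2 r x1 x2 hr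
  rw [hDEC _ X1 X2 f r h3, ← sum_sub_distrib]
  refine (abs_sum_le_sum_abs _ _).trans ?_
  calc _ ≤ ∑ b ∈ Icc 1 X2, ε / C * (be (zz y) b * (X2 / Real.log (zz y) * (1 / b))) := by
        refine sum_le_sum fun b _ => ?_
        rw [← mul_sub, abs_mul, abs_of_nonneg (EQ2_be_nonneg _ _), mul_left_comm]
        by_cases hb : be (zz y) b = 0
        · rw [hb, zero_mul, zero_mul]
        · exact mul_le_mul_of_nonneg_left (h2 X1 X2 r b x1 x2 hr hb) (EQ2_be_nonneg _ _)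
    _ ≤ ε / C * (C * y ^ 2 / Real.log y) := by
        rw [← mul_sum]
        exact mul_le_mul_of_nonneg_left (h1 X2 x2) (div_pos hε hC).le
    _ = _ := by field_simp

theorem t_EQ2 (hPNT : S_PNT) (hG2 : S_G2) (hDEC : S_DEC) : S_EQ2 := by
  intro R ε hε
  have h := (eventually_all_finset (Icc 1 R)).2 fun f hf =>
    EQ2_sum hPNT hG2 hDEC (mem_Icc.1 hf).1 (half_pos hε)
  filter_upwards [h] with y h1 X1 X2 x1 _ x2 f r r' f1 f2 hr hr'
  have h2 := h1 f (mem_Icc.2 ⟨f1, f2⟩) X1 X2 r x1 x2 hr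
  have h3 := h1 f (mem_Icc.2 ⟨f1, f2⟩) X1 X2 r' x1 x2 hr'
  have e : ε * y ^ 2 / Real.log y = ε / 2 * y ^ 2 / Real.log y + ε / 2 * y ^ 2 / Real.log y := by
    ring
  rw [abs_le] at h2 h3 ⊢
  constructor <;> linarith [h2.1, h2.2, h3.1, h3.2]

theorem t_MASS (hPNT : S_PNT) (hG2 : S_G2) (hDEC : S_DEC) (hMB : S_MB) : S_MASS := by
  intro ε hε
  filter_upwards [EQ2_sum hPNT hG2 hDEC le_rfl hε, hMB, ev_zz 2, eventually_gt_atTop 1]
    with y h1 h2 h3 hy X1 X2 x1 x12 x2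
  have h4 := (abs_le.1 (h1 X1 X2 0 x1 x2 (Nat.coprime_one_right 0))).2
  rw [filter_true_of_mem fun _ _ => Nat.modEq_one] at h4
  have h5 := h2 X1 x1
  have hL : 0 < Real.log y := Real.log_pos hy
  have hx : (0 : ℝ) ≤ (X2 : ℝ) - X1 := sub_nonneg.2 (Nat.cast_le.2 x12)
  have hl : ∀ b : ℕ, 0 < Real.log (max ((X1 : ℝ) / b) (zz y)) := fun b =>
    Real.log_pos (by linarith [le_max_right ((X1 : ℝ) / b) (zz y)])
  have h6 : ∑ b ∈ Icc 1 X2, be (zz y) b * EQ2_main (zz y) X1 X2 1 b ≤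
      ∑ b ∈ Icc 1 ⌊3 * y ^ 2 / zz y⌋₊,
        ((X2 : ℝ) - X1) * (be (zz y) b / b / Real.log (max ((X1 : ℝ) / b) (zz y))) := by
    simp only [EQ2_main, mul_ite, mul_zero]
    rw [← sum_filter]
    refine le_trans (sum_le_sum fun b _ => ?_) (sum_le_sum_of_subset_of_nonneg
      (fun b hb => ?_) fun b _ _ => ?_)
    · have b1 := le_max_left ((X1 : ℝ) / b) (zz y)
      have b2 := hl b
      rw [Nat.totient_one, Nat.cast_one, one_mul]
      calc _ ≤ be (zz y) b * (((X2 : ℝ) / b - X1 / b) / Real.log (max ((X1 : ℝ) / b) (zz y))) :=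
            mul_le_mul_of_nonneg_left (div_le_div_of_nonneg_right (by linarith) b2.le)
              (EQ2_be_nonneg _ _)
        _ = _ := by ring
    · obtain ⟨b1, b2⟩ := mem_filter.1 hb
      have b3 := (mem_Icc.1 b1).1
      have b4 : (0 : ℝ) < b := by exact_mod_cast b3
      refine mem_Icc.2 ⟨b3, Nat.le_floor ?_⟩
      have b5 := (le_max_right _ _).trans b2
      rw [le_div_iff₀ b4] at b5
      rw [le_div_iff₀ (by linarith)]
      linarith
    · have := EQ2_be_nonneg (zz y) b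
      have := hl b
      positivity
  rw [← mul_sum] at h6
  have h7 := mul_le_mul_of_nonneg_left h5 hx
  have h8 : 0 ≤ ((X2 : ℝ) - X1) / (2 * Real.log y) := by positivity
  have e : ((X2 : ℝ) - X1) * (44 / 100 / (2 * Real.log y)) =
      44 / 100 * (((X2 : ℝ) - X1) / (2 * Real.log y)) := by ring
  linarith

end Pool.Agent.P.MP_e94e4b_nt.PF
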