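import Pool.Agent.P.MP_e94e4b_nt.PF.Basic

/-! Expansion of the sieve weights on the partners into a main term and a discrepancy. -/

namespace Pool.Agent.P.MP_e94e4b_nt.PF

open Finset Real Filter Topology
open Pool.Agent.P.MP_e86632_nt (ee)
open Pool.Agent.P.MP_8be758_nt.Avg (gs Rough PL red ft en nsq gs_pos gs_le_one prime_of_mem_PL
  ev_pow ev_const ev_log)
open ArithmeticFunction (cardFactors)

theorem EXP_one (hRT : S_RT) {z : ℝ} {n : ℕ} (hn : Rough z n) {E : Finset ℕ} (hE : E ⊆ PL z) :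
    (rh (pr E) n : ℝ) / pr E =
      ∑ f ∈ E.powerset, ((∏ p ∈ f, xi p n) / pr f) * ∏ p ∈ E \ f, gg p := by
  have hp : ∀ p ∈ E, p.Prime := fun p hp => prime_of_mem_PL (hE hp)
  have h1 : (rh (pr E) n : ℝ) / pr E = ∏ p ∈ E, (xi p n / p + gg p) := by
    rw [hRT.2.1 E n hp, pr_cast, Nat.cast_prod, ← prod_div_distrib]
    refine prod_congr rfl fun p hpE => ?_
    have h0 : (p : ℝ) ≠ 0 := Nat.cast_ne_zero.2 (hp p hpE).ne_zero
    have h2 : ¬ p ∣ n := Pool.Agent.P.MP_8be758_nt.Avg.rough_iff.1 hn p (hE hpE)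
    rw [xi, if_neg h2]
    field_simp
    ring
  rw [h1, prod_add]
  refine sum_congr rfl fun f _ => ?_
  rw [prod_div_distrib, pr_cast]

theorem EXP_main (hRT : S_RT) {z : ℝ} {n : ℕ} (hn : Rough z n) (lam : Finset ℕ → ℝ) :
    ∑ E ∈ (PL z).powerset, lam E * ((rh (pr E) n : ℝ) / pr E) =
      ∑ f ∈ (PL z).powerset, tw (PL z) lam gg f / pr f * ∏ p ∈ f, xi p n := by
  rw [sum_congr rfl fun E hE => by rw [EXP_one hRT hn (mem_powerset.1 hE), mul_sum]]
  rw [sum_comm' (t' := (PL z).powerset) (s' := fun f => (PL z).powerset.filter (f ⊆ ·))]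
  · refine sum_congr rfl fun f _ => ?_
    rw [tw, sum_div, sum_mul]
    refine sum_congr rfl fun E _ => ?_
    ring
  · intro E f
    simp only [mem_powerset, mem_filter]
    exact ⟨fun h => ⟨⟨h.1, h.2⟩, h.2.trans h.1⟩, fun h => ⟨h.1.1, h.1.2⟩⟩

theorem t_EXP (hRT : S_RT) : S_EXP := by
  intro K z Q I γ lam hγ hl
  have h1 : ∑ n ∈ I, γ n * SS K (PL z) lam n -
      ∑ f ∈ (PL z).powerset, tw (PL z) lam gg f / pr f * ∑ n ∈ I, γ n * ∏ p ∈ f, xi p n =
      ∑ E ∈ (PL z).powerset, lam E *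
        ∑ n ∈ I.filter (fun n => n.Coprime (pr E)), γ n * Dl K (pr E) n := by
    simp only [mul_sum, sum_filter]
    rw [sum_comm (s := (PL z).powerset), sum_comm (s := (PL z).powerset), ← sum_sub_distrib]
    refine sum_congr rfl fun n hn => ?_
    by_cases h0 : γ n = 0
    · simp [h0]
    have hr := hγ n hn h0
    have h2 : ∑ f ∈ (PL z).powerset, tw (PL z) lam gg f / pr f * (γ n * ∏ p ∈ f, xi p n) =
        γ n * ∑ E ∈ (PL z).powerset, lam E * ((rh (pr E) n : ℝ) / pr E) := by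
      rw [EXP_main hRT hr, mul_sum]
      exact sum_congr rfl fun f _ => by ring
    rw [h2, SS, mul_sum, mul_sum, ← sum_sub_distrib]
    refine sum_congr rfl fun E hE => ?_
    rw [if_pos (coprime_pr hr (mem_powerset.1 hE)), Dl]
    ring
  rw [h1, ← sum_filter_of_ne (p := fun E => lam E ≠ 0) fun E _ h => left_ne_zero_of_mul h]
  refine (abs_sum_le_sum_abs _ _).trans (le_trans (sum_le_sum fun E _ => ?_)
    (sum_pr_le (S := (PL z).powerset.filter fun E => lam E ≠ 0) (T := SQ Q)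
      (F := fun q => |∑ n ∈ I.filter (fun n => n.Coprime q), γ n * Dl K q n|)
      (fun E hE p hp => prime_of_mem_PL (mem_powerset.1 (mem_filter.1 hE).1 hp))
      (fun E hE => ?_) fun _ _ => abs_nonneg _))
  · rw [abs_mul]
    exact mul_le_of_le_one_left (abs_nonneg _) (hl.1 E)
  · have hE' := mem_powerset.1 (mem_filter.1 hE).1
    exact mem_SQ.2 ⟨squarefree_pr fun p hp => prime_of_mem_PL (hE' hp),
      hl.2 E hE' (mem_filter.1 hE).2⟩

end Pool.Agent.P.MP_e94e4b_nt.PF
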