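import Pool.Agent.P.MP_e94e4b_nt.PF.Basic
import Pool.Agent.P.MP_e86632_nt.Lam

/-! The majorant for rough squarefree numbers with at least five prime factors. -/

namespace Pool.Agent.P.MP_e94e4b_nt.PF

open Finset Real Filter Topology
open Pool.Agent.P.MP_8be758_nt.Avg (gs Rough PL red ft en nsq rough_mul rough_prime)
open ArithmeticFunction (cardFactors)

theorem G2_al (z : ℝ) (a : ℕ) : 0 ≤ al z a ∧ al z a ≤ 1 := by
  unfold al; split_ifs <;> norm_num

theorem G2_be (z : ℝ) (b : ℕ) : 0 ≤ be z b ∧ be z b ≤ 1 / ((cardFactors b : ℝ) + 1) := by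
  unfold be; split_ifs
  · exact ⟨by positivity, le_rfl⟩
  · exact ⟨le_rfl, by positivity⟩

theorem G2_al_ne {z : ℝ} {a : ℕ} (h : al z a ≠ 0) : a.Prime ∧ z < a := by
  by_contra h1
  exact h (if_neg h1)

theorem G2_be_ne {z : ℝ} {b : ℕ} (h : be z b ≠ 0) :
    Squarefree b ∧ Rough z b ∧ 4 ≤ cardFactors b := by
  by_contra h1
  exact h (if_neg h1)

theorem G2_eq (z : ℝ) (n : ℕ) : gam2 z n = ∑ a ∈ n.primeFactors, al z a * be z (n / a) := by
  rw [gam2, cv, Nat.sum_divisorsAntidiagonal (fun a b => al z a * be z b),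
    Nat.primeFactors_eq_to_filter_divisors_prime, sum_filter]
  refine sum_congr rfl fun a _ => ?_
  split_ifs with h
  · rfl
  · rw [al, if_neg fun h1 => h h1.1, zero_mul]

theorem G2_om {n a : ℕ} (h : a ∈ n.primeFactors) : cardFactors (n / a) + 1 = cardFactors n := by
  obtain ⟨h1, ⟨b, rfl⟩, h3⟩ := Nat.mem_primeFactors.1 h
  rw [Nat.mul_div_cancel_left _ h1.pos,
    ArithmeticFunction.cardFactors_mul h1.ne_zero (right_ne_zero_of_mul h3),
    ArithmeticFunction.cardFactors_apply_prime h1, add_comm]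

theorem t_G2 : S_G2 := by
  refine fun z => ⟨fun a => ⟨?_, fun h => (G2_al_ne h).2⟩, fun b => ⟨?_, fun h => ?_⟩, fun n =>
    ⟨?_, ?_, fun h => ?_, fun h1 h2 h3 => ?_⟩⟩
  · rw [abs_of_nonneg (G2_al z a).1]; exact (G2_al z a).2
  · rw [abs_of_nonneg (G2_be z b).1]
    exact (G2_be z b).2.trans ((div_le_one (by positivity)).2 (by simp))
  · obtain ⟨h1, h2, h3⟩ := G2_be_ne h
    refine h2.lt ?_
    rcases b with _ | _ | b
    · simp at h3
    · simp at h3
    · omega
  · rw [gam2, cv]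
    exact sum_nonneg fun d _ => mul_nonneg (G2_al _ _).1 (G2_be _ _).1
  · have h1 : n.primeFactors.card ≤ cardFactors n := List.toFinset_card_le _
    calc gam2 z n ≤ ∑ _a ∈ n.primeFactors, 1 / (cardFactors n : ℝ) := by
          rw [G2_eq]
          refine sum_le_sum fun a ha => ?_
          rw [← G2_om ha]
          push_cast
          exact (mul_le_of_le_one_left (G2_be _ _).1 (G2_al _ _).2).trans (G2_be _ _).2
      _ = n.primeFactors.card / (cardFactors n : ℝ) := by
          rw [sum_const, nsmul_eq_mul, mul_one_div]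
      _ ≤ 1 := div_le_one_of_le₀ (by exact_mod_cast h1) (Nat.cast_nonneg _)
  · rw [gam2, cv] at h
    obtain ⟨d, hd, h1⟩ := exists_ne_zero_of_sum_ne_zero h
    have h2 := G2_al_ne (left_ne_zero_of_mul h1)
    rw [← (Nat.mem_divisorsAntidiagonal.1 hd).1]
    exact rough_mul.2 ⟨(rough_prime h2.1).2 h2.2, (G2_be_ne (right_ne_zero_of_mul h1)).2.1⟩
  · have h4 : n.primeFactors.card = cardFactors n :=
      (List.card_toFinset _).trans
        ((ArithmeticFunction.cardDistinctFactors_eq_cardFactors_iff_squarefree h1.ne_zero).2 h1)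
    have h5 : (0 : ℝ) < cardFactors n := by exact_mod_cast (by omega : 0 < cardFactors n)
    have h6 : gam2 z n = ∑ _a ∈ n.primeFactors, 1 / (cardFactors n : ℝ) := by
      rw [G2_eq]
      refine sum_congr rfl fun a ha => ?_
      have h7 := G2_om ha
      obtain ⟨p1, p2, _⟩ := Nat.mem_primeFactors.1 ha
      have h8 := Nat.div_dvd_of_dvd p2
      rw [al, if_pos ⟨p1, h2 a p1 p2⟩, be,
        if_pos ⟨h1.squarefree_of_dvd h8, h2.of_dvd h8, by omega⟩, ← h7]
      push_cast
      rw [one_mul]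
    rw [h6, sum_const, nsmul_eq_mul, h4, mul_one_div, div_self h5.ne']

theorem t_DEC : S_DEC := by
  intro z X1 X2 f r hz
  have h1 : (Ioc X1 X2).filter (· ≡ r [MOD f]) =
      (Ioc 0 X2).filter fun n => X1 < n ∧ n ≡ r [MOD f] := by
    ext n
    simp only [mem_filter, mem_Ioc]
    constructor
    · rintro ⟨⟨a, b⟩, c⟩
      exact ⟨⟨by omega, b⟩, a, c⟩
    · rintro ⟨⟨_, b⟩, a, c⟩
      exact ⟨⟨a, b⟩, c⟩
  have h2 := MP_e86632_nt.sum_antidiag
    (fun b a => if X1 < b * a ∧ b * a ≡ r [MOD f] then be z b * al z a else 0) X2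
  rw [h1, sum_filter]
  refine Eq.trans (sum_congr rfl fun n _ => ?_) (h2.trans (sum_congr rfl fun b hb => ?_))
  · rw [gam2, cv_comm, cv]
    split_ifs with h
    · exact sum_congr rfl fun d hd => (if_pos ((Nat.mem_divisorsAntidiagonal.1 hd).1 ▸ h)).symm
    · exact (sum_eq_zero fun d hd => if_neg ((Nat.mem_divisorsAntidiagonal.1 hd).1 ▸ h)).symm
  · have hb0 : 0 < b := (mem_Ioc.1 hb).1
    have hb1 : (0 : ℝ) < b := by exact_mod_cast hb0
    rw [card_eq_sum_ones, Nat.cast_sum, mul_sum, ← sum_filter, Nat.floor_div_natCast,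
      Nat.floor_natCast]
    symm
    refine sum_subset_zero_on_sdiff (fun a ha => ?_) (fun a ha => ?_) fun a ha => ?_
    · simp only [mem_filter, mem_Ioc] at ha ⊢
      rw [Nat.floor_lt (le_max_of_le_right hz), max_lt_iff, div_lt_iff₀ hb1] at ha
      refine ⟨⟨ha.2.1.pos, ha.1.2⟩, ?_, mul_comm a b ▸ ha.2.2⟩
      rw [mul_comm]
      exact_mod_cast ha.1.1.1
    · rw [Finset.mem_sdiff] at ha
      simp only [mem_filter, mem_Ioc] at ha
      rw [Nat.floor_lt (le_max_of_le_right hz), max_lt_iff, div_lt_iff₀ hb1] at ha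
      rw [al, if_neg, mul_zero]
      refine fun h => ha.2 ⟨⟨⟨?_, h.2⟩, ha.1.1.2⟩, h.1, mul_comm b a ▸ ha.1.2.2⟩
      rw [mul_comm]
      exact_mod_cast ha.1.2.1
    · simp only [mem_filter, mem_Ioc] at ha
      rw [Nat.floor_lt (le_max_of_le_right hz), max_lt_iff] at ha
      rw [al, if_pos ⟨ha.2.1, ha.1.1.2⟩, Nat.cast_one]

end Pool.Agent.P.MP_e94e4b_nt.PF
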