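import Pool.Agent.P.MP_e94e4b_nt.PF.Basic

/-! Expansion of the sum over the roots in primitive characters. -/

namespace Pool.Agent.P.MP_e94e4b_nt.PF

open Finset Real Filter Topology

open DirichletCharacter

theorem GB1_orth {q : ℕ} [NeZero q] {m : ℕ} (hm : m.Coprime q) (n : ℕ) :
    ∑ χ : DirichletCharacter ℂ q, (starRingEnd ℂ) (χ m) * χ n =
      if m ≡ n [MOD q] then (q.totient : ℂ) else 0 := by
  have hu : IsUnit (m : ZMod q) := (ZMod.isUnit_iff_coprime m q).2 hm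
  have h := sum_char_inv_mul_char_eq ℂ hu (n : ZMod q)
  simp only [ZMod.natCast_eq_natCast_iff] at h
  rw [← h]
  refine sum_congr rfl fun χ _ => ?_
  have h1 : (starRingEnd ℂ) (χ m) = (χ m)⁻¹ := by
    rw [← MulChar.inv_apply_eq_inv', ← MulChar.star_apply']
    rfl
  have h2 : χ (m : ZMod q)⁻¹ * χ m = 1 := by rw [← map_mul, ZMod.inv_mul_of_unit _ hu, map_one]
  rw [h1, eq_inv_of_mul_eq_one_left h2]

theorem GB1_level {q f : ℕ} (hf : f ∣ q) (ψ : DirichletCharacter ℂ f) {m : ℕ} (hm : m.Coprime q) :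
    changeLevel hf ψ (m : ZMod q) = ψ (m : ZMod f) := by
  have h := changeLevel_eq_cast_of_dvd' ψ hf (a := (m : ℤ)) (Nat.isCoprime_iff_coprime.2 hm)
  simpa using h

theorem GB1_prim {q : ℕ} [NeZero q] {m n : ℕ} (hm : m.Coprime q) (hn : n.Coprime q) :
    ∑ f ∈ q.divisors, ∑ ψ ∈ prim f, (starRingEnd ℂ) (ψ (m : ZMod f)) * ψ (n : ZMod f) =
      if m ≡ n [MOD q] then (q.totient : ℂ) else 0 := by
  rw [← GB1_orth hm n, ← sum_fiberwise_of_maps_to (s := univ) (t := q.divisors)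
    (g := fun χ : DirichletCharacter ℂ q => χ.conductor)
    fun χ _ => Nat.mem_divisors.2 ⟨χ.conductor_dvd_level, NeZero.ne q⟩]
  refine sum_congr rfl fun f hf => ?_
  have hd := Nat.dvd_of_mem_divisors hf
  refine sum_bij (fun ψ _ => changeLevel hd ψ) (fun ψ hψ => ?_) (fun a _ b _ h => ?_)
    (fun χ hχ => ?_) fun ψ _ => ?_
  · rw [mem_filter, conductor_changeLevel]
    exact ⟨mem_univ _, mem_prim.1 hψ⟩
  · exact changeLevel_injective hd h
  · obtain ⟨-, rfl⟩ := mem_filter.1 hχ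
    exact ⟨χ.primitiveCharacter, mem_prim.2 χ.primitiveCharacter_isPrimitive,
      χ.changeLevel_primitiveCharacter⟩
  · rw [GB1_level hd ψ hm, GB1_level hd ψ hn]

theorem t_GB1 : S_GB1 := by
  intro q n h hq hn
  have : NeZero q := ⟨by omega⟩
  have h0 : (q.totient : ℂ) ≠ 0 := by exact_mod_cast (Nat.totient_pos.2 hq).ne'
  have e1 : ∑ f ∈ q.divisors, ∑ ψ ∈ prim f, GG q f ψ h * ψ (n : ZMod f) =
      ∑ ν ∈ (range q).filter (fun ν => (mN ν).Coprime q),
        (if mN ν ≡ n [MOD q] then (q.totient : ℂ) else 0) * MP_e86632_nt.ee (-(h * (ν + 1 / 2) / q)) := by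
    simp only [GG, sum_mul]
    rw [sum_congr rfl fun f _ => sum_comm, sum_comm]
    refine sum_congr rfl fun ν hν => ?_
    rw [← GB1_prim (mem_filter.1 hν).2 hn]
    simp only [sum_mul]
    exact sum_congr rfl fun f _ => sum_congr rfl fun ψ _ => by ring
  have e2 : rts q n = ((range q).filter fun ν => (mN ν).Coprime q).filter
      fun ν => mN ν ≡ n [MOD q] := by
    ext ν
    rw [mem_rts, mem_filter, mem_filter, mem_range]
    refine ⟨fun h => ⟨⟨h.1, ?_⟩, h.2⟩, fun h => ⟨h.1.1, h.2⟩⟩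
    rw [Nat.Coprime, h.2.gcd_eq]
    exact hn
  rw [e1, e2, sum_filter, mul_sum]
  refine sum_congr rfl fun ν _ => ?_
  split_ifs
  · push_cast
    field_simp
  · simp

end Pool.Agent.P.MP_e94e4b_nt.PF
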