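import Pool.Agent.P.MP_e94e4b_nt.PF.GB1

/-! Mean values of the complete sums. -/

namespace Pool.Agent.P.MP_e94e4b_nt.PF

open Finset Real Filter Topology
open DirichletCharacter

theorem GB2_sq (S : Finset ℕ) (a : ℕ → ℂ) :
    ((‖∑ ν ∈ S, a ν‖ ^ 2 : ℝ) : ℂ) = ∑ ν ∈ S, ∑ μ ∈ S, a ν * (starRingEnd ℂ) (a μ) := by
  rw [← sum_mul_sum, ← map_sum, Complex.mul_conj, Complex.normSq_eq_norm_sq]

theorem GB2_win {q : ℕ} (hq : 1 ≤ q) {S : Finset ℕ} (hS : S ⊆ range q) {c : ℕ → ℂ}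
    (hc : ∀ ν, ‖c ν‖ ≤ 1) (a : ℕ) :
    ∑ r ∈ range q, ‖∑ ν ∈ S, c ν * MP_e86632_nt.ee (-((a + r : ℕ) * (ν + 1 / 2) / q))‖ ^ 2 ≤
      (q : ℝ) * q := by
  have hq0 : (q : ℝ) ≠ 0 := by positivity
  have e : ((∑ r ∈ range q,
      ‖∑ ν ∈ S, c ν * MP_e86632_nt.ee (-((a + r : ℕ) * (ν + 1 / 2) / q))‖ ^ 2 : ℝ) : ℂ) =
      ((∑ ν ∈ S, q * ‖c ν‖ ^ 2 : ℝ) : ℂ) := by
    rw [Complex.ofReal_sum, Complex.ofReal_sum]
    simp only [GB2_sq]
    rw [sum_comm]
    refine sum_congr rfl fun ν hν => ?_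
    rw [sum_comm]
    have e1 : ∀ μ ∈ S, ∑ r ∈ range q, c ν * MP_e86632_nt.ee (-((a + r : ℕ) * (ν + 1 / 2) / q)) *
        (starRingEnd ℂ) (c μ * MP_e86632_nt.ee (-((a + r : ℕ) * (μ + 1 / 2) / q))) =
        if ν = μ then c ν * (starRingEnd ℂ) (c μ) * MP_e86632_nt.ee (a * (μ - ν) / q) * q
        else 0 := by
      intro μ hμ
      have h1 := MP_8be758_nt.Avg.t_FAR.2.1 q ((μ : ℤ) - ν) hq
      have h2 : (q : ℤ) ∣ (μ : ℤ) - ν ↔ ν = μ := by
        rw [← Nat.modEq_iff_dvd]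
        exact ⟨fun h => Nat.ModEq.eq_of_lt_of_lt h (mem_range.1 (hS hν)) (mem_range.1 (hS hμ)),
          fun h => h ▸ Nat.ModEq.refl _⟩
      simp only [h2] at h1
      rw [← mul_zero (c ν * (starRingEnd ℂ) (c μ) * MP_e86632_nt.ee (a * (μ - ν) / q)), ← mul_ite,
        ← h1, mul_sum]
      refine sum_congr rfl fun r _ => ?_
      rw [map_mul, ← MP_e86632_nt.ee_neg, mul_mul_mul_comm, ← MP_e86632_nt.ee_add, mul_assoc _
        (MP_e86632_nt.ee _), ← MP_e86632_nt.ee_add]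
      congr 2
      push_cast
      field_simp
      ring
    rw [sum_congr rfl e1, sum_ite_eq, if_pos hν, sub_self, mul_zero, zero_div,
      MP_e86632_nt.ee_zero, Complex.mul_conj, Complex.normSq_eq_norm_sq]
    push_cast
    ring
  rw [Complex.ofReal_injective e]
  have h3 : ∑ ν ∈ S, (q : ℝ) * ‖c ν‖ ^ 2 ≤ S.card • (q : ℝ) :=
    sum_le_card_nsmul _ _ _ fun ν _ =>
      mul_le_of_le_one_right (Nat.cast_nonneg q) (pow_le_one₀ (norm_nonneg _) (hc ν))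
  have h4 : (S.card : ℝ) ≤ q := by exact_mod_cast (card_le_card hS).trans (card_range q).le
  rw [nsmul_eq_mul] at h3
  exact h3.trans (mul_le_mul_of_nonneg_right h4 (Nat.cast_nonneg q))

theorem GB2_cover {F : ℕ → ℝ} {q : ℕ} {B : ℝ} (h : ∀ a, ∑ r ∈ range q, F (a + r) ≤ B) (H j : ℕ) :
    ∑ r ∈ range (j * q), F (H + r) ≤ j * B := by
  induction j with
  | zero => simp
  | succ j ih =>
    rw [Nat.succ_mul, sum_range_add]
    have h1 := h (H + j * q)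
    simp only [add_assoc] at h1
    push_cast
    linarith

theorem GB2_one (q f H : ℕ) (ψ : DirichletCharacter ℂ f) (hq : 1 ≤ q) :
    ∑ h ∈ Ico H (2 * H), ‖GG q f ψ h‖ ^ 2 ≤ ((H : ℝ) + q) * q := by
  have h1 := GB2_cover (F := fun h => ‖GG q f ψ h‖ ^ 2) (q := q) (B := (q : ℝ) * q)
    (fun a => GB2_win hq (filter_subset _ _) (c := fun ν => (starRingEnd ℂ) (ψ (mN ν : ZMod f)))
      (fun ν => by rw [Complex.norm_conj]; exact ψ.norm_le_one _) a) H (H / q + 1)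
  have h2 : H ≤ (H / q + 1) * q := by
    rw [mul_comm]
    exact (Nat.lt_mul_div_succ H hq).le
  have h3 : ((H / q : ℕ) : ℝ) * q ≤ H := by exact_mod_cast Nat.div_mul_le_self H q
  rw [sum_Ico_eq_sum_range, show 2 * H - H = H by omega]
  refine (sum_le_sum_of_subset_of_nonneg (range_subset_range.2 h2) fun _ _ _ => by positivity).trans
    (h1.trans ?_)
  push_cast
  have h4 := mul_le_mul_of_nonneg_right h3 (Nat.cast_nonneg q : (0 : ℝ) ≤ q)
  linarith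

theorem GB2_two (hRT : S_RT) (q f h : ℕ) (hq : Squarefree q) (hf : f ∣ q) :
    ∑ ψ ∈ prim f, ‖GG q f ψ h‖ ^ 2 ≤ (q : ℝ) ^ 2 * f.divisors.card := by
  have : NeZero f := ⟨fun h0 => hq.ne_zero (Nat.eq_zero_of_zero_dvd (h0 ▸ hf))⟩
  obtain ⟨S, hS⟩ : ∃ S, S = (range q).filter fun ν => (mN ν).Coprime q := ⟨_, rfl⟩
  obtain ⟨E, hE⟩ : ∃ E : ℕ → ℂ, E = fun ν : ℕ => MP_e86632_nt.ee (-(h * (ν + 1 / 2) / q)) :=
    ⟨_, rfl⟩
  have hE1 : ∀ ν, ‖E ν‖ = 1 := fun ν => by rw [hE]; exact MP_e86632_nt.norm_ee _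
  have e : ((∑ ψ : DirichletCharacter ℂ f, ‖GG q f ψ h‖ ^ 2 : ℝ) : ℂ) =
      ∑ ν ∈ S, ∑ μ ∈ S, E ν * (starRingEnd ℂ) (E μ) *
        if mN ν ≡ mN μ [MOD f] then (f.totient : ℂ) else 0 := by
    rw [Complex.ofReal_sum]
    simp only [GG, GB2_sq, ← hS]
    rw [sum_comm]
    refine sum_congr rfl fun ν hν => ?_
    rw [sum_comm]
    refine sum_congr rfl fun μ _ => ?_
    rw [hS] at hν
    rw [← GB1_orth ((mem_filter.1 hν).2.coprime_dvd_right hf), mul_sum, hE]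
    refine sum_congr rfl fun ψ _ => ?_
    rw [map_mul, Complex.conj_conj]
    ring
  have h1 : ∑ ψ : DirichletCharacter ℂ f, ‖GG q f ψ h‖ ^ 2 ≤
      ∑ ν ∈ range q, ∑ μ ∈ range q, if mN ν ≡ mN μ [MOD f] then (f : ℝ) else 0 := by
    have h0 : S ⊆ range q := hS ▸ filter_subset _ _
    refine (le_abs_self _).trans ?_
    rw [← Real.norm_eq_abs, ← Complex.norm_real, e]
    refine (norm_sum_le _ _).trans ((sum_le_sum fun ν _ => ?_).trans
      (sum_le_sum_of_subset_of_nonneg h0 fun _ _ _ => by positivity))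
    refine (norm_sum_le _ _).trans ((sum_le_sum fun μ _ => ?_).trans
      (sum_le_sum_of_subset_of_nonneg h0 fun _ _ _ => by positivity))
    rw [norm_mul, norm_mul, Complex.norm_conj, hE1, hE1, one_mul, one_mul]
    split_ifs
    · rw [Complex.norm_natCast]
      exact_mod_cast Nat.totient_le f
    · simp
  have h2 := hRT.2.2.2.2.2.2.2 q f hq hf
  rw [← sum_product', ← sum_filter, sum_const, nsmul_eq_mul] at h1
  refine (sum_le_sum_of_subset_of_nonneg (subset_univ _) fun _ _ _ => by positivity).trans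
    (h1.trans ?_)
  exact_mod_cast h2

theorem t_GB2 (hRT : S_RT) : S_GB2 := by
  refine ⟨GB2_one, GB2_two hRT, fun f hf => ?_, fun q hq => ?_⟩
  · have : NeZero f := ⟨by omega⟩
    refine (card_le_univ _).trans ?_
    rw [← Nat.card_eq_fintype_card, card_eq_totient_of_hasEnoughRootsOfUnity]
    exact Nat.totient_le f
  · rw [mul_comm, ← smul_eq_mul]
    refine (Nat.sum_totient q).ge.trans (sum_le_card_nsmul _ _ _ fun d hd => ?_)
    exact Nat.le_of_dvd (Nat.totient_pos.2 hq) (Nat.totient_dvd_of_dvd (Nat.dvd_of_mem_divisors hd))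

end Pool.Agent.P.MP_e94e4b_nt.PF
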