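import Pool.Agent.P.MP_e94e4b_nt.PF.Basic

/-! Evaluation of sieve sums for rough sequences that are equidistributed to small moduli. -/

namespace Pool.Agent.P.MP_e94e4b_nt.PF

open Finset Real Filter Topology
open Pool.Agent.P.MP_e86632_nt (ee)
open Pool.Agent.P.MP_8be758_nt.Avg (gs Rough PL red ft en nsq gs_pos gs_le_one prime_of_mem_PL
  ev_pow ev_const ev_log)
open ArithmeticFunction (cardFactors)

theorem GEN_per (hRT : S_RT) {f : Finset ℕ} {n r : ℕ} (h : n ≡ r [MOD pr f]) :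
    ∏ p ∈ f, xi p n = ∏ p ∈ f, xi p r := by
  refine prod_congr rfl fun p hp => ?_
  have h1 : n ≡ r [MOD p] := h.of_dvd (dvd_prod_of_mem _ hp)
  simp only [xi, h1.dvd_iff (dvd_refl p), hRT.2.2.2.1 p n r h1]

theorem GEN_abs (hRT : S_RT) {f : Finset ℕ} (hf : ∀ p ∈ f, p.Prime) (n : ℕ) :
    |∏ p ∈ f, xi p n| ≤ 2 ^ f.card := by
  rw [abs_prod, ← prod_const]
  exact prod_le_prod (fun _ _ => abs_nonneg _) fun p hp => hRT.2.2.2.2.2.1 p n (hf p hp)

theorem GEN_zero {f : Finset ℕ} (hf : ∀ p ∈ f, p.Prime) {r : ℕ} (h : ¬ r.Coprime (pr f)) :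
    ∏ p ∈ f, xi p r = 0 := by
  by_contra h0
  refine h (Nat.Coprime.prod_right fun p hp => ?_)
  refine ((Nat.Prime.coprime_iff_not_dvd (hf p hp)).2 fun hd => h0 ?_).symm
  exact prod_eq_zero hp (by simp [xi, hd])

theorem GEN_card {f : Finset ℕ} (hf : ∀ p ∈ f, p.Prime) : f.card ≤ pr f := by
  have h : f ⊆ Icc 1 (pr f) := fun p hp =>
    mem_Icc.2 ⟨(hf p hp).pos, Nat.le_of_dvd (pr_pos hf) (dvd_prod_of_mem _ hp)⟩
  simpa using card_le_card h

theorem GEN_small (hRT : S_RT) (hPF : S_PF) {f : Finset ℕ} (hf : ∀ p ∈ f, p.Prime)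
    (hne : f.Nonempty) {I : Finset ℕ} {γ : ℕ → ℝ} {R : ℕ} {δ : ℝ} (hδ : 0 ≤ δ) (hR : pr f ≤ R)
    (hE : Eqd I γ R δ) : |∑ n ∈ I, γ n * ∏ p ∈ f, xi p n| ≤ pr f * (2 ^ f.card * δ) := by
  have hq := pr_pos hf
  have e1 : ∑ n ∈ I, γ n * ∏ p ∈ f, xi p n =
      ∑ r ∈ range (pr f), (∏ p ∈ f, xi p r) * ∑ n ∈ I.filter (· ≡ r [MOD pr f]), γ n := by
    rw [← sum_fiberwise_of_maps_to (s := I) (t := range (pr f)) (g := fun n => n % pr f)
      (fun n _ => mem_range.2 (Nat.mod_lt _ hq))]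
    refine sum_congr rfl fun r hr => ?_
    have e : I.filter (fun n => n % pr f = r) = I.filter (· ≡ r [MOD pr f]) :=
      filter_congr fun n _ => by rw [Nat.ModEq, Nat.mod_eq_of_lt (mem_range.1 hr)]
    rw [e, mul_sum]
    exact sum_congr rfl fun n hn => by rw [GEN_per hRT (mem_filter.1 hn).2, mul_comm]
  have e2 : ∑ n ∈ I, γ n * ∏ p ∈ f, xi p n = ∑ r ∈ range (pr f), (∏ p ∈ f, xi p r) *
      (∑ n ∈ I.filter (· ≡ r [MOD pr f]), γ n - ∑ n ∈ I.filter (· ≡ 1 [MOD pr f]), γ n) := by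
    simp only [mul_sub, sum_sub_distrib]
    rw [← sum_mul, (hPF f hf).2 hne, zero_mul, sub_zero, e1]
  rw [e2]
  refine (abs_sum_le_sum_abs _ _).trans ?_
  refine (sum_le_card_nsmul _ _ (2 ^ f.card * δ) fun r _ => ?_).trans_eq (by simp)
  by_cases h : r.Coprime (pr f)
  · rw [abs_mul]
    exact mul_le_mul (GEN_abs hRT hf r) (hE _ r 1 hq hR h (Nat.coprime_one_left _))
      (abs_nonneg _) (by positivity)
  · rw [GEN_zero hf h, zero_mul, abs_zero]
    positivity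

theorem GEN_large (hPF : S_PF) {f : Finset ℕ} (hf : ∀ p ∈ f, p.Prime) (I : Finset ℕ)
    (γ : ℕ → ℝ) : |∑ n ∈ I, γ n * ∏ p ∈ f, xi p n| ≤
      2 ^ f.card * √(en I (fun n => (γ n : ℂ)) (pr f)) := by
  have h := Real.abs_le_sqrt ((hPF f hf).1 I γ)
  have e : (4 : ℝ) ^ f.card = (2 ^ f.card) ^ 2 := by
    rw [← pow_mul, mul_comm, pow_mul]
    norm_num
  rwa [e, Real.sqrt_mul (by positivity), Real.sqrt_sq (by positivity)] at h

theorem GEN_supp {P f : Finset ℕ} {Q : ℝ} {lam : Finset ℕ → ℝ} {g : ℕ → ℝ}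
    (hP : ∀ p ∈ P, p.Prime) (hS : Sup P Q lam) (h : tw P lam g f ≠ 0) : (pr f : ℝ) ≤ Q := by
  obtain ⟨E, hE, h0⟩ := exists_ne_zero_of_sum_ne_zero h
  rw [mem_filter, mem_powerset] at hE
  refine le_trans ?_ (hS.2 E hE.1 (left_ne_zero_of_mul h0))
  exact_mod_cast pr_le_of_subset hE.2 fun p hp => hP p (hE.1 hp)

theorem t_GEN (hRT : S_RT) (hPF : S_PF) (hXS : S_XS) (hEXP : S_EXP) : S_GEN := by
  intro C ε hC hε
  have hC0 : 0 < C := by linarith
  obtain ⟨R, hR1, hR⟩ := hXS (2 * C) (ε / (2 * C)) (by linarith) (by positivity)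
  have hR0 : (0 : ℝ) < R := by exact_mod_cast hR1
  refine ⟨R, ε / (2 * R * C * (2 * C) ^ R), by positivity, ?_⟩
  filter_upwards [hR, eventually_gt_atTop 1] with y hy hy1 I γ lam W hI hγ hro hW hS hT hE
  have hL : 0 < Real.log y := Real.log_pos hy1
  obtain ⟨P, hPdef⟩ : ∃ P, P = PL (zz y) := ⟨_, rfl⟩
  have hP : ∀ p ∈ P, p.Prime := fun p hp => prime_of_mem_PL (hPdef ▸ hp)
  have hx := hEXP (Real.log y) (zz y) (QQ y) I γ lam hro hS
  have hy' := hy I γ hI hγ hro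
  rw [← hPdef] at hx hS hT ⊢
  obtain ⟨δ, hδdef⟩ : ∃ δ, δ = ε / (2 * R * C * (2 * C) ^ R) * y ^ 2 / Real.log y := ⟨_, rfl⟩
  rw [← hδdef] at hE
  have hδ : 0 ≤ δ := by rw [hδdef]; positivity
  obtain ⟨T, hTdef⟩ : ∃ T : Finset ℕ → ℝ,
      T = fun f => tw P lam gg f / pr f * ∑ n ∈ I, γ n * ∏ p ∈ f, xi p n := ⟨_, rfl⟩
  have hx' : |∑ n ∈ I, γ n * SS (Real.log y) P lam n - ∑ f ∈ P.powerset, T f| ≤
      lev (Real.log y) (QQ y) I γ := by rw [hTdef]; exact hx
  have hT0 : T ∅ = (∑ n ∈ I, γ n) * ev P lam gg := by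
    simp only [hTdef, tw_empty, pr_empty, prod_empty, mul_one, Nat.cast_one, div_one, mul_comm]
  have hmem : ∀ f ∈ P.powerset.erase ∅, f ⊆ P ∧ f.Nonempty ∧ ∀ p ∈ f, p.Prime := by
    intro f hf
    rw [mem_erase, mem_powerset] at hf
    exact ⟨hf.2, nonempty_iff_ne_empty.2 hf.1, fun p hp => hP p (hf.2 hp)⟩
  have habs : ∀ f ∈ P.powerset.erase ∅, ∀ X : ℝ, |∑ n ∈ I, γ n * ∏ p ∈ f, xi p n| ≤ X →
      |T f| ≤ W * C ^ (f.card + 1) / pr f * X := by
    intro f hf X hX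
    rw [hTdef]
    simp only [abs_mul, abs_div, Nat.abs_cast]
    exact mul_le_mul (div_le_div_of_nonneg_right (hT f (hmem f hf).1) (Nat.cast_nonneg _)) hX
      (abs_nonneg _) (by positivity)
  have h1 : ∑ f ∈ (P.powerset.erase ∅).filter (fun f => pr f ≤ R), |T f| ≤
      ε / 2 * W * y ^ 2 / Real.log y := by
    calc ∑ f ∈ (P.powerset.erase ∅).filter (fun f => pr f ≤ R), |T f|
        ≤ ∑ f ∈ (P.powerset.erase ∅).filter (fun f => pr f ≤ R),
            (fun _ : ℕ => W * C * (2 * C) ^ R * δ) (pr f) := by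
          refine sum_le_sum fun f hf => ?_
          rw [mem_filter] at hf
          obtain ⟨_, h2, h3⟩ := hmem f hf.1
          refine (habs f hf.1 _ (GEN_small hRT hPF h3 h2 hδ hf.2 hE)).trans ?_
          have hq : (0 : ℝ) < pr f := by exact_mod_cast pr_pos h3
          have h4 : (2 * C) ^ f.card ≤ (2 * C) ^ R :=
            pow_le_pow_right₀ (by linarith) ((GEN_card h3).trans hf.2)
          calc W * C ^ (f.card + 1) / pr f * (pr f * (2 ^ f.card * δ))
              = W * C * (2 * C) ^ f.card * δ := by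
                rw [mul_pow, pow_succ]
                field_simp
            _ ≤ W * C * (2 * C) ^ R * δ := by gcongr
      _ ≤ ∑ q ∈ Icc 1 R, (fun _ : ℕ => W * C * (2 * C) ^ R * δ) q := by
          refine sum_pr_le (F := fun _ : ℕ => W * C * (2 * C) ^ R * δ) (fun f hf => ?_)
            (fun f hf => ?_) fun _ _ => ?_
          · exact (hmem f (mem_filter.1 hf).1).2.2
          swap
          · positivity
          exact mem_Icc.2 ⟨pr_pos (hmem f (mem_filter.1 hf).1).2.2, (mem_filter.1 hf).2⟩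
      _ = ε / 2 * W * y ^ 2 / Real.log y := by
          simp only [sum_const, Nat.card_Icc, add_tsub_cancel_right, nsmul_eq_mul, hδdef]
          field_simp
  have h2 : ∑ f ∈ (P.powerset.erase ∅).filter (fun f => ¬ pr f ≤ R), |T f| ≤
      ε / 2 * W * y ^ 2 / Real.log y := by
    rw [← sum_filter_of_ne (p := fun f => (pr f : ℝ) ≤ QQ y) fun f _ h0 => GEN_supp hP hS
      (g := gg) fun h => h0 (by simp [hTdef, h])]
    calc ∑ f ∈ ((P.powerset.erase ∅).filter (fun f => ¬ pr f ≤ R)).filter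
            (fun f => (pr f : ℝ) ≤ QQ y), |T f|
        ≤ ∑ f ∈ ((P.powerset.erase ∅).filter (fun f => ¬ pr f ≤ R)).filter
            (fun f => (pr f : ℝ) ≤ QQ y), (fun q : ℕ => W * C * ((2 * C) ^ q.primeFactors.card / q *
              √(en I (fun n => (γ n : ℂ)) q))) (pr f) := by
          refine sum_le_sum fun f hf => ?_
          have hf' := (mem_filter.1 (mem_filter.1 hf).1).1
          obtain ⟨_, _, h3⟩ := hmem f hf'
          refine (habs f hf' _ (GEN_large hPF h3 I γ)).trans_eq ?_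
          simp only [primeFactors_pr h3, mul_pow, pow_succ]
          ring
      _ ≤ ∑ q ∈ Ioc R ⌊QQ y⌋₊, (fun q : ℕ => W * C * ((2 * C) ^ q.primeFactors.card / q *
              √(en I (fun n => (γ n : ℂ)) q))) q := by
          refine sum_pr_le (F := fun q : ℕ => W * C * ((2 * C) ^ q.primeFactors.card / q *
              √(en I (fun n => (γ n : ℂ)) q))) (fun f hf => ?_) (fun f hf => ?_) fun _ _ => ?_
          · exact (hmem f (mem_filter.1 (mem_filter.1 hf).1).1).2.2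
          swap
          · positivity
          exact mem_Ioc.2 ⟨not_le.1 (mem_filter.1 (mem_filter.1 hf).1).2,
            Nat.le_floor (mem_filter.1 hf).2⟩
      _ ≤ W * C * (ε / (2 * C) * y ^ 2 / Real.log y) := by
          rw [← mul_sum]
          exact mul_le_mul_of_nonneg_left hy' (by positivity)
      _ = ε / 2 * W * y ^ 2 / Real.log y := by field_simp
  have h3 : |∑ f ∈ P.powerset.erase ∅, T f| ≤ ε * W * y ^ 2 / Real.log y := by
    refine (abs_sum_le_sum_abs _ _).trans ?_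
    rw [← sum_filter_add_sum_filter_not _ (fun f => pr f ≤ R)]
    refine (add_le_add h1 h2).trans_eq ?_
    ring
  rw [← add_sum_erase _ _ (empty_mem_powerset P), hT0] at hx'
  calc |∑ n ∈ I, γ n * SS (Real.log y) P lam n - (∑ n ∈ I, γ n) * ev P lam gg|
      = |(∑ n ∈ I, γ n * SS (Real.log y) P lam n - ((∑ n ∈ I, γ n) * ev P lam gg +
          ∑ f ∈ P.powerset.erase ∅, T f)) + ∑ f ∈ P.powerset.erase ∅, T f| := by
        congr 1
        ring
    _ ≤ _ := (abs_add_le _ _).trans (add_le_add hx' h3)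

end Pool.Agent.P.MP_e94e4b_nt.PF
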