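import Pool.Agent.P.MP_e94e4b_nt.PF.Basic

/-! The Gamma integral with a complex scale. -/

namespace Pool.Agent.P.MP_e94e4b_nt.PF

open Finset Real Filter Topology
open MeasureTheory

theorem GM_int {a b : ℝ} (ha : -1 < a) (hb : 0 < b) :
    IntegrableOn (fun x : ℝ => x ^ a * Real.exp (-(b * x))) (Set.Ioi 0) := by
  have h := integrableOn_rpow_mul_exp_neg_mul_rpow ha one_pos hb
  simpa [Real.rpow_one] using h

theorem GM_meas (a w : ℂ) :
    AEStronglyMeasurable (fun u : ℝ => (u : ℂ) ^ a * Complex.exp (-(w * u)))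
      (volume.restrict (Set.Ioi 0)) := by
  refine ContinuousOn.aestronglyMeasurable ?_ measurableSet_Ioi
  refine ContinuousOn.mul ?_ (by fun_prop)
  intro x hx
  exact (Complex.continuousAt_ofReal_cpow_const x a (Or.inr (ne_of_gt hx))).continuousWithinAt

theorem GM_norm (a w : ℂ) {u : ℝ} (hu : 0 < u) :
    ‖(u : ℂ) ^ a * Complex.exp (-(w * u))‖ = u ^ a.re * Real.exp (-(w.re * u)) := by
  rw [norm_mul, Complex.norm_cpow_eq_rpow_re_of_pos hu, Complex.norm_exp]
  simp

theorem GM_diff (s : ℂ) (hs : 0 < s.re) {w : ℂ} (hw : 0 < w.re) :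
    DifferentiableAt ℂ
      (fun w : ℂ => ∫ u in Set.Ioi (0 : ℝ), (u : ℂ) ^ (s - 1) * Complex.exp (-(w * u))) w := by
  have hU : {z : ℂ | w.re / 2 < z.re} ∈ 𝓝 w :=
    (isOpen_lt continuous_const Complex.continuous_re).mem_nhds (by simp; linarith)
  refine (hasDerivAt_integral_of_dominated_loc_of_deriv_le
    (F := fun (z : ℂ) (u : ℝ) => (u : ℂ) ^ (s - 1) * Complex.exp (-(z * u)))
    (F' := fun (z : ℂ) (u : ℝ) => -((u : ℂ) ^ s * Complex.exp (-(z * u))))
    (bound := fun u : ℝ => u ^ s.re * Real.exp (-(w.re / 2 * u))) hU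
    (Eventually.of_forall fun z => GM_meas _ z) ?_ (GM_meas s w).neg ?_
    (GM_int (by linarith) (by linarith)) ?_).2.differentiableAt
  · refine (GM_int (a := s.re - 1) (b := w.re) (by linarith) hw).mono' (GM_meas _ w) ?_
    filter_upwards [ae_restrict_mem measurableSet_Ioi] with u hu
    rw [GM_norm _ _ hu]
    simp
  · filter_upwards [ae_restrict_mem measurableSet_Ioi] with u hu z hz
    rw [norm_neg, GM_norm _ _ hu]
    have hu' : (0 : ℝ) < u := hu
    have hz' : w.re / 2 < z.re := hz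
    refine mul_le_mul_of_nonneg_left (Real.exp_le_exp.2 ?_) (by positivity)
    nlinarith
  · filter_upwards [ae_restrict_mem measurableSet_Ioi] with u hu z _
    have hu' : (u : ℂ) ≠ 0 := Complex.ofReal_ne_zero.2 (ne_of_gt hu)
    have h1 : HasDerivAt (fun z : ℂ => -(z * u)) (-(u : ℂ)) z := by
      have := ((hasDerivAt_id z).mul_const (u : ℂ)).neg
      rw [one_mul] at this
      exact this
    refine (h1.cexp.const_mul ((u : ℂ) ^ (s - 1))).congr_deriv ?_
    rw [Complex.cpow_sub _ _ hu', Complex.cpow_one]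
    field_simp

theorem t_GM : S_GM := by
  intro s w hs hw
  have hU : IsOpen {z : ℂ | 0 < z.re} := isOpen_lt continuous_const Complex.continuous_re
  have h1 : AnalyticOnNhd ℂ
      (fun w : ℂ => ∫ u in Set.Ioi (0 : ℝ), (u : ℂ) ^ (s - 1) * Complex.exp (-(w * u)))
      {z : ℂ | 0 < z.re} :=
    DifferentiableOn.analyticOnNhd (fun z hz => (GM_diff s hs hz).differentiableWithinAt) hU
  have h2 : AnalyticOnNhd ℂ (fun w : ℂ => Complex.Gamma s * w ^ (-s)) {z : ℂ | 0 < z.re} := by
    refine DifferentiableOn.analyticOnNhd (fun z hz => ?_) hU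
    exact ((differentiableAt_id.cpow_const (Or.inl hz)).const_mul _).differentiableWithinAt
  refine h1.eqOn_of_preconnected_of_frequently_eq h2 (convex_halfSpace_re_gt 0).isPreconnected
    (z₀ := 1) (by simp) ?_ hw
  have ht : Tendsto (fun r : ℝ => (r : ℂ)) (𝓝[>] 1) (𝓝[≠] 1) := by
    refine tendsto_nhdsWithin_iff.2 ⟨?_, ?_⟩
    · have := Complex.continuous_ofReal.tendsto 1
      simpa using this.mono_left nhdsWithin_le_nhds
    · filter_upwards [self_mem_nhdsWithin] with r hr
      have : (1 : ℝ) < r := hr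
      simpa using this.ne'
  refine ht.frequently (Eventually.frequently ?_)
  filter_upwards [self_mem_nhdsWithin] with r hr
  have hr' : (0 : ℝ) < r := lt_trans one_pos hr
  rw [Complex.integral_cpow_mul_exp_neg_mul_Ioi hs hr', mul_comm, Complex.cpow_neg, one_div,
    Complex.inv_cpow]
  rw [Complex.arg_ofReal_of_nonneg hr'.le]
  exact Real.pi_pos.ne

end Pool.Agent.P.MP_e94e4b_nt.PF
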