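import Pool.Agent.P.MP_e94e4b_nt.PF.Basic

/-! Fourth moment from the hybrid large sieve. -/

namespace Pool.Agent.P.MP_e94e4b_nt.PF

open Finset Real Filter Topology
open Pool.Agent.P.MP_8be758_nt.Avg (gs Rough PL red ft en nsq gs_pos gs_le_one prime_of_mem_PL
  ev_pow ev_const ev_log)
open ArithmeticFunction (cardFactors)

/-- coefficients of the square -/
noncomputable def H4b (I : Finset ℕ) (a : ℕ → ℂ) (m : ℕ) : ℂ :=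
  ∑ x ∈ (I ×ˢ I).filter (fun x => x.1 * x.2 = m), a x.1 * a x.2

theorem H4_maps {X : ℝ} {I : Finset ℕ} (hI : ∀ n ∈ I, 1 ≤ n ∧ (n : ℝ) ≤ X) :
    ∀ x ∈ I ×ˢ I, x.1 * x.2 ∈ Icc 1 ⌊X ^ 2⌋₊ := by
  intro x hx
  rw [mem_product] at hx
  obtain ⟨h1, h2⟩ := hI _ hx.1
  obtain ⟨h3, h4⟩ := hI _ hx.2
  rw [mem_Icc]
  refine ⟨Nat.mul_pos h1 h3, Nat.le_floor ?_⟩
  push_cast
  rw [sq]
  exact mul_le_mul h2 h4 (Nat.cast_nonneg _) ((Nat.cast_nonneg _).trans h2)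

theorem H4_sq {X : ℝ} {I : Finset ℕ} (hI : ∀ n ∈ I, 1 ≤ n ∧ (n : ℝ) ≤ X) (f : ℕ)
    (ψ : DirichletCharacter ℂ f) (a : ℕ → ℂ) (s : ℝ) :
    dp f ψ I a s ^ 2 = dp f ψ (Icc 1 ⌊X ^ 2⌋₊) (H4b I a) s := by
  unfold dp H4b
  rw [sq, Finset.sum_mul_sum, ← Finset.sum_product']
  rw [← Finset.sum_fiberwise_of_maps_to (H4_maps hI)]
  refine Finset.sum_congr rfl fun m _ => ?_
  rw [Finset.sum_mul, Finset.sum_mul]
  refine Finset.sum_congr rfl fun x hx => ?_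
  rw [mem_filter, mem_product] at hx
  obtain ⟨⟨h1, h2⟩, rfl⟩ := hx
  have p1 : (x.1 : ℝ) ≠ 0 := by have := (hI _ h1).1; positivity
  have p2 : (x.2 : ℝ) ≠ 0 := by have := (hI _ h2).1; positivity
  have e : -(s * Real.log ((x.1 * x.2 : ℕ) : ℝ)) =
      -(s * Real.log (x.1 : ℝ)) + -(s * Real.log (x.2 : ℝ)) := by
    push_cast
    rw [Real.log_mul p1 p2]
    ring
  rw [e, MP_e86632_nt.ee_add, Nat.cast_mul, map_mul]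
  ring

theorem H4_nsq {X τ : ℝ} {I : Finset ℕ} (hI : ∀ n ∈ I, 1 ≤ n ∧ (n : ℝ) ≤ X)
    (hτ : ∀ m : ℕ, (m : ℝ) ≤ X ^ 2 → (m.divisors.card : ℝ) ≤ τ) (a : ℕ → ℂ) :
    nsq (Icc 1 ⌊X ^ 2⌋₊) (H4b I a) ≤ τ * nsq I a ^ 2 := by
  unfold nsq
  rw [sq (∑ n ∈ I, ‖a n‖ ^ 2), Finset.sum_mul_sum, ← Finset.sum_product',
    ← Finset.sum_fiberwise_of_maps_to (H4_maps hI), Finset.mul_sum]
  refine Finset.sum_le_sum fun m hm => ?_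
  rw [mem_Icc] at hm
  have hm' : (m : ℝ) ≤ X ^ 2 := (Nat.le_floor_iff (sq_nonneg X)).mp hm.2
  set T := (I ×ˢ I).filter (fun x => x.1 * x.2 = m) with hT
  have hc : T.card ≤ m.divisors.card := by
    refine Finset.card_le_card_of_injOn (fun x => x.1) ?_ ?_
    · intro x hx
      rw [hT, coe_filter] at hx
      simp only [mem_coe, Nat.mem_divisors]
      exact ⟨Dvd.intro _ hx.2, by omega⟩
    · intro x hx y hy hxy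
      rw [hT, coe_filter] at hx hy
      have h0 : 0 < x.1 := (hI _ (mem_product.mp hx.1).1).1
      have h1 : x.1 = y.1 := hxy
      refine Prod.ext h1 (Nat.eq_of_mul_eq_mul_left h0 ?_)
      rw [hx.2, h1, hy.2]
  have h1 : ‖H4b I a m‖ ≤ ∑ x ∈ T, ‖a x.1‖ * ‖a x.2‖ := by
    unfold H4b
    refine (norm_sum_le _ _).trans (le_of_eq ?_)
    exact Finset.sum_congr rfl fun x _ => norm_mul _ _
  have h2 : (∑ x ∈ T, ‖a x.1‖ * ‖a x.2‖) ^ 2 ≤ T.card * ∑ x ∈ T, (‖a x.1‖ * ‖a x.2‖) ^ 2 :=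
    sq_sum_le_card_mul_sum_sq
  have h3 : (T.card : ℝ) ≤ τ := le_trans (by exact_mod_cast hc) (hτ m hm')
  have h4 : 0 ≤ ∑ x ∈ T, (‖a x.1‖ * ‖a x.2‖) ^ 2 := Finset.sum_nonneg fun _ _ => sq_nonneg _
  calc ‖H4b I a m‖ ^ 2 ≤ (∑ x ∈ T, ‖a x.1‖ * ‖a x.2‖) ^ 2 :=
        pow_le_pow_left₀ (norm_nonneg _) h1 2
    _ ≤ τ * ∑ x ∈ T, (‖a x.1‖ * ‖a x.2‖) ^ 2 := h2.trans (mul_le_mul_of_nonneg_right h3 h4)
    _ = _ := by
        congr 1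
        exact Finset.sum_congr rfl fun x _ => mul_pow _ _ _

theorem t_H4 (hHLS : S_HLS) : S_H4 := by
  obtain ⟨C, hC, h⟩ := hHLS
  have key : ∀ (F : ℕ) (Z X c τ : ℝ) (I : Finset ℕ) (a : ℕ → ℂ),
      1 ≤ F → 1 ≤ Z → 1 / 2 ≤ c → c ≤ 1 → (∀ n ∈ I, 1 ≤ n ∧ (n : ℝ) ≤ X) →
      (∀ m : ℕ, (m : ℝ) ≤ X ^ 2 → (m.divisors.card : ℝ) ≤ τ) →
      ∫ t : ℝ, Real.exp (-(|t| / Z)) * ∑ f ∈ Icc 1 F, ∑ ψ ∈ prim f, ‖dp f ψ I a (c * t)‖ ^ 4 ≤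
        C * ((F : ℝ) ^ 2 * Z + X ^ 2) * τ * nsq I a ^ 2 := by
    intro F Z X c τ I a hF hZ hc hc1 hI hτ
    have h1 := h F Z (X ^ 2) c (Icc 1 ⌊X ^ 2⌋₊) (H4b I a) hF hZ hc hc1 (fun n hn => by
      rw [mem_Icc] at hn
      exact ⟨hn.1, (Nat.le_floor_iff (sq_nonneg X)).mp hn.2⟩)
    have h2 : ∀ (f : ℕ) (ψ : DirichletCharacter ℂ f) (s : ℝ),
        ‖dp f ψ I a s‖ ^ 4 = ‖dp f ψ (Icc 1 ⌊X ^ 2⌋₊) (H4b I a) s‖ ^ 2 := by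
      intro f ψ s
      rw [← H4_sq hI, norm_pow]
      ring
    simp only [h2]
    refine h1.trans ?_
    rw [mul_assoc (C * _)]
    refine mul_le_mul_of_nonneg_left (H4_nsq hI hτ a) ?_
    positivity
  refine ⟨C, hC, fun F Z X c τ I a hF hZ hc hc1 hI hτ => ⟨key F Z X c τ I a hF hZ hc hc1 hI hτ, ?_⟩⟩
  have h1 := key 1 Z X c τ I a le_rfl hZ hc hc1 hI hτ
  simp only [Icc_self, sum_singleton, prim_one, dp, one_level_one, mul_one, Nat.cast_one,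
    one_pow, one_mul] at h1
  exact h1

end Pool.Agent.P.MP_e94e4b_nt.PF
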