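import Pool.Agent.P.MP_e94e4b_nt.PF.Basic

/-! From the Gaussian weight to the exponential weight in the hybrid large sieve. -/

namespace Pool.Agent.P.MP_e94e4b_nt.PF

open Finset Real Filter Topology MeasureTheory
open Pool.Agent.P.MP_8be758_nt.Avg (gs Rough PL red ft en nsq gs_pos gs_le_one prime_of_mem_PL
  ev_pow ev_const ev_log)
open ArithmeticFunction (cardFactors)

theorem HLS_summable : Summable fun k : ℤ => Real.exp (-|(k : ℝ)|) := by
  refine Summable.of_nat_of_neg ?_ ?_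
  · simpa using Real.summable_exp_neg_nat
  · simpa using Real.summable_exp_neg_nat

theorem HLS_point (u : ℝ) :
    Real.exp (-|u|) ≤ Real.exp 2 * Real.exp (-|((round u : ℤ) : ℝ)|) * gs (u - round u) := by
  unfold gs
  rw [← Real.exp_add, ← Real.exp_add, Real.exp_le_exp]
  have h1 := abs_sub_round u
  have h2 : |((round u : ℤ) : ℝ)| ≤ |u| + |u - round u| := by
    have := abs_sub u (u - round u)
    rwa [sub_sub_cancel] at this
  have h3 : (u - round u) ^ 2 ≤ 1 / 4 := by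
    rw [← sq_abs]
    nlinarith [abs_nonneg (u - round u)]
  have h4 : π * (u - round u) ^ 2 ≤ 4 * (1 / 4) :=
    mul_le_mul Real.pi_le_four h3 (sq_nonneg _) (by norm_num)
  linarith

theorem HLS_gs_int {Z : ℝ} (hZ : 0 < Z) : Integrable fun t : ℝ => gs (t / Z) := by
  have h := integrable_exp_neg_mul_sq (b := π / Z ^ 2) (by positivity)
  refine h.congr (Eventually.of_forall fun t => ?_)
  simp only [gs]
  congr 1
  field_simp

theorem HLS_abstract {G : ℝ → ℝ} {Z M B : ℝ} (hZ : 0 < Z) (hc : Continuous G)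
    (h0 : ∀ t, 0 ≤ G t) (hM : ∀ t, G t ≤ M)
    (hB : ∀ k : ℤ, ∫ t : ℝ, gs (t / Z) * G (t + k * Z) ≤ B) :
    ∫ t : ℝ, Real.exp (-(|t| / Z)) * G t ≤
      (Real.exp 2 * ∑' k : ℤ, Real.exp (-|(k : ℝ)|)) * B := by
  have hB0 : 0 ≤ B := le_trans (integral_nonneg fun t => mul_nonneg (gs_pos _).le (h0 _)) (hB 0)
  set H : ℤ → ℝ → ℝ := fun k t => gs (t / Z) * G (t + k * Z) with hH
  have hHi : ∀ k, Integrable (H k) := fun k =>
    (HLS_gs_int hZ).mul_bdd (c := M)
      (hc.comp (continuous_id.add continuous_const)).aestronglyMeasurable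
      (Eventually.of_forall fun t => by rw [Real.norm_of_nonneg (h0 _)]; exact hM _)
  set w : ℤ → ℝ := fun k => Real.exp 2 * Real.exp (-|(k : ℝ)|) with hw
  have hw0 : ∀ k, 0 ≤ w k := fun k => by positivity
  set F : ℤ → ℝ → ℝ := fun k t => w k * H k (t - k * Z) with hF
  have hFi : ∀ k, Integrable (F k) := fun k => ((hHi k).comp_sub_right _).const_mul _
  have hF0 : ∀ k t, 0 ≤ F k t := fun k t =>
    mul_nonneg (hw0 k) (mul_nonneg (gs_pos _).le (h0 _))
  have hFB : ∀ k, ∫ t, F k t ≤ w k * B := fun k => by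
    simp only [hF]
    rw [integral_const_mul, integral_sub_right_eq_self (H k)]
    exact mul_le_mul_of_nonneg_left (hB k) (hw0 k)
  have hs : Summable fun k => w k * B := (HLS_summable.mul_left _).mul_right _
  have hpt : ∀ t, Real.exp (-(|t| / Z)) * G t ≤ F (round (t / Z)) t := fun t => by
    have h1 := HLS_point (t / Z)
    rw [abs_div, abs_of_pos hZ] at h1
    simp only [hF, hH, hw, sub_add_cancel]
    rw [← mul_assoc, show (t - (round (t / Z) : ℝ) * Z) / Z = t / Z - round (t / Z) by field_simp]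
    exact mul_le_mul_of_nonneg_right h1 (h0 t)
  rw [integral_eq_lintegral_of_nonneg_ae
    (Eventually.of_forall fun t => mul_nonneg (Real.exp_pos _).le (h0 t))
    (Continuous.aestronglyMeasurable (by fun_prop))]
  refine ENNReal.toReal_le_of_le_ofReal
    (mul_nonneg (mul_nonneg (Real.exp_pos _).le (tsum_nonneg fun k => (Real.exp_pos _).le)) hB0) ?_
  calc ∫⁻ t, ENNReal.ofReal (Real.exp (-(|t| / Z)) * G t)
      ≤ ∫⁻ t, ∑' k : ℤ, ENNReal.ofReal (F k t) := lintegral_mono fun t =>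
        (ENNReal.ofReal_le_ofReal (hpt t)).trans
          (ENNReal.le_tsum (f := fun k : ℤ => ENNReal.ofReal (F k t)) _)
    _ = ∑' k : ℤ, ∫⁻ t, ENNReal.ofReal (F k t) :=
        lintegral_tsum fun k => (hFi k).aemeasurable.ennreal_ofReal
    _ ≤ ∑' k : ℤ, ENNReal.ofReal (w k * B) := ENNReal.tsum_le_tsum fun k => by
        rw [← ofReal_integral_eq_lintegral_ofReal (hFi k) (Eventually.of_forall (hF0 k))]
        exact ENNReal.ofReal_le_ofReal (hFB k)
    _ = ENNReal.ofReal (∑' k : ℤ, w k * B) :=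
        (ENNReal.ofReal_tsum_of_nonneg (fun k => mul_nonneg (hw0 k) hB0) hs).symm
    _ = _ := by rw [tsum_mul_right, tsum_mul_left]

theorem HLS_cont_ee : Continuous MP_e86632_nt.ee := by
  unfold MP_e86632_nt.ee
  fun_prop

theorem HLS_dp_cont (f : ℕ) (ψ : DirichletCharacter ℂ f) (I : Finset ℕ) (a : ℕ → ℂ) :
    Continuous (dp f ψ I a) := by
  unfold dp
  exact continuous_finsetSum _ fun n _ =>
    continuous_const.mul (HLS_cont_ee.comp (f := fun t : ℝ => -(t * Real.log n)) (by fun_prop))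

theorem HLS_dp_le (f : ℕ) (ψ : DirichletCharacter ℂ f) (I : Finset ℕ) (a : ℕ → ℂ) (t : ℝ) :
    ‖dp f ψ I a t‖ ≤ ∑ n ∈ I, ‖a n * ψ (n : ZMod f)‖ :=
  (norm_sum_le _ _).trans (le_of_eq (sum_congr rfl fun n _ => by rw [norm_mul, MP_e86632_nt.norm_ee, mul_one]))

theorem HLS_dp_shift (f : ℕ) (ψ : DirichletCharacter ℂ f) (I : Finset ℕ) (a : ℕ → ℂ) (t s : ℝ) :
    dp f ψ I a (t + s) = dp f ψ I (fun n => a n * MP_e86632_nt.ee (-(s * Real.log n))) t := by
  unfold dp
  refine sum_congr rfl fun n _ => ?_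
  rw [show -((t + s) * Real.log n) = -(s * Real.log n) + -(t * Real.log n) by ring, MP_e86632_nt.ee_add]
  ring

theorem t_HLS (hHG : S_HG) : S_HLS := by
  obtain ⟨C, hC, h⟩ := hHG
  have hS : 0 < ∑' k : ℤ, Real.exp (-|(k : ℝ)|) :=
    HLS_summable.tsum_pos (fun k => (Real.exp_pos _).le) 0 (Real.exp_pos _)
  refine ⟨(Real.exp 2 * ∑' k : ℤ, Real.exp (-|(k : ℝ)|)) * C, by positivity,
    fun F Z X c I a hF hZ hc1 hc2 hI => ?_⟩
  have key := HLS_abstract
    (G := fun t => ∑ f ∈ Icc 1 F, ∑ ψ ∈ prim f, ‖dp f ψ I a (c * t)‖ ^ 2) (Z := Z)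
    (M := ∑ f ∈ Icc 1 F, ∑ ψ ∈ prim f, (∑ n ∈ I, ‖a n * ψ (n : ZMod f)‖) ^ 2)
    (B := C * ((F : ℝ) ^ 2 * Z + X) * nsq I a) (by linarith)
    (continuous_finsetSum _ fun f _ => continuous_finsetSum _ fun ψ _ =>
      (((HLS_dp_cont f ψ I a).comp (continuous_const.mul continuous_id)).norm).pow 2)
    (fun t => sum_nonneg fun f _ => sum_nonneg fun ψ _ => sq_nonneg _)
    (fun t => sum_le_sum fun f _ => sum_le_sum fun ψ _ =>
      pow_le_pow_left₀ (norm_nonneg _) (HLS_dp_le f ψ I a _) 2)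
    (fun k => by
      have h1 := h F Z X c I (fun n => a n * MP_e86632_nt.ee (-(c * (k * Z) * Real.log n))) hF hZ hc1 hc2 hI
      have h2 : nsq I (fun n => a n * MP_e86632_nt.ee (-(c * (k * Z) * Real.log n))) = nsq I a := by
        unfold nsq
        exact sum_congr rfl fun n _ => by rw [norm_mul, MP_e86632_nt.norm_ee, mul_one]
      rw [h2] at h1
      simp only [mul_add c, HLS_dp_shift]
      exact h1)
  refine key.trans (le_of_eq ?_)
  ring

end Pool.Agent.P.MP_e94e4b_nt.PF
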