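import Pool.Agent.P.MP_e94e4b_nt.PF.Basic

/-! The inequality of Hoelder for the triple product of Dirichlet polynomials. -/

namespace Pool.Agent.P.MP_e94e4b_nt.PF

open Finset Real Filter Topology
open Pool.Agent.P.MP_8be758_nt.Avg (gs Rough PL red ft en nsq gs_pos gs_le_one prime_of_mem_PL
  ev_pow ev_const ev_log)
open ArithmeticFunction (cardFactors)
open MeasureTheory

/-- continuous and bounded -/
def HOL_CB (g : ℝ → ℝ) : Prop := Continuous g ∧ ∃ M, ∀ t, |g t| ≤ M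

theorem HOL_CB.mul {g h : ℝ → ℝ} (a : HOL_CB g) (b : HOL_CB h) : HOL_CB fun t => g t * h t := by
  obtain ⟨a1, M, a2⟩ := a
  obtain ⟨b1, N, b2⟩ := b
  refine ⟨a1.mul b1, M * N, fun t => ?_⟩
  rw [abs_mul]
  exact mul_le_mul (a2 t) (b2 t) (abs_nonneg _) ((abs_nonneg _).trans (a2 t))

theorem HOL_CB.pow {g : ℝ → ℝ} (a : HOL_CB g) (k : ℕ) : HOL_CB fun t => g t ^ k := by
  obtain ⟨a1, M, a2⟩ := a
  refine ⟨a1.pow k, M ^ k, fun t => ?_⟩
  rw [abs_pow]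
  exact pow_le_pow_left₀ (abs_nonneg _) (a2 t) k

theorem HOL_CB.sum {ι : Type*} (S : Finset ι) {g : ι → ℝ → ℝ} (a : ∀ i, HOL_CB (g i)) :
    HOL_CB fun t => ∑ i ∈ S, g i t := by
  choose M hM using fun i => (a i).2
  exact ⟨continuous_finsetSum _ fun i _ => (a i).1, ∑ i ∈ S, M i, fun t =>
    (abs_sum_le_sum_abs _ _).trans (sum_le_sum fun i _ => hM i t)⟩

theorem HOL_poly (I : Finset ℕ) (a : ℕ → ℂ) (c : ℝ) :
    HOL_CB fun t => ‖∑ n ∈ I, a n * MP_e86632_nt.ee (-(c * t * Real.log n))‖ := by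
  have h : Continuous MP_e86632_nt.ee := by unfold MP_e86632_nt.ee; fun_prop
  refine ⟨(continuous_finsetSum _ fun n _ => continuous_const.mul (h.comp (by fun_prop))).norm,
    ∑ n ∈ I, ‖a n‖, fun t => ?_⟩
  rw [abs_norm]
  exact (norm_sum_le _ _).trans (sum_le_sum fun n _ => by simp)

theorem HOL_dp (f : ℕ) (ψ : DirichletCharacter ℂ f) (I : Finset ℕ) (a : ℕ → ℂ) (c : ℝ) :
    HOL_CB fun t => ‖dp f ψ I a (c * t)‖ := HOL_poly I (fun n => a n * ψ (n : ZMod f)) c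

theorem HOL_w {Z : ℝ} (hZ : 1 ≤ Z) : Integrable fun t : ℝ => Real.exp (-(|t| / Z)) := by
  have h0 : 0 < Z⁻¹ := by positivity
  rw [← integrableOn_univ, ← Set.Iic_union_Ioi (a := (0 : ℝ))]
  refine IntegrableOn.union ?_ ?_
  · refine (integrableOn_exp_mul_Iic h0 0).congr_fun (fun t ht => ?_) measurableSet_Iic
    simp only [abs_of_nonpos (Set.mem_Iic.1 ht)]
    congr 1; ring
  · refine (integrableOn_exp_mul_Ioi (neg_lt_zero.2 h0) 0).congr_fun (fun t ht => ?_)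
      measurableSet_Ioi
    simp only [abs_of_pos (Set.mem_Ioi.1 ht)]
    congr 1; ring

theorem HOL_CB.int {Z : ℝ} (hZ : 1 ≤ Z) {g : ℝ → ℝ} (a : HOL_CB g) :
    Integrable fun t : ℝ => Real.exp (-(|t| / Z)) * g t := by
  obtain ⟨a1, M, a2⟩ := a
  exact (HOL_w hZ).mul_bdd a1.aestronglyMeasurable (Eventually.of_forall a2)

/-- the inequality of Cauchy and Schwarz -/
theorem HOL_cs {Z : ℝ} (hZ : 1 ≤ Z) {ι : Type*} {κ : ι → Type*} (S : Finset ι)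
    (T : ∀ i, Finset (κ i)) {x y : ∀ i, κ i → ℝ → ℝ} (hx : ∀ i j, HOL_CB (x i j))
    (hy : ∀ i j, HOL_CB (y i j)) :
    (∫ t : ℝ, Real.exp (-(|t| / Z)) * ∑ i ∈ S, ∑ j ∈ T i, x i j t * y i j t) ^ 2 ≤
      (∫ t : ℝ, Real.exp (-(|t| / Z)) * ∑ i ∈ S, ∑ j ∈ T i, x i j t ^ 2) *
        ∫ t : ℝ, Real.exp (-(|t| / Z)) * ∑ i ∈ S, ∑ j ∈ T i, y i j t ^ 2 := by
  have i1 := (HOL_CB.sum S fun i => HOL_CB.sum (T i) fun j => (hx i j).pow 2).int hZ
  have i2 := (HOL_CB.sum S fun i => HOL_CB.sum (T i) fun j => (hx i j).mul (hy i j)).int hZ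
  have i3 := (HOL_CB.sum S fun i => HOL_CB.sum (T i) fun j => (hy i j).pow 2).int hZ
  have := discrim_le_zero
    (a := ∫ t : ℝ, Real.exp (-(|t| / Z)) * ∑ i ∈ S, ∑ j ∈ T i, x i j t ^ 2)
    (b := 2 * ∫ t : ℝ, Real.exp (-(|t| / Z)) * ∑ i ∈ S, ∑ j ∈ T i, x i j t * y i j t)
    (c := ∫ t : ℝ, Real.exp (-(|t| / Z)) * ∑ i ∈ S, ∑ j ∈ T i, y i j t ^ 2) fun s => by
      rw [mul_right_comm, mul_comm _ (s * s), ← integral_const_mul, ← integral_const_mul,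
        ← integral_add (i1.const_mul _) (i2.const_mul _),
        ← integral_add (by exact (i1.const_mul _).add (i2.const_mul _)) i3]
      refine integral_nonneg fun t => ?_
      have e : ∑ i ∈ S, ∑ j ∈ T i, (s * x i j t + y i j t) ^ 2 =
          s * s * ∑ i ∈ S, ∑ j ∈ T i, x i j t ^ 2 +
            2 * s * ∑ i ∈ S, ∑ j ∈ T i, x i j t * y i j t + ∑ i ∈ S, ∑ j ∈ T i, y i j t ^ 2 := by
        simp only [mul_sum, ← sum_add_distrib]
        exact sum_congr rfl fun i _ => sum_congr rfl fun j _ => by ring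
      have p : 0 ≤ Real.exp (-(|t| / Z)) * ∑ i ∈ S, ∑ j ∈ T i, (s * x i j t + y i j t) ^ 2 := by
        positivity
      rw [e] at p
      exact p.trans_eq (by ring)
  rw [discrim] at this
  linarith

theorem HOL_mono {Z : ℝ} (hZ : 1 ≤ Z) {F : ℕ} (hF : 1 ≤ F) (I : Finset ℕ) (a : ℕ → ℂ) (c : ℝ)
    (k : ℕ) :
    ∫ t : ℝ, Real.exp (-(|t| / Z)) * ∑ f ∈ Ico F (2 * F), ∑ ψ ∈ prim f, ‖dp f ψ I a (c * t)‖ ^ k ≤
      ∫ t : ℝ, Real.exp (-(|t| / Z)) *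
        ∑ f ∈ Icc 1 (2 * F), ∑ ψ ∈ prim f, ‖dp f ψ I a (c * t)‖ ^ k := by
  refine integral_mono
    ((HOL_CB.sum _ fun f => HOL_CB.sum _ fun ψ => (HOL_dp f ψ I a c).pow k).int hZ)
    ((HOL_CB.sum _ fun f => HOL_CB.sum _ fun ψ => (HOL_dp f ψ I a c).pow k).int hZ) fun t => ?_
  refine mul_le_mul_of_nonneg_left (sum_le_sum_of_subset_of_nonneg (fun f hf => ?_)
    fun f _ _ => by positivity) (Real.exp_pos _).le
  rw [mem_Ico] at hf
  rw [mem_Icc]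
  omega

theorem HOL_nsq {I : Finset ℕ} {a : ℕ → ℂ} {X : ℝ} (hX : 0 ≤ X)
    (hI : ∀ n ∈ I, 1 ≤ n ∧ (n : ℝ) ≤ X) (ha : ∀ n ∈ I, ‖a n‖ ≤ 1) :
    0 ≤ nsq I a ∧ nsq I a ≤ X := by
  refine ⟨sum_nonneg fun _ _ => by positivity, ?_⟩
  have h1 : I.card ≤ ⌊X⌋₊ := by
    have : I ⊆ Icc 1 ⌊X⌋₊ := fun n hn => mem_Icc.2 ⟨(hI n hn).1, Nat.le_floor (hI n hn).2⟩
    simpa using card_le_card this
  calc nsq I a ≤ ∑ _n ∈ I, (1 : ℝ) := sum_le_sum fun n hn => pow_le_one₀ (norm_nonneg _) (ha n hn)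
    _ = I.card := by simp
    _ ≤ ⌊X⌋₊ := by exact_mod_cast h1
    _ ≤ X := Nat.floor_le hX

theorem t_HOL (hHLS : S_HLS) (hH4 : S_H4) : S_HOL := by
  obtain ⟨C2, hC2, h2⟩ := hHLS
  obtain ⟨C4, hC4, h4⟩ := hH4
  refine ⟨4 * C4 * (16 * C4) * (256 * C2) ^ 2, by positivity,
    fun F H A B Z τ U V I J α β d hF hH hA hB hZ hU hV hI hJ hα hβ hτ hdU hdV => ?_⟩
  have hτ0 : 0 ≤ τ := by simpa using hτ 0 (by simp only [Nat.cast_zero]; positivity)
  have hI' : ∀ n ∈ I, 1 ≤ n ∧ (n : ℝ) ≤ 2 * A := fun n hn =>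
    ⟨by exact_mod_cast hA.trans (hI n hn).1, (hI n hn).2⟩
  have hJ' : ∀ n ∈ J, 1 ≤ n ∧ (n : ℝ) ≤ 16 * B := fun n hn =>
    ⟨by exact_mod_cast hB.trans (hJ n hn).1, (hJ n hn).2⟩
  have nI := HOL_nsq (by positivity) hI' hα
  have nJ := HOL_nsq (by positivity) hJ' hβ
  have cD : ∀ f ψ, HOL_CB fun t =>
      ‖∑ h ∈ Ico H (2 * H), d f ψ h * MP_e86632_nt.ee (-(t * Real.log h))‖ :=
    fun f ψ => by simpa using HOL_poly (Ico H (2 * H)) (d f ψ) 1
  have s1 := HOL_cs hZ (Ico F (2 * F)) prim (fun f ψ => (cD f ψ).mul (HOL_dp f ψ I α (1 / 2)))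
    fun f ψ => HOL_dp f ψ J β (1 / 2)
  have s2 := HOL_cs hZ (Ico F (2 * F)) prim (fun f ψ => (cD f ψ).pow 2)
    fun f ψ => (HOL_dp f ψ I α (1 / 2)).pow 2
  simp only [← pow_mul, ← mul_pow] at s2
  have m3 := (HOL_mono hZ hF J β (1 / 2) 2).trans
    (h2 (2 * F) Z (16 * B) (1 / 2) J β (by omega) hZ le_rfl (by norm_num) hJ')
  have m2 := (HOL_mono hZ hF I α (1 / 2) 4).trans
    (h4 (2 * F) Z (2 * A) (1 / 2) τ I α (by omega) hZ le_rfl (by norm_num) hI'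
      fun m hm => hτ m (by nlinarith [sq_nonneg (H : ℝ)])).1
  have m1 : ∫ t : ℝ, Real.exp (-(|t| / Z)) * ∑ f ∈ Ico F (2 * F), ∑ ψ ∈ prim f,
      ‖∑ h ∈ Ico H (2 * H), d f ψ h * MP_e86632_nt.ee (-(t * Real.log h))‖ ^ 4 ≤
      4 * C4 * ((Z + (H : ℝ) ^ 2) * τ * F * U * V) := by
    simp only [mul_sum]
    rw [integral_finsetSum _ fun f _ =>
      integrable_finsetSum _ fun ψ _ => ((cD f ψ).pow 4).int hZ]
    calc _ ≤ ∑ _f ∈ Ico F (2 * F), 4 * C4 * ((Z + (H : ℝ) ^ 2) * τ * U * V) := by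
          refine sum_le_sum fun f hf => ?_
          rw [integral_finsetSum _ fun ψ _ => ((cD f ψ).pow 4).int hZ]
          refine le_trans (sum_le_sum fun ψ hψ => ?_) (le_trans (mul_sum _ _ _).ge
            ((mul_le_mul_of_nonneg_left (hdV f hf) (by positivity :
              0 ≤ 4 * C4 * ((Z + (H : ℝ) ^ 2) * τ * U))).trans_eq (by ring)))
          have := (h4 1 Z (2 * H) 1 τ (Ico H (2 * H)) (d f ψ) le_rfl hZ (by norm_num) le_rfl
            (fun n hn => by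
              rw [mem_Ico] at hn
              exact ⟨by omega, by exact_mod_cast hn.2.le⟩)
            fun m hm => hτ m (by nlinarith [sq_nonneg A])).2
          simp only [one_mul] at this
          refine this.trans ?_
          have n0 : 0 ≤ nsq (Ico H (2 * H)) (d f ψ) := sum_nonneg fun _ _ => by positivity
          have n1 : nsq (Ico H (2 * H)) (d f ψ) ≤ U := hdU f hf ψ hψ
          change _ ≤ _ * nsq (Ico H (2 * H)) (d f ψ)
          calc _ ≤ C4 * (4 * (Z + (H : ℝ) ^ 2)) * τ * (U * nsq (Ico H (2 * H)) (d f ψ)) := by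
                rw [sq (nsq _ _)]
                gcongr
                nlinarith
            _ = _ := by ring
      _ = _ := by
          rw [sum_const, Nat.card_Ico, show 2 * F - F = F by omega, nsmul_eq_mul]
          ring
  have m2' : C4 * (((2 * F : ℕ) : ℝ) ^ 2 * Z + (2 * A) ^ 2) * τ * nsq I α ^ 2 ≤
      16 * C4 * (((F : ℝ) ^ 2 * Z + A ^ 2) * τ * A ^ 2) := by
    calc _ ≤ C4 * (((2 * F : ℕ) : ℝ) ^ 2 * Z + (2 * A) ^ 2) * τ * (2 * A) ^ 2 := by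
          gcongr
          exacts [nI.1, nI.2]
      _ = _ := by push_cast; ring
  have m3' : C2 * (((2 * F : ℕ) : ℝ) ^ 2 * Z + 16 * B) * nsq J β ≤
      256 * C2 * (((F : ℝ) ^ 2 * Z + B) * B) := by
    calc _ ≤ C2 * (16 * ((F : ℝ) ^ 2 * Z + B)) * (16 * B) := by
          gcongr
          · exact nJ.1
          · push_cast
            nlinarith [mul_nonneg (sq_nonneg (F : ℝ)) (zero_le_one.trans hZ)]
          · exact nJ.2
      _ = _ := by ring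
  have p : ∀ {g : ℝ → ℝ}, (∀ t, 0 ≤ g t) → 0 ≤ ∫ t : ℝ, Real.exp (-(|t| / Z)) * g t :=
    fun hg => integral_nonneg fun t => mul_nonneg (Real.exp_pos _).le (hg t)
  have e1 := mul_le_mul m1 (m2.trans m2') (p fun t => by positivity) (by positivity)
  have e2 := pow_le_pow_left₀ (p fun t => by positivity) (m3.trans m3') 2
  have e3 := mul_le_mul (s2.trans e1) e2 (by positivity) (by positivity)
  have e4 := pow_le_pow_left₀ (sq_nonneg _) s1 2
  rw [← pow_mul, mul_pow] at e4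
  exact (e4.trans e3).trans_eq (by ring)

end Pool.Agent.P.MP_e94e4b_nt.PF
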