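import Pool.Agent.P.MP_e94e4b_nt.PF.Basic

/-! Summation over the blocks, and the symmetric form of the bilinear estimate. -/

namespace Pool.Agent.P.MP_e94e4b_nt.PF

open Finset Real Filter Topology
open Pool.Agent.P.MP_e86632_nt (ee)
open Pool.Agent.P.MP_8be758_nt.Avg (gs Rough PL red ft en nsq gs_pos gs_le_one prime_of_mem_PL
  ev_pow ev_const ev_log)
open ArithmeticFunction (cardFactors)

theorem LB0_cop (e : ℕ) {α : ℕ → ℝ} (h : ∀ a, |α a| ≤ 1) (a : ℕ) : ‖cop e α a‖ ≤ 1 := by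
  rw [cop]
  split_ifs
  · simpa using h a
  · simp

theorem LB0_card {I : Finset ℕ} {X : ℝ} (hX : 0 ≤ X) (h : ∀ a ∈ I, (a : ℝ) ≤ X) :
    (I.card : ℝ) ≤ X + 1 := by
  have h1 : I ⊆ range (⌊X⌋₊ + 1) := fun a ha =>
    mem_range.2 (Nat.lt_succ_of_le (Nat.le_floor (h a ha)))
  have h2 : (I.card : ℝ) ≤ (⌊X⌋₊ : ℝ) + 1 := by
    have := card_le_card h1
    rw [card_range] at this
    exact_mod_cast this
  linarith [Nat.floor_le hX]

theorem LB0_T {y : ℝ} (hy : 1 ≤ y) (hL : 1 ≤ Real.log y) :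
    ∃ T : ℕ, y ^ 2 < 2 ^ T ∧ (T : ℝ) ≤ 4 * Real.log y := by
  have h1 : 1 ≤ y ^ 2 := one_le_pow₀ hy
  have h2 : ⌊y ^ 2⌋₊ ≠ 0 := (Nat.floor_pos.2 h1).ne'
  refine ⟨Nat.log 2 ⌊y ^ 2⌋₊ + 1, ?_, ?_⟩
  · have h3 : ⌊y ^ 2⌋₊ + 1 ≤ 2 ^ (Nat.log 2 ⌊y ^ 2⌋₊ + 1) := Nat.lt_pow_succ_log_self one_lt_two _
    exact (Nat.lt_floor_add_one _).trans_le (by exact_mod_cast h3)
  · have h3 : ((2 : ℝ) ^ Nat.log 2 ⌊y ^ 2⌋₊) ≤ y ^ 2 :=
      le_trans (by exact_mod_cast Nat.pow_log_le_self 2 h2) (Nat.floor_le (by positivity))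
    have h4 := Real.log_le_log (by positivity) h3
    rw [Real.log_pow, Real.log_pow] at h4
    have h5 := Real.log_two_gt_d9
    have h6 : (0 : ℝ) ≤ Nat.log 2 ⌊y ^ 2⌋₊ := Nat.cast_nonneg _
    push_cast at h4 ⊢
    nlinarith

theorem t_LB0 (hRED : S_RED) (hBS : S_BS) : S_LB0 := by
  intro η h0 h1
  filter_upwards [hBS η h0 h1, ev_pow 2 2 (show 1 / 2 - η < 2 by linarith),
    ev_pow 128 3 (show 2 - η / 3 < 2 - η / 4 by linarith),
    ev_const 15520 (show 0 < 2 - η / 4 by linarith), ev_gs one_half_pos 6, ev_log 1,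
    eventually_ge_atTop 1] with y hb h2 h3 h4 h5 hL hy A B I J α β hA1 hA2 hB1 hB2 hI hJ hα hβ
  have hy0 : 0 < y := by linarith
  obtain ⟨T, hT1, hT2⟩ := LB0_T hy hL
  have hQ1 : 1 ≤ y ^ (1 / 2 - η) := Real.one_le_rpow hy (by linarith)
  have hQ2 : y ^ (1 / 2 - η) ≤ y := by
    simpa using Real.rpow_le_rpow_of_exponent_le hy (show 1 / 2 - η ≤ 1 by linarith)
  have hLy : Real.log y ≤ y := (Real.log_le_sub_one_of_pos hy0).trans (by linarith)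
  have hη : 1 ≤ y ^ η := Real.one_le_rpow hy h0.le
  rw [Real.rpow_two] at h2
  set L := Real.log y with hLdef
  set Q := y ^ (1 / 2 - η) with hQdef
  have hK : L ^ 2 * Q + 1 < 2 ^ T := by
    have : 1 ≤ L ^ 2 * Q := one_le_mul_of_one_le_of_one_le (one_le_pow₀ hL) hQ1
    linarith
  refine (hRED L Q T I J α β hL hQ1 hK hα hβ).trans ?_
  have hW : 0 < y ^ (2 - η / 3) := Real.rpow_pos_of_pos hy0 _
  have m1 : ∑ e ∈ Icc 1 ⌊Q⌋₊, ∑ i ∈ range T, ∑ j ∈ range T,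
      blk e (2 ^ i) (2 ^ j) (dd L Q e) I J (cop e α) (cop e β) ≤
      (T : ℝ) ^ 2 * y ^ (2 - η / 3) * ∑ e ∈ Ioc 0 ⌊Q⌋₊, 1 / (e : ℝ) := by
    rw [mul_sum, show Ioc 0 ⌊Q⌋₊ = Icc 1 ⌊Q⌋₊ from rfl]
    refine sum_le_sum fun e he => ?_
    calc _ ≤ ∑ i ∈ range T, ∑ j ∈ range T, y ^ (2 - η / 3) / e :=
          sum_le_sum fun i _ => sum_le_sum fun j _ =>
            hb e _ _ A B I J _ _ (mem_Icc.1 he).1 Nat.one_le_two_pow Nat.one_le_two_pow hA1 hA2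
              hB1 hB2 hI hJ (LB0_cop e hα) (LB0_cop e hβ)
      _ = _ := by
          simp only [sum_const, card_range, nsmul_eq_mul]
          ring
  have m2 : ∑ e ∈ Ioc 0 ⌊Q⌋₊, 1 / (e : ℝ) ≤ 2 * L := by
    refine (Pool.Agent.P.MP_e86632_nt.sum_inv_le _).trans ?_
    have h6 : Real.log (⌊Q⌋₊ : ℝ) ≤ L :=
      Real.log_le_log (by exact_mod_cast Nat.floor_pos.2 hQ1)
        ((Nat.floor_le (by linarith)).trans hQ2)
    linarith
  have m3 : (T : ℝ) ^ 2 * y ^ (2 - η / 3) * ∑ e ∈ Ioc 0 ⌊Q⌋₊, 1 / (e : ℝ) ≤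
      (4 * L) ^ 2 * y ^ (2 - η / 3) * (2 * L) := by
    gcongr
  have hA0 : 1 / 2 ≤ A := by linarith
  have hB0 : 0 < B := by
    have : 0 < A * B := lt_of_lt_of_le (by positivity) hB1
    exact (pos_iff_pos_of_mul_pos this).1 (by linarith)
  have hy2 : y ≤ y ^ 2 := by nlinarith
  have hB3 : B ≤ 6 * y ^ 2 := by nlinarith
  have c1 : (I.card : ℝ) ≤ 5 * y :=
    (LB0_card (by linarith) fun a ha => (hI a ha).2).trans (by linarith)
  have c2 : (J.card : ℝ) ≤ 97 * y ^ 2 :=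
    (LB0_card (by linarith) fun a ha => (hJ a ha).2).trans (by linarith)
  have c3 : 1 + L * Q ≤ 2 * y ^ 2 := by
    have : L * Q ≤ y * y := mul_le_mul hLy hQ2 (by linarith) hy0.le
    nlinarith
  have c4 : gs (L / 2) ≤ 1 / y ^ 6 := by
    rw [show L / 2 = 1 / 2 * L by ring]
    refine h5.trans_eq ?_
    rw [Real.rpow_neg hy0.le, one_div]
    norm_cast
  have c5 := gs_pos (L / 2)
  have m4 : Q * I.card * J.card * (8 * (1 + L * Q) * gs (L / 2)) ≤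
      y * (5 * y) * (97 * y ^ 2) * (8 * (2 * y ^ 2) * (1 / y ^ 6)) := by
    have : 0 ≤ 1 + L * Q := by positivity
    gcongr
  have m5 : y * (5 * y) * (97 * y ^ 2) * (8 * (2 * y ^ 2) * (1 / y ^ 6)) = 7760 := by
    field_simp
    norm_num
  nlinarith

theorem LB0_swap {y : ℝ} (hy : 0 < y) (α β : ℕ → ℝ) {n : ℕ} (hn : (n : ℝ) ≤ 3 * y ^ 2) :
    cv α β n = cv (fun a => if (a : ℝ) ≤ 2 * y then α a else 0) β n +
      cv (fun b => if (b : ℝ) ≤ 2 * y then β b else 0)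
        (fun a => if (a : ℝ) ≤ 2 * y then 0 else α a) n := by
  rw [cv_comm (fun b => if (b : ℝ) ≤ 2 * y then β b else 0), cv, cv, cv, ← sum_add_distrib]
  refine sum_congr rfl fun d hd => ?_
  by_cases h : (d.1 : ℝ) ≤ 2 * y
  · simp [h]
  · have h1 : (d.1 : ℝ) * d.2 = n := by exact_mod_cast (Nat.mem_divisorsAntidiagonal.1 hd).1
    have h2 : (d.2 : ℝ) ≤ 2 * y := by
      by_contra h3
      push Not at h h3
      nlinarith
    simp [h, h2]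

theorem t_LB (hLB1 : S_LB1) : S_LB := by
  intro η h0 h1
  filter_upwards [hLB1 η h0 h1, ev_pow 2 0 (show 2 - η / 9 < 2 - η / 10 by linarith),
    eventually_gt_atTop 0] with y hb h2 hy X1 X2 α β hX1 hX2 hα hβ sα sβ
  have e1 : ∀ {γ : ℕ → ℝ}, (∀ a, |γ a| ≤ 1) →
      ∀ a : ℕ, |if (a : ℝ) ≤ 2 * y then γ a else 0| ≤ 1 := fun h a => by
    split_ifs
    exacts [h a, by simp]
  have e2 : ∀ a : ℕ, |if (a : ℝ) ≤ 2 * y then 0 else α a| ≤ 1 := fun a => by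
    split_ifs
    exacts [by simp, hα a]
  have e3 : ∀ {γ : ℕ → ℝ}, (∀ a, γ a ≠ 0 → y ^ η ≤ a) →
      ∀ a : ℕ, (if (a : ℝ) ≤ 2 * y then γ a else 0) ≠ 0 → y ^ η ≤ a ∧ (a : ℝ) ≤ 2 * y :=
    fun h a ha => by
      split_ifs at ha with h3
      exacts [⟨h a ha, h3⟩, (ha rfl).elim]
  rw [lev_congr _ _ fun n hn => LB0_swap hy α β
    (le_trans (by exact_mod_cast (mem_Ioc.1 hn).2) hX2)]
  refine (lev_add _ _ _ _ _).trans ?_
  have b1 := hb X1 X2 _ β hX1 hX2 (e1 hα) hβ (e3 sα)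
  have b2 := hb X1 X2 _ _ hX1 hX2 (e1 hβ) e2 (e3 sβ)
  rw [pow_zero, mul_one] at h2
  linarith

end Pool.Agent.P.MP_e94e4b_nt.PF
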