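import Pool.Agent.P.MP_e94e4b_nt.PF.Basic

/-! From boxes to a convolution over an interval. -/

namespace Pool.Agent.P.MP_e94e4b_nt.PF

open Finset Real Filter Topology
open Pool.Agent.P.MP_8be758_nt.Avg (ev_pow ev_const ev_log)

theorem LB1_box {S I J : Finset ℕ} (G : ℕ → ℕ → ℝ) (h0 : 0 ∉ S)
    (h : ∀ a ∈ I, ∀ b ∈ J, a * b ∈ S) :
    ∑ n ∈ S, ∑ d ∈ n.divisorsAntidiagonal, (if d.1 ∈ I ∧ d.2 ∈ J then G d.1 d.2 else 0) =
      ∑ a ∈ I, ∑ b ∈ J, G a b := by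
  rw [← sum_product', ← sum_fiberwise_of_maps_to (s := I ×ˢ J) (t := S) (g := fun x => x.1 * x.2)
    fun x hx => h _ (mem_product.1 hx).1 _ (mem_product.1 hx).2]
  refine sum_congr rfl fun n hn => ?_
  rw [← sum_filter]
  refine sum_congr ?_ fun _ _ => rfl
  ext d
  have : n ≠ 0 := fun e => h0 (e ▸ hn)
  simp only [mem_filter, Nat.mem_divisorsAntidiagonal, mem_product]
  tauto

/-- the part of the convolution that comes from a box -/
noncomputable def LB1_g (I J : Finset ℕ) (α β : ℕ → ℝ) (n : ℕ) : ℝ :=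
  ∑ d ∈ n.divisorsAntidiagonal, if d.1 ∈ I ∧ d.2 ∈ J then α d.1 * β d.2 else 0

theorem LB1_lev (K Q : ℝ) {S I J : Finset ℕ} (α β : ℕ → ℝ) (h0 : 0 ∉ S)
    (h : ∀ a ∈ I, ∀ b ∈ J, a * b ∈ S) : lev K Q S (LB1_g I J α β) = ∑ q ∈ SQ Q,
      |∑ a ∈ I, ∑ b ∈ J, if (a * b).Coprime q then α a * β b * Dl K q (a * b) else 0| := by
  refine sum_congr rfl fun q _ => congrArg _ ?_
  rw [← LB1_box _ h0 h, sum_filter]
  refine sum_congr rfl fun n _ => ?_
  rw [LB1_g, sum_mul]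
  split_ifs with hc
  · refine sum_congr rfl fun d hd => ?_
    rw [(Nat.mem_divisorsAntidiagonal.1 hd).1, if_pos hc]
    split_ifs <;> simp
  · refine (sum_eq_zero fun d hd => ?_).symm
    rw [(Nat.mem_divisorsAntidiagonal.1 hd).1, if_neg hc, ite_self]

theorem LB1_sum (K Q : ℝ) (S T : Finset ℕ) (γ : ℕ → ℕ → ℝ) :
    lev K Q S (fun n => ∑ k ∈ T, γ k n) ≤ ∑ k ∈ T, lev K Q S (γ k) := by
  simp only [lev]
  rw [sum_comm]
  refine sum_le_sum fun q _ => ?_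
  simp only [sum_mul]
  rw [sum_comm]
  exact abs_sum_le_sum_abs _ _

/-- the index of the box -/
noncomputable def LB1_k (δ : ℝ) (a : ℕ) : ℕ := ⌊Real.log a / δ⌋₊

theorem LB1_k_spec {δ : ℝ} (hδ : 0 < δ) (hδ1 : δ ≤ 1 / 2) {a : ℕ} (ha : 1 ≤ a) :
    Real.exp (LB1_k δ a * δ) ≤ a ∧ (a : ℝ) ≤ (1 + 2 * δ) * Real.exp (LB1_k δ a * δ) := by
  have a1 : (1 : ℝ) ≤ a := by exact_mod_cast ha
  have h1 : (LB1_k δ a : ℝ) ≤ Real.log a / δ :=
    Nat.floor_le (div_nonneg (Real.log_nonneg a1) hδ.le)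
  have h2 : Real.log a / δ < LB1_k δ a + 1 := Nat.lt_floor_add_one _
  rw [le_div_iff₀ hδ] at h1
  rw [div_lt_iff₀ hδ] at h2
  have h3 : Real.exp δ ≤ 1 + 2 * δ := by
    have := Real.abs_exp_sub_one_le (x := δ) (by rw [abs_of_pos hδ]; linarith)
    rw [abs_of_pos hδ] at this
    linarith [le_abs_self (Real.exp δ - 1)]
  have e : Real.exp (Real.log a) = a := Real.exp_log (by linarith)
  refine ⟨(Real.exp_le_exp.2 h1).trans e.le, ?_⟩
  calc (a : ℝ) = Real.exp (Real.log a) := e.symm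
    _ ≤ Real.exp (δ + LB1_k δ a * δ) := Real.exp_le_exp.2 (by linarith)
    _ ≤ _ := by rw [Real.exp_add]; exact mul_le_mul_of_nonneg_right h3 (Real.exp_pos _).le

noncomputable def LB1_I (δ : ℝ) (X2 k : ℕ) : Finset ℕ := (Icc 1 X2).filter fun a => LB1_k δ a = k

noncomputable def LB1_J (δ : ℝ) (X1 X2 k : ℕ) : Finset ℕ := (Icc 1 X2).filter fun b =>
  (X1 : ℝ) < Real.exp (k * δ) * b ∧ (1 + 2 * δ) * Real.exp (k * δ) * b ≤ X2

theorem LB1_mem {δ : ℝ} (hδ : 0 < δ) (hδ1 : δ ≤ 1 / 2) {X1 X2 k : ℕ} :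
    ∀ a ∈ LB1_I δ X2 k, ∀ b ∈ LB1_J δ X1 X2 k, a * b ∈ Ioc X1 X2 := by
  intro a ha b hb
  obtain ⟨h1, rfl⟩ := mem_filter.1 ha
  obtain ⟨-, h2, h3⟩ := mem_filter.1 hb
  obtain ⟨h4, h5⟩ := LB1_k_spec hδ hδ1 (mem_Icc.1 h1).1
  have h6 := h2.trans_le (mul_le_mul_of_nonneg_right h4 (Nat.cast_nonneg b))
  have h7 := (mul_le_mul_of_nonneg_right h5 (Nat.cast_nonneg b)).trans h3
  exact mem_Ioc.2 ⟨by exact_mod_cast h6, by exact_mod_cast h7⟩

theorem LB1_rest {δ : ℝ} (hδ : 0 < δ) (hδ1 : δ ≤ 1 / 2) {X1 X2 W : ℕ} {T : Finset ℕ}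
    {α β : ℕ → ℝ} (hα : ∀ a, |α a| ≤ 1) (hβ : ∀ b, |β b| ≤ 1)
    (hT : ∀ a, 1 ≤ a → α a ≠ 0 → LB1_k δ a ∈ T) (hW : 2 * δ * X2 < W + 1) {n : ℕ}
    (hn : n ∈ Ioc X1 X2) :
    |cv α β n - ∑ k ∈ T, LB1_g (LB1_I δ X2 k) (LB1_J δ X1 X2 k) α β n| ≤
      if n ∈ Ioc X1 (X1 + W) ∪ Icc (X2 - W) X2 then (n.divisors.card : ℝ) else 0 := by
  obtain ⟨n1, n2⟩ := mem_Ioc.1 hn
  have e : (if n ∈ Ioc X1 (X1 + W) ∪ Icc (X2 - W) X2 then (n.divisors.card : ℝ) else 0) =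
      ∑ _d ∈ n.divisorsAntidiagonal,
        if n ∈ Ioc X1 (X1 + W) ∪ Icc (X2 - W) X2 then (1 : ℝ) else 0 := by
    rw [sum_const, ← Nat.map_div_right_divisors, card_map]
    split_ifs <;> simp
  simp only [cv, LB1_g]
  rw [e, sum_comm, ← sum_sub_distrib]
  refine (abs_sum_le_sum_abs _ _).trans (sum_le_sum fun d hd => ?_)
  obtain ⟨d1, d2⟩ := Nat.mem_divisorsAntidiagonal.1 hd
  have z : (0 : ℝ) ≤ if n ∈ Ioc X1 (X1 + W) ∪ Icc (X2 - W) X2 then (1 : ℝ) else 0 := by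
    split_ifs <;> norm_num
  by_cases h0 : α d.1 = 0
  · simpa [h0] using z
  have a1 : 1 ≤ d.1 := Nat.pos_of_ne_zero fun h => d2 (by rw [← d1, h, zero_mul])
  have b1 : 1 ≤ d.2 := Nat.pos_of_ne_zero fun h => d2 (by rw [← d1, h, mul_zero])
  have a2 : d.1 ≤ X2 := (Nat.le_mul_of_pos_right _ b1).trans (d1.le.trans n2)
  have b2 : d.2 ≤ X2 := (Nat.le_mul_of_pos_left _ a1).trans (d1.le.trans n2)
  rw [sum_eq_single_of_mem _ (hT _ a1 h0) fun k _ hk =>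
    if_neg fun h => hk (mem_filter.1 h.1).2.symm]
  by_cases hJ : d.2 ∈ LB1_J δ X1 X2 (LB1_k δ d.1)
  · rw [if_pos ⟨mem_filter.2 ⟨mem_Icc.2 ⟨a1, a2⟩, rfl⟩, hJ⟩]
    simpa using z
  rw [if_neg fun h => hJ h.2, sub_zero, if_pos, abs_mul]
  · exact mul_le_one₀ (hα _) (abs_nonneg _) (hβ _)
  obtain ⟨h4, h5⟩ := LB1_k_spec hδ hδ1 a1
  have h6 := mul_le_mul_of_nonneg_right h4 (Nat.cast_nonneg (α := ℝ) d.2)
  have h7 := mul_le_mul_of_nonneg_right h5 (Nat.cast_nonneg (α := ℝ) d.2)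
  rw [← Nat.cast_mul, d1] at h6 h7
  have m1 : (X1 : ℝ) ≤ n := by exact_mod_cast n1.le
  have m2 : (n : ℝ) ≤ X2 := by exact_mod_cast n2
  rw [LB1_J, mem_filter, not_and, not_and_or, not_lt, not_le] at hJ
  rw [mem_union, mem_Ioc, mem_Icc]
  rcases hJ (mem_Icc.2 ⟨b1, b2⟩) with k | k
  · left
    have : (n : ℝ) < X1 + W + 1 := by nlinarith
    exact ⟨n1, Nat.lt_succ_iff.1 (by exact_mod_cast this)⟩
  · right
    have : (X2 : ℝ) < n + W + 1 := by nlinarith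
    have : X2 < n + W + 1 := by exact_mod_cast this
    exact ⟨by omega, n2⟩

theorem t_LB1 (hLB0 : S_LB0) (hTB : S_TB) : S_LB1 := by
  intro η h0 h1
  have he : 0 < η / 300 := by positivity
  filter_upwards [hLB0 η h0 h1, hTB.2 _ he, ev_tau 3 he, eventually_ge_atTop 3,
    ev_const 2 (show 0 < η / 8 by positivity), ev_log 1,
    ev_pow 6 1 (show 2 - η / 8 < 2 - η / 9 by linarith),
    ev_pow 26 0 (show 2 - η / 8 + η / 300 + η / 300 < 2 - η / 9 by linarith)]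
    with y H0 HT Hτ y3 y4 y5 y6 y7 X1 X2 α β x1 x2 hα hβ hs
  have y0 : 0 < y := by linarith
  have y1 : 1 ≤ y := by linarith
  set u := y ^ (η / 8) with hu
  have u0 : 0 < u := by linarith
  set δ := 1 / u with hδ
  have δ0 : 0 < δ := by positivity
  have δ1 : δ ≤ 1 / 2 := one_div_le_one_div_of_le (by norm_num) y4
  set N := ⌊Real.log (2 * y) / δ⌋₊ + 1 with hN
  set T := (range N).filter fun k : ℕ => y ^ η / 2 ≤ Real.exp (k * δ) ∧ Real.exp (k * δ) ≤ 2 * y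
    with hT
  set W := ⌊6 * δ * y ^ 2⌋₊ with hW
  have l2 : Real.log (2 * y) ≤ 2 * Real.log y := by
    rw [Real.log_mul (by norm_num) y0.ne']
    linarith [Real.log_le_log (by norm_num : (0 : ℝ) < 2) (by linarith : 2 ≤ y)]
  have hN' : (N : ℝ) ≤ 3 * Real.log y * u := by
    have : (⌊Real.log (2 * y) / δ⌋₊ : ℝ) ≤ Real.log (2 * y) / δ :=
      Nat.floor_le (div_nonneg (Real.log_nonneg (by linarith)) δ0.le)
    rw [hδ, div_div_eq_mul_div, div_one] at this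
    rw [hN]
    push_cast
    rw [hδ, div_div_eq_mul_div, div_one]
    nlinarith
  have hT' : ∀ a, 1 ≤ a → α a ≠ 0 → LB1_k δ a ∈ T := fun a a1 a2 => by
    obtain ⟨k1, k2⟩ := LB1_k_spec δ0 δ1 a1
    obtain ⟨k3, k4⟩ := hs a a2
    refine mem_filter.2 ⟨mem_range.2 (Nat.lt_succ_iff.2 (Nat.floor_le_floor ?_)), ?_, k1.trans k4⟩
    · exact div_le_div_of_nonneg_right (Real.log_le_log (by exact_mod_cast a1) k4) δ0.le
    · nlinarith [Real.exp_pos (LB1_k δ a * δ)]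
  have hW1 : 2 * δ * X2 < W + 1 := lt_of_le_of_lt (by nlinarith) (Nat.lt_floor_add_one _)
  have hW2 : (W : ℝ) ≤ 6 * δ * y ^ 2 := Nat.floor_le (by positivity)
  have p1 : y ^ (2 - η / 8) = δ * y ^ 2 := by
    rw [Real.rpow_sub y0, hδ, ← hu, Real.rpow_two]; ring
  have p2 : u * y ^ (2 - η / 4) = y ^ (2 - η / 8) := by
    rw [hu, ← Real.rpow_add y0]; congr 1; ring
  have p3 : 1 ≤ y ^ (2 - η / 8) := Real.one_le_rpow y1 (by linarith)
  have b1 : ∑ k ∈ T, lev (Real.log y) (y ^ (1 / 2 - η)) (Ioc X1 X2)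
      (LB1_g (LB1_I δ X2 k) (LB1_J δ X1 X2 k) α β) ≤ y ^ (2 - η / 9) / 2 := by
    refine (sum_le_card_nsmul _ _ (y ^ (2 - η / 4)) fun k hk => ?_).trans ?_
    · obtain ⟨-, k1, k2⟩ := mem_filter.1 hk
      have k0 := Real.exp_pos (k * δ)
      have k3 : Real.exp (k * δ) * (y ^ 2 / (2 * Real.exp (k * δ))) = y ^ 2 / 2 := by field_simp
      rw [LB1_lev _ _ _ _ (by simp) (LB1_mem δ0 δ1)]
      refine H0 _ (y ^ 2 / (2 * Real.exp (k * δ))) _ _ α β k1 k2 k3.ge (by rw [k3]; nlinarith)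
        (fun a ha => ?_) (fun b hb => ?_) hα hβ
      · obtain ⟨a1, rfl⟩ := mem_filter.1 ha
        obtain ⟨a2, a3⟩ := LB1_k_spec δ0 δ1 (mem_Icc.1 a1).1
        exact ⟨a2, by nlinarith⟩
      · obtain ⟨-, b2, b3⟩ := mem_filter.1 hb
        have b4 : 0 ≤ δ * (Real.exp (k * δ) * b) := by positivity
        constructor
        · rw [div_le_iff₀ (by positivity)]; nlinarith
        · refine le_of_mul_le_mul_left ?_ k0
          rw [mul_left_comm, k3]; nlinarith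
    · have c1 : (T.card : ℝ) ≤ N := by
        exact_mod_cast (card_filter_le _ _).trans (card_range N).le
      rw [nsmul_eq_mul]
      refine (mul_le_mul_of_nonneg_right (c1.trans hN') (by positivity)).trans ?_
      rw [mul_assoc, p2]
      rw [pow_one] at y6
      linarith
  have b2 : lev (Real.log y) (y ^ (1 / 2 - η)) (Ioc X1 X2) (fun n => cv α β n -
      ∑ k ∈ T, LB1_g (LB1_I δ X2 k) (LB1_J δ X1 X2 k) α β n) ≤ y ^ (2 - η / 9) / 2 := by
    refine (lev_le _ _ _ _).trans ?_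
    have q0 : 0 ≤ y ^ (η / 300) := by positivity
    calc _ ≤ ∑ n ∈ Ioc X1 X2, if n ∈ Ioc X1 (X1 + W) ∪ Icc (X2 - W) X2 then
            y ^ (η / 300) * y ^ (η / 300) else 0 := by
          refine sum_le_sum fun n hn => ?_
          have m1 : (X1 : ℝ) ≤ n := by exact_mod_cast (mem_Ioc.1 hn).1.le
          have m2 : (n : ℝ) ≤ X2 := by exact_mod_cast (mem_Ioc.1 hn).2
          have c1 : ∑ q ∈ SQ (y ^ (1 / 2 - η)), |Dl (Real.log y) q n| ≤ y ^ (η / 300) :=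
            (sum_le_sum_of_subset_of_nonneg (SQ_mono ((Real.rpow_le_rpow_of_exponent_le y1
              (by linarith)).trans_eq (Real.rpow_one y))) fun _ _ _ => abs_nonneg _).trans
              (HT n (by nlinarith) (by nlinarith))
          have c2 := LB1_rest δ0 δ1 hα hβ hT' hW1 hn
          refine (mul_le_mul c2 c1 (sum_nonneg fun _ _ => abs_nonneg _)
            ((abs_nonneg _).trans c2)).trans ?_
          split_ifs
          · exact mul_le_mul_of_nonneg_right (Hτ n (by nlinarith)) q0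
          · simp
      _ ≤ (2 * W + 1) * (y ^ (η / 300) * y ^ (η / 300)) := by
          rw [← sum_filter, sum_const, nsmul_eq_mul]
          refine mul_le_mul_of_nonneg_right ?_ (by positivity)
          have : ((Ioc X1 X2).filter fun n => n ∈ Ioc X1 (X1 + W) ∪ Icc (X2 - W) X2).card ≤
              2 * W + 1 := by
            refine (card_le_card fun n hn => (mem_filter.1 hn).2).trans
              ((card_union_le _ _).trans ?_)
            rw [Nat.card_Ioc, Nat.card_Icc]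
            omega
          exact_mod_cast this
      _ ≤ 13 * y ^ (2 - η / 8) * (y ^ (η / 300) * y ^ (η / 300)) :=
          mul_le_mul_of_nonneg_right (by linarith) (by positivity)
      _ ≤ _ := by
          rw [Real.rpow_add y0, Real.rpow_add y0, pow_zero] at y7
          linarith
  have b3 := lev_add (Real.log y) (y ^ (1 / 2 - η)) (Ioc X1 X2)
    (fun n => ∑ k ∈ T, LB1_g (LB1_I δ X2 k) (LB1_J δ X1 X2 k) α β n)
    fun n => cv α β n - ∑ k ∈ T, LB1_g (LB1_I δ X2 k) (LB1_J δ X1 X2 k) α β n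
  simp only [add_sub_cancel] at b3
  have b4 := LB1_sum (Real.log y) (y ^ (1 / 2 - η)) (Ioc X1 X2) T
    fun k => LB1_g (LB1_I δ X2 k) (LB1_J δ X1 X2 k) α β
  have b5 : lev (Real.log y) (y ^ (1 / 2 - η)) (Ioc X1 X2) (cv α β) ≤ _ := b3
  linarith

end Pool.Agent.P.MP_e94e4b_nt.PF
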