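import Pool.Agent.P.MP_e94e4b_nt.PF.Basic

/-! The level of distribution for the primes. -/

namespace Pool.Agent.P.MP_e94e4b_nt.PF

open Finset Real Filter Topology
open Pool.Agent.P.MP_e86632_nt (ee)
open Pool.Agent.P.MP_8be758_nt.Avg (gs Rough PL red ft en nsq gs_pos gs_le_one prime_of_mem_PL
  ev_pow ev_const ev_log)
open ArithmeticFunction (cardFactors vonMangoldt)

theorem LP_pp {X : ℝ} (hX : 1 < X) {X1 X2 : ℕ} (h : (X2 : ℝ) ≤ X) :
    ∑ n ∈ Ioc X1 X2, |(if n.Prime then 0 else -(vonMangoldt n / Real.log X))| ≤ 2 * √X := by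
  have h0 := Real.log_pos hX
  have h1 := Chebyshev.psi_sub_theta_le hX.le
  rw [Chebyshev.psi_sub_theta_eq_sum_not_prime, sum_filter] at h1
  have h2 : Ioc X1 X2 ⊆ Ioc 0 ⌊X⌋₊ := Ioc_subset_Ioc (Nat.zero_le _) (Nat.le_floor h)
  refine (sum_le_sum_of_subset_of_nonneg h2 fun _ _ _ => abs_nonneg _).trans ?_
  refine le_trans (le_of_eq ?_) ((div_le_iff₀ h0).2 h1)
  rw [sum_div]
  refine sum_congr rfl fun n _ => ?_
  by_cases hn : n.Prime
  · simp [hn]
  · rw [if_neg hn, if_pos hn, abs_neg,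
      abs_of_nonneg (div_nonneg ArithmeticFunction.vonMangoldt_nonneg h0.le)]

theorem t_LP (hTB : S_TB) (hLB : S_LB) (hT1 : S_T1) (hVA : S_VA) : S_LP := by
  refine ⟨1 / 2000, by norm_num, ?_⟩
  filter_upwards [hTB.2 (1 / 2) (by norm_num), hLB (1 / 100) (by norm_num) (by norm_num), hT1,
    ev_pow 7 0 (a := 2 - 1 / 100 / 10) (b := 2 - 1 / 2000) (by norm_num),
    eventually_ge_atTop 3] with y h1 h2 h3 h4 h5 X1 X2 hX1 hX2
  have y0 : 0 < y := by linarith
  have y1 : 1 ≤ y := by linarith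
  have hX : 1 < 3 * y ^ 2 := by nlinarith
  have hl := Real.log_pos hX
  have hU : (y ^ (1 / 100 : ℝ)) ^ 2 = y ^ (1 / 50 : ℝ) := by
    rw [← Real.rpow_natCast, ← Real.rpow_mul y0.le]; norm_num
  have le1 : ∀ a : ℝ, a ≤ 1 → y ^ a ≤ y := fun a ha =>
    (Real.rpow_le_rpow_of_exponent_le y1 ha).trans_eq (Real.rpow_one y)
  obtain ⟨c1, c2, α, β, b1, b2, b3⟩ := hVA (y ^ (1 / 100 : ℝ)) (3 * y ^ 2)
    (Real.one_le_rpow y1 (by norm_num))
    (by rw [hU]; have := le1 (1 / 50) (by norm_num); nlinarith) hX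
  rw [hU] at b2
  have e1 : lev (Real.log y) (QQ y) (Ioc X1 X2) (gam1 y) = lev (Real.log y) (QQ y) (Ioc X1 X2)
      (fun n => cv c1 (fun m => Real.log m / Real.log (3 * y ^ 2)) n + cv c2 (fun _ => 1) n +
        cv α β n + if n.Prime then 0 else -(vonMangoldt n / Real.log (3 * y ^ 2))) := by
    refine lev_congr _ _ fun n hn => ?_
    rw [mem_Ioc] at hn
    have h6 : (X1 : ℝ) < n := by exact_mod_cast hn.1
    have h7 : (n : ℝ) ≤ X2 := by exact_mod_cast hn.2
    rw [← b3 n (by have := le1 (1 / 100) (by norm_num); nlinarith) (h7.trans hX2), gam1]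
    split_ifs with hp
    · rw [ArithmeticFunction.vonMangoldt_apply_prime hp, add_zero]
    · ring
  have t1 := h3 X1 X2 c1 (fun m => Real.log m / Real.log (3 * y ^ 2)) hX1 hX2 (fun d => (b1 d).1)
    (fun d => (b2 d).1)
    (fun m n hmn => div_le_div_of_nonneg_right (by
      rcases Nat.eq_zero_or_pos m with rfl | hm
      · simpa using Real.log_natCast_nonneg n
      · exact Real.log_le_log (by exact_mod_cast hm) (by exact_mod_cast hmn)) hl.le)
    (fun m => ⟨div_nonneg (Real.log_natCast_nonneg m) hl.le, fun hm => (div_le_one hl).2 (by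
      rcases Nat.eq_zero_or_pos m with rfl | hm0
      · simpa using hl.le
      · exact Real.log_le_log (by exact_mod_cast hm0) hm)⟩)
  have t2 := h3 X1 X2 c2 (fun _ => 1) hX1 hX2 (fun d => (b1 d).2.1) (fun d => (b2 d).2.1)
    monotone_const (fun _ => ⟨zero_le_one, fun _ => le_rfl⟩)
  have t3 := h2 X1 X2 α β hX1 hX2 (fun d => (b1 d).2.2.1) (fun d => (b1 d).2.2.2)
    (fun d => (b2 d).2.2.1) (fun d => (b2 d).2.2.2)
  rw [show y ^ (1 / 2 - 1 / 100 : ℝ) = QQ y by rw [QQ]; norm_num] at t3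
  have t4 : lev (Real.log y) (QQ y) (Ioc X1 X2)
      (fun n => if n.Prime then 0 else -(vonMangoldt n / Real.log (3 * y ^ 2))) ≤
      4 * y ^ (3 / 2 : ℝ) := by
    refine (lev_le _ _ _ _).trans ?_
    refine (sum_le_sum fun n hn => mul_le_mul_of_nonneg_left (b := _) (c := y ^ (1 / 2 : ℝ)) ?_
      (abs_nonneg _)).trans ?_
    · rw [mem_Ioc] at hn
      have h6 : (X1 : ℝ) < n := by exact_mod_cast hn.1
      have h7 : (n : ℝ) ≤ X2 := by exact_mod_cast hn.2
      refine le_trans (sum_le_sum_of_subset_of_nonneg (SQ_mono (le1 _ (by norm_num)))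
        fun _ _ _ => abs_nonneg _) (h1 n (by nlinarith) (by nlinarith))
    · rw [← sum_mul]
      have h8 : √(3 * y ^ 2) ≤ 2 * y := Real.sqrt_le_iff.2 ⟨by linarith, by nlinarith⟩
      have h9 : y ^ (3 / 2 : ℝ) = y * y ^ (1 / 2 : ℝ) := by
        rw [show (3 / 2 : ℝ) = 1 + 1 / 2 by norm_num, Real.rpow_add y0, Real.rpow_one]
      rw [h9, ← mul_assoc]
      exact mul_le_mul_of_nonneg_right ((LP_pp hX hX2).trans (by linarith)) (by positivity)
  have u1 : y ^ (8 / 5 : ℝ) ≤ y ^ (2 - 1 / 100 / 10 : ℝ) :=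
    Real.rpow_le_rpow_of_exponent_le y1 (by norm_num)
  have u2 : y ^ (3 / 2 : ℝ) ≤ y ^ (2 - 1 / 100 / 10 : ℝ) :=
    Real.rpow_le_rpow_of_exponent_le y1 (by norm_num)
  have a1 := lev_add (Real.log y) (QQ y) (Ioc X1 X2)
    (cv c1 (fun m => Real.log m / Real.log (3 * y ^ 2))) (cv c2 (fun _ => 1))
  have a2 := lev_add (Real.log y) (QQ y) (Ioc X1 X2)
    (fun n => cv c1 (fun m => Real.log m / Real.log (3 * y ^ 2)) n + cv c2 (fun _ => 1) n) (cv α β)
  rw [e1]
  refine (lev_add _ _ _ _ _).trans ?_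
  rw [pow_zero, mul_one] at h4
  linarith

end Pool.Agent.P.MP_e94e4b_nt.PF
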