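import Pool.Agent.P.MP_e94e4b_nt.PF.Basic

/-! The lower bound for the weighted number of representations. -/

namespace Pool.Agent.P.MP_e94e4b_nt.PF

open Finset Real Filter Topology
open Pool.Agent.P.MP_e86632_nt (ee)
open Pool.Agent.P.MP_8be758_nt.Avg (gs Rough PL red ft en nsq gs_pos gs_le_one prime_of_mem_PL
  ev_pow ev_const ev_log rough_prime)
open ArithmeticFunction (cardFactors)

theorem MAIN_small {a c : ℝ} (ha : 0 < a) (hc : 0 < c) :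
    ∀ᶠ y : ℝ in atTop, y ^ (2 - a) ≤ c * y ^ 2 / Real.log y ^ 2 := by
  have h := (isLittleO_log_rpow_rpow_atTop 2 ha).bound hc
  filter_upwards [h, eventually_gt_atTop 1] with y h1 h2
  have h0 : 0 < y := by linarith
  have h3 : 0 < Real.log y := Real.log_pos h2
  rw [Real.norm_of_nonneg (by positivity), Real.norm_of_nonneg (by positivity),
    Real.rpow_two] at h1
  rw [le_div_iff₀ (by positivity)]
  calc y ^ (2 - a) * Real.log y ^ 2 ≤ y ^ (2 - a) * (c * y ^ a) :=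
        mul_le_mul_of_nonneg_left h1 (by positivity)
    _ = c * y ^ 2 := by
        rw [mul_left_comm, ← Real.rpow_add h0, sub_add_cancel, Real.rpow_two]

theorem MAIN_eqd {S : Finset ℕ} {γ : ℕ → ℝ} {R : ℕ} {δ δ' : ℝ} (h : Eqd S γ R δ) (hδ : δ ≤ δ') :
    Eqd S γ R δ' := fun f r r' h1 h2 h3 h4 => (h f r r' h1 h2 h3 h4).trans hδ

theorem MAIN_gam1 {y : ℝ} (hy : 1 ≤ y) {n : ℕ} (hn : (n : ℝ) ≤ 3 * y ^ 2) :
    0 ≤ gam1 y n ∧ gam1 y n ≤ 1 := by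
  have h3 : 0 < Real.log (3 * y ^ 2) := Real.log_pos (by nlinarith)
  unfold gam1
  split_ifs with h
  · have h1 : (0 : ℝ) < n := by exact_mod_cast h.pos
    exact ⟨div_nonneg (Real.log_natCast_nonneg n) h3.le,
      (div_le_one h3).2 (Real.log_le_log h1 hn)⟩
  · exact ⟨le_rfl, zero_le_one⟩

theorem MAIN_poly {y : ℝ} (hy : 2000 ≤ y) :
    2 * y ^ 2 + 2 * y - (y ^ 2 - 2 * y) ≤ 501 / 1000 * y ^ 2 * 2 := by nlinarith

theorem MAIN_poly2 {y : ℝ} (hy : 2000 ≤ y) :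
    y ^ 2 / 2 ≤ y ^ 2 ∧ 2 * y ^ 2 ≤ 3 * y ^ 2 ∧ y ^ 2 / 2 ≤ y ^ 2 - 2 * y ∧
      2 * y ^ 2 + 2 * y ≤ 3 * y ^ 2 := by
  refine ⟨?_, ?_, ?_, ?_⟩ <;> nlinarith

theorem MAIN_arith {V T G1 G2 e1 e2 eP S1 S2 SP L1 L2 A B R t u : ℝ} (hV : 0 ≤ V) (hT : 0 ≤ T)
    (hG1 : 499 / 1000 * T ≤ G1) (hG2 : G2 ≤ 227 / 1000 * T) (hG2' : 0 ≤ G2)
    (he : 75 / 100 * V ≤ e1 - e2) (heP : eP ≤ 128 / 100 * V)
    (h1 : |S1 - G1 * e1| ≤ L1 + 1 / 1000 * (V * T)) (h2 : |S2 - G1 * e2| ≤ L1 + 1 / 1000 * (V * T))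
    (hP : |SP - G2 * eP| ≤ L2 + 1 / 1000 * (V * T)) (hA : S1 - S2 ≤ A) (hB : B ≤ SP)
    (hL1 : L1 ≤ u) (hL2 : L2 ≤ u) (ht : t ≤ u) (hu : u ≤ 1 / 100 * (V * T)) (hu0 : 0 ≤ u)
    (hR : A ≤ R + (1 + 1 / 1000) * B + t) : u ≤ R := by
  have hVT : 0 ≤ V * T := mul_nonneg hV hT
  have a1 : 499 / 1000 * T * (75 / 100 * V) ≤ G1 * (e1 - e2) :=
    mul_le_mul hG1 he (by positivity) (le_trans (by positivity) hG1)
  have a2 : G2 * eP ≤ 227 / 1000 * T * (128 / 100 * V) :=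
    (mul_le_mul_of_nonneg_left heP hG2').trans (mul_le_mul_of_nonneg_right hG2 (by positivity))
  have b1 := (abs_le.1 h1).1
  have b2 := (abs_le.1 h2).2
  have b3 := (abs_le.1 hP).2
  nlinarith

theorem t_MAIN (hLB : S_LB) (hLP : S_LP) (hGEN : S_GEN) (hMR2 : S_MR2) (hCOMB : S_COMB)
    (hEQ1 : S_EQ1) (hG2 : S_G2) (hEQ2 : S_EQ2) (hMASS : S_MASS) (hRO : S_RO) (hSW : S_SW) :
    S_MAIN := by
  obtain ⟨c0, hc0, hV⟩ := hMR2.2
  obtain ⟨C, hC, hCOMB⟩ := hCOMB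
  obtain ⟨R, ε', hε', hGEN⟩ := hGEN C (1 / 1000) hC (by norm_num)
  obtain ⟨c1, hc1, hLP⟩ := hLP
  have hm : 0 < min ε' (1 / 10000) := lt_min hε' (by norm_num)
  refine ⟨c0 / 100, by positivity, ?_⟩
  filter_upwards [ev_nat hCOMB, ev_nat hGEN, ev_nat hLP, ev_nat (hEQ1 R _ hm),
    ev_nat (hEQ2 R _ hε'), ev_nat (hMASS (1 / 10000) (by norm_num)),
    ev_nat (hLB (1 / 100) (by norm_num) (by norm_num)), hSW (1 / 1000) (by norm_num),
    ev_nat (MAIN_small hc1 (show 0 < c0 / 100 by positivity)),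
    ev_nat (MAIN_small (show (0 : ℝ) < 1 / 100 / 10 by norm_num) (show 0 < c0 / 100 by positivity)),
    ev_nat (MAIN_small (show (0 : ℝ) < 1 / 10 by norm_num) (show 0 < c0 / 100 by positivity)),
    ev_nat (ev_zz 2), eventually_ge_atTop 2000]
    with y hCOMB hGEN hLP hEQ1 hEQ2 hMASS hLB hSW s1 s2 s3 hz hy
  obtain ⟨lP, l1, l2, hl, hx, heP, he⟩ := hCOMB
  have hy' : (2000 : ℝ) ≤ y := by exact_mod_cast hy
  have hy0 : (0 : ℝ) < y := by linarith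
  have hy1 : (1 : ℝ) ≤ y := by linarith
  have hlog : 0 < Real.log y := Real.log_pos (by linarith)
  set V := VP (PL (zz y)) gg with hVdef
  have hV1 : c0 / Real.log y ≤ V := by
    refine le_trans ?_ (hV _ hz)
    rw [log_zz hy0]
    exact div_le_div_of_nonneg_left hc0.le (by positivity) (by linarith)
  have hV0 : 0 ≤ V := le_trans (by positivity) hV1
  set T : ℝ := (y : ℝ) ^ 2 / Real.log y with hT
  have hT0 : 0 ≤ T := by positivity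
  have hzy : zz y ≤ (y : ℝ) ^ 2 := by
    rw [zz, ← Real.rpow_two]
    exact Real.rpow_le_rpow_of_exponent_le hy1 (by norm_num)
  have hzy' : (y : ℝ) ^ (1 / 100 : ℝ) ≤ zz y :=
    Real.rpow_le_rpow_of_exponent_le hy1 (by norm_num)
  have hQ : (y : ℝ) ^ (1 / 2 - 1 / 100 : ℝ) = QQ y := by
    rw [QQ]
    norm_num
  -- the first sequence
  have a1 : (y : ℝ) ^ 2 / 2 ≤ ((y ^ 2 : ℕ) : ℝ) := by
    push_cast
    exact (MAIN_poly2 hy').1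
  have a2 : ((2 * y ^ 2 : ℕ) : ℝ) ≤ 3 * (y : ℝ) ^ 2 := by
    push_cast
    exact (MAIN_poly2 hy').2.1
  have a3 : ∀ n ∈ Ioc (y ^ 2) (2 * y ^ 2), (n : ℝ) ≤ 3 * (y : ℝ) ^ 2 := fun n hn =>
    le_trans (by exact_mod_cast (mem_Ioc.1 hn).2) a2
  have a4 : ∀ n ∈ Ioc (y ^ 2) (2 * y ^ 2), |gam1 y n| ≤ 1 := fun n hn => by
    have := MAIN_gam1 hy1 (a3 n hn)
    rw [abs_of_nonneg this.1]
    exact this.2
  have a5 : ∀ n ∈ Ioc (y ^ 2) (2 * y ^ 2), gam1 y n ≠ 0 → Rough (zz y) n := fun n hn h => by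
    have hp : n.Prime := by
      by_contra hp
      exact h (if_neg hp)
    refine (rough_prime hp).2 (hzy.trans_lt ?_)
    exact_mod_cast (mem_Ioc.1 hn).1
  obtain ⟨a6, a7⟩ := hEQ1 (y ^ 2) (2 * y ^ 2) a1 (by omega) a2
  have a8 : Eqd (Ioc (y ^ 2) (2 * y ^ 2)) (gam1 y) R (ε' * (y : ℝ) ^ 2 / Real.log y) :=
    MAIN_eqd a7 (by gcongr; exact min_le_left _ _)
  have g1 := hGEN _ _ l1 V a3 a4 a5 hV0 (hl l1 (by simp)).1 (hl l1 (by simp)).2 a8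
  have g2 := hGEN _ _ l2 V a3 a4 a5 hV0 (hl l2 (by simp)).1 (hl l2 (by simp)).2 a8
  -- the second sequence
  have hyy : 2 * y ≤ y ^ 2 := by
    rw [sq]
    exact Nat.mul_le_mul_right _ (by omega)
  have b0 : ((y ^ 2 - 2 * y : ℕ) : ℝ) = (y : ℝ) ^ 2 - 2 * y := by
    rw [Nat.cast_sub hyy]
    push_cast
    ring
  have b1 : (y : ℝ) ^ 2 / 2 ≤ ((y ^ 2 - 2 * y : ℕ) : ℝ) := by
    rw [b0]
    exact (MAIN_poly2 hy').2.2.1
  have b2 : ((2 * y ^ 2 + 2 * y : ℕ) : ℝ) ≤ 3 * (y : ℝ) ^ 2 := by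
    push_cast
    exact (MAIN_poly2 hy').2.2.2
  have b3 : ∀ n : ℕ, n ∈ Ioc (y ^ 2 - 2 * y) (2 * y ^ 2 + 2 * y) → (n : ℝ) ≤ 3 * (y : ℝ) ^ 2 :=
    fun n hn => le_trans (Nat.cast_le.2 (mem_Ioc.1 hn).2) b2
  obtain ⟨c2, c3, c4⟩ := hG2 (zz y)
  have g3 := hGEN (Ioc (y ^ 2 - 2 * y) (2 * y ^ 2 + 2 * y)) (gam2 (zz y)) lP V b3
    (fun n _ => by rw [abs_of_nonneg (c4 n).1]; exact (c4 n).2.1) (fun n _ => (c4 n).2.2.1) hV0
    (hl lP (by simp)).1 (hl lP (by simp)).2 (hEQ2 _ _ b1 (by omega) b2)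
  have b4 := hMASS _ _ b1 (by omega) b2
  have b5 := hLB _ _ (al (zz y)) (be (zz y)) b1 b2 (fun a => (c2 a).1) (fun b => (c3 b).1)
    (fun a h => hzy'.trans ((c2 a).2 h).le) fun b h => hzy'.trans ((c3 b).2 h).le
  rw [hQ] at b5
  have e1 : 1 / 1000 * V * (y : ℝ) ^ 2 / Real.log y = 1 / 1000 * (V * T) := by
    rw [hT]
    ring
  rw [e1] at g1 g2 g3
  have e2 : (19 / 10 : ℝ) = 2 - 1 / 10 := by norm_num
  rw [e2] at hSW
  refine MAIN_arith hV0 hT0 ?_ ?_ (sum_nonneg fun n _ => (c4 n).1) he heP g1 g2 g3 ?_ ?_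
    ((hLP _ _ a1 a2).trans s1) (b5.trans s2) s3 ?_ (by positivity) hSW
  · refine le_trans ?_ a6
    have h1 : min ε' (1 / 10000) * (y : ℝ) ^ 2 / Real.log y ≤ 1 / 10000 * T := by
      rw [hT, mul_div_assoc]
      exact mul_le_mul_of_nonneg_right (min_le_right _ _) hT0
    have h2 : (((2 * y ^ 2 : ℕ) : ℝ) - ((y ^ 2 : ℕ) : ℝ)) / (2 * Real.log y) = 1 / 2 * T := by
      rw [hT]
      push_cast
      field_simp
      ring
    rw [h2]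
    linarith
  · refine b4.trans ?_
    have h2 : (((2 * y ^ 2 + 2 * y : ℕ) : ℝ) - ((y ^ 2 - 2 * y : ℕ) : ℝ)) / (2 * Real.log y) ≤
        501 / 1000 * T := by
      rw [b0, hT, ← mul_div_assoc, div_le_div_iff₀ (by positivity) hlog]
      push_cast
      have h4 := mul_le_mul_of_nonneg_right (MAIN_poly hy') hlog.le
      linarith
    have h3 : 1 / 10000 * (y : ℝ) ^ 2 / Real.log y = 1 / 10000 * T := by
      rw [hT]
      ring
    rw [h3]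
    linarith
  · rw [← sum_sub_distrib]
    refine sum_le_sum fun n hn => ?_
    rw [← mul_sub]
    exact mul_le_mul_of_nonneg_left (hRO _ _ n lP l1 l2 hlog hx).1 (MAIN_gam1 hy1 (a3 n hn)).1
  · exact sum_le_sum fun n _ =>
      mul_le_mul_of_nonneg_left (hRO _ _ n lP l1 l2 hlog hx).2 (c4 n).1
  · calc c0 / 100 * (y : ℝ) ^ 2 / Real.log y ^ 2 = 1 / 100 * (c0 / Real.log y * T) := by
          rw [hT]
          field_simp
      _ ≤ _ := by gcongr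

end Pool.Agent.P.MP_e94e4b_nt.PF
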