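import Pool.Agent.P.MP_e94e4b_nt.PF.Basic
import Pool.Agent.P.MP_e94e4b_nt.Mert

/-! The mass of the cofactors. -/

namespace Pool.Agent.P.MP_e94e4b_nt.PF

open Finset Real Filter Topology
open Pool.Agent.P.MP_8be758_nt.Avg (gs Rough PL mem_PL prime_of_mem_PL ev_pow ev_const ev_log)
open ArithmeticFunction (cardFactors)

theorem MB_card {b : ℕ} (h : Squarefree b) : b.primeFactors.card = cardFactors b := by
  rw [← (ArithmeticFunction.cardDistinctFactors_eq_cardFactors_iff_squarefree h.ne_zero).2 h,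
    ArithmeticFunction.cardDistinctFactors_apply, ← List.card_toFinset, Nat.toFinset_factors]

theorem MB_log {b : ℕ} (h : Squarefree b) :
    Real.log b = ∑ p ∈ b.primeFactors, Real.log p := by
  conv_lhs => rw [← pr_primeFactors h, pr_cast]
  exact Real.log_prod fun p hp => by
    exact_mod_cast (Nat.prime_of_mem_primeFactors hp).ne_zero

theorem t_MB (hMR1 : S_MR1) (hMC : S_MC) : S_MB := by
  classical
  have hz : Tendsto zz atTop atTop := tendsto_rpow_atTop (by norm_num)
  filter_upwards [hz.eventually (hMR1.1 (1 / 100000) (by norm_num)), ev_log 101,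
    eventually_gt_atTop 1, ev_zz 1] with y h1 hl hy hz1 X1 hX1
  set L := 2 * Real.log y with hL
  set z := zz y with hzd
  have hL0 : 0 < L := by linarith
  have hy0 : 0 < y := by linarith
  have hlz : Real.log z = 2 / 25 * L := by rw [hzd, log_zz hy0, hL]; ring
  have hz0 : 0 < z := by linarith
  have hly : Real.log (y ^ 2) = L := by rw [Real.log_pow]; rfl
  set P := (PL (3 * y ^ 2)).filter fun p : ℕ => z < (p : ℝ) with hP
  set bin : ℕ → ℕ := fun p => ⌊100 * Real.log p / L⌋₊ with hbin
  have hb0 : ∀ p : ℕ, 0 ≤ 100 * Real.log p / L := fun p =>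
    div_nonneg (mul_nonneg (by norm_num) (Real.log_natCast_nonneg p)) hL0.le
  have key := hMC P bin (fun p => 1 / (p : ℝ)) (fun p hp => ⟨by
      have h2 := Real.log_lt_log hz0 (mem_filter.1 hp).2
      refine Nat.le_floor ?_
      rw [le_div_iff₀ hL0]
      push_cast
      linarith, by positivity⟩) (fun k hk8 hk92 => by
      have hk : (8 : ℝ) ≤ k := by exact_mod_cast hk8
      have hk' : (k : ℝ) ≤ 92 := by exact_mod_cast hk92
      have h2 := h1 (Real.exp (k * L / 100)) (Real.exp ((k + 1) * L / 100))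
        (by rw [← Real.exp_log hz0, Real.exp_le_exp, hlz]; nlinarith)
        (by rw [Real.exp_le_exp]; nlinarith)
      rw [Real.log_exp, Real.log_exp, show (k + 1) * L / 100 / (k * L / 100) = (k + 1) / k by
        field_simp, Real.log_div (by positivity) (by positivity)] at h2
      have h3 := log_succ_up (x := k) (by linarith)
      have h4 : (1 : ℝ) / 93 ≤ 1 / (k + 1) := one_div_le_one_div_of_le (by linarith) (by linarith)
      have h5 : (1 : ℝ) / 92 ≤ 1 / k := one_div_le_one_div_of_le (by linarith) hk'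
      refine le_trans (sum_le_sum_of_subset_of_nonneg (t := (PL (Real.exp ((k + 1) * L / 100))).filter
        (fun p : ℕ => Real.exp (k * L / 100) ≤ (p : ℝ) ∧ (p : ℝ) < Real.exp ((k + 1) * L / 100)))
        (fun p hp => ?_) fun p _ _ => by positivity) (by linarith [(abs_le.1 h2).2])
      obtain ⟨h6, h7⟩ := mem_filter.1 hp
      have hpp := prime_of_mem_PL (mem_filter.1 h6).1
      have hp0 : (0 : ℝ) < p := by exact_mod_cast hpp.pos
      obtain ⟨h8, h9⟩ := (Nat.floor_eq_iff (hb0 p)).1 h7
      rw [le_div_iff₀ hL0] at h8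
      rw [div_lt_iff₀ hL0] at h9
      have h10 : (p : ℝ) < Real.exp ((k + 1) * L / 100) := by
        rw [← Real.log_lt_iff_lt_exp hp0]; linarith
      have h11 : Real.exp (k * L / 100) ≤ p := by
        rw [← Real.le_log_iff_exp_le hp0]; linarith
      exact mem_filter.2 ⟨(mem_PL (Real.exp_pos _).le).2 ⟨h10.le, hpp⟩, h11, h10⟩)
  set T : Finset ℕ → ℝ := fun E => 1 / ((E.card : ℝ) + 1) * (∏ p ∈ E, 1 / (p : ℝ)) /
      max (2 / 25) (99 / 100 - (((∑ p ∈ E, bin p : ℕ) : ℝ) + E.card) / 100) with hT
  have hmax : ∀ x : ℝ, 0 < max (2 / 25 : ℝ) x := fun x => lt_max_of_lt_left (by norm_num)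
  have hT0 : ∀ E, 0 ≤ T E := fun E =>
    div_nonneg (mul_nonneg (by positivity) (prod_nonneg fun p _ => by positivity)) (hmax _).le
  set B := (Icc 1 ⌊3 * y ^ 2 / z⌋₊).filter
    fun b => Squarefree b ∧ Rough z b ∧ 4 ≤ cardFactors b with hB
  have l3 : Real.log 3 ≤ 2 := by linarith [Real.log_le_sub_one_of_pos (by norm_num : (0 : ℝ) < 3)]
  have l2 : Real.log 2 ≤ 1 := by linarith [Real.log_le_sub_one_of_pos (by norm_num : (0 : ℝ) < 2)]
  have hmem : ∀ b ∈ B, b.primeFactors ∈
      P.powerset.filter (fun E => 4 ≤ E.card ∧ ∑ p ∈ E, bin p ≤ 92) := by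
    intro b hb
    obtain ⟨h2, hsq, hr, h4⟩ := mem_filter.1 hb
    obtain ⟨h5, h6⟩ := mem_Icc.1 h2
    have hb1 : (0 : ℝ) < b := by exact_mod_cast h5
    have h7 : (b : ℝ) ≤ 3 * y ^ 2 / z := (Nat.le_floor_iff (by positivity)).1 h6
    refine mem_filter.2 ⟨mem_powerset.2 fun p hp => ?_, by rwa [MB_card hsq], ?_⟩
    · have hpp := Nat.prime_of_mem_primeFactors hp
      have hd := Nat.dvd_of_mem_primeFactors hp
      have h8 : (p : ℝ) ≤ b := by exact_mod_cast Nat.le_of_dvd h5 hd
      refine mem_filter.2 ⟨(mem_PL (by positivity)).2 ⟨h8.trans (h7.trans ?_), hpp⟩, hr p hpp hd⟩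
      exact div_le_self (by positivity) hz1
    · have h8 := Real.log_le_log hb1 h7
      rw [Real.log_div (by positivity) hz0.ne', Real.log_mul (by norm_num) (by positivity), hly,
        hlz] at h8
      have h9 : ((∑ p ∈ b.primeFactors, bin p : ℕ) : ℝ) ≤ 100 * Real.log b / L := by
        rw [MB_log hsq, mul_sum, sum_div, Nat.cast_sum]
        exact sum_le_sum fun p _ => Nat.floor_le (hb0 p)
      have h10 : 100 * Real.log b / L < 93 := by
        rw [div_lt_iff₀ hL0]; linarith
      have h11 : ((∑ p ∈ b.primeFactors, bin p : ℕ) : ℝ) < (93 : ℕ) := by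
        push_cast at h9 ⊢; linarith
      exact Nat.lt_succ_iff.1 (by exact_mod_cast h11)
  have hterm : ∀ b ∈ B, be z b / b / Real.log (max (X1 / b) z) ≤ T b.primeFactors / L := by
    intro b hb
    obtain ⟨h2, hc⟩ := mem_filter.1 hb
    have hsq := hc.1
    have hb1 : (0 : ℝ) < b := by exact_mod_cast (mem_Icc.1 h2).1
    have hX0 : 0 < X1 := lt_of_lt_of_le (by positivity) hX1
    have e1 : ∏ p ∈ b.primeFactors, 1 / (p : ℝ) = 1 / b := by
      rw [prod_div_distrib, prod_const_one, ← pr_cast, pr_primeFactors hsq]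
    have h9 : 100 * Real.log b / L ≤
        ((∑ p ∈ b.primeFactors, bin p : ℕ) : ℝ) + b.primeFactors.card := by
      rw [MB_log hsq, mul_sum, sum_div, Nat.cast_sum, card_eq_sum_ones, Nat.cast_sum,
        ← sum_add_distrib]
      exact sum_le_sum fun p _ => by exact_mod_cast (Nat.lt_floor_add_one _).le
    rw [div_le_iff₀ hL0] at h9
    have h10 : L - 1 ≤ Real.log X1 := by
      have := Real.log_le_log (by positivity) hX1
      rw [Real.log_div (by positivity) (by norm_num), hly] at this
      linarith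
    have h11 : max (2 / 25) (99 / 100 - (((∑ p ∈ b.primeFactors, bin p : ℕ) : ℝ) +
        b.primeFactors.card) / 100) * L ≤ Real.log (max (X1 / b) z) := by
      rw [max_mul_of_nonneg _ _ hL0.le]
      refine max_le ?_ ?_
      · rw [← hlz]
        exact Real.log_le_log hz0 (le_max_right _ _)
      · refine le_trans ?_ (Real.log_le_log (div_pos hX0 hb1) (le_max_left _ _))
        rw [Real.log_div hX0.ne' hb1.ne']
        linarith
    simp only [hT]
    rw [be, if_pos hc, e1, div_div _ _ L, ← MB_card hsq, div_eq_mul_one_div _ (b : ℝ)]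
    exact div_le_div_of_nonneg_left (by positivity) (mul_pos (hmax _) hL0) h11
  calc ∑ b ∈ Icc 1 ⌊3 * y ^ 2 / z⌋₊, be z b / b / Real.log (max (X1 / b) z)
      = ∑ b ∈ B, be z b / b / Real.log (max (X1 / b) z) := by
        rw [hB, sum_filter]
        refine sum_congr rfl fun b _ => ?_
        split_ifs with hc
        · rfl
        · rw [be, if_neg hc, zero_div, zero_div]
    _ ≤ ∑ b ∈ B, T b.primeFactors / L := sum_le_sum hterm
    _ = (∑ E ∈ B.image Nat.primeFactors, T E) / L := by
        rw [sum_image fun b hb b' hb' e => by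
          rw [← pr_primeFactors (mem_filter.1 hb).2.1, ← pr_primeFactors (mem_filter.1 hb').2.1]
          exact congrArg pr e, sum_div]
    _ ≤ 44 / 100 / L := by
        refine div_le_div_of_nonneg_right (le_trans (sum_le_sum_of_subset_of_nonneg
          (fun E hE => ?_) fun E _ _ => hT0 E) key) hL0.le
        obtain ⟨b, hb, rfl⟩ := mem_image.1 hE
        exact hmem b hb

end Pool.Agent.P.MP_e94e4b_nt.PF
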