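import Pool.Agent.P.MP_e94e4b_nt.PF.Basic

/-! The numerical bound for the mass of the cofactors. -/

namespace Pool.Agent.P.MP_e94e4b_nt.PF

open Finset Real Filter Topology

/-- upper bound for the mass of a bin, scaled by a million -/
def MC_M (k : ℕ) : ℕ := 1001 * (2 * k + 1) * 1000000 / (2000 * k * (k + 1)) + 1

def MC_dot : List ℕ → ℕ → ℕ
  | [], _ => 0
  | x :: t, k => MC_M k * x + MC_dot t (k + 1)

def MC_G (j s : ℕ) : ℕ :=
  if 4 ≤ j then 100 * 100000000 / ((j + 1) * max 8 (99 - s - j)) + 1 else 0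

def MC_step (j : ℕ) (t : List ℕ) : List ℕ :=
  (List.range 93).map fun s => MC_G j s + (MC_dot (t.drop (s + 8)) 8 / ((j + 1) * 1000000) + 1)

def MC_tab : ℕ → List ℕ
  | 0 => []
  | d + 1 => MC_step (11 - d) (MC_tab d)

theorem MC_num : (MC_tab 12).getD 0 0 ≤ 44000000 := by decide +kernel

theorem MC_div (a b : ℕ) (hb : 0 < b) : (a : ℝ) / b ≤ ((a / b + 1 : ℕ) : ℝ) := by
  have h := Nat.lt_mul_div_succ a hb
  have hb' : (0 : ℝ) < b := by exact_mod_cast hb
  rw [div_le_iff₀ hb', mul_comm]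
  exact_mod_cast h.le

theorem MC_dot_ge (t : List ℕ) (k n : ℕ) :
    ∑ i ∈ range n, MC_M (k + i) * t.getD i 0 ≤ MC_dot t k := by
  induction t generalizing k n with
  | nil => simp
  | cons x t ih =>
    cases n with
    | zero => simp
    | succ n =>
      rw [sum_range_succ', MC_dot, add_comm]
      refine Nat.add_le_add (by simp) ?_
      refine le_trans (le_of_eq (sum_congr rfl fun i _ => ?_)) (ih (k + 1) n)
      rw [show k + (i + 1) = k + 1 + i by ring]
      simp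

theorem MC_M_ge {k : ℕ} (hk : 1 ≤ k) :
    1001 / 1000 * ((1 / (k : ℝ) + 1 / (k + 1)) / 2) ≤ MC_M k / 1000000 := by
  have h := MC_div (1001 * (2 * k + 1) * 1000000) (2000 * k * (k + 1)) (by positivity)
  have hk' : (0 : ℝ) < k := by exact_mod_cast hk
  rw [le_div_iff₀ (by norm_num)]
  refine le_trans (le_of_eq ?_) h
  push_cast
  field_simp
  ring

/-- the target weight -/
noncomputable def MC_g (j s : ℕ) : ℝ :=
  if 4 ≤ j ∧ s ≤ 92 then 1 / ((j : ℝ) + 1) / max (2 / 25) (99 / 100 - ((s : ℝ) + j) / 100) else 0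

theorem MC_g_nonneg (j s : ℕ) : 0 ≤ MC_g j s := by
  unfold MC_g
  split_ifs
  · exact div_nonneg (by positivity) (le_max_of_le_left (by norm_num))
  · exact le_rfl

theorem MC_g_le (j s : ℕ) : MC_g j s ≤ MC_G j s / 100000000 := by
  unfold MC_g MC_G
  by_cases h : 4 ≤ j ∧ s ≤ 92
  · rw [if_pos h, if_pos h.1]
    have h8 : 0 < max 8 (99 - s - j) := lt_max_of_lt_left (by norm_num)
    have h1 := MC_div (100 * 100000000) ((j + 1) * max 8 (99 - s - j)) (by positivity)
    have h2 : ((max 8 (99 - s - j) : ℕ) : ℝ) / 100 ≤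
        max (2 / 25) (99 / 100 - ((s : ℝ) + j) / 100) := by
      rcases le_total (99 - s - j) 8 with c | c
      · rw [max_eq_left c]
        exact le_max_of_le_left (by norm_num)
      · rw [max_eq_right c]
        refine le_max_of_le_right (le_of_eq ?_)
        rw [Nat.sub_sub, Nat.cast_sub (by omega)]
        push_cast
        ring
    have h3 : (0 : ℝ) < ((max 8 (99 - s - j) : ℕ) : ℝ) := by exact_mod_cast h8
    rw [le_div_iff₀ (by norm_num)]
    refine le_trans ?_ h1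
    refine le_trans (mul_le_mul_of_nonneg_right
      (div_le_div_of_nonneg_left (by positivity) (by positivity) h2) (by norm_num)) (le_of_eq ?_)
    rw [Nat.cast_mul (j + 1)]
    generalize ((max 8 (99 - s - j) : ℕ) : ℝ) = m at h3
    push_cast
    field_simp
    norm_num
  · rw [if_neg h]
    positivity

/-- the table as a function -/
noncomputable def MC_h (d s : ℕ) : ℝ := ((MC_tab d).getD s 0 : ℕ) / 100000000

theorem MC_h_nonneg (d s : ℕ) : 0 ≤ MC_h d s := by unfold MC_h; positivity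

theorem MC_h_zero (d : ℕ) {s : ℕ} (hs : 93 ≤ s) : MC_h d s = 0 := by
  unfold MC_h
  rw [List.getD_eq_default]
  · simp
  · cases d with
    | zero => simp [MC_tab]
    | succ d => simpa [MC_tab, MC_step] using hs

theorem MC_h_step (d s : ℕ) :
    MC_g (11 - d) s + (∑ i ∈ range 85, (MC_M (8 + i) : ℝ) / 1000000 * MC_h d (s + (8 + i))) /
      (((11 - d : ℕ) : ℝ) + 1) ≤ MC_h (d + 1) s := by
  rcases le_or_gt 93 s with hs | hs
  · rw [MC_h_zero _ hs, MC_g, if_neg (by omega),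
      sum_eq_zero fun i _ => by rw [MC_h_zero _ (by omega), mul_zero]]
    simp
  set j := 11 - d with hj
  have e : (MC_tab (d + 1)).getD s 0 =
      MC_G j s + (MC_dot ((MC_tab d).drop (s + 8)) 8 / ((j + 1) * 1000000) + 1) := by
    rw [MC_tab, MC_step, List.getD_eq_getElem _ _ (by simpa using hs)]
    simp [hj]
  have h1 := MC_div (MC_dot ((MC_tab d).drop (s + 8)) 8) ((j + 1) * 1000000) (by positivity)
  have h2 : ((∑ i ∈ range 85, MC_M (8 + i) * ((MC_tab d).drop (s + 8)).getD i 0 : ℕ) : ℝ) ≤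
      MC_dot ((MC_tab d).drop (s + 8)) 8 := by exact_mod_cast MC_dot_ge _ 8 85
  have h3 : ∑ i ∈ range 85, (MC_M (8 + i) : ℝ) / 1000000 * MC_h d (s + (8 + i)) =
      ((∑ i ∈ range 85, MC_M (8 + i) * ((MC_tab d).drop (s + 8)).getD i 0 : ℕ) : ℝ) /
        (1000000 * 100000000) := by
    rw [Nat.cast_sum, sum_div]
    refine sum_congr rfl fun i _ => ?_
    have : ((MC_tab d).drop (s + 8)).getD i 0 = (MC_tab d).getD (s + (8 + i)) 0 := by
      simp [List.getD_eq_getElem?_getD, List.getElem?_drop, add_assoc]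
    rw [this, MC_h]
    push_cast
    ring
  rw [h3, MC_h, e, Nat.cast_add, add_div]
  refine add_le_add (MC_g_le j s) ?_
  rw [le_div_iff₀ (by norm_num)]
  refine le_trans ?_ h1
  push_cast
  rw [div_div, div_mul_eq_mul_div, div_le_div_iff₀ (by positivity) (by positivity)]
  push_cast at h2
  have : (0 : ℝ) < (j : ℝ) + 1 := by positivity
  nlinarith

section

variable {P : Finset ℕ} {bin : ℕ → ℕ} {w : ℕ → ℝ}

/-- weighted sum over the subsets with `j` elements -/
noncomputable def MC_A (P : Finset ℕ) (bin : ℕ → ℕ) (w : ℕ → ℝ) (j : ℕ) (φ : ℕ → ℝ) : ℝ :=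
  ∑ E ∈ powersetCard j P, (∏ p ∈ E, w p) * φ (∑ p ∈ E, bin p)

theorem MC_prod_nonneg (hw : ∀ p ∈ P, 8 ≤ bin p ∧ 0 ≤ w p) {E : Finset ℕ} (hE : E ⊆ P) :
    0 ≤ ∏ p ∈ E, w p := prod_nonneg fun p hp => (hw p (hE hp)).2

theorem MC_A_succ (hw : ∀ p ∈ P, 8 ≤ bin p ∧ 0 ≤ w p) (j : ℕ) {φ : ℕ → ℝ} (hφ : ∀ s, 0 ≤ φ s) :
    ((j : ℝ) + 1) * MC_A P bin w (j + 1) φ ≤
      MC_A P bin w j fun s => ∑ p ∈ P, w p * φ (s + bin p) := by
  set F : Finset ℕ → ℕ → ℝ := fun E p => (∏ r ∈ E, w r) * (w p * φ (∑ r ∈ E, bin r + bin p))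
    with hF
  have h1 : ((j : ℝ) + 1) * MC_A P bin w (j + 1) φ =
      ∑ E ∈ powersetCard (j + 1) P, ∑ p ∈ E, F (E.erase p) p := by
    rw [MC_A, mul_sum]
    refine sum_congr rfl fun E hE => ?_
    rw [sum_congr rfl (g := fun _ => (∏ p ∈ E, w p) * φ (∑ p ∈ E, bin p)) fun p hp => by
      simp only [hF]
      rw [← mul_assoc, prod_erase_mul _ _ hp, sum_erase_add _ _ hp]]
    rw [sum_const, (mem_powersetCard.1 hE).2, nsmul_eq_mul]
    push_cast
    rfl
  have h2 : MC_A P bin w j (fun s => ∑ p ∈ P, w p * φ (s + bin p)) =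
      ∑ p ∈ P, ∑ E ∈ powersetCard j P, F E p := by
    rw [sum_comm, MC_A]
    exact sum_congr rfl fun E _ => by rw [mul_sum]
  rw [h1, h2, sum_comm' (t' := P) (s' := fun p => (powersetCard (j + 1) P).filter (p ∈ ·))
    (fun E p => by
      simp only [mem_filter]
      exact ⟨fun h => ⟨h, (mem_powersetCard.1 h.1).1 h.2⟩, fun h => h.1⟩)]
  refine sum_le_sum fun p hp => ?_
  rw [← sum_image (g := fun E : Finset ℕ => E.erase p) (f := fun E => F E p)
    fun E hE E' hE' e => by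
      rw [← insert_erase (mem_filter.1 hE).2, ← insert_erase (mem_filter.1 hE').2]
      exact congrArg _ e]
  refine sum_le_sum_of_subset_of_nonneg (fun E hE => ?_) fun E hE _ => ?_
  · obtain ⟨E', hE', rfl⟩ := mem_image.1 hE
    obtain ⟨h3, h4⟩ := mem_filter.1 hE'
    obtain ⟨h5, h6⟩ := mem_powersetCard.1 h3
    exact mem_powersetCard.2 ⟨(erase_subset _ _).trans h5, by rw [card_erase_of_mem h4, h6]; rfl⟩
  · exact mul_nonneg (MC_prod_nonneg hw (mem_powersetCard.1 hE).1)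
      (mul_nonneg (hw p hp).2 (hφ _))

theorem MC_bins (hw : ∀ p ∈ P, 8 ≤ bin p ∧ 0 ≤ w p)
    (hb : ∀ k : ℕ, 8 ≤ k → k ≤ 92 → ∑ p ∈ P.filter (fun p => bin p = k), w p ≤
      1001 / 1000 * ((1 / (k : ℝ) + 1 / (k + 1)) / 2)) (d s : ℕ) :
    ∑ p ∈ P, w p * MC_h d (s + bin p) ≤
      ∑ i ∈ range 85, (MC_M (8 + i) : ℝ) / 1000000 * MC_h d (s + (8 + i)) := by
  have h1 : ∀ p ∈ P, w p * MC_h d (s + bin p) =
      ∑ i ∈ range 85, if bin p = 8 + i then w p * MC_h d (s + (8 + i)) else 0 := by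
    intro p hp
    have h8 := (hw p hp).1
    by_cases c : bin p ≤ 92
    · rw [sum_eq_single (bin p - 8) (fun i _ hi => if_neg (by omega))
        (fun hi => absurd (mem_range.2 (by omega)) hi), if_pos (by omega),
        show 8 + (bin p - 8) = bin p by omega]
    · rw [MC_h_zero _ (by omega), mul_zero]
      exact (sum_eq_zero fun i hi => if_neg (by have := mem_range.1 hi; omega)).symm
  rw [sum_congr rfl h1, sum_comm]
  refine sum_le_sum fun i hi => ?_
  rw [← sum_filter, ← sum_mul]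
  refine mul_le_mul_of_nonneg_right ?_ (MC_h_nonneg _ _)
  have := mem_range.1 hi
  exact (hb (8 + i) (by omega) (by omega)).trans (MC_M_ge (by omega))

theorem MC_ind (hw : ∀ p ∈ P, 8 ≤ bin p ∧ 0 ≤ w p)
    (hb : ∀ k : ℕ, 8 ≤ k → k ≤ 92 → ∑ p ∈ P.filter (fun p => bin p = k), w p ≤
      1001 / 1000 * ((1 / (k : ℝ) + 1 / (k + 1)) / 2)) (d : ℕ) (hd : d ≤ 12) :
    ∑ i ∈ Ico (12 - d) 12, MC_A P bin w i (MC_g i) ≤ MC_A P bin w (12 - d) (MC_h d) := by
  induction d with
  | zero =>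
    simp only [Nat.sub_zero, Ico_self, sum_empty]
    exact sum_nonneg fun E hE =>
      mul_nonneg (MC_prod_nonneg hw (mem_powersetCard.1 hE).1) (MC_h_nonneg _ _)
  | succ d ih =>
    have ih := ih (by omega)
    rw [show 12 - d = 11 - d + 1 by omega] at ih
    rw [show 12 - (d + 1) = 11 - d by omega, sum_eq_sum_Ico_succ_bot (by omega)]
    have h1 := MC_A_succ hw (11 - d) (MC_h_nonneg d)
    have hpos : (0 : ℝ) < ((11 - d : ℕ) : ℝ) + 1 := by positivity
    rw [← le_div_iff₀' hpos] at h1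
    refine (add_le_add le_rfl (ih.trans h1)).trans ?_
    unfold MC_A
    rw [sum_div, ← sum_add_distrib]
    refine sum_le_sum fun E hE => ?_
    rw [mul_div_assoc, ← mul_add]
    refine mul_le_mul_of_nonneg_left ?_ (MC_prod_nonneg hw (mem_powersetCard.1 hE).1)
    refine le_trans (add_le_add le_rfl ?_) (MC_h_step d _)
    exact div_le_div_of_nonneg_right (MC_bins hw hb d _) hpos.le

end

theorem t_MC : S_MC := by
  intro P bin w hw hb
  have h1 := MC_ind hw hb 12 le_rfl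
  have h2 : MC_A P bin w (12 - 12) (MC_h 12) ≤ 44 / 100 := by
    have h3 : (((MC_tab 12).getD 0 0 : ℕ) : ℝ) ≤ 44000000 := by exact_mod_cast MC_num
    simp only [MC_A, Nat.sub_self, powersetCard_zero, sum_singleton, prod_empty, sum_empty, one_mul,
      MC_h]
    rw [div_le_iff₀ (by norm_num)]
    linarith
  refine le_trans ?_ (h1.trans h2)
  rw [← sum_fiberwise_of_maps_to (t := Ico (12 - 12) 12) (g := card) fun E hE => by
    obtain ⟨h3, -, h4⟩ := mem_filter.1 hE
    have h5 : E.card * 8 ≤ ∑ p ∈ E, bin p := by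
      have := card_nsmul_le_sum E bin 8 fun p hp => (hw p (mem_powerset.1 h3 hp)).1
      simpa using this
    exact mem_Ico.2 ⟨by omega, by omega⟩]
  refine sum_le_sum fun i _ => ?_
  rw [MC_A]
  refine le_trans (le_of_eq (sum_congr rfl
    (g := fun E => (∏ p ∈ E, w p) * MC_g i (∑ p ∈ E, bin p)) fun E hE => ?_))
    (sum_le_sum_of_subset_of_nonneg (fun E hE => ?_) fun E hE _ => ?_)
  · obtain ⟨h3, rfl⟩ := mem_filter.1 hE
    rw [MC_g, if_pos (mem_filter.1 h3).2]
    ring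
  · obtain ⟨h3, h4⟩ := mem_filter.1 hE
    exact mem_powersetCard.2 ⟨mem_powerset.1 (mem_filter.1 h3).1, h4⟩
  · exact mul_nonneg (MC_prod_nonneg hw (mem_powersetCard.1 hE).1) (MC_g_nonneg _ _)

end Pool.Agent.P.MP_e94e4b_nt.PF
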