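import Pool.Agent.P.MP_e94e4b_nt.PF.Basic

/-! Regularity of the sieve density and a lower bound for the sieve product. -/

namespace Pool.Agent.P.MP_e94e4b_nt.PF

open Finset Real Filter Topology
open Pool.Agent.P.MP_8be758_nt.Avg (PL mem_PL prime_of_mem_PL)

theorem MR2_pt (hRT : S_RT) {p : ℕ} (hp : p.Prime) :
    0 < 1 - gg p ∧ |Real.log (1 - gg p) + 1 / p| ≤ 10 * ((p : ℝ) ^ 2)⁻¹ := by
  obtain ⟨h0, h1, h2, h3⟩ := hRT.2.2.2.2.1 p hp
  refine ⟨by linarith, ?_⟩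
  have h4 := Real.abs_log_sub_add_sum_range_le (x := gg p) (by rw [abs_of_nonneg h0]; linarith) 1
  simp only [range_one, sum_singleton, zero_add, pow_one, Nat.cast_zero, div_one,
    abs_of_nonneg h0] at h4
  have h5 : gg p ^ (1 + 1) / (1 - gg p) ≤ 2 * gg p ^ 2 := by
    rw [div_le_iff₀ (by linarith), one_add_one_eq_two]
    nlinarith [mul_nonneg (sq_nonneg (gg p)) (by linarith : 0 ≤ 1 - 2 * gg p)]
  have h6 : gg p ^ 2 ≤ (2 / p) ^ 2 := pow_le_pow_left₀ h0 h2 2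
  have h7 : ((2 : ℝ) / p) ^ 2 = 4 * ((p : ℝ) ^ 2)⁻¹ := by ring
  rw [div_eq_mul_inv 2] at h3
  rw [abs_le] at *
  constructor <;> linarith [h3.1, h3.2, h4.1, h4.2]

theorem MR2_sq {F : Finset ℕ} {w : ℝ} (hw : 1 ≤ w) (hF : ∀ p ∈ F, w ≤ p) :
    ∑ p ∈ F, ((p : ℝ) ^ 2)⁻¹ ≤ 2 / w := by
  have h1 : 1 ≤ ⌈w⌉₊ := Nat.one_le_ceil_iff.2 (by linarith)
  have h2 : F ⊆ Ioo (⌈w⌉₊ - 1) (F.sup id + 1) := fun p hp => by
    have a1 : ⌈w⌉₊ ≤ p := Nat.ceil_le.2 (hF p hp)
    have a2 : p ≤ F.sup id := le_sup (f := id) hp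
    rw [mem_Ioo]
    omega
  refine (sum_le_sum_of_subset_of_nonneg h2 fun _ _ _ => by positivity).trans
    ((sum_Ioo_inv_sq_le _ _).trans ?_)
  rw [Nat.cast_sub h1, Nat.cast_one, sub_add_cancel]
  exact div_le_div_of_nonneg_left (by norm_num) (by linarith) (Nat.le_ceil w)

theorem MR2_exp (hRT : S_RT) {F : Finset ℕ} {w : ℝ} (hw : 1 ≤ w) (hp : ∀ p ∈ F, p.Prime)
    (hF : ∀ p ∈ F, w ≤ p) :
    ∃ θ : ℝ, |θ| ≤ 20 / w ∧ VP F gg = Real.exp (θ - ∑ p ∈ F, 1 / (p : ℝ)) := by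
  refine ⟨∑ p ∈ F, (Real.log (1 - gg p) + 1 / p), ?_, ?_⟩
  · refine (abs_sum_le_sum_abs _ _).trans
      ((sum_le_sum fun p h => (MR2_pt hRT (hp p h)).2).trans ?_)
    rw [← mul_sum]
    have := MR2_sq hw hF
    have e : 20 / w = 10 * (2 / w) := by ring
    linarith
  · rw [sum_add_distrib, add_sub_cancel_right, Real.exp_sum]
    exact prod_congr rfl fun p h => (Real.exp_log (MR2_pt hRT (hp p h)).1).symm

theorem t_MR2 (hRT : S_RT) (hMR1 : S_MR1) : S_MR2 := by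
  refine ⟨fun δ hδ => ?_, ?_⟩
  · have hη : 0 < min δ 1 / 4 := by positivity
    filter_upwards [hMR1.1 _ hη, eventually_ge_atTop (21 / (min δ 1 / 4)), eventually_ge_atTop 2]
      with w h1 h2 h3 z P hP y1 y2 a1 a2 a3
    have hw : 0 < w := by linarith
    have b0 : 21 / w ≤ min δ 1 / 4 := by
      rw [div_le_iff₀ hη] at h2
      rw [div_le_iff₀ hw]
      linarith
    have b1 := h1 y1 y2 a1 a2
    set F := P.filter fun p : ℕ => y1 ≤ (p : ℝ) ∧ (p : ℝ) < y2 with hF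
    set G := (PL y2).filter fun p : ℕ => y1 ≤ (p : ℝ) ∧ (p : ℝ) < y2 with hG
    have hFG : F ⊆ G := fun p hp => by
      rw [hF, mem_filter] at hp
      rw [hG, mem_filter, mem_PL (by linarith)]
      exact ⟨⟨hp.2.2.le, ((hP p).1 hp.1).1⟩, hp.2⟩
    have hD : ∀ p ∈ G \ F, (p : ℝ) = w := fun p hp => by
      rw [Finset.mem_sdiff, hG, hF, mem_filter, mem_filter, hP] at hp
      by_contra hne
      exact hp.2 ⟨⟨prime_of_mem_PL hp.1.1, lt_of_le_of_ne (a1.trans hp.1.2.1) (Ne.symm hne),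
        hp.1.2.2.trans_le a3⟩, hp.1.2⟩
    have b2 : ∑ p ∈ G \ F, 1 / (p : ℝ) ≤ 1 / w := by
      have c1 : (G \ F).card ≤ 1 := card_le_one.2 fun p hp q hq => by
        exact_mod_cast (hD p hp).trans (hD q hq).symm
      have c2 : ((G \ F).card : ℝ) ≤ 1 := by exact_mod_cast c1
      rw [sum_congr rfl fun p hp => by rw [hD p hp], sum_const, nsmul_eq_mul]
      exact mul_le_of_le_one_left (by positivity) c2
    have b3 : 0 ≤ ∑ p ∈ G \ F, 1 / (p : ℝ) := sum_nonneg fun _ _ => by positivity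
    have b4 := sum_sdiff (f := fun p : ℕ => 1 / (p : ℝ)) hFG
    obtain ⟨θ, b5, b6⟩ := MR2_exp hRT (F := F) (w := w) (by linarith)
      (fun p hp => prime_of_mem_PL (mem_filter.1 (hFG hp)).1)
      (fun p hp => a1.trans (mem_filter.1 hp).2.1)
    have b7 : 0 < Real.log y2 / Real.log y1 :=
      div_pos (Real.log_pos (by linarith)) (Real.log_pos (by linarith))
    rw [b6, ← Real.exp_log b7, ← Real.exp_add]
    have e : 21 / w = 20 / w + 1 / w := by ring
    have b8 : |θ - ∑ p ∈ F, 1 / (p : ℝ) + Real.log (Real.log y2 / Real.log y1)| ≤ min δ 1 / 2 := by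
      rw [abs_le] at *
      constructor <;> linarith [b1.1, b1.2, b5.1, b5.2]
    have b9 := min_le_left δ 1
    have b10 := min_le_right δ 1
    exact (Real.abs_exp_sub_one_le (by linarith)).trans (by linarith)
  · obtain ⟨w, h1, h2⟩ := ((hMR1.1 1 one_pos).and (eventually_ge_atTop 3)).exists
    refine ⟨Real.exp (-(11 + ⌈w⌉₊)) / 3, by positivity, fun z hz => ?_⟩
    have b1 := h1 w (z + w) le_rfl (by linarith)
    obtain ⟨θ, b5, b6⟩ := MR2_exp hRT (F := PL z) (w := 2) (by norm_num)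
      (fun p hp => prime_of_mem_PL hp) (fun p hp => by exact_mod_cast (prime_of_mem_PL hp).two_le)
    have b2 : ∑ p ∈ (PL z).filter (fun p : ℕ => w ≤ (p : ℝ)), 1 / (p : ℝ) ≤
        ∑ p ∈ (PL (z + w)).filter (fun p : ℕ => w ≤ (p : ℝ) ∧ (p : ℝ) < z + w), 1 / (p : ℝ) := by
      refine sum_le_sum_of_subset_of_nonneg (fun p hp => ?_) fun _ _ _ => by positivity
      rw [mem_filter, mem_PL (by linarith)] at hp ⊢
      exact ⟨⟨by linarith [hp.1.1], hp.1.2⟩, hp.2, by linarith [hp.1.1]⟩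
    have b3 : ∑ p ∈ (PL z).filter (fun p : ℕ => ¬ w ≤ (p : ℝ)), 1 / (p : ℝ) ≤ ⌈w⌉₊ := by
      have c1 : ((PL z).filter fun p : ℕ => ¬ w ≤ (p : ℝ)) ⊆ range ⌈w⌉₊ := fun p hp =>
        mem_range.2 (Nat.lt_ceil.2 (not_le.1 (mem_filter.1 hp).2))
      have c2 : (((PL z).filter fun p : ℕ => ¬ w ≤ (p : ℝ)).card : ℝ) ≤ ⌈w⌉₊ := by
        exact_mod_cast (card_le_card c1).trans (card_range _).le
      refine (sum_le_card_nsmul _ _ 1 fun p hp => ?_).trans (by simpa using c2)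
      have : (1 : ℝ) ≤ p := by exact_mod_cast (prime_of_mem_PL (mem_filter.1 hp).1).one_le
      exact (div_le_one (by linarith)).2 this
    have b4 := sum_filter_add_sum_filter_not (PL z) (fun p : ℕ => w ≤ (p : ℝ))
      fun p : ℕ => 1 / (p : ℝ)
    have l1 : 1 ≤ Real.log w := by
      rw [Real.le_log_iff_exp_le (by linarith)]
      linarith [Real.exp_one_lt_d9]
    have l2 : 1 / 2 ≤ Real.log z := by
      linarith [Real.log_two_gt_d9, Real.log_le_log (by norm_num) hz]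
    have l3 : Real.log (z + w) ≤ Real.log z + Real.log w := by
      rw [← Real.log_mul (by linarith) (by linarith)]
      exact Real.log_le_log (by linarith) (by nlinarith)
    have l4 : Real.log (z + w) / Real.log w ≤ 3 * Real.log z := by
      rw [div_le_iff₀ (by linarith)]
      nlinarith
    have l5 : 0 < Real.log (z + w) / Real.log w :=
      div_pos (Real.log_pos (by linarith)) (by linarith)
    have l6 := Real.log_le_log l5 l4
    rw [b6, div_div, ← Real.exp_log (by linarith : 0 < 3 * Real.log z), ← Real.exp_sub]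
    refine Real.exp_le_exp.2 ?_
    rw [abs_le] at b1 b5
    linarith [b1.2, b5.1]

end Pool.Agent.P.MP_e94e4b_nt.PF
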