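import Pool.Agent.P.MP_e94e4b_nt.PF.Basic

/-! Fourier expansion of the product of the local fluctuations. -/

namespace Pool.Agent.P.MP_e94e4b_nt.PF

open Finset Real Filter Topology
open Pool.Agent.P.MP_8be758_nt.Avg (gs Rough PL red ft en nsq gs_pos gs_le_one prime_of_mem_PL
  ev_pow ev_const ev_log)
open ArithmeticFunction (cardFactors)

theorem PFR_crt {a b : ℕ} (hab : a.Coprime b) (ha : 0 < a) (hb : 0 < b) (f g : ℕ → ℂ)
    (hf : ∀ n, f n = f (n % a)) (hg : ∀ n, g n = g (n % b)) :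
    ∑ m ∈ range (a * b), f m * g m = (∑ x ∈ range a, f x) * ∑ y ∈ range b, g y := by
  rw [sum_mul_sum, ← sum_product']
  refine sum_nbij (fun m => (m % a, m % b)) ?_ ?_ ?_ ?_
  · intro m _
    simp only [mem_product, mem_range]
    exact ⟨Nat.mod_lt _ ha, Nat.mod_lt _ hb⟩
  · intro m hm m' hm' h
    simp only [Prod.mk.injEq] at h
    have h2 : m ≡ m' [MOD a * b] := (Nat.modEq_and_modEq_iff_modEq_mul hab).1 ⟨h.1, h.2⟩
    exact Nat.ModEq.eq_of_lt_of_lt h2 (by simpa using hm) (by simpa using hm')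
  · rintro ⟨x, y⟩ hxy
    simp only [coe_product, coe_range, Set.mem_prod, Set.mem_Iio] at hxy
    refine ⟨Nat.chineseRemainder hab x y, ?_, ?_⟩
    · simpa using Nat.chineseRemainder_lt_mul hab x y ha.ne' hb.ne'
    · have h1 := (Nat.chineseRemainder hab x y).2.1
      have h2 := (Nat.chineseRemainder hab x y).2.2
      simp only [Prod.mk.injEq]
      exact ⟨Eq.trans h1 (Nat.mod_eq_of_lt hxy.1), Eq.trans h2 (Nat.mod_eq_of_lt hxy.2)⟩
  · intro m _
    rw [hf m, hg m]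

/-- Fourier coefficient -/
noncomputable def PFR_c (q : ℕ) (Φ : ℕ → ℂ) (r : ℕ) : ℂ :=
  (1 / (q : ℂ)) * ∑ m ∈ range q, Φ m * MP_e86632_nt.ee (-((m : ℝ) * (r / q)))

theorem PFR_orth {q : ℕ} (hq : 0 < q) (n m : ℕ) (hm : m < q) :
    ∑ r ∈ range q, MP_e86632_nt.ee (-((m : ℝ) * (r / q))) * MP_e86632_nt.ee ((n : ℝ) * (r / q)) =
      if m = n % q then (q : ℂ) else 0 := by
  have h := Pool.Agent.P.MP_8be758_nt.Avg.t_FAR.2.1 q ((n : ℤ) - m) hq
  have e : ∀ r ∈ range q, MP_e86632_nt.ee (-((m : ℝ) * (r / q))) * MP_e86632_nt.ee ((n : ℝ) * (r / q)) =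
      MP_e86632_nt.ee ((r : ℝ) / q * (((n : ℤ) - m : ℤ) : ℝ)) := by
    intro r _
    rw [← MP_e86632_nt.ee_add]; congr 1; push_cast; ring
  rw [sum_congr rfl e, h]
  have : (q : ℤ) ∣ (n : ℤ) - m ↔ m = n % q := by
    rw [← Nat.modEq_iff_dvd]
    constructor
    · intro h1
      have h2 : m % q = n % q := h1
      rwa [Nat.mod_eq_of_lt hm] at h2
    · intro h1
      show m % q = n % q
      rw [h1, Nat.mod_mod]
  simp only [this]

theorem PFR_inv {q : ℕ} (hq : 0 < q) (Φ : ℕ → ℂ) (hΦ : ∀ n, Φ n = Φ (n % q)) (n : ℕ) :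
    Φ n = ∑ r ∈ range q, PFR_c q Φ r * MP_e86632_nt.ee ((n : ℝ) * (r / q)) := by
  have hq' : (q : ℂ) ≠ 0 := by exact_mod_cast hq.ne'
  have e : ∑ r ∈ range q, PFR_c q Φ r * MP_e86632_nt.ee ((n : ℝ) * (r / q)) =
      (1 / (q : ℂ)) * ∑ m ∈ range q, Φ m *
        ∑ r ∈ range q, MP_e86632_nt.ee (-((m : ℝ) * (r / q))) * MP_e86632_nt.ee ((n : ℝ) * (r / q)) := by
    simp only [PFR_c, mul_sum, sum_mul]
    rw [sum_comm]
    refine sum_congr rfl fun m _ => sum_congr rfl fun r _ => by ring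
  rw [e, sum_congr rfl fun m hm => by rw [PFR_orth hq n m (mem_range.1 hm)]]
  simp only [mul_ite, mul_zero]
  rw [sum_ite_eq' (range q) (n % q) (fun m => Φ m * q), if_pos (mem_range.2 (Nat.mod_lt _ hq)),
    ← hΦ n]
  field_simp

theorem PFR_pars {q : ℕ} (hq : 0 < q) (Φ : ℕ → ℂ) (hΦ : ∀ n, Φ n = Φ (n % q)) :
    ∑ r ∈ range q, ‖PFR_c q Φ r‖ ^ 2 = (1 / (q : ℝ)) * ∑ m ∈ range q, ‖Φ m‖ ^ 2 := by
  have h : ∀ z : ℂ, ((‖z‖ ^ 2 : ℝ) : ℂ) = (starRingEnd ℂ) z * z := by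
    intro z; rw [Complex.conj_mul']; push_cast; rfl
  apply Complex.ofReal_injective
  push_cast [← Complex.ofReal_pow]
  simp only [h]
  have e1 : ∀ r ∈ range q, (starRingEnd ℂ) (PFR_c q Φ r) * PFR_c q Φ r =
      (1 / (q : ℂ)) * ∑ m ∈ range q,
        (starRingEnd ℂ) (Φ m) * (PFR_c q Φ r * MP_e86632_nt.ee ((m : ℝ) * (r / q))) := by
    intro r _
    have : (starRingEnd ℂ) (PFR_c q Φ r) =
        (1 / (q : ℂ)) * ∑ m ∈ range q, (starRingEnd ℂ) (Φ m) * MP_e86632_nt.ee ((m : ℝ) * (r / q)) := by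
      simp only [PFR_c, map_mul, map_sum, MP_e86632_nt.ee_neg, Complex.conj_conj, map_div₀, map_one,
        map_natCast]
    rw [this, mul_assoc, sum_mul]
    congr 1
    exact sum_congr rfl fun m _ => by ring
  rw [sum_congr rfl e1, ← mul_sum, sum_comm]
  congr 1
  refine sum_congr rfl fun m _ => ?_
  rw [← mul_sum, ← PFR_inv hq Φ hΦ m]

theorem PFR_xi (hRT : S_RT) {p n n' : ℕ} (h : n ≡ n' [MOD p]) : xi p n = xi p n' := by
  unfold xi
  rw [hRT.2.2.2.1 p n n' h]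
  simp only [(Nat.ModEq.dvd_iff h dvd_rfl)]

theorem PFR_per (hRT : S_RT) (E : Finset ℕ) (n : ℕ) :
    ∏ p ∈ E, xi p n = ∏ p ∈ E, xi p (n % pr E) :=
  prod_congr rfl fun _ hp =>
    PFR_xi hRT ((Nat.mod_modEq n (pr E)).symm.of_dvd (dvd_prod_of_mem _ hp))

theorem PFR_van (hRT : S_RT) {E : Finset ℕ} (hE : ∀ p ∈ E, p.Prime) {p r : ℕ} (hp : p ∈ E)
    (hr : p ∣ r) :
    ∑ m ∈ range (pr E), ((∏ p ∈ E, xi p m : ℝ) : ℂ) * MP_e86632_nt.ee (-((m : ℝ) * (r / pr E))) = 0 := by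
  obtain ⟨s, rfl⟩ := hr
  have hpp := hE p hp
  have hE' : ∀ l ∈ E.erase p, l.Prime := fun l hl => hE l (mem_of_mem_erase hl)
  have hq : pr E = p * pr (E.erase p) := (mul_prod_erase E (fun l => l) hp).symm
  have hpos := pr_pos hE'
  have hcop : p.Coprime (pr (E.erase p)) :=
    Nat.Coprime.prod_right fun l hl =>
      (Nat.coprime_primes hpp (hE' l hl)).2 (ne_of_mem_erase hl).symm
  have hp0 : (p : ℝ) ≠ 0 := by exact_mod_cast hpp.ne_zero
  have hb0 : (pr (E.erase p) : ℝ) ≠ 0 := by exact_mod_cast hpos.ne'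
  have key := PFR_crt hcop hpp.pos hpos (fun m => (xi p m : ℂ))
    (fun m => ((∏ l ∈ E.erase p, xi l m : ℝ) : ℂ) * MP_e86632_nt.ee (-((m : ℝ) * (s / pr (E.erase p)))))
    (fun n => by rw [PFR_xi hRT (Nat.mod_modEq n p).symm])
    (fun n => by
      rw [PFR_per hRT (E.erase p) n]
      congr 1
      rw [← MP_e86632_nt.ee_add_int _ (((n / pr (E.erase p) * s : ℕ) : ℤ))]
      congr 1
      have h1 : (n : ℝ) = pr (E.erase p) * ((n / pr (E.erase p) : ℕ) : ℝ) +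
          ((n % pr (E.erase p) : ℕ) : ℝ) := by
        exact_mod_cast (Nat.div_add_mod n (pr (E.erase p))).symm
      rw [Int.cast_natCast, Nat.cast_mul]
      generalize ((n / pr (E.erase p) : ℕ) : ℝ) = u at h1 ⊢
      generalize ((n % pr (E.erase p) : ℕ) : ℝ) = v at h1 ⊢
      rw [h1]
      field_simp
      ring)
  have h0 : ∑ x ∈ range p, (xi p x : ℂ) = 0 := by
    exact_mod_cast hRT.2.2.2.2.2.2.1 p hpp
  rw [h0, zero_mul, ← hq] at key
  rw [← key]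
  refine sum_congr rfl fun m _ => ?_
  rw [← mul_prod_erase E (fun l => xi l m) hp, hq]
  push_cast
  rw [mul_assoc, mul_div_mul_left _ _ hp0]

theorem t_PF (hRT : S_RT) : S_PF := by
  intro E hE
  have hq := pr_pos hE
  have hq' : (0 : ℝ) < pr E := by exact_mod_cast hq
  refine ⟨fun I γ => ?_, fun ⟨p, hp⟩ => ?_⟩
  · set Φ : ℕ → ℂ := fun n => ((∏ p ∈ E, xi p n : ℝ) : ℂ) with hΦ
    have hper : ∀ n, Φ n = Φ (n % pr E) := fun n => by simp only [hΦ]; rw [PFR_per hRT E n]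
    have hvan : ∀ r ∈ range (pr E), r ∉ red (pr E) → PFR_c (pr E) Φ r = 0 := by
      intro r hr hr'
      have hn : ¬ r.Coprime (pr E) := fun h => hr' (mem_filter.2 ⟨hr, h⟩)
      rw [pr, Nat.coprime_prod_right_iff] at hn
      push Not at hn
      obtain ⟨p, hp, hrp⟩ := hn
      have hd : p ∣ r := by
        by_contra hc
        exact hrp ((Nat.Prime.coprime_iff_not_dvd (hE p hp)).2 hc).symm
      rw [PFR_c, PFR_van hRT hE hp hd, mul_zero]
    have hsub : red (pr E) ⊆ range (pr E) := filter_subset _ _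
    have e1 : ((∑ n ∈ I, γ n * ∏ p ∈ E, xi p n : ℝ) : ℂ) =
        ∑ r ∈ red (pr E), PFR_c (pr E) Φ r * ft I (fun n => (γ n : ℂ)) ((r : ℝ) / pr E) := by
      rw [sum_subset hsub fun r hr hr' => by rw [hvan r hr hr', zero_mul]]
      simp only [ft, mul_sum]
      rw [sum_comm, Complex.ofReal_sum]
      refine sum_congr rfl fun n _ => ?_
      rw [Complex.ofReal_mul]
      have := PFR_inv hq Φ hper n
      simp only [hΦ] at this ⊢
      rw [this, mul_sum]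
      exact sum_congr rfl fun r _ => by ring
    have e2 : |∑ n ∈ I, γ n * ∏ p ∈ E, xi p n| ≤
        ∑ r ∈ red (pr E), ‖PFR_c (pr E) Φ r‖ * ‖ft I (fun n => (γ n : ℂ)) ((r : ℝ) / pr E)‖ := by
      rw [← Real.norm_eq_abs, ← Complex.norm_real, e1]
      exact (norm_sum_le _ _).trans (le_of_eq (sum_congr rfl fun r _ => norm_mul _ _))
    have e3 : ∑ r ∈ red (pr E), ‖PFR_c (pr E) Φ r‖ ^ 2 ≤ 4 ^ E.card := by
      refine (sum_le_sum_of_subset_of_nonneg hsub fun _ _ _ => sq_nonneg _).trans ?_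
      rw [PFR_pars hq Φ hper]
      have hb : ∀ m ∈ range (pr E), ‖Φ m‖ ^ 2 ≤ 4 ^ E.card := by
        intro m _
        simp only [hΦ]
        rw [Complex.norm_real, Real.norm_eq_abs, abs_prod, ← prod_pow, ← prod_const]
        refine prod_le_prod (fun _ _ => sq_nonneg _) fun p hp => ?_
        have := hRT.2.2.2.2.2.1 p m (hE p hp)
        nlinarith [abs_nonneg (xi p m)]
      have := sum_le_card_nsmul _ _ _ hb
      rw [card_range, nsmul_eq_mul] at this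
      rw [one_div, inv_mul_le_iff₀ hq']
      exact this
    calc (∑ n ∈ I, γ n * ∏ p ∈ E, xi p n) ^ 2 = |∑ n ∈ I, γ n * ∏ p ∈ E, xi p n| ^ 2 :=
          (sq_abs _).symm
      _ ≤ (∑ r ∈ red (pr E),
            ‖PFR_c (pr E) Φ r‖ * ‖ft I (fun n => (γ n : ℂ)) ((r : ℝ) / pr E)‖) ^ 2 :=
          pow_le_pow_left₀ (abs_nonneg _) e2 2
      _ ≤ (∑ r ∈ red (pr E), ‖PFR_c (pr E) Φ r‖ ^ 2) *
            ∑ r ∈ red (pr E), ‖ft I (fun n => (γ n : ℂ)) ((r : ℝ) / pr E)‖ ^ 2 :=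
          sum_mul_sq_le_sq_mul_sq _ _ _
      _ ≤ 4 ^ E.card * en I (fun n => (γ n : ℂ)) (pr E) :=
          mul_le_mul_of_nonneg_right e3 (sum_nonneg fun _ _ => sq_nonneg _)
  · have := PFR_van hRT hE hp (dvd_zero p)
    simp only [Nat.cast_zero, zero_div, mul_zero, neg_zero, MP_e86632_nt.ee_zero, mul_one] at this
    exact_mod_cast this

end Pool.Agent.P.MP_e94e4b_nt.PF
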