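import Pool.Agent.P.MP_e94e4b_nt.PF.Basic

/-! Reduction of the bilinear discrepancy sums to dyadic blocks. -/

namespace Pool.Agent.P.MP_e94e4b_nt.PF

open Finset Real Filter Topology
open Pool.Agent.P.MP_e86632_nt (ee)
open Pool.Agent.P.MP_8be758_nt.Avg (gs Rough PL red ft en nsq gs_pos gs_le_one prime_of_mem_PL
  ev_pow ev_const ev_log)
open ArithmeticFunction (cardFactors)

theorem RED_dyadic {M : Type*} [AddCommMonoid M] (F : ℕ → M) (T : ℕ) :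
    ∑ h ∈ Ico 1 (2 ^ T), F h = ∑ j ∈ range T, ∑ h ∈ Ico (2 ^ j) (2 * 2 ^ j), F h := by
  induction T with
  | zero => simp
  | succ T ih =>
    rw [sum_range_succ, ← ih, pow_succ', sum_Ico_consecutive F Nat.one_le_two_pow (by omega)]

theorem RED_zero {f a : ℕ} (ψ : DirichletCharacter ℂ f) (h : ¬ a.Coprime f) :
    ψ (a : ZMod f) = 0 :=
  MulChar.map_nonunit ψ fun h1 => h ((ZMod.isUnit_iff_coprime a f).1 h1)

theorem RED_coef (f e a b : ℕ) (ψ : DirichletCharacter ℂ f) (α β : ℕ → ℝ) (z : ℂ) :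
    (if (a * b).Coprime (f * e) then ((α a * β b : ℝ) : ℂ) * (ψ ((a * b : ℕ) : ZMod f) * z)
      else 0) = cop e α a * cop e β b * ψ (a : ZMod f) * ψ (b : ZMod f) * z := by
  by_cases h1 : a.Coprime f
  · by_cases h2 : b.Coprime f
    · by_cases h3 : a.Coprime e
      · by_cases h4 : b.Coprime e
        · rw [if_pos (Nat.Coprime.mul_left (h1.mul_right h3) (h2.mul_right h4)), cop, cop,
            if_pos h3, if_pos h4]
          push_cast
          rw [map_mul]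
          ring
        · rw [if_neg fun h => h4 (h.coprime_mul_left.coprime_mul_left_right), cop, cop, if_neg h4]
          ring
      · rw [if_neg fun h => h3 (h.coprime_mul_right.coprime_mul_left_right), cop, if_neg h3]
        ring
    · rw [if_neg fun h => h2 (h.coprime_mul_left.coprime_mul_right_right), RED_zero ψ h2]
      ring
  · rw [if_neg fun h => h1 (h.coprime_mul_right.coprime_mul_right_right), RED_zero ψ h1]
    ring

/-- one term of the main sum -/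
noncomputable def REDm (K : ℝ) (q f : ℕ) (ψ : DirichletCharacter ℂ f) (h n : ℕ) : ℂ :=
  ((gs (h / (K * q)) / (q * q.totient) : ℝ) : ℂ) * GG q f ψ h * ψ (n : ZMod f) *
    Pool.Agent.P.MP_e86632_nt.ee ((h : ℝ) / q * √(n : ℝ))

theorem RED_term {K Q : ℝ} {f e h : ℕ} (hq : f * e ∈ SQ Q) (ψ : DirichletCharacter ℂ f)
    (hh : (h : ℝ) ≤ K ^ 2 * (f * e) + 1) (I J : Finset ℕ) (α β : ℕ → ℝ) :
    ∑ a ∈ I, ∑ b ∈ J, (if (a * b).Coprime (f * e) then
        ((α a * β b : ℝ) : ℂ) * REDm K (f * e) f ψ h (a * b) else 0) =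
      dd K Q e f ψ h * bx f ψ I J (cop e α) (cop e β) ((h : ℝ) / (f * e)) := by
  rw [dd, if_pos ⟨hq, hh⟩, bx, mul_sum]
  refine sum_congr rfl fun a _ => ?_
  rw [mul_sum]
  refine sum_congr rfl fun b _ => ?_
  rw [← RED_coef]
  split_ifs with h1
  · rw [REDm]
    simp only [Nat.cast_mul]
    ring
  · rw [mul_zero]

/-- the dyadic majorant for a fixed conductor -/
noncomputable def REDw (K Q : ℝ) (T : ℕ) (I J : Finset ℕ) (α β : ℕ → ℝ) (e f : ℕ) : ℝ :=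
  ∑ j ∈ range T, ∑ ψ ∈ prim f, ‖∑ h ∈ Ico (2 ^ j) (2 * 2 ^ j),
    dd K Q e f ψ h * bx f ψ I J (cop e α) (cop e β) ((h : ℝ) / (f * e))‖

theorem REDw_nonneg (K Q : ℝ) (T : ℕ) (I J : Finset ℕ) (α β : ℕ → ℝ) (e f : ℕ) :
    0 ≤ REDw K Q T I J α β e f :=
  sum_nonneg fun _ _ => sum_nonneg fun _ _ => norm_nonneg _

theorem RED_cond {K Q : ℝ} {T f e : ℕ} (hT : K ^ 2 * Q + 1 < 2 ^ T) (hq : f * e ∈ SQ Q)
    (I J : Finset ℕ) (α β : ℕ → ℝ) :
    ‖∑ ψ ∈ prim f, ∑ h ∈ Icc 1 ⌊K ^ 2 * (f * e : ℕ) + 1⌋₊, ∑ a ∈ I, ∑ b ∈ J,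
      (if (a * b).Coprime (f * e) then
        ((α a * β b : ℝ) : ℂ) * REDm K (f * e) f ψ h (a * b) else 0)‖ ≤
      REDw K Q T I J α β e f := by
  rw [REDw, sum_comm (s := range T)]
  refine (norm_sum_le _ _).trans (sum_le_sum fun ψ _ => ?_)
  refine le_trans (le_of_eq ?_) (norm_sum_le _ _)
  rw [← RED_dyadic]
  congr 1
  have h0 : (0 : ℝ) ≤ K ^ 2 * (f * e : ℕ) + 1 := by positivity
  have h1 : Icc 1 ⌊K ^ 2 * (f * e : ℕ) + 1⌋₊ ⊆ Ico 1 (2 ^ T) := by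
    intro h hh
    rw [mem_Icc] at hh
    refine mem_Ico.2 ⟨hh.1, ?_⟩
    have h2 : (h : ℝ) ≤ K ^ 2 * (f * e : ℕ) + 1 := (Nat.le_floor_iff h0).1 hh.2
    have h3 : K ^ 2 * ((f * e : ℕ) : ℝ) ≤ K ^ 2 * Q :=
      mul_le_mul_of_nonneg_left (mem_SQ.1 hq).2 (sq_nonneg K)
    have h4 : (h : ℝ) < ((2 ^ T : ℕ) : ℝ) := by
      push_cast
      linarith
    exact_mod_cast h4
  rw [← sum_subset h1 fun h hh h2 => ?_]
  · refine sum_congr rfl fun h hh => RED_term hq ψ ?_ I J α β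
    have h2 := (Nat.le_floor_iff h0).1 (mem_Icc.1 hh).2
    rwa [Nat.cast_mul] at h2
  · rw [dd, if_neg, zero_mul]
    rintro ⟨-, h3⟩
    refine h2 (mem_Icc.2 ⟨(mem_Ico.1 hh).1, (Nat.le_floor_iff h0).2 ?_⟩)
    rwa [Nat.cast_mul]

theorem RED_modulus (hRED1 : S_RED1) {K Q : ℝ} {T q : ℕ} (hK : 1 ≤ K)
    (hT : K ^ 2 * Q + 1 < 2 ^ T) (hq : q ∈ SQ Q) (I J : Finset ℕ) {α β : ℕ → ℝ}
    (hα : ∀ a, |α a| ≤ 1) (hβ : ∀ b, |β b| ≤ 1) :
    |∑ a ∈ I, ∑ b ∈ J, if (a * b).Coprime q then α a * β b * Dl K q (a * b) else 0| ≤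
      2 * ∑ f ∈ q.divisors, REDw K Q T I J α β (q / f) f +
        I.card * J.card * (8 * (1 + K * Q) * gs (K / 2)) := by
  have hq1 : 1 ≤ q := Nat.pos_of_ne_zero (mem_SQ.1 hq).1.ne_zero
  set m : ℕ → ℂ := fun n => ∑ f ∈ q.divisors, ∑ ψ ∈ prim f,
    ∑ h ∈ Icc 1 ⌊K ^ 2 * q + 1⌋₊, REDm K q f ψ h n with hm
  set E : ℝ := 8 * (1 + K * Q) * gs (K / 2) with hE
  have hE0 : 8 * (1 + K * q) * gs (K / 2) ≤ E := by
    have h1 : K * q ≤ K * Q := mul_le_mul_of_nonneg_left (mem_SQ.1 hq).2 (by linarith)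
    exact mul_le_mul_of_nonneg_right (by linarith) (gs_pos _).le
  have hE1 : 0 ≤ E := le_trans (mul_nonneg (by positivity) (gs_pos _).le) hE0
  set z : ℂ := ∑ a ∈ I, ∑ b ∈ J,
    if (a * b).Coprime q then ((α a * β b : ℝ) : ℂ) * m (a * b) else 0 with hz
  have h1 : (∑ a ∈ I, ∑ b ∈ J, if (a * b).Coprime q then α a * β b * Dl K q (a * b) else 0) =
      2 * z.re + ∑ a ∈ I, ∑ b ∈ J,
        if (a * b).Coprime q then α a * β b * (Dl K q (a * b) - 2 * (m (a * b)).re) else 0 := by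
    rw [hz, Complex.re_sum, mul_sum, ← sum_add_distrib]
    refine sum_congr rfl fun a _ => ?_
    rw [Complex.re_sum, mul_sum, ← sum_add_distrib]
    refine sum_congr rfl fun b _ => ?_
    split_ifs
    · rw [Complex.re_ofReal_mul]
      ring
    · rw [Complex.zero_re]
      ring
  have h2 : |∑ a ∈ I, ∑ b ∈ J, if (a * b).Coprime q then
      α a * β b * (Dl K q (a * b) - 2 * (m (a * b)).re) else 0| ≤ I.card * J.card * E := by
    refine (abs_sum_le_sum_abs _ _).trans ?_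
    rw [mul_assoc, ← nsmul_eq_mul]
    refine sum_le_card_nsmul _ _ _ fun a _ => (abs_sum_le_sum_abs _ _).trans ?_
    rw [← nsmul_eq_mul]
    refine sum_le_card_nsmul _ _ _ fun b _ => ?_
    split_ifs with h
    · rw [abs_mul, abs_mul]
      have h3 : |Dl K q (a * b) - 2 * (m (a * b)).re| ≤ E :=
        (hRED1 K q (a * b) hK hq1 h).trans hE0
      have h4 : |α a| * |β b| ≤ 1 := mul_le_one₀ (hα a) (abs_nonneg _) (hβ b)
      exact (mul_le_of_le_one_left (abs_nonneg _) h4).trans h3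
    · rwa [abs_zero]
  have h3 : z = ∑ f ∈ q.divisors, ∑ ψ ∈ prim f, ∑ h ∈ Icc 1 ⌊K ^ 2 * q + 1⌋₊, ∑ a ∈ I, ∑ b ∈ J,
      (if (a * b).Coprime q then ((α a * β b : ℝ) : ℂ) * REDm K q f ψ h (a * b) else 0) := by
    have h4 : ∀ a b : ℕ, (if (a * b).Coprime q then ((α a * β b : ℝ) : ℂ) * m (a * b) else 0) =
        ∑ f ∈ q.divisors, ∑ ψ ∈ prim f, ∑ h ∈ Icc 1 ⌊K ^ 2 * q + 1⌋₊,
          (if (a * b).Coprime q then ((α a * β b : ℝ) : ℂ) * REDm K q f ψ h (a * b) else 0) := by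
      intro a b
      split_ifs
      · simp only [hm, mul_sum]
      · simp only [sum_const_zero]
    rw [hz]
    simp only [h4]
    rw [sum_comm (s := I)]
    simp only [sum_comm (s := I)]
    rw [sum_comm (s := J)]
    refine sum_congr rfl fun f _ => ?_
    rw [sum_comm (s := J)]
    refine sum_congr rfl fun ψ _ => ?_
    rw [sum_comm (s := J)]
  have h4 : ‖z‖ ≤ ∑ f ∈ q.divisors, REDw K Q T I J α β (q / f) f := by
    rw [h3]
    refine (norm_sum_le _ _).trans (sum_le_sum fun f hf => ?_)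
    obtain ⟨e, rfl⟩ := Nat.dvd_of_mem_divisors hf
    rw [Nat.mul_div_cancel_left e (Nat.pos_of_mem_divisors hf)]
    exact RED_cond hT hq I J α β
  have h5 : |z.re| ≤ ‖z‖ := Complex.abs_re_le_norm z
  rw [h1]
  refine (abs_add_le _ _).trans (add_le_add ?_ h2)
  rw [abs_mul, abs_two]
  linarith

theorem RED_pairs {K Q : ℝ} {T : ℕ} (hK : 1 ≤ K) (hT : K ^ 2 * Q + 1 < 2 ^ T)
    {W : ℕ → ℕ → ℝ} (hW : ∀ e f, 0 ≤ W e f) :
    ∑ q ∈ SQ Q, ∑ f ∈ q.divisors, W (q / f) f ≤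
      ∑ e ∈ Icc 1 ⌊Q⌋₊, ∑ f ∈ Ico 1 (2 ^ T), W e f := by
  rw [sum_sigma', ← sum_product']
  have hi : Set.InjOn (fun x : (_ : ℕ) × ℕ => (x.1 / x.2, x.2))
      ((SQ Q).sigma fun q => q.divisors : Finset ((_ : ℕ) × ℕ)) := by
    rintro ⟨q, f⟩ hx ⟨q', f'⟩ hy e
    have h1 := Nat.dvd_of_mem_divisors (mem_sigma.1 (mem_coe.1 hx)).2
    have h2 := Nat.dvd_of_mem_divisors (mem_sigma.1 (mem_coe.1 hy)).2
    obtain ⟨h3, h4⟩ := Prod.mk.inj e
    dsimp only at h1 h2 h3 h4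
    subst h4
    rw [← Nat.div_mul_cancel h1, h3, Nat.div_mul_cancel h2]
  rw [← sum_image (f := fun y : ℕ × ℕ => W y.1 y.2) hi]
  refine sum_le_sum_of_subset_of_nonneg (fun y hy => ?_) fun y _ _ => hW _ _
  obtain ⟨⟨q, f⟩, hx, rfl⟩ := mem_image.1 hy
  obtain ⟨h1, h2⟩ := mem_sigma.1 hx
  dsimp only at h1 h2 ⊢
  have h3 := mem_SQ.1 h1
  have h4 : 0 < q := Nat.pos_of_ne_zero h3.1.ne_zero
  have h5 := Nat.pos_of_mem_divisors h2
  have h6 := Nat.divisor_le h2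
  refine mem_product.2 ⟨mem_Icc.2 ⟨Nat.div_pos h6 h5, (Nat.div_le_self _ _).trans
    (Nat.le_floor h3.2)⟩, mem_Ico.2 ⟨h5, h6.trans_lt ?_⟩⟩
  have h7 : (0 : ℝ) ≤ Q := (Nat.cast_nonneg q).trans h3.2
  have h8 : Q ≤ K ^ 2 * Q := le_mul_of_one_le_left h7 (one_le_pow₀ hK)
  have h9 : (q : ℝ) < ((2 ^ T : ℕ) : ℝ) := by
    push_cast
    linarith [h3.2]
  exact_mod_cast h9

theorem t_RED (hRED1 : S_RED1) : S_RED := by
  intro K Q T I J α β hK hQ hT hα hβ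
  refine (sum_le_sum fun q hq => RED_modulus hRED1 hK hT hq I J hα hβ).trans ?_
  rw [sum_add_distrib, ← mul_sum]
  refine add_le_add (mul_le_mul_of_nonneg_left ?_ zero_le_two) ?_
  · refine (RED_pairs hK hT (REDw_nonneg K Q T I J α β)).trans (le_of_eq ?_)
    refine sum_congr rfl fun e _ => ?_
    rw [RED_dyadic]
    refine sum_congr rfl fun i _ => ?_
    simp only [REDw, blk]
    rw [sum_comm]
  · rw [sum_const, nsmul_eq_mul, mul_assoc Q, mul_assoc Q]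
    refine mul_le_mul_of_nonneg_right (card_SQ_le (by linarith)) ?_
    have h1 : 0 ≤ K * Q := by positivity
    exact mul_nonneg (by positivity) (mul_nonneg (by linarith) (gs_pos _).le)

end Pool.Agent.P.MP_e94e4b_nt.PF
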