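import Pool.Agent.P.MP_e94e4b_nt.PF.Basic

/-! The discrepancy in terms of characters. -/

namespace Pool.Agent.P.MP_e94e4b_nt.PF

open Finset Real Filter Topology
open Pool.Agent.P.MP_8be758_nt.Avg (gs gs_pos gs_anti)

theorem t_RED1 (hPO : S_PO) (hGB1 : S_GB1) : S_RED1 := by
  intro K q n hK hq hn
  have hK0 : 0 < K := by linarith
  have hq0 : (0 : ℝ) < q := by exact_mod_cast hq
  obtain ⟨h1, h2⟩ := (hPO K n hK0).2.2 q hq
  set H0 := ⌊K ^ 2 * q + 1⌋₊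
  have hH : K ^ 2 * q ≤ H0 := by
    have := Nat.lt_floor_add_one (K ^ 2 * q + 1)
    linarith
  have hg : gs (H0 / (2 * K * q)) ≤ gs (K / 2) := by
    refine gs_anti ?_
    rw [abs_of_pos (by positivity), abs_of_nonneg (by positivity), le_div_iff₀ (by positivity)]
    nlinarith
  have key : (∑ f ∈ q.divisors, ∑ ψ ∈ prim f, ∑ h ∈ Icc 1 H0,
      ((gs (h / (K * q)) / (q * q.totient) : ℝ) : ℂ) * GG q f ψ h * ψ (n : ZMod f) *
        MP_e86632_nt.ee ((h : ℝ) / q * √(n : ℝ))) = ((1 / q : ℝ) : ℂ) * ∑ ν ∈ rts q n, ∑ h ∈ Icc 1 H0,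
      (gs (h / (K * q)) : ℂ) * MP_e86632_nt.ee (h * (√(n : ℝ) - 1 / 2 - ν) / q) := by
    rw [sum_comm (s := rts q n), mul_sum]
    simp only [sum_comm (t := Icc 1 H0)]
    refine sum_congr rfl fun h _ => ?_
    have e : ∀ ν : ℕ, MP_e86632_nt.ee (h * (√(n : ℝ) - 1 / 2 - ν) / q) =
        MP_e86632_nt.ee ((h : ℝ) / q * √(n : ℝ)) * MP_e86632_nt.ee (-(h * (ν + 1 / 2) / q)) := fun ν => by
      rw [← MP_e86632_nt.ee_add]; congr 1; ring
    simp only [e, ← mul_sum]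
    rw [hGB1 q n h hq hn]
    simp only [mul_sum]
    refine sum_congr rfl fun f _ => sum_congr rfl fun ψ _ => ?_
    push_cast
    ring
  have e2 : Dl K q n - 2 * (((1 / q : ℝ) : ℂ) * ∑ ν ∈ rts q n, ∑ h ∈ Icc 1 H0,
      (gs (h / (K * q)) : ℂ) * MP_e86632_nt.ee (h * (√(n : ℝ) - 1 / 2 - ν) / q)).re =
      ∑ ν ∈ rts q n, (TC K q ν n - 1 / q - 2 / q * (∑ h ∈ Icc 1 H0,
      (gs (h / (K * q)) : ℂ) * MP_e86632_nt.ee (h * (√(n : ℝ) - 1 / 2 - ν) / q)).re) := by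
    rw [Complex.re_ofReal_mul, Complex.re_sum, sum_sub_distrib, sum_sub_distrib, ← mul_sum
      (a := 2 / (q : ℝ)), Dl, h1, rh, sum_const, nsmul_eq_mul]
    ring
  rw [key, e2]
  refine (abs_sum_le_sum_abs _ _).trans ((sum_le_card_nsmul _ _ _ fun ν _ => h2 ν H0).trans ?_)
  have h3 : ((rts q n).card : ℝ) ≤ q := by exact_mod_cast rh_le q n
  have := gs_pos (H0 / (2 * K * q))
  rw [nsmul_eq_mul]
  calc _ ≤ (q : ℝ) * (8 / q * (1 + K * q) * gs (K / 2)) := by gcongr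
    _ = _ := by field_simp

end Pool.Agent.P.MP_e94e4b_nt.PF
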