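import Pool.Agent.P.MP_e94e4b_nt.PF.Basic

/-! The recursive construction of the weights of the linear sieve. -/

namespace Pool.Agent.P.MP_e94e4b_nt.PF

open Finset Real Filter Topology
open Pool.Agent.P.MP_e86632_nt (ee)
open Pool.Agent.P.MP_8be758_nt.Avg (gs Rough PL red ft en nsq gs_pos gs_le_one prime_of_mem_PL
  ev_pow ev_const ev_log)
open ArithmeticFunction (cardFactors)

/-- one step of the iteration of Buchstab on the level of weights -/
noncomputable def RS_comb (W : ℕ → Finset ℕ → ℝ) (E : Finset ℕ) : ℝ :=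
  if E = ∅ then 1 else -(W (E.sup id) (E.erase (E.sup id)))

theorem RS_comb_insert (W : ℕ → Finset ℕ → ℝ) {a : ℕ} {E : Finset ℕ} (h : ∀ x ∈ E, x < a) :
    RS_comb W (insert a E) = -(W a E) := by
  have h1 : (insert a E).sup id = a := by
    rw [sup_insert]
    exact sup_eq_left.2 (Finset.sup_le fun x hx => (h x hx).le)
  have h2 : a ∉ E := fun h3 => lt_irrefl _ (h a h3)
  rw [RS_comb, if_neg (insert_ne_empty a E), h1, erase_insert h2]

theorem RS_ev_comb (W : ℕ → Finset ℕ → ℝ) (x : ℕ → ℝ) (P : Finset ℕ) :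
    ev P (RS_comb W) x = 1 - ∑ p ∈ P, x p * ev (below P p) (W p) x := by
  induction P using Finset.induction_on_max with
  | empty => simp [ev, RS_comb]
  | insert a s hs ih =>
    have ha : a ∉ s := fun h3 => lt_irrefl _ (hs a h3)
    have e1 : below (insert a s) a = s := by
      ext y
      simp only [below, mem_filter, mem_insert, Nat.cast_lt]
      constructor
      · rintro ⟨rfl | h, h'⟩
        · exact (lt_irrefl _ h').elim
        · exact h
      · exact fun h => ⟨Or.inr h, hs y h⟩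
    have e2 : ∀ p ∈ s, below (insert a s) p = below s p := by
      intro p hp
      ext y
      simp only [below, mem_filter, mem_insert, Nat.cast_lt]
      constructor
      · rintro ⟨rfl | h, h'⟩
        · exact (lt_asymm h' (hs p hp)).elim
        · exact ⟨h, h'⟩
      · exact fun h => ⟨Or.inr h.1, h.2⟩
    have e3 : ev (insert a s) (RS_comb W) x = ev s (RS_comb W) x - x a * ev s (W a) x := by
      rw [ev, sum_powerset_insert ha, ev, ev, mul_sum, sub_eq_add_neg, ← sum_neg_distrib]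
      congr 1
      refine sum_congr rfl fun E hE => ?_
      have h1 := mem_powerset.1 hE
      rw [RS_comb_insert W fun y hy => hs y (h1 hy), prod_insert fun h => ha (h1 h)]
      ring
    have e4 : ∑ p ∈ s, x p * ev (below (insert a s) p) (W p) x =
        ∑ p ∈ s, x p * ev (below s p) (W p) x := sum_congr rfl fun p hp => by rw [e2 p hp]
    rw [e3, ih, sum_insert ha, e1, e4]
    ring

theorem RS_sup_comb {P : Finset ℕ} {D : ℝ} {W : ℕ → Finset ℕ → ℝ} (hD : 1 ≤ D)
    (hP : ∀ p ∈ P, 0 < p) (hW1 : ∀ p E, |W p E| ≤ 1)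
    (hW : ∀ p ∈ P, Sup (below P p) (D / p) (W p)) : Sup P D (RS_comb W) := by
  refine ⟨fun E => ?_, fun E hE h0 => ?_⟩
  · rw [RS_comb]
    split_ifs
    · simp
    · rw [abs_neg]
      exact hW1 _ _
  · by_cases h1 : E = ∅
    · rw [h1, pr_empty]
      exact_mod_cast hD
    · obtain ⟨a, ha, h2⟩ := exists_mem_eq_sup E (nonempty_iff_ne_empty.2 h1) id
      rw [RS_comb, if_neg h1, h2, id, neg_ne_zero] at h0
      have h3 : E.erase a ⊆ below P a := by
        intro y hy
        rw [mem_erase] at hy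
        refine mem_filter.2 ⟨hE hy.2, ?_⟩
        have h4 : y ≤ a := by
          have := le_sup (f := id) hy.2
          rwa [h2] at this
        exact_mod_cast lt_of_le_of_ne h4 hy.1
      have h4 := (hW a (hE ha)).2 _ h3 h0
      have h5 : (0 : ℝ) < a := by exact_mod_cast hP a (hE ha)
      rw [le_div_iff₀ h5] at h4
      have h6 : pr E = pr (E.erase a) * a := (prod_erase_mul E (fun p => p) ha).symm
      rw [h6, Nat.cast_mul]
      exact h4

theorem RS_idx_ge {D z : ℝ} (hz : 1 < z) {k : ℕ} :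
    k ≤ idx D z ∧ 0 < k → (k : ℝ) * Real.log z < 10 * Real.log D := by
  rintro ⟨h, hk⟩
  have h1 : 0 < Real.log z := Real.log_pos hz
  have h2 : k < ⌈10 * Real.log D / Real.log z⌉₊ := by
    rw [idx] at h
    omega
  rwa [Nat.lt_ceil, lt_div_iff₀ h1] at h2

theorem RS_le_idx {D z : ℝ} (hz : 1 < z) {k : ℕ} (h : (k : ℝ) * Real.log z < 10 * Real.log D) :
    k ≤ idx D z := by
  have h1 : 0 < Real.log z := Real.log_pos hz
  have h2 : k < ⌈10 * Real.log D / Real.log z⌉₊ := by
    rwa [Nat.lt_ceil, lt_div_iff₀ h1]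
  rw [idx]
  omega

theorem RS_idx_div {D p : ℝ} (hD : 0 < D) (hp : 1 < p) : idx (D / p) p = idx D p - 10 := by
  have h1 : 0 < Real.log p := Real.log_pos hp
  have h2 : 10 * Real.log (D / p) / Real.log p = 10 * Real.log D / Real.log p - (10 : ℕ) := by
    rw [Real.log_div hD.ne' (by linarith)]
    push_cast
    field_simp
  rw [idx, idx, h2, Nat.ceil_sub_natCast]
  omega

theorem RS_idx_anti {D p z : ℝ} (hD : 1 ≤ D) (hp : 1 < p) (h : p ≤ z) : idx D z ≤ idx D p := by
  have h1 : 0 < Real.log p := Real.log_pos hp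
  have h2 : Real.log p ≤ Real.log z := Real.log_le_log (by linarith) h
  have h3 : 0 ≤ Real.log D := Real.log_nonneg hD
  refine Nat.sub_le_sub_right (Nat.ceil_mono ?_) 1
  exact div_le_div_of_nonneg_left (by positivity) h1 h2

theorem RS_lt_div {D p : ℝ} (hD : 0 < D) (hp : 1 < p) (h : 20 ≤ idx D p) : p < D / p := by
  have h1 := RS_idx_ge hp ⟨h, by norm_num⟩
  have h0 : 0 < p := by linarith
  rw [← Real.log_lt_log_iff h0 (by positivity), Real.log_div hD.ne' h0.ne']
  push_cast at h1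
  linarith

theorem RS_main {pa qa : ℕ → ℝ} {κ S δ w : ℝ} {g : ℕ → ℝ} (hT : Tab pa qa κ) (hw : 2 ≤ w)
    (hB : ∀ (P : Finset ℕ) (u : ℕ → ℝ) (z D : ℝ), w ≤ z → (∀ p ∈ P, w ≤ p ∧ (p : ℝ) < z) →
      (∀ p ∈ P, 0 ≤ g p ∧ g p ≤ 1 / 2) → Reg P g w z δ → z < D → Real.log D ≤ S * Real.log w →
      (∀ i, 0 ≤ u i) → ∃ n : ℕ,
        ∑ p ∈ P, g p * VP (below P p) g * u (idx D p) ≤
          κ * (∑ i ∈ Ico (idx D z) n, u i) / idx D z * VP P g) :
    ∀ (n : ℕ) (P : Finset ℕ) (z D : ℝ), P.card = n → w ≤ z → (∀ p ∈ P, w ≤ p ∧ (p : ℝ) < z) →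
      (∀ p ∈ P, 0 ≤ g p ∧ g p ≤ 1 / 2) → Reg P g w z δ → z < D → Real.log D ≤ S * Real.log w →
      (∃ l, Sup P D l ∧ (∀ x, Unit01 x → VP P x ≤ ev P l x) ∧
        ev P l g ≤ (1 + pa (idx D z)) * VP P g) ∧
      (20 ≤ idx D z → ∃ l, Sup P D l ∧ (∀ x, Unit01 x → ev P l x ≤ VP P x) ∧
        (1 - qa (idx D z)) * VP P g ≤ ev P l g) := by
  intro n
  induction n using Nat.strong_induction_on with
  | _ n ih =>
  intro P z D hn hz hP hg hR hD hS
  have hD1 : 1 ≤ D := by linarith
  have hD0 : 0 < D := by linarith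
  have hP1 : ∀ p ∈ P, (1 : ℝ) < p := fun p hp => by linarith [(hP p hp).1]
  have hP0 : ∀ p ∈ P, 0 < p := fun p hp => by
    have := hP1 p hp
    exact_mod_cast (by linarith : (0 : ℝ) < p)
  have hV : 0 ≤ VP P g := VP_nonneg fun p hp => by linarith [(hg p hp).2]
  have hj : 10 ≤ idx D z := by
    refine RS_le_idx (by linarith) ?_
    have := Real.log_lt_log (by linarith) hD
    push_cast
    linarith
  have hj0 : (0 : ℝ) < idx D z := by exact_mod_cast (by omega : 0 < idx D z)
  have sub : ∀ p ∈ P, 20 ≤ idx D p →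
      (∃ l, Sup (below P p) (D / p) l ∧ (∀ x, Unit01 x → VP (below P p) x ≤ ev (below P p) l x) ∧
        ev (below P p) l g ≤ (1 + pa (idx D p - 10)) * VP (below P p) g) ∧
      (30 ≤ idx D p → ∃ l, Sup (below P p) (D / p) l ∧
        (∀ x, Unit01 x → ev (below P p) l x ≤ VP (below P p) x) ∧
        (1 - qa (idx D p - 10)) * VP (below P p) g ≤ ev (below P p) l g) := by
    intro p hp h20
    have h1 : (below P p).card < n := by
      rw [← hn]
      exact card_lt_card (filter_ssubset.2 ⟨p, hp, lt_irrefl _⟩)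
    have h2 := ih _ h1 (below P p) p (D / p) rfl (hP p hp).1
      (fun q hq => ⟨(hP q (mem_filter.1 hq).1).1, (mem_filter.1 hq).2⟩)
      (fun q hq => hg q (mem_filter.1 hq).1) (hR.below (hP p hp).2.le)
      (RS_lt_div hD0 (hP1 p hp) h20) (by
        refine le_trans ?_ hS
        rw [Real.log_div hD0.ne' (by linarith [hP1 p hp])]
        linarith [Real.log_pos (hP1 p hp)])
    rw [RS_idx_div hD0 (hP1 p hp)] at h2
    exact ⟨h2.1, fun h30 => h2.2 (by omega)⟩
  constructor
  · have key : ∀ p : ℕ, ∃ l : Finset ℕ → ℝ, (∀ E, |l E| ≤ 1) ∧ (p ∈ P → Sup (below P p) (D / p) l ∧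
        (∀ x, Unit01 x → ev (below P p) l x ≤ VP (below P p) x) ∧
        (1 - if idx D p < 30 then 1 else qa (idx D p - 10)) * VP (below P p) g ≤
          ev (below P p) l g) := by
      intro p
      by_cases h : p ∈ P ∧ 30 ≤ idx D p
      · obtain ⟨l, h1, h2, h3⟩ := (sub p h.1 (by omega)).2 h.2
        exact ⟨l, h1.1, fun _ => ⟨h1, h2, by rwa [if_neg (by omega)]⟩⟩
      · refine ⟨fun _ => 0, fun _ => by simp, fun hp => ⟨⟨fun _ => by simp, fun _ _ h0 =>
          (h0 rfl).elim⟩, fun x hx => ?_, ?_⟩⟩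
        · simpa [ev] using VP_nonneg fun q _ => (hx q).2
        · rw [if_pos (by
            by_contra h1
            exact h ⟨hp, by omega⟩)]
          simp [ev]
    choose W hW1 hW using key
    refine ⟨RS_comb W, RS_sup_comb hD1 hP0 hW1 fun p hp => (hW p hp).1, fun x hx => ?_, ?_⟩
    · rw [RS_ev_comb, VP_buchstab]
      exact sub_le_sub_left (sum_le_sum fun p hp =>
        mul_le_mul_of_nonneg_left ((hW p hp).2.1 x hx) (hx p).1) 1
    · obtain ⟨m, hm⟩ := hB P (fun i => if i < 30 then 1 else qa (i - 10)) z D hz hP hg hR hD hS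
        fun i => by
          split_ifs
          exacts [zero_le_one, (hT.1 _).2]
      have h1 := hT.2.1 (idx D z) m hj
      have h2 : κ * (∑ i ∈ Ico (idx D z) m, if i < 30 then 1 else qa (i - 10)) / idx D z ≤
          pa (idx D z) := by
        rw [div_le_iff₀ hj0]
        linarith
      have h3 := hm.trans (mul_le_mul_of_nonneg_right h2 hV)
      have h4 : ∑ p ∈ P, g p * VP (below P p) g - ∑ p ∈ P, g p * VP (below P p) g *
          (if idx D p < 30 then 1 else qa (idx D p - 10)) ≤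
          ∑ p ∈ P, g p * ev (below P p) (W p) g := by
        rw [← sum_sub_distrib]
        refine sum_le_sum fun p hp => ?_
        have := mul_le_mul_of_nonneg_left (hW p hp).2.2 (hg p hp).1
        linarith
      have h5 := VP_buchstab P g
      rw [RS_ev_comb]
      linarith
  · intro h20
    have key : ∀ p : ℕ, ∃ l : Finset ℕ → ℝ, (∀ E, |l E| ≤ 1) ∧ (p ∈ P → Sup (below P p) (D / p) l ∧
        (∀ x, Unit01 x → VP (below P p) x ≤ ev (below P p) l x) ∧
        ev (below P p) l g ≤ (1 + pa (idx D p - 10)) * VP (below P p) g) := by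
      intro p
      by_cases h : p ∈ P
      · obtain ⟨l, h1, h2, h3⟩ := (sub p h
          (h20.trans (RS_idx_anti hD1 (hP1 p h) (hP p h).2.le))).1
        exact ⟨l, h1.1, fun _ => ⟨h1, h2, h3⟩⟩
      · exact ⟨fun _ => 0, fun _ => by simp, fun hp => (h hp).elim⟩
    choose W hW1 hW using key
    refine ⟨RS_comb W, RS_sup_comb hD1 hP0 hW1 fun p hp => (hW p hp).1, fun x hx => ?_, ?_⟩
    · rw [RS_ev_comb, VP_buchstab]
      exact sub_le_sub_left (sum_le_sum fun p hp =>
        mul_le_mul_of_nonneg_left ((hW p hp).2.1 x hx) (hx p).1) 1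
    · obtain ⟨m, hm⟩ := hB P (fun i => pa (i - 10)) z D hz hP hg hR hD hS fun i => (hT.1 _).1
      have h1 := hT.2.2 (idx D z) m h20
      have h2 : κ * (∑ i ∈ Ico (idx D z) m, pa (i - 10)) / idx D z ≤ qa (idx D z) := by
        rw [div_le_iff₀ hj0]
        linarith
      have h3 := hm.trans (mul_le_mul_of_nonneg_right h2 hV)
      have h4 : ∑ p ∈ P, g p * ev (below P p) (W p) g ≤ ∑ p ∈ P, g p * VP (below P p) g +
          ∑ p ∈ P, g p * VP (below P p) g * pa (idx D p - 10) := by
        rw [← sum_add_distrib]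
        refine sum_le_sum fun p hp => ?_
        have := mul_le_mul_of_nonneg_left (hW p hp).2.2 (hg p hp).1
        linarith
      have h5 := VP_buchstab P g
      rw [RS_ev_comb]
      linarith

theorem t_RS (hBIN : S_BIN) : S_RS := by
  intro pa qa κ S a b hT hκ hS hab
  obtain ⟨δ, hδ, hB⟩ := hBIN κ S hκ hS
  refine ⟨δ, hδ, fun P g w z D hw hz hP hg hR hD hL => ?_⟩
  have hz1 : 1 < z := by linarith
  have hD' : z < D := lt_of_le_of_lt (le_self_pow₀ hz1.le (by norm_num)) hD
  have h30 : 30 ≤ idx D z := by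
    refine RS_le_idx hz1 ?_
    have := Real.log_lt_log (by positivity) hD
    rw [Real.log_pow] at this
    push_cast at this ⊢
    linarith
  obtain ⟨⟨lU, h1, h2, h3⟩, h4⟩ := RS_main hT hw
    (fun P u z D h1 h2 h3 h4 h5 h6 h7 => hB P g u w z D hw h1 h2 h3 h4 h5 h6 h7)
    P.card P z D rfl hz hP hg hR hD' hL
  obtain ⟨lL, h5, h6, h7⟩ := h4 (by omega)
  have hV : 0 ≤ VP P g := VP_nonneg fun p hp => by linarith [(hg p hp).2]
  refine ⟨lU, lL, h1, h5, fun x hx => ⟨h6 x hx, h2 x hx⟩, h3.trans ?_, le_trans ?_ h7⟩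
  · exact mul_le_mul_of_nonneg_right (by linarith [(hab _ h30).1]) hV
  · exact mul_le_mul_of_nonneg_right (by linarith [(hab _ h30).2]) hV

end Pool.Agent.P.MP_e94e4b_nt.PF
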