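import Pool.Agent.P.MP_e94e4b_nt.PF.Basic

/-! The switching step. -/

namespace Pool.Agent.P.MP_e94e4b_nt.PF

open Finset Real Filter Topology
open Pool.Agent.P.MP_8be758_nt.Avg (gs Rough PL gs_pos prime_of_mem_PL mem_PL rough_iff t_NSQ
  ev_pow ev_const ev_log)
open ArithmeticFunction (cardFactors)

theorem sw_summ (hPO : S_PO) {K : ℝ} (hK : 0 < K) (n : ℕ) (P : ℤ → Prop) {_ : DecidablePred P} :
    Summable fun N : ℤ => if P N then om K N n else 0 :=
  (hPO K n hK).1.of_nonneg_of_le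
    (fun N => by split_ifs; exacts [om_nonneg hK.le N n, le_rfl])
    fun N => by split_ifs; exacts [le_rfl, om_nonneg hK.le N n]

theorem sw_fin (hPO : S_PO) {K : ℝ} (hK : 0 < K) (n : ℕ) (P : ℤ → Prop) {_ : DecidablePred P}
    (s : Finset ℕ) : ∑ N ∈ s, (if P N then om K N n else 0) ≤
      ∑' N : ℤ, if P N then om K N n else 0 := by
  rw [← sum_image (s := s) (g := fun N : ℕ => (N : ℤ))
    (f := fun N : ℤ => if P N then om K N n else 0) fun a _ b _ h => Nat.cast_injective h]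
  exact (sw_summ hPO hK n P).sum_le_tsum _ fun N _ => by
    split_ifs; exacts [om_nonneg hK.le N n, le_rfl]

open Classical in
theorem sw_up (hPO : S_PO) (hTB : S_TB) {K z : ℝ} (hK : 1 ≤ K) (n : ℕ) (s : Finset ℕ)
    (h : ∀ N : ℤ, Near N n → ∃ N' ∈ s, (N' : ℤ) = N ∧ (par N' n : ℤ) = 2 * MM N - n) :
    RO K z n ≤ ∑ N ∈ s, (if Near N n ∧ Rough z (par N n) then om K N n else 0) +
      10 * K * gs (K / 8) := by
  have hK0 : 0 < K := by linarith
  let Q : ℤ → Prop := fun N => Near N n ∧ ∀ p ∈ PL z, ¬ (p : ℤ) ∣ 2 * MM N - n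
  have h1 : ∑' N : ℤ, (if Q N then om K N n else 0) =
      ∑ N ∈ s, (if Near N n ∧ Rough z (par N n) then om K N n else 0) := by
    rw [tsum_eq_sum (s := s.image fun N : ℕ => (N : ℤ)), sum_image
      fun a _ b _ h => Nat.cast_injective h]
    · refine sum_congr rfl fun N _ => if_congr (and_congr_right fun hN => ?_) rfl rfl
      obtain ⟨N', -, e1, e2⟩ := h N hN
      obtain rfl : N' = N := Nat.cast_injective e1
      simp only [rough_iff, ← e2, Int.natCast_dvd_natCast]
    · refine fun N hN => if_neg fun hQ => hN ?_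
      obtain ⟨N', h2, e1, -⟩ := h N hQ.1
      exact mem_image.2 ⟨N', h2, e1⟩
  have h2 := hTB.1 K n hK
  have s2 : Summable fun N : ℤ => if Near N n then 0 else om K N n := by
    simpa only [ite_not] using @sw_summ hPO K hK0 n (fun N => ¬ Near N n) inferInstance
  rw [← h1]
  refine le_trans ?_ (add_le_add le_rfl h2)
  rw [← (sw_summ hPO hK0 n Q).tsum_add s2]
  refine (sw_summ hPO hK0 n _).tsum_le_tsum (fun N => ?_) ((sw_summ hPO hK0 n Q).add s2)
  have := om_nonneg hK0.le N n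
  by_cases h4 : ∀ p ∈ PL z, ¬ (p : ℤ) ∣ 2 * MM N - n
  · by_cases h3 : Near N n
    · rw [if_pos h4, if_pos ⟨h3, h4⟩, if_pos h3, add_zero]
    · rw [if_pos h4, if_neg fun h : Q N => h3 h.1, if_neg h3, zero_add]
  · rw [if_neg h4, if_neg fun h : Q N => h4 h.2, zero_add]
    split_ifs; exacts [le_rfl, this]

open Classical in
theorem t_SW (hPO : S_PO) (hTB : S_TB) (hG2 : S_G2) (hCMP : S_CMP) : S_SW := by
  intro ε hε
  filter_upwards [hCMP ε hε, ev_nat (ev_log 1), ev_nat (ev_zz 2), eventually_ge_atTop 2,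
    ev_nat (ev_gs (c := 1 / 8) (by norm_num) 1),
    ev_nat (ev_pow (2 * (48 * (1 + ε))) 1 (by norm_num : (46 / 25 : ℝ) < 19 / 10)),
    ev_nat (ev_pow 20 1 (by norm_num : (1 : ℝ) < 19 / 10))] with y hC hK hz hy hgs e1 e2
  set K := Real.log y with hKd
  set z := zz y with hzd
  have hK0 : 0 < K := by linarith
  have hy2 : (2 : ℝ) ≤ y := by exact_mod_cast hy
  have hy0 : (0 : ℝ) < y := by linarith
  set I := Ioc (y ^ 2) (2 * y ^ 2) with hI
  set J := Ioc (y ^ 2 - 2 * y) (2 * y ^ 2 + 2 * y) with hJ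
  set A := Icc 1 (2 * y) with hA
  have hzy : z ≤ y := by
    calc z ≤ (y : ℝ) ^ (1 : ℝ) := Real.rpow_le_rpow_of_exponent_le (by linarith) (by norm_num)
      _ = y := Real.rpow_one _
  let c : ℤ → ℕ → Prop := fun N m => ∀ p ∈ PL z, ¬ (p : ℤ) ∣ 2 * MM N - m
  let F : ℕ → ℕ → ℝ := fun N m => gam2 z m * (if c N m then om K N m else 0) +
    if Rough z m ∧ ¬ Squarefree m then om K N m else 0
  have hF : ∀ N m, 0 ≤ F N m := fun N m => by
    have h1 := om_nonneg hK0.le N m
    have h2 := ((hG2 z).2.2 m).1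
    refine add_nonneg (mul_nonneg h2 ?_) ?_ <;> split_ifs <;> simp [h1]
  have hg : ∀ n ∈ I, 0 ≤ gam1 y n ∧ gam1 y n ≤ 1 := fun n hn => by
    have h1 := mem_Ioc.1 hn
    have h2 : (n : ℝ) ≤ 2 * (y : ℝ) ^ 2 := by exact_mod_cast h1.2
    have h3 : 0 < Real.log (3 * (y : ℝ) ^ 2) := Real.log_pos (by nlinarith)
    rw [gam1]
    split_ifs with hp
    · refine ⟨div_nonneg (Real.log_natCast_nonneg n) h3.le, (div_le_one h3).2 ?_⟩
      exact Real.log_le_log (by exact_mod_cast hp.pos) (by nlinarith)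
    · norm_num
  have hpt : ∀ N ∈ A, ∀ n ∈ I,
      gam1 y n * (if Near N n ∧ Rough z (par N n) then om K N n else 0) ≤
        (if Near N n ∧ n.Prime ∧ Rough z (par N n) ∧ cardFactors (par N n) ≤ 4 then om K N n
          else 0) + (1 + ε) * if Near N n then F N (par N n) else 0 := fun N _ n hn => by
    have h0 := om_nonneg hK0.le N n
    have h1 : 0 ≤ (1 + ε) * if Near N n then F N (par N n) else 0 := by
      refine mul_nonneg (by linarith) ?_
      split_ifs; exacts [hF _ _, le_rfl]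
    have h2 : 0 ≤ (if Near N n ∧ n.Prime ∧ Rough z (par N n) ∧ cardFactors (par N n) ≤ 4 then
        om K N n else 0) := by split_ifs; exacts [h0, le_rfl]
    by_cases hp : n.Prime
    swap
    · rw [gam1, if_neg hp, zero_mul]; linarith
    by_cases h3 : Near N n ∧ Rough z (par N n)
    swap
    · rw [if_neg h3, mul_zero]; linarith
    rw [if_pos h3]
    have h4 : gam1 y n * om K N n ≤ om K N n := mul_le_of_le_one_left h0 (hg n hn).2
    by_cases h5 : cardFactors (par N n) ≤ 4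
    · rw [if_pos ⟨h3.1, hp, h3.2, h5⟩]; linarith
    obtain ⟨N', e0, -, -, e3, -, -, e4, -⟩ := hC N n (mem_Ioc.1 hn).1 (mem_Ioc.1 hn).2 h3.1
    obtain rfl : N' = N := Nat.cast_injective e0
    have h6 := om_nonneg hK0.le N' (par N' n)
    have h7 : om K N' (par N' n) ≤ F N' (par N' n) := by
      have h8 := (hG2 z).2.2 (par N' n)
      by_cases h9 : Squarefree (par N' n)
      · have h10 : c N' (par N' n) := fun p hp' hd => by
          rw [e3, sub_sub_cancel, Int.natCast_dvd_natCast,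
            Nat.prime_dvd_prime_iff_eq (prime_of_mem_PL hp') hp] at hd
          have h11 := ((mem_PL (by linarith)).1 hp').1
          have h12 : (y : ℝ) ^ 2 < n := by exact_mod_cast (mem_Ioc.1 hn).1
          rw [hd] at h11
          nlinarith
        simp only [F, if_pos h10, h9, not_true, and_false, if_false, add_zero]
        exact le_mul_of_one_le_left h6 (h8.2.2.2 h9 h3.2 (by omega))
      · simp only [F, h9, h3.2, not_false_eq_true, and_true, if_true]
        refine le_add_of_nonneg_left (mul_nonneg h8.1 ?_)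
        split_ifs; exacts [h6, le_rfl]
    rw [if_pos h3.1]
    have := mul_le_mul_of_nonneg_left h7 (by linarith : 0 ≤ 1 + ε)
    linarith
  have hsw : ∀ N ∈ A, ∑ n ∈ I, (if Near N n then F N (par N n) else 0) ≤ ∑ m ∈ J, F N m :=
    fun N _ => by
    have key : ∀ n ∈ I.filter (Near N), (par N n : ℤ) = 2 * MM N - n ∧ par N n ∈ J := fun n hn => by
      rw [mem_filter, mem_Ioc] at hn
      obtain ⟨N', e0, -, -, e3, e4, e5, -⟩ := hC N n hn.1.1 hn.1.2 hn.2
      obtain rfl : N' = N := Nat.cast_injective e0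
      exact ⟨e3, mem_Ioc.2 ⟨e4, e5⟩⟩
    rw [← sum_filter, ← sum_image (s := I.filter (Near N)) (g := par N) (f := F N)
      fun a ha b hb h => ?_]
    · refine sum_le_sum_of_subset_of_nonneg (fun m hm => ?_) fun m _ _ => hF N m
      obtain ⟨n, hn, rfl⟩ := mem_image.1 hm
      exact (key n hn).2
    · have h1 := (key a ha).1
      have h2 := (key b hb).1
      rw [h] at h1
      omega
  have hns : (((J.filter fun m => Rough z m ∧ ¬ Squarefree m).card : ℕ) : ℝ) ≤
      2 * (3 * (y : ℝ) ^ 2) / z := by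
    refine (t_NSQ z (3 * (y : ℝ) ^ 2) _ hz (by nlinarith) fun b hb => ?_).1
    rw [mem_filter, mem_Ioc] at hb
    have h1 : (b : ℝ) ≤ 2 * (y : ℝ) ^ 2 + 2 * y := by exact_mod_cast hb.1.2
    exact ⟨by nlinarith, hb.2⟩
  have hF2 : ∑ N ∈ A, ∑ m ∈ J, F N m ≤
      ∑ m ∈ J, gam2 z m * RO K z m + 2 * (3 * (y : ℝ) ^ 2) / z * (4 * (K + 1)) := by
    rw [sum_comm]
    simp only [F, sum_add_distrib, ← mul_sum]
    refine add_le_add (sum_le_sum fun m _ => mul_le_mul_of_nonneg_left
      (sw_fin hPO hK0 m (fun N => c N m) A) ((hG2 z).2.2 m).1) ?_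
    calc ∑ m ∈ J, ∑ N ∈ A, (if Rough z m ∧ ¬ Squarefree m then om K N m else 0)
        ≤ ∑ m ∈ J, if Rough z m ∧ ¬ Squarefree m then 4 * (K + 1) else 0 := by
          refine sum_le_sum fun m _ => ?_
          split_ifs
          · have h1 := @sw_fin hPO K hK0 m (fun _ => True) inferInstance A
            simp only [if_true] at h1
            exact h1.trans (hPO K m hK0).2.1
          · simp
      _ ≤ _ := by
          rw [← sum_filter, sum_const, nsmul_eq_mul]
          exact mul_le_mul_of_nonneg_right hns (by linarith)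
  have hcard : (I.card : ℝ) = (y : ℝ) ^ 2 := by
    rw [hI, Nat.card_Ioc, show 2 * y ^ 2 - y ^ 2 = y ^ 2 by omega]; simp
  have hfar : 0 ≤ 10 * K * gs (K / 8) := by have := gs_pos (K / 8); positivity
  have err1 : (y : ℝ) ^ 2 * (10 * K * gs (K / 8)) ≤ (y : ℝ) ^ (19 / 10 : ℝ) / 2 := by
    rw [show 1 / 8 * K = K / 8 by ring, Real.rpow_neg_one] at hgs
    rw [Real.rpow_one, pow_one] at e2
    have h1 : (y : ℝ) * gs (K / 8) ≤ 1 := by
      have := mul_le_mul_of_nonneg_left hgs hy0.le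
      rwa [mul_inv_cancel₀ hy0.ne'] at this
    have h2 : 0 ≤ 10 * y * K := by positivity
    nlinarith
  have err2 : (1 + ε) * (2 * (3 * (y : ℝ) ^ 2) / z * (4 * (K + 1))) ≤
      (y : ℝ) ^ (19 / 10 : ℝ) / 2 := by
    have h1 : (y : ℝ) ^ 2 / z = (y : ℝ) ^ (46 / 25 : ℝ) := by
      rw [hzd, zz, ← Real.rpow_natCast, ← Real.rpow_sub hy0]; norm_num
    have h2 : 0 < (y : ℝ) ^ (46 / 25 : ℝ) := by positivity
    rw [pow_one] at e1
    rw [show 2 * (3 * (y : ℝ) ^ 2) / z = 6 * ((y : ℝ) ^ 2 / z) by ring, h1]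
    have h3 : 0 ≤ (1 + ε) * (y : ℝ) ^ (46 / 25 : ℝ) * (K - 1) := by
      have : 0 ≤ K - 1 := by linarith
      positivity
    nlinarith
  calc ∑ n ∈ I, gam1 y n * RO K z n
      ≤ ∑ n ∈ I, (∑ N ∈ A, gam1 y n *
          (if Near N n ∧ Rough z (par N n) then om K N n else 0) + 10 * K * gs (K / 8)) := by
        refine sum_le_sum fun n hn => ?_
        have h1 := sw_up hPO hTB (z := z) hK n A fun N hN => by
          obtain ⟨N', e0, e1, e2, e3, -⟩ := hC N n (mem_Ioc.1 hn).1 (mem_Ioc.1 hn).2 hN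
          exact ⟨N', mem_Icc.2 ⟨e1, e2⟩, e0, e3⟩
        refine (mul_le_mul_of_nonneg_left h1 (hg n hn).1).trans ?_
        rw [mul_add, mul_sum]
        exact add_le_add le_rfl (mul_le_of_le_one_left hfar (hg n hn).2)
    _ ≤ ∑ N ∈ A, (RR y N + (1 + ε) * ∑ m ∈ J, F N m) + (y : ℝ) ^ 2 * (10 * K * gs (K / 8)) := by
        rw [sum_add_distrib, sum_const, nsmul_eq_mul, hcard, sum_comm]
        refine add_le_add (sum_le_sum fun N hN => ?_) le_rfl
        refine (sum_le_sum (hpt N hN)).trans ?_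
        rw [sum_add_distrib, ← mul_sum, RR, sum_filter]
        exact add_le_add le_rfl (mul_le_mul_of_nonneg_left (hsw N hN) (by linarith))
    _ ≤ _ := by
        rw [sum_add_distrib, ← mul_sum]
        have := mul_le_mul_of_nonneg_left hF2 (by linarith : 0 ≤ 1 + ε)
        linarith

end Pool.Agent.P.MP_e94e4b_nt.PF
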