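import Pool.Agent.P.MP_e94e4b_nt.PF.Basic
import Pool.Agent.P.MP_8be758_nt.Avg.VAU

/-! The type I estimate with a monotone weight and the Vaughan identity. -/

namespace Pool.Agent.P.MP_e94e4b_nt.PF

open Finset Real Filter Topology
open Pool.Agent.P.MP_e86632_nt (ee abel_bound tele_Ioc)
open Pool.Agent.P.MP_8be758_nt.Avg (gs Rough PL red ft en nsq gs_pos gs_le_one prime_of_mem_PL
  ev_pow ev_const ev_log vau_res vau_g vau_h vau_res_apply vau_apply vau_mu vau_mu1 vau_g_le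
  vau_g_ne vau_h_le vau_h_zero)
open ArithmeticFunction (cardFactors moebius)

theorem T1_abel (b g : ℕ → ℝ) (a N : ℕ) (B : ℝ) (hB0 : 0 ≤ B)
    (hB : ∀ n, n ≤ N → |∑ i ∈ Ioc a n, b i| ≤ B) (hg0 : ∀ i, 0 ≤ g i) (hg : Monotone g)
    (hg1 : g N ≤ 1) : |∑ i ∈ Ioc a N, b i * g i| ≤ B * 2 := by
  refine abel_bound b g a N B 2 hB0 (by norm_num) hB fun haN => ?_
  obtain ⟨M, rfl⟩ : ∃ M, N = M + 1 := ⟨N - 1, by omega⟩
  simp only [Nat.add_sub_cancel]
  have h2 : ∀ i ∈ Ioc a M, ‖g (i + 1) - g i‖ = g (i + 1) - g i := fun i _ => by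
    rw [Real.norm_eq_abs, abs_of_nonneg (sub_nonneg.2 (hg (Nat.le_succ i)))]
  rw [Finset.sum_congr rfl h2, tele_Ioc g a M (by omega), Real.norm_eq_abs,
    abs_of_nonneg (hg0 _)]
  have := hg0 (a + 1)
  linarith

theorem T1_cv (c g : ℕ → ℝ) (D n : ℕ) (hn : n ≠ 0) (hc : ∀ d, c d ≠ 0 → d ≤ D) :
    cv c g n = ∑ d ∈ Icc 1 D, if d ∣ n then c d * g (n / d) else 0 := by
  rw [cv, Nat.sum_divisorsAntidiagonal fun a b => c a * g b, ← sum_filter]
  symm
  refine sum_subset (fun d hd => Nat.mem_divisors.2 ⟨(mem_filter.1 hd).2, hn⟩) fun d hd hd' => ?_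
  have h1 := Nat.pos_of_mem_divisors hd
  have h2 : c d = 0 := by
    by_contra h
    exact hd' (mem_filter.2 ⟨mem_Icc.2 ⟨h1, hc d h⟩, Nat.dvd_of_mem_divisors hd⟩)
  rw [h2, zero_mul]

theorem t_T1 (hTI : S_TI) : S_T1 := by
  filter_upwards [hTI (1 / 100) (by norm_num), ev_const 2 (show (0 : ℝ) < 2 / 25 by norm_num),
    eventually_ge_atTop 1] with y hy h2 h1 X1 X2 c g hX1 hX2 hc1 hc2 hg hg01
  have hy0 : 0 < y := by linarith
  set D := ⌊y ^ (1 / 50 : ℝ)⌋₊ with hD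
  have hDy : (D : ℝ) ≤ y ^ (1 / 50 : ℝ) := Nat.floor_le (by positivity)
  have hcD : ∀ d, c d ≠ 0 → d ≤ D := fun d hd => Nat.le_floor (hc2 d hd)
  have hQy : QQ y ≤ y := by
    have := Real.rpow_le_rpow_of_exponent_le h1 (show (49 / 100 : ℝ) ≤ 1 by norm_num)
    rwa [Real.rpow_one] at this
  have hX0 : 0 < X1 := by
    have : (0 : ℝ) < X1 := lt_of_lt_of_le (by positivity) hX1
    exact_mod_cast this
  have hq : ∀ q ∈ SQ (QQ y), |∑ n ∈ (Ioc X1 X2).filter (fun n => n.Coprime q),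
      cv c g n * Dl (Real.log y) q n| ≤ D * (y ^ (1 + 1 / 100 : ℝ) * 2) := by
    intro q hq
    obtain ⟨hq1, hq2⟩ := mem_SQ.1 hq
    have hq0 : 1 ≤ q := Nat.pos_of_ne_zero hq1.ne_zero
    have e : ∑ n ∈ (Ioc X1 X2).filter (fun n => n.Coprime q), cv c g n * Dl (Real.log y) q n =
        ∑ d ∈ Icc 1 D, c d * ∑ n ∈ Ioc X1 X2,
          (if d ∣ n ∧ n.Coprime q then Dl (Real.log y) q n else 0) * g (n / d) := by
      simp only [mul_sum]
      rw [sum_comm, sum_filter]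
      refine sum_congr rfl fun n hn => ?_
      have hn0 : n ≠ 0 := by have := (mem_Ioc.1 hn).1; omega
      rw [T1_cv c g D n hn0 hcD, sum_mul]
      split_ifs with h
      · refine sum_congr rfl fun d _ => ?_
        by_cases hd : d ∣ n
        · rw [if_pos hd, if_pos ⟨hd, h⟩]; ring
        · rw [if_neg hd, if_neg fun h' => hd h'.1]; ring
      · symm
        refine sum_eq_zero fun d _ => ?_
        rw [if_neg fun h' => h h'.2]; ring
    rw [e]
    refine (abs_sum_le_sum_abs _ _).trans ((sum_le_card_nsmul _ _ (y ^ (1 + 1 / 100 : ℝ) * 2)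
      fun d hd => ?_).trans (by simp))
    have hd1 := (mem_Icc.1 hd).1
    rw [abs_mul]
    refine (mul_le_of_le_one_left (abs_nonneg _) (hc1 d)).trans ?_
    refine T1_abel _ (fun n => g (n / d)) X1 X2 _ (by positivity) (fun t ht => ?_)
      (fun i => (hg01 _).1) (fun i j hij => hg (Nat.div_le_div_right hij)) ((hg01 _).2 ?_)
    · rw [← sum_filter]
      have ht' : (t : ℝ) ≤ X2 := by exact_mod_cast ht
      exact hy X1 t d q (by nlinarith) (by nlinarith) hd1 hq0 (hq2.trans hQy)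
    · exact le_trans (by exact_mod_cast Nat.div_le_self X2 d) hX2
  refine (sum_le_card_nsmul _ _ _ hq).trans ?_
  rw [nsmul_eq_mul]
  have h3 : ((SQ (QQ y)).card : ℝ) ≤ y ^ (49 / 100 : ℝ) := card_SQ_le (by unfold QQ; positivity)
  calc ((SQ (QQ y)).card : ℝ) * (D * (y ^ (1 + 1 / 100 : ℝ) * 2))
      ≤ y ^ (49 / 100 : ℝ) * (y ^ (1 / 50 : ℝ) * (y ^ (1 + 1 / 100 : ℝ) * y ^ (2 / 25 : ℝ))) := by
        gcongr
    _ = y ^ (8 / 5 : ℝ) := by
        rw [← Real.rpow_add hy0, ← Real.rpow_add hy0, ← Real.rpow_add hy0]; norm_num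

theorem t_VA : S_VA := by
  intro U X hU hUX hX
  set Y := ⌊U⌋₊ with hY
  have hYU : ∀ u : ℕ, u ≤ Y ↔ (u : ℝ) ≤ U := fun u => Nat.le_floor_iff (by linarith)
  have hL : 0 < Real.log X := Real.log_pos hX
  have hYY : ∀ u : ℕ, u ≤ Y * Y → (u : ℝ) ≤ U ^ 2 := by
    intro u hu
    have h1 : (Y : ℝ) ≤ U := (hYU Y).1 le_rfl
    have h2 : (u : ℝ) ≤ Y * Y := by exact_mod_cast hu
    have h3 : (0 : ℝ) ≤ Y := by positivity
    nlinarith
  have hlog : ∀ u : ℕ, (u : ℝ) ≤ X → Real.log u ≤ Real.log X := by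
    intro u hu
    rcases Nat.eq_zero_or_pos u with h | h
    · rw [h]; simpa using hL.le
    · exact Real.log_le_log (by exact_mod_cast h) hu
  have hdiv : ∀ a : ℝ, |a| ≤ Real.log X → |a / Real.log X| ≤ 1 := fun a ha => by
    rwa [abs_div, abs_of_pos hL, div_le_one hL]
  refine ⟨fun d => vau_res Y (moebius : ArithmeticFunction ℝ) d, fun d => -vau_g Y d / Real.log X,
    fun d => (moebius d : ℝ) - vau_res Y (moebius : ArithmeticFunction ℝ) d,
    fun d => if (d : ℝ) ≤ X then vau_h Y d / Real.log X else 0, fun d => ⟨vau_mu1 Y d, ?_, ?_, ?_⟩,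
    fun d => ⟨fun h => ?_, fun h => ?_, fun h => ?_, fun h => ?_⟩, fun n hn hnX => ?_⟩
  · by_cases h : vau_g Y d = 0
    · simp [h]
    · exact hdiv _ (by
        rw [abs_neg]; exact (vau_g_le Y d).trans (hlog d ((hYY d (vau_g_ne h)).trans hUX)))
  · beta_reduce
    rw [vau_res_apply]
    split_ifs
    · simp
    · rw [sub_zero]; exact vau_mu d
  · beta_reduce
    split_ifs with h
    · exact hdiv _ ((vau_h_le Y d).trans (hlog d h))
    · simp
  · have h1 : d ≤ Y := by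
      by_contra h2
      exact h (if_neg h2)
    have := (hYU d).1 h1
    nlinarith
  · exact hYY d (vau_g_ne fun h' => h (by simp [h']))
  · by_contra h2
    have h3 : d ≤ Y := (hYU d).2 (not_le.1 h2).le
    exact h (by simp [vau_res_apply, h3])
  · by_contra h2
    have h3 : d ≤ Y := (hYU d).2 (not_le.1 h2).le
    exact h (by simp [vau_h_zero h3])
  · have hYn : Y < n := not_le.1 fun h => by linarith [(hYU n).1 h]
    rw [vau_apply hYn, cv, cv, cv, ← sum_add_distrib, ← sum_add_distrib, sum_div]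
    refine sum_congr rfl fun p hp => ?_
    have h1 : p.2 ≤ n := Nat.divisor_le (Nat.snd_mem_divisors_of_mem_antidiagonal hp)
    have h2 : (p.2 : ℝ) ≤ X := le_trans (by exact_mod_cast h1) hnX
    rw [if_pos h2]
    ring

end Pool.Agent.P.MP_e94e4b_nt.PF
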