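import Pool.Agent.P.MP_e94e4b_nt.PF.Basic

/-! Trivial bounds: the tails of the window weight and the sum of the discrepancies. -/

namespace Pool.Agent.P.MP_e94e4b_nt.PF

open Finset Real Filter Topology
open Pool.Agent.P.MP_e86632_nt (ee)
open Pool.Agent.P.MP_8be758_nt.Avg (gs Rough PL red ft en nsq gs_pos gs_le_one prime_of_mem_PL
  ev_pow ev_const ev_log)
open ArithmeticFunction (cardFactors)

theorem TB_ite_summable (hPO : S_PO) {K : ℝ} (hK : 0 < K) (n : ℕ) (P : ℤ → Prop)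
    [DecidablePred P] : Summable fun N : ℤ => if P N then om K N n else 0 :=
  (hPO K n hK).1.of_nonneg_of_le
    (fun N => by split_ifs; exacts [om_nonneg hK.le N n, le_rfl])
    fun N => by split_ifs; exacts [le_rfl, om_nonneg hK.le N n]

theorem TB_far_summable (hPO : S_PO) {K : ℝ} (hK : 0 < K) (n : ℕ) :
    Summable fun N : ℤ => if Near N n then 0 else om K N n :=
  (hPO K n hK).1.of_nonneg_of_le
    (fun N => by split_ifs; exacts [le_rfl, om_nonneg hK.le N n])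
    fun N => by split_ifs; exacts [om_nonneg hK.le N n, le_rfl]

theorem TB_far (hPO : S_PO) (K : ℝ) (n : ℕ) (hK : 1 ≤ K) :
    ∑' N : ℤ, (if Near N n then 0 else om K N n) ≤ 10 * K * gs (K / 8) := by
  have hK0 : 0 < K := by linarith
  have hr : 0 < 4 * K / 5 := by positivity
  have h1 := (Pool.Agent.P.MP_8be758_nt.Avg.t_GS1 (4 * K / 5) 0 (√(n : ℝ) - 1 / 2) hr).1
  have h2 := Pool.Agent.P.MP_8be758_nt.Avg.t_GS2 (4 * K / 5) (√(n : ℝ) - 1 / 2) hr
  have hg := gs_pos (K / 8)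
  have h3 : ∀ N : ℤ, (if Near N n then 0 else om K N n) ≤
      K * gs (K / 8) * gs (4 * K / 5 * (N - (√(n : ℝ) - 1 / 2))) := by
    intro N
    split_ifs with h
    · have := gs_pos (4 * K / 5 * (N - (√(n : ℝ) - 1 / 2)))
      positivity
    · rw [om, mul_assoc]
      refine mul_le_mul_of_nonneg_left ?_ hK0.le
      rw [Near, not_le] at h
      have e : (N : ℝ) - (√(n : ℝ) - 1 / 2) = N + 1 / 2 - √(n : ℝ) := by ring
      rw [e]
      set x := (N : ℝ) + 1 / 2 - √(n : ℝ)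
      have h4 : 1 / 16 ≤ x ^ 2 := by
        rw [← sq_abs x]
        nlinarith
      rw [gs, gs, gs, ← Real.exp_add]
      refine Real.exp_le_exp.2 ?_
      have h5 : 0 ≤ π * K ^ 2 * (x ^ 2 - 1 / 16) :=
        mul_nonneg (by positivity) (by linarith)
      have h6 : 0 ≤ π * K ^ 2 := by positivity
      nlinarith
  refine ((TB_far_summable hPO hK0 n).tsum_le_tsum h3 (h1.mul_left _)).trans ?_
  rw [tsum_mul_left]
  have h4 : 1 / (4 * K / 5) ≤ 5 / 4 := by
    rw [div_le_iff₀ hr]; linarith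
  have h5 : 0 < K * gs (K / 8) := by positivity
  nlinarith

theorem TB_count {y : ℝ} (hy : 10 ≤ y) {n : ℕ} (hn : (n : ℝ) ≤ 4 * y ^ 2) {N : ℤ} (h : Near N n)
    {τ : ℝ} (hτ : ∀ m : ℕ, (m : ℝ) ≤ y ^ 3 → (m.divisors.card : ℝ) ≤ τ) (S : Finset ℕ) :
    ((S.filter fun q : ℕ => (q : ℤ) ∣ 2 * MM N - n).card : ℝ) ≤ τ := by
  have s0 := Real.sqrt_nonneg (n : ℝ)
  have s1 : √(n : ℝ) ^ 2 = n := Real.sq_sqrt (Nat.cast_nonneg n)
  have s2 : √(n : ℝ) ≤ 2 * y := Real.sqrt_le_iff.2 ⟨by linarith, by linarith⟩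
  rw [Near, abs_le] at h
  have e : ((2 * MM N - n : ℤ) : ℝ) = 2 * ((N : ℝ) + 1 / 2) ^ 2 + 3 / 2 - √(n : ℝ) ^ 2 := by
    rw [s1, MM]; push_cast; ring
  set T := (N : ℝ) + 1 / 2
  have m0 : (0 : ℝ) < ((2 * MM N - n : ℤ) : ℝ) := by
    have : √(n : ℝ) ^ 2 ≤ (T + 1 / 4) ^ 2 := pow_le_pow_left₀ s0 (by linarith) 2
    rw [e]; nlinarith [sq_nonneg (T - 1 / 4)]
  have m1 : ((2 * MM N - n : ℤ) : ℝ) ≤ y ^ 3 := by
    have : T ^ 2 ≤ (3 * y) ^ 2 := sq_le_sq' (by linarith) (by linarith)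
    have h2 : 10 * y ^ 2 ≤ y ^ 3 := by nlinarith [sq_nonneg y]
    have : T ^ 2 ≤ (2 * y + 1 / 4) ^ 2 := sq_le_sq' (by linarith) (by linarith)
    rw [e]; nlinarith [sq_nonneg √(n : ℝ)]
  have m2 : 0 < 2 * MM N - n := by exact_mod_cast m0
  obtain ⟨m, hm⟩ := Int.eq_ofNat_of_zero_le m2.le
  rw [hm] at m1 m2 ⊢
  refine le_trans ?_ (hτ m (by exact_mod_cast m1))
  refine Nat.cast_le.2 (card_le_card fun q hq => ?_)
  exact Nat.mem_divisors.2 ⟨Int.natCast_dvd_natCast.1 (mem_filter.1 hq).2, by omega⟩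

theorem t_TB (hRT : S_RT) (hPO : S_PO) : S_TB := by
  refine ⟨TB_far hPO, fun ε hε => ?_⟩
  filter_upwards [ev_tau 3 (half_pos hε), ev_gs (c := 1 / 8) (by norm_num) 1,
    ev_pow 30 1 (half_lt_self hε), ev_log 1, eventually_ge_atTop 10] with y hτ hg hp hl hy n _ hn
  set K := Real.log y with hK
  set τ := y ^ (ε / 2) with hτ'
  have hK0 : 0 < K := by linarith
  have hy0 : 0 < y := by linarith
  have τ1 : 1 ≤ τ := Real.one_le_rpow (by linarith) (half_pos hε).le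
  have a1 : ∀ q ∈ SQ y, |Dl K q n| ≤ TT K q n + τ * (1 / (q : ℝ)) := by
    intro q hq
    obtain ⟨q1, q2⟩ := mem_SQ.1 hq
    have b1 : 0 ≤ TT K q n :=
      tsum_nonneg fun N => by split_ifs; exacts [om_nonneg hK0.le N n, le_rfl]
    have b2 : (rh q n : ℝ) ≤ τ := by
      refine le_trans (Nat.cast_le.2 (hRT.2.2.1 q n q1)) (hτ q (q2.trans ?_))
      exact le_self_pow₀ (by linarith) (by norm_num)
    have b3 : (rh q n : ℝ) / q ≤ τ * (1 / (q : ℝ)) := by
      rw [mul_one_div]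
      exact div_le_div_of_nonneg_right b2 (Nat.cast_nonneg q)
    have b4 : 0 ≤ (rh q n : ℝ) / q := by positivity
    rw [Dl, abs_le]
    constructor <;> linarith
  have a2 : ∑ q ∈ SQ y, (1 / (q : ℝ)) ≤ 1 + K := by
    have b1 : SQ y ⊆ Ioc 0 ⌊y⌋₊ := fun q hq => by
      have := mem_Icc.1 (mem_filter.1 hq).1
      exact mem_Ioc.2 ⟨by omega, this.2⟩
    refine (sum_le_sum_of_subset_of_nonneg b1 fun _ _ _ => by positivity).trans
      ((Pool.Agent.P.MP_e86632_nt.sum_inv_le _).trans ?_)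
    have b2 : (0 : ℝ) < ⌊y⌋₊ := by
      exact_mod_cast Nat.floor_pos.2 (by linarith)
    have := Real.log_le_log b2 (Nat.floor_le hy0.le)
    linarith
  have a3 : ∑ q ∈ SQ y, TT K q n ≤ τ * (4 * (K + 1)) + y * (10 * K * gs (K / 8)) := by
    have b1 := (hPO K n hK0).1
    have b2 := TB_far_summable hPO hK0 n
    have b3 : ∀ N : ℤ, ∑ q ∈ SQ y, (if (q : ℤ) ∣ 2 * MM N - n then om K N n else 0) ≤
        τ * om K N n + y * (if Near N n then 0 else om K N n) := by
      intro N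
      have c0 := om_nonneg hK0.le N n
      rw [← sum_filter, sum_const, nsmul_eq_mul]
      split_ifs with h
      · rw [mul_zero, add_zero]
        exact mul_le_mul_of_nonneg_right (TB_count hy hn h hτ _) c0
      · have c1 : (((SQ y).filter fun q : ℕ => (q : ℤ) ∣ 2 * MM N - n).card : ℝ) ≤ y :=
          le_trans (Nat.cast_le.2 (card_filter_le _ _)) (card_SQ_le hy0.le)
        have c2 := mul_le_mul_of_nonneg_right c1 c0
        have c3 : 0 ≤ τ * om K N n := by positivity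
        linarith
    simp only [TT]
    rw [← Summable.tsum_finsetSum fun q _ => TB_ite_summable hPO hK0 n _]
    refine ((summable_sum fun q _ => TB_ite_summable hPO hK0 n _).tsum_le_tsum b3
      ((b1.mul_left _).add (b2.mul_left _))).trans ?_
    rw [(b1.mul_left _).tsum_add (b2.mul_left _), tsum_mul_left, tsum_mul_left]
    exact add_le_add (mul_le_mul_of_nonneg_left (hPO K n hK0).2.1 (by linarith))
      (mul_le_mul_of_nonneg_left (TB_far hPO K n hl) hy0.le)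
  have a4 : y * gs (K / 8) ≤ 1 := by
    rw [Real.rpow_neg_one, show 1 / 8 * K = K / 8 by ring] at hg
    calc y * gs (K / 8) ≤ y * y⁻¹ := mul_le_mul_of_nonneg_left hg hy0.le
      _ = 1 := mul_inv_cancel₀ hy0.ne'
  refine (sum_le_sum a1).trans ?_
  rw [sum_add_distrib, ← mul_sum]
  have a5 := mul_le_mul_of_nonneg_left a2 (by linarith : 0 ≤ τ)
  have a6 := mul_le_mul_of_nonneg_left a4 hK0.le
  have a7 := mul_le_mul_of_nonneg_left hl (by linarith : 0 ≤ τ)
  have a8 := mul_le_mul_of_nonneg_right τ1 hK0.le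
  rw [pow_one] at hp
  nlinarith

end Pool.Agent.P.MP_e94e4b_nt.PF
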