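import Pool.Agent.P.MP_e94e4b_nt.PF.Basic

/-! The discrepancy summed over an arithmetic progression. -/

namespace Pool.Agent.P.MP_e94e4b_nt.PF

open Finset Real Filter Topology
open Pool.Agent.P.MP_e86632_nt (ee)
open Pool.Agent.P.MP_8be758_nt.Avg (gs Rough PL red ft en nsq gs_pos gs_le_one prime_of_mem_PL
  ev_pow ev_const ev_log)
open ArithmeticFunction (cardFactors)

theorem TI_Dl (hPO : S_PO) {K : ℝ} (hK : 0 < K) {q : ℕ} (hq : 1 ≤ q) (n : ℕ) :
    Dl K q n = ∑ ν ∈ range q, if mN ν ≡ n [MOD q] then TC K q ν n - 1 / q else 0 := by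
  have e : rts q n = (range q).filter fun ν => mN ν ≡ n [MOD q] := by
    ext ν
    rw [mem_rts, mem_filter, mem_range]
  rw [← sum_filter, ← e, Dl, ((hPO K n hK).2.2 q hq).1, sum_sub_distrib, rh, sum_const,
    nsmul_eq_mul, mul_one_div]

theorem TI_swap (hPO : S_PO) {K : ℝ} (hK : 0 < K) {a q : ℕ} (hq : 1 ≤ q) (h : a.Coprime q)
    (I : Finset ℕ) :
    ∑ n ∈ I.filter (fun n => a ∣ n ∧ n.Coprime q), Dl K q n =
      ∑ ν ∈ (range q).filter (fun ν => (mN ν).Coprime q),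
        ∑ n ∈ I.filter (· ≡ (Nat.chineseRemainder h 0 (mN ν) : ℕ) [MOD a * q]),
          (TC K q ν n - 1 / q) := by
  simp only [TI_Dl hPO hK hq]
  rw [sum_comm, sum_filter (s := range q)]
  refine sum_congr rfl fun ν _ => ?_
  rw [← sum_filter, filter_filter]
  obtain ⟨c1, c2⟩ := (Nat.chineseRemainder h 0 (mN ν)).2
  split_ifs with hν
  · refine sum_congr (filter_congr fun n _ => ?_) fun _ _ => rfl
    rw [← Nat.modEq_and_modEq_iff_modEq_mul h]
    constructor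
    · rintro ⟨⟨h1, -⟩, h2⟩
      exact ⟨((Nat.modEq_zero_iff_dvd).2 h1).trans c1.symm, h2.symm.trans c2.symm⟩
    · rintro ⟨h1, h2⟩
      have h3 : mN ν ≡ n [MOD q] := (h2.trans c2).symm
      refine ⟨⟨(Nat.modEq_zero_iff_dvd).1 (h1.trans c1), ?_⟩, h3⟩
      rw [Nat.Coprime, ← h3.gcd_eq]
      exact hν
  · refine sum_eq_zero fun n hn => ?_
    obtain ⟨-, ⟨-, h1⟩, h2⟩ := mem_filter.1 hn
    refine absurd ?_ hν
    rw [Nat.Coprime, h2.gcd_eq]
    exact h1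

theorem TI_split (I F : Finset ℕ) (T : ℕ → ℝ) {r q : ℝ} (hr : 0 ≤ r) (hq : 0 ≤ q) :
    |∑ n ∈ F, (T n - q)| ≤ |∑ n ∈ F, T n - r * ∑ n ∈ I, T n| + r * |∑ n ∈ I, (T n - q)| +
      q * |∑ _n ∈ F, (1 : ℝ) - r * ∑ _n ∈ I, (1 : ℝ)| := by
  have e : ∑ n ∈ F, (T n - q) = (∑ n ∈ F, T n - r * ∑ n ∈ I, T n) + r * ∑ n ∈ I, (T n - q) -
      q * (∑ _n ∈ F, (1 : ℝ) - r * ∑ _n ∈ I, (1 : ℝ)) := by
    simp only [sum_sub_distrib, sum_const, nsmul_eq_mul]
    ring
  rw [e]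
  refine (abs_sub _ _).trans (add_le_add ((abs_add_le _ _).trans ?_) ?_)
  · rw [abs_mul, abs_of_nonneg hr]
  · rw [abs_mul, abs_of_nonneg hq]

theorem t_TI (hPO : S_PO) (hUNI : S_UNI) (hTI0 : S_TI0) (hTI1 : S_TI1) : S_TI := by
  intro ε hε
  filter_upwards [hTI0 (ε / 2) (half_pos hε), hTI1 (ε / 2) (half_pos hε),
    ev_const 6 (half_pos hε), eventually_gt_atTop 1] with y h0 h1 h6 hy X1 X2 a q hX1 hX2 ha hq hqy
  have hy0 : 0 < y := by linarith
  by_cases h : a.Coprime q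
  swap
  · rw [sum_eq_zero, abs_zero]
    · positivity
    · intro n hn
      obtain ⟨-, h2, h3⟩ := mem_filter.1 hn
      exact absurd (Nat.Coprime.coprime_dvd_left h2 h3) h
  rw [TI_swap hPO (Real.log_pos hy) hq h]
  set S := (range q).filter (fun ν => (mN ν).Coprime q) with hS
  set c : ℕ → ℕ := fun ν => (Nat.chineseRemainder h 0 (mN ν) : ℕ) with hc
  have hr : 1 ≤ a * q := Nat.mul_pos ha hq
  have hq0 : (0 : ℝ) < q := by exact_mod_cast hq
  have hqr : (q : ℝ) ≤ (a * q : ℕ) := by exact_mod_cast Nat.le_mul_of_pos_left q ha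
  have hcard : (S.card : ℝ) ≤ q := by
    exact_mod_cast (card_filter_le _ _).trans (card_range q).le
  have hY : 1 ≤ y ^ (1 + ε / 2) := Real.one_le_rpow hy.le (by positivity)
  have b1 := h1 X1 X2 q (a * q) S c hX1 hX2 hq hr (filter_subset _ _)
  have b2 : ∀ ν ∈ S, |∑ n ∈ (Ioc X1 X2).filter (· ≡ c ν [MOD a * q]),
      (TC (Real.log y) q ν n - 1 / q)| ≤
      |∑ n ∈ (Ioc X1 X2).filter (· ≡ c ν [MOD a * q]), TC (Real.log y) q ν n -
        1 / (a * q : ℕ) * ∑ n ∈ Ioc X1 X2, TC (Real.log y) q ν n| +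
        1 / q * (y ^ (1 + ε / 2) + 4) := by
    intro ν _
    refine (TI_split (Ioc X1 X2) _ _ (r := 1 / (a * q : ℕ)) (by positivity)
      (by positivity)).trans ?_
    have u1 := hUNI (fun _ => 1) 1 X1 X2 0 (a * q) (c ν) hr (fun _ => ⟨zero_le_one, le_rfl⟩)
      (fun _ _ _ _ => le_rfl) fun _ _ _ _ => le_rfl
    have u2 := mul_le_mul (one_div_le_one_div_of_le hq0 hqr) (h0 X1 X2 q ν hX2 hq hqy)
      (abs_nonneg _) (by positivity)
    have u3 := mul_le_mul_of_nonneg_left u1 (show (0 : ℝ) ≤ 1 / q by positivity)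
    linarith
  refine (abs_sum_le_sum_abs _ _).trans ((sum_le_sum b2).trans ?_)
  rw [sum_add_distrib, sum_const, nsmul_eq_mul]
  have b3 : (S.card : ℝ) * (1 / q * (y ^ (1 + ε / 2) + 4)) ≤ y ^ (1 + ε / 2) + 4 := by
    refine (mul_le_mul_of_nonneg_right hcard (by positivity)).trans_eq ?_
    field_simp
  have b4 : y ^ (1 + ε) = y ^ (ε / 2) * y ^ (1 + ε / 2) := by
    rw [← Real.rpow_add hy0]
    congr 1
    ring
  have b5 := mul_le_mul_of_nonneg_right h6 (zero_le_one.trans hY)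
  linarith

end Pool.Agent.P.MP_e94e4b_nt.PF
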