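import Pool.Agent.P.MP_e94e4b_nt.PF.Basic

/-! Equidistribution of the window weights in residue classes. -/

namespace Pool.Agent.P.MP_e94e4b_nt.PF

open Finset Real Filter Topology
open Pool.Agent.P.MP_e86632_nt (ee)
open Pool.Agent.P.MP_8be758_nt.Avg (gs Rough PL red ft en nsq gs_pos gs_le_one prime_of_mem_PL
  ev_pow ev_const ev_log gs_anti)
open ArithmeticFunction (cardFactors)

theorem TI1_one {q : ℕ} {S : Finset ℕ} (hS : S ⊆ range q) (N : ℤ) {x : ℝ} (hx : 0 ≤ x) :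
    ∑ ν ∈ S, (if (q : ℤ) ∣ N - ν then x else 0) ≤ x := by
  rw [← sum_filter, sum_const, nsmul_eq_mul]
  have h1 : (S.filter fun ν : ℕ => (q : ℤ) ∣ N - ν).card ≤ 1 := by
    refine card_le_one.2 fun a ha b hb => ?_
    rw [mem_filter] at ha hb
    have h2 := mem_range.1 (hS ha.1)
    have h3 := mem_range.1 (hS hb.1)
    have h4 : (q : ℤ) ∣ (b : ℤ) - a := by
      have := dvd_sub ha.2 hb.2
      rwa [show N - (a : ℤ) - (N - b) = b - a by ring] at this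
    have h5 : (b : ℤ) - a = 0 := Int.eq_zero_of_abs_lt_dvd h4 (by rw [abs_lt]; omega)
    omega
  exact mul_le_of_le_one_left hx (by exact_mod_cast h1)

theorem TI1_uni (hUNI : S_UNI) {K : ℝ} (hK : 0 ≤ K) {N : ℤ} (hN : 0 ≤ N) (X1 X2 r c : ℕ)
    (hr : 1 ≤ r) :
    |∑ n ∈ (Ioc X1 X2).filter (· ≡ c [MOD r]), om K N n - 1 / r * ∑ n ∈ Ioc X1 X2, om K N n| ≤
      4 * K := by
  have h0 : (0 : ℝ) ≤ N := by exact_mod_cast hN
  have h1 : (0 : ℝ) ≤ N + 1 / 2 := by linarith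
  refine hUNI (fun n => om K N n) K X1 X2 ⌊((N : ℝ) + 1 / 2) ^ 2⌋₊ r c hr
    (fun n => ⟨om_nonneg hK N n, om_le hK N n⟩) (fun m n h2 h3 => ?_) fun m n h2 h3 => ?_
  · have h4 : √(n : ℝ) ≤ N + 1 / 2 :=
      Real.sqrt_le_iff.2 ⟨h1, (Nat.le_floor_iff (by positivity)).1 h3⟩
    have h5 : √(m : ℝ) ≤ √(n : ℝ) := Real.sqrt_le_sqrt (by exact_mod_cast h2)
    refine mul_le_mul_of_nonneg_left (gs_anti ?_) hK
    rw [abs_mul, abs_mul]
    refine mul_le_mul_of_nonneg_left ?_ (abs_nonneg K)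
    rw [abs_of_nonneg (by linarith), abs_of_nonneg (by linarith)]
    linarith
  · have h4 : (N : ℝ) + 1 / 2 ≤ √(m : ℝ) :=
      Real.le_sqrt_of_sq_le ((Nat.floor_lt (by positivity)).1 h2).le
    have h5 : √(m : ℝ) ≤ √(n : ℝ) := Real.sqrt_le_sqrt (by exact_mod_cast h3)
    refine mul_le_mul_of_nonneg_left (gs_anti ?_) hK
    rw [abs_mul, abs_mul]
    refine mul_le_mul_of_nonneg_left ?_ (abs_nonneg K)
    rw [abs_of_nonpos (by linarith), abs_of_nonpos (by linarith)]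
    linarith

/-- the contribution of the windows outside `R` -/
noncomputable def TI1_far (K : ℝ) (R : Finset ℤ) (q ν n : ℕ) : ℝ :=
  ∑' N : ℤ, if N ∈ R then 0 else if (q : ℤ) ∣ N - ν then om K N n else 0

theorem TI1_far_nonneg {K : ℝ} (hK : 0 ≤ K) (R : Finset ℤ) (q ν n : ℕ) :
    0 ≤ TI1_far K R q ν n :=
  tsum_nonneg fun N => by
    have := om_nonneg hK N n
    split_ifs <;> simp [this]

theorem TI1_sm {K : ℝ} (hK : 0 ≤ K) {n : ℕ} (hs : Summable fun N : ℤ => om K N n)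
    (R : Finset ℤ) (q ν : ℕ) :
    Summable fun N : ℤ => if N ∈ R then 0 else if (q : ℤ) ∣ N - ν then om K N n else 0 := by
  refine Summable.of_nonneg_of_le (fun N => ?_) (fun N => ?_) hs <;>
    have := om_nonneg hK N n <;> split_ifs <;> simp [this]

theorem TI1_split {K : ℝ} (hK : 0 ≤ K) {n : ℕ} (hs : Summable fun N : ℤ => om K N n)
    (R : Finset ℤ) (q ν : ℕ) :
    TC K q ν n = ∑ N ∈ R, (if (q : ℤ) ∣ N - ν then om K N n else 0) + TI1_far K R q ν n := by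
  have h1 : HasSum (fun N : ℤ => if N ∈ R then (if (q : ℤ) ∣ N - ν then om K N n else 0) else 0)
      (∑ N ∈ R, if (q : ℤ) ∣ N - ν then om K N n else 0) := by
    have h2 : HasSum (fun N : ℤ => if N ∈ R then (if (q : ℤ) ∣ N - ν then om K N n else 0) else 0)
        (∑ N ∈ R, if N ∈ R then (if (q : ℤ) ∣ N - ν then om K N n else 0) else 0) :=
      hasSum_sum_of_ne_finset_zero fun N hN => if_neg hN
    rwa [sum_congr rfl fun N hN => if_pos hN] at h2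
  have h3 := h1.add (TI1_sm hK hs R q ν).hasSum
  rw [TC, TI1_far, ← h3.tsum_eq]
  refine tsum_congr fun N => ?_
  by_cases h : N ∈ R <;> simp [h]

theorem TI1_far_le {K : ℝ} (hK : 0 ≤ K) {n : ℕ} (hs : Summable fun N : ℤ => om K N n)
    (R : Finset ℤ) (hR : ∀ N, Near N n → N ∈ R) {q : ℕ} {S : Finset ℕ} (hS : S ⊆ range q) :
    ∑ ν ∈ S, TI1_far K R q ν n ≤ ∑' N : ℤ, (if Near N n then 0 else om K N n) := by
  simp only [TI1_far]
  rw [← Summable.tsum_finsetSum fun ν _ => TI1_sm hK hs R q ν]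
  refine Summable.tsum_le_tsum (fun N => ?_) (summable_sum fun ν _ => TI1_sm hK hs R q ν) ?_
  · have h1 := om_nonneg hK N n
    by_cases h : N ∈ R
    · simp only [if_pos h, sum_const_zero]
      split_ifs <;> simp [h1]
    · simp only [if_neg h]
      rw [if_neg fun h2 => h (hR N h2)]
      exact TI1_one hS N h1
  · refine Summable.of_nonneg_of_le (fun N => ?_) (fun N => ?_) hs <;>
      have := om_nonneg hK N n <;> split_ifs <;> simp [this]

theorem TI1_abs {F I : Finset ℕ} (hF : F ⊆ I) {f : ℕ → ℝ} (hf : ∀ n, 0 ≤ f n) {r : ℕ}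
    (hr : 1 ≤ r) : |∑ n ∈ F, f n - 1 / r * ∑ n ∈ I, f n| ≤ ∑ n ∈ I, f n := by
  have h1 : 0 ≤ ∑ n ∈ F, f n := sum_nonneg fun n _ => hf n
  have h2 : ∑ n ∈ F, f n ≤ ∑ n ∈ I, f n := sum_le_sum_of_subset_of_nonneg hF fun n _ _ => hf n
  have h3 : (1 : ℝ) ≤ r := by exact_mod_cast hr
  have h4 : (1 : ℝ) / r ≤ 1 := by rw [div_le_one (by linarith)]; exact h3
  have h5 : (0 : ℝ) ≤ 1 / r := by positivity
  have h6 : 1 / r * ∑ n ∈ I, f n ≤ ∑ n ∈ I, f n := mul_le_of_le_one_left (h1.trans h2) h4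
  have h7 : 0 ≤ 1 / r * ∑ n ∈ I, f n := mul_nonneg h5 (h1.trans h2)
  rw [abs_le]
  constructor <;> linarith

theorem TI1_cls (hPO : S_PO) (hUNI : S_UNI) {K : ℝ} (hK : 0 < K) (R : Finset ℤ)
    (hR : ∀ N ∈ R, 0 ≤ N) (X1 X2 q r c ν : ℕ) (hr : 1 ≤ r) :
    |∑ n ∈ (Ioc X1 X2).filter (· ≡ c [MOD r]), TC K q ν n - 1 / r * ∑ n ∈ Ioc X1 X2, TC K q ν n| ≤
      ∑ N ∈ R, (if (q : ℤ) ∣ N - ν then 4 * K else 0) + ∑ n ∈ Ioc X1 X2, TI1_far K R q ν n := by
  simp only [fun n => TI1_split hK.le (hPO K n hK).1 R q ν, sum_add_distrib]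
  rw [sum_comm, sum_comm (s := Ioc X1 X2), mul_add, mul_sum, add_sub_add_comm, ← sum_sub_distrib]
  refine (abs_add_le _ _).trans (add_le_add ((abs_sum_le_sum_abs _ _).trans
    (sum_le_sum fun N hN => ?_)) (TI1_abs (filter_subset _ _) (TI1_far_nonneg hK.le R q ν) hr))
  by_cases h : (q : ℤ) ∣ N - ν
  · simp only [if_pos h]
    exact TI1_uni hUNI hK.le (hR N hN) X1 X2 r c hr
  · simp [h]

theorem t_TI1 (hPO : S_PO) (hTB : S_TB) (hUNI : S_UNI) : S_TI1 := by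
  intro ε hε
  filter_upwards [ev_pow 60 1 (show (1 : ℝ) < 1 + ε by linarith), ev_log 1,
    ev_gs (show (0 : ℝ) < 1 / 8 by norm_num) 1, eventually_ge_atTop 2]
    with y h1 h2 h3 h4 X1 X2 q r S c hX1 hX2 _ hr hS
  set K := Real.log y
  have hK : 0 < K := by linarith
  have hy : 0 < y := by linarith
  set R : Finset ℤ := Icc 0 ⌈3 * y⌉ with hR
  have hc : (R.card : ℝ) ≤ 3 * y + 2 := by
    have h5 : (0 : ℤ) ≤ ⌈3 * y⌉ := Int.ceil_nonneg (by positivity)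
    have h6 : ((R.card : ℤ) : ℝ) = ((⌈3 * y⌉ + 1 : ℤ) : ℝ) := by
      rw [hR, Int.card_Icc_of_le _ _ (by omega)]
      simp
    have h7 := Int.ceil_lt_add_one (3 * y)
    push_cast at h6
    linarith
  have hfar : ∀ n ∈ Ioc X1 X2, ∑ ν ∈ S, TI1_far K R q ν n ≤ 10 * K * y⁻¹ := by
    intro n hn
    rw [mem_Ioc] at hn
    have h5 : (n : ℝ) ≤ 4 * y ^ 2 := le_trans (by exact_mod_cast hn.2) hX2
    have h6 : √(n : ℝ) ≤ 2 * y := Real.sqrt_le_iff.2 ⟨by positivity, by linarith⟩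
    have h7 := Real.sqrt_nonneg (n : ℝ)
    refine (TI1_far_le hK.le (hPO K n hK).1 R (fun N hN => ?_) hS).trans
      ((hTB.1 K n h2).trans (mul_le_mul_of_nonneg_left ?_ (by positivity)))
    · rw [Near, abs_le] at hN
      rw [hR, mem_Icc]
      constructor
      · have h8 : ((-1 : ℤ) : ℝ) < N := by push_cast; linarith
        have h9 : (-1 : ℤ) < N := by exact_mod_cast h8
        omega
      · have h8 : (N : ℝ) ≤ (⌈3 * y⌉ : ℤ) := le_trans (by linarith) (Int.le_ceil _)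
        exact_mod_cast h8
    · rw [Real.rpow_neg_one] at h3
      rwa [show K / 8 = 1 / 8 * K by ring]
  have hI : ((Ioc X1 X2).card : ℝ) ≤ 4 * y ^ 2 := by
    refine le_trans ?_ hX2
    rw [Nat.card_Ioc]
    exact_mod_cast Nat.sub_le _ _
  calc _ ≤ ∑ ν ∈ S, (∑ N ∈ R, (if (q : ℤ) ∣ N - ν then 4 * K else 0) +
        ∑ n ∈ Ioc X1 X2, TI1_far K R q ν n) := sum_le_sum fun ν _ =>
        TI1_cls hPO hUNI hK R (fun N hN => (mem_Icc.1 hN).1) X1 X2 q r (c ν) ν hr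
    _ = ∑ N ∈ R, ∑ ν ∈ S, (if (q : ℤ) ∣ N - ν then 4 * K else 0) +
        ∑ n ∈ Ioc X1 X2, ∑ ν ∈ S, TI1_far K R q ν n := by
        rw [sum_add_distrib, sum_comm, sum_comm (t := Ioc X1 X2)]
    _ ≤ ∑ _N ∈ R, 4 * K + ∑ _n ∈ Ioc X1 X2, 10 * K * y⁻¹ :=
        add_le_add (sum_le_sum fun N _ => TI1_one hS N (by positivity)) (sum_le_sum hfar)
    _ ≤ (3 * y + 2) * (4 * K) + 4 * y ^ 2 * (10 * K * y⁻¹) := by
        rw [sum_const, sum_const, nsmul_eq_mul, nsmul_eq_mul]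
        exact add_le_add (mul_le_mul_of_nonneg_right hc (by positivity))
          (mul_le_mul_of_nonneg_right hI (by positivity))
    _ = (52 * y + 8) * K := by field_simp; ring
    _ ≤ 60 * y ^ (1 : ℝ) * K ^ 1 := by
        rw [Real.rpow_one, pow_one]
        exact mul_le_mul_of_nonneg_right (by linarith) hK.le
    _ ≤ _ := h1

end Pool.Agent.P.MP_e94e4b_nt.PF
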