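import Pool.Agent.P.MP_e94e4b_nt.PF.Basic

/-! The upper bound for the weighted number of representations. -/

namespace Pool.Agent.P.MP_e94e4b_nt.PF

open Finset Real Filter Topology
open Pool.Agent.P.MP_8be758_nt.Avg (gs Rough PL gs_pos gs_anti gs_sum_le ev_pow ev_const ev_log)
open ArithmeticFunction (cardFactors)

theorem UB_gs {v u : ℝ} (h1 : u - 1 ≤ v) (h2 : v ≤ u) : gs (v / 4) ≤ 3 * gs (1 / 8 * u) := by
  have h3 : u ^ 2 ≤ 4 * v ^ 2 + 2 := by nlinarith [sq_nonneg (u - 2 * v), sq_nonneg v]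
  have h4 := Real.pi_lt_four
  have h5 := Real.pi_pos
  have h6 : Real.exp 1 ≤ 3 := by linarith [Real.exp_one_lt_d9]
  refine le_trans ?_ (mul_le_mul_of_nonneg_right h6 (gs_pos _).le)
  rw [gs, gs, ← Real.exp_add]
  exact Real.exp_le_exp.2 (by nlinarith)

theorem UB_om {y K : ℝ} (hy : 1 ≤ y) (hK : 0 < K) {N : ℤ} {n : ℕ} (hn : (n : ℝ) ≤ 2 * y ^ 2)
    (h : Near N n) : om K N n ≤
      K * (3 * gs (1 / 8 * ((⌈n / (y / K)⌉ : ℤ) - (N + 1 / 2) ^ 2 / (y / K)))) := by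
  refine mul_le_mul_of_nonneg_left (le_trans (gs_anti ?_)
    (UB_gs (v := n / (y / K) - (N + 1 / 2) ^ 2 / (y / K)) ?_ ?_)) hK.le
  · have h1 : √(n : ℝ) ≤ 3 / 2 * y := Real.sqrt_le_iff.2 ⟨by positivity, by nlinarith⟩
    have h2 := Real.sqrt_nonneg (n : ℝ)
    have h3 := Real.sq_sqrt (Nat.cast_nonneg (α := ℝ) n)
    have h4 := abs_le.1 h
    have e : (n / (y / K) - (N + 1 / 2) ^ 2 / (y / K)) / 4 =
        K * (N + 1 / 2 - √(n : ℝ)) * (-(N + 1 / 2 + √(n : ℝ)) / (4 * y)) := by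
      field_simp
      linear_combination -4 * h3
    rw [e, abs_mul]
    refine mul_le_of_le_one_right (abs_nonneg _) ?_
    rw [abs_div, abs_neg, abs_of_pos (show 0 < 4 * y by positivity), div_le_one (by positivity),
      abs_le]
    constructor <;> linarith
  · linarith [Int.ceil_lt_add_one (n / (y / K))]
  · linarith [Int.le_ceil (n / (y / K))]

theorem t_UB (hCMP : S_CMP) (hSV : S_SV) : S_UB := by
  obtain ⟨C, hC, hS⟩ := hSV
  obtain ⟨H0, hH0⟩ := eventually_atTop.1 hS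
  refine ⟨408 * C, by positivity, ?_⟩
  have ev : ∀ᶠ y : ℝ in atTop, Real.log y ≤ y ^ (1 / 2 : ℝ) := by
    have := (isLittleO_log_rpow_atTop (show (0 : ℝ) < 1 / 2 by norm_num)).eventuallyLE
    filter_upwards [this, eventually_ge_atTop 0] with y h hy
    rw [Real.norm_of_nonneg (Real.rpow_nonneg hy _)] at h
    exact (le_abs_self _).trans h
  filter_upwards [hCMP 1 one_pos, ev_nat ev, ev_nat (ev_const H0 (show (0 : ℝ) < 1 / 2 by norm_num)),
    ev_nat (ev_log 1), ev_nat (eventually_ge_atTop 1)] with y h1 h2 h3 h4 h5 N hN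
  have hy : (0 : ℝ) < y := by linarith
  set K := Real.log y with hK
  have hK0 : 0 < K := by linarith
  set H := (y : ℝ) / K with hH
  have hs : (0 : ℝ) < (y : ℝ) ^ (1 / 2 : ℝ) := by positivity
  have hH1 : (y : ℝ) ^ (1 / 2 : ℝ) ≤ H := by
    rw [hH, le_div_iff₀ hK0]
    calc _ ≤ (y : ℝ) ^ (1 / 2 : ℝ) * (y : ℝ) ^ (1 / 2 : ℝ) := by gcongr
      _ = y := by rw [← Real.rpow_add hy]; norm_num
  have hH0' : 0 < H := hs.trans_le hH1
  have hH2 : H ≤ y := div_le_self hy.le h4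
  have hH3 : K / 2 ≤ Real.log H := by
    have := Real.log_le_log hs hH1
    rw [Real.log_rpow hy] at this
    linarith
  have hz : H ^ (1 / 10 : ℝ) ≤ zz y := (Real.rpow_le_rpow hH0'.le hH2 (by norm_num)).trans
    (Real.rpow_le_rpow_of_exponent_le h5 (by norm_num))
  have hz2 : zz y ≤ (y : ℝ) ^ 2 := by
    rw [← Real.rpow_two]
    exact Real.rpow_le_rpow_of_exponent_le h5 (by norm_num)
  have hsg : 0 ≤ sgm (N ^ 2 + N + 1) := prod_nonneg fun p hp => by
    have : (5 : ℝ) ≤ p := by exact_mod_cast (mem_filter.1 hp).2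
    rw [inv_nonneg, sub_nonneg, div_le_one (by linarith)]
    linarith
  unfold RR
  set S := (Ioc (y ^ 2) (2 * y ^ 2)).filter (fun n => Near N n ∧ n.Prime ∧
    Rough (zz y) (par N n) ∧ cardFactors (par N n) ≤ 4) with hSd
  set B := C * sgm (N ^ 2 + N + 1) * H / Real.log H ^ 2 with hB
  have hB0 : 0 ≤ B := by positivity
  have hc : ∀ j ∈ S.image fun n : ℕ => ⌈n / H⌉,
      ((S.filter fun n : ℕ => ⌈n / H⌉ = j).card : ℝ) ≤ B := by
    intro j hj
    obtain ⟨m, hm, rfl⟩ := mem_image.1 hj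
    have hm0 : (0 : ℝ) < m := by exact_mod_cast (mem_filter.1 hm).2.2.1.pos
    have hj1 : (1 : ℝ) ≤ (⌈m / H⌉ : ℤ) := by exact_mod_cast Int.one_le_ceil_iff.2 (by positivity)
    refine hH0 H (h3.trans hH1) (((⌈m / H⌉ : ℤ) - 1) * H) _ _
      (mul_nonneg (by linarith) hH0'.le) (by positivity) fun n hn => ?_
    obtain ⟨hn1, hn2⟩ := mem_filter.1 hn
    obtain ⟨hn3, hn4, hn5, hn6, -⟩ := mem_filter.1 hn1
    rw [mem_Ioc] at hn3
    rw [← hn2]
    refine ⟨?_, ?_, fun p hp hp' => ⟨fun hd => ?_, fun hd => ?_⟩⟩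
    · rw [← lt_div_iff₀ hH0']
      linarith [Int.ceil_lt_add_one (n / H)]
    · have := Int.le_ceil (n / H)
      rw [div_le_iff₀ hH0'] at this
      linarith
    · rw [(Nat.prime_dvd_prime_iff_eq hp hn5).1 hd] at hp'
      have : (y : ℝ) ^ 2 < n := by exact_mod_cast hn3.1
      linarith
    · obtain ⟨N', e1, -, -, e2, -⟩ := h1 N n hn3.1 hn3.2 hn4
      obtain rfl : N' = N := by exact_mod_cast e1
      have e3 : (p : ℤ) ∣ par N' n := by
        rw [e2]
        simpa [MM] using hd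
      linarith [hn6 p hp (Int.natCast_dvd_natCast.1 e3)]
  calc ∑ n ∈ S, om K N n
      = ∑ j ∈ S.image fun n : ℕ => ⌈n / H⌉, ∑ n ∈ S.filter fun n : ℕ => ⌈n / H⌉ = j, om K N n :=
        (sum_fiberwise_of_maps_to (fun n hn => mem_image_of_mem _ hn) _).symm
    _ ≤ ∑ j ∈ S.image fun n : ℕ => ⌈n / H⌉,
        3 * K * B * gs (1 / 8 * (j - ((N : ℤ) + 1 / 2) ^ 2 / H)) := by
        refine sum_le_sum fun j hj => ?_
        refine (sum_le_card_nsmul _ _ (K * (3 * gs (1 / 8 * (j - ((N : ℤ) + 1 / 2) ^ 2 / H))))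
          fun n hn => ?_).trans ?_
        · obtain ⟨hn1, hn2⟩ := mem_filter.1 hn
          obtain ⟨hn3, hn4, -⟩ := mem_filter.1 hn1
          rw [← hn2]
          exact UB_om h5 hK0 (by exact_mod_cast (mem_Ioc.1 hn3).2) hn4
        · rw [nsmul_eq_mul]
          have := gs_pos (1 / 8 * (j - ((N : ℤ) + 1 / 2) ^ 2 / H))
          refine (mul_le_mul_of_nonneg_right (hc j hj) (by positivity)).trans_eq (by ring)
    _ ≤ 3 * K * B * (2 * (1 + 2 / (1 / 8))) := by
        rw [← mul_sum]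
        exact mul_le_mul_of_nonneg_left (gs_sum_le (by norm_num) _ _) (by positivity)
    _ = 102 * C * sgm (N ^ 2 + N + 1) * y / Real.log H ^ 2 := by
        rw [hB, ← mul_div_cancel₀ (y : ℝ) hK0.ne', ← hH]
        ring
    _ ≤ 102 * C * sgm (N ^ 2 + N + 1) * y / (K / 2) ^ 2 := by gcongr
    _ = _ := by ring

end Pool.Agent.P.MP_e94e4b_nt.PF
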