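import Pool.Agent.P.MP_e94e4b_nt.PF.Basic

/-! Unimodal weights in residue classes; the exponential sum with a square root. -/

namespace Pool.Agent.P.MP_e94e4b_nt.PF

open Finset Real Filter Topology
open Pool.Agent.P.MP_8be758_nt.Avg (gs Rough PL red ft en nsq gs_pos gs_le_one prime_of_mem_PL
  ev_pow ev_const ev_log)
open ArithmeticFunction (cardFactors)

theorem UNI_count (a m r c : ℕ) (hr : 1 ≤ r) :
    |∑ n ∈ Ioc a m, ((if n ≡ c [MOD r] then (1 : ℝ) else 0) - 1 / r)| ≤ 1 := by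
  rcases le_or_gt m a with h | h
  · rw [Finset.Ioc_eq_empty (by omega)]; simp
  have hr0 : (0 : ℚ) < r := by exact_mod_cast hr
  have hc := Nat.Ioc_filter_modEq_card a m (show 0 < r by omega) c
  have hle : ⌊((a : ℚ) - c) / r⌋ ≤ ⌊((m : ℚ) - c) / r⌋ := by
    refine Int.floor_mono (div_le_div_of_nonneg_right ?_ hr0.le)
    have : (a : ℚ) ≤ m := by exact_mod_cast h.le
    linarith
  rw [max_eq_left (by omega)] at hc
  have hq : |((((Ioc a m).filter (· ≡ c [MOD r])).card : ℕ) : ℚ) - ((m : ℚ) - a) * (1 / r)| ≤ 1 := by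
    have hc' : ((((Ioc a m).filter (· ≡ c [MOD r])).card : ℕ) : ℚ) =
        (⌊((m : ℚ) - c) / r⌋ : ℚ) - (⌊((a : ℚ) - c) / r⌋ : ℚ) := by exact_mod_cast hc
    have e : ((m : ℚ) - a) * (1 / r) = ((m : ℚ) - c) / r - ((a : ℚ) - c) / r := by ring
    rw [hc', e, abs_le]
    have h1 := Int.floor_le (((m : ℚ) - c) / r)
    have h2 := Int.lt_floor_add_one (((m : ℚ) - c) / r)
    have h3 := Int.floor_le (((a : ℚ) - c) / r)
    have h4 := Int.lt_floor_add_one (((a : ℚ) - c) / r)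
    constructor <;> linarith
  have hR : |((((Ioc a m).filter (· ≡ c [MOD r])).card : ℕ) : ℝ) - ((m : ℝ) - a) * (1 / r)| ≤ 1 := by
    have := (Rat.cast_le (K := ℝ)).2 hq
    push_cast at this
    exact this
  rw [Finset.sum_sub_distrib, Finset.sum_boole, Finset.sum_const, Nat.card_Ioc, nsmul_eq_mul,
    Nat.cast_sub h.le]
  exact hR

theorem t_UNI : S_UNI := by
  intro f S X1 X2 t r c hr hf hinc hdec
  have hS : 0 ≤ S := (hf 0).1.trans (hf 0).2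
  have e : ∑ n ∈ (Ioc X1 X2).filter (· ≡ c [MOD r]), f n - 1 / r * ∑ n ∈ Ioc X1 X2, f n =
      ∑ n ∈ Ioc X1 X2, ((if n ≡ c [MOD r] then (1 : ℝ) else 0) - 1 / r) * f n := by
    rw [Finset.sum_filter, Finset.mul_sum, ← Finset.sum_sub_distrib]
    refine Finset.sum_congr rfl fun n _ => ?_
    split_ifs <;> ring
  rw [e]
  have := MP_e86632_nt.abel_bound
    (fun n => (if n ≡ c [MOD r] then (1 : ℝ) else 0) - 1 / r) f X1 X2 1 (4 * S) zero_le_one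
    (by positivity) (fun n _ => UNI_count X1 n r c hr) ?_
  · rw [one_mul] at this; exact this
  intro hlt
  obtain ⟨M, rfl⟩ : ∃ M, X2 = M + 1 := ⟨X2 - 1, by omega⟩
  simp only [Nat.add_sub_cancel]
  set Φ : ℕ → ℝ := fun n => if n ≤ t then f n else 3 * S - f n with hΦ
  have h1 : ∀ i ∈ Ioc X1 M, ‖f (i + 1) - f i‖ ≤ Φ (i + 1) - Φ i := by
    intro i _
    rw [Real.norm_eq_abs, abs_le]
    have a1 := hf i
    have a2 := hf (i + 1)
    simp only [hΦ]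
    split_ifs with p1 p2 p2
    · have := hinc i (i + 1) (by omega) p1
      constructor <;> linarith
    · omega
    · constructor <;> linarith
    · have := hdec i (i + 1) (by omega) (by omega)
      constructor <;> linarith
  have h2 := Finset.sum_le_sum h1
  rw [MP_e86632_nt.tele_Ioc Φ X1 M (by omega)] at h2
  have h3 : ∀ n, 0 ≤ Φ n ∧ Φ n ≤ 3 * S := by
    intro n
    have := hf n
    simp only [hΦ]
    split_ifs <;> constructor <;> linarith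
  rw [Real.norm_eq_abs, abs_of_nonneg (hf _).1]
  linarith [(hf (M + 1)).2, (h3 (M + 1)).2, (h3 (X1 + 1)).1]

theorem UNI_taylor (x : ℝ) :
    ‖MP_e86632_nt.ee x - 1 - Complex.I * ((2 * π * x : ℝ) : ℂ)‖ ≤ 2 * (2 * π * x) ^ 2 := by
  have hn : ‖Complex.I * ((2 * π * x : ℝ) : ℂ)‖ = |2 * π * x| := by
    rw [norm_mul, Complex.norm_I, one_mul, Complex.norm_real, Real.norm_eq_abs]
  have hs : (2 * π * x) ^ 2 = |2 * π * x| ^ 2 := (sq_abs _).symm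
  rcases le_or_gt |2 * π * x| 1 with h | h
  · have := Complex.norm_exp_sub_one_sub_id_le (x := Complex.I * ((2 * π * x : ℝ) : ℂ))
      (by rw [hn]; exact h)
    rw [hn] at this
    rw [hs]
    refine this.trans ?_
    nlinarith [sq_nonneg |2 * π * x|]
  · have h1 := MP_e86632_nt.norm_ee_sub_one_le x
    have h2 : 2 * π * |x| = |2 * π * x| := by
      rw [abs_mul, abs_of_pos (by positivity : 0 < 2 * π)]
    refine (norm_sub_le _ _).trans ?_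
    rw [hn, hs]
    nlinarith

theorem UNI_step (ξ s s' : ℝ) (hξ : 0 < ξ) (h0 : 0 ≤ s') (h1 : s' ≤ s) (h : s ^ 2 = s' ^ 2 + 1) :
    ‖Complex.I * ((π * ξ : ℝ) : ℂ) * MP_e86632_nt.ee (ξ * s) - ((s : ℂ) * MP_e86632_nt.ee (ξ * s) - s' * MP_e86632_nt.ee (ξ * s'))‖ ≤
      (1 + π * ξ + 4 * (π * ξ) ^ 2) * (s - s') := by
  obtain ⟨δ, rfl⟩ : ∃ δ, s = s' + δ := ⟨s - s', by ring⟩
  have hδ : 0 ≤ δ := by linarith
  have h2 : 2 * s' * δ + δ ^ 2 = 1 := by linarith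
  have h3 : δ ≤ 1 := by nlinarith [mul_nonneg h0 hδ]
  have hE : MP_e86632_nt.ee (ξ * s') = MP_e86632_nt.ee (ξ * (s' + δ)) * MP_e86632_nt.ee (-(ξ * δ)) := by
    rw [← MP_e86632_nt.ee_add]; congr 1; ring
  have hT := UNI_taylor (-(ξ * δ))
  set ρ := MP_e86632_nt.ee (-(ξ * δ)) - 1 - Complex.I * ((2 * π * -(ξ * δ) : ℝ) : ℂ) with hρ
  have h2c : 2 * (s' : ℂ) * δ + (δ : ℂ) ^ 2 = 1 := by exact_mod_cast h2
  have e : Complex.I * ((π * ξ : ℝ) : ℂ) * MP_e86632_nt.ee (ξ * (s' + δ)) -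
      (((s' + δ : ℝ) : ℂ) * MP_e86632_nt.ee (ξ * (s' + δ)) - s' * MP_e86632_nt.ee (ξ * s')) =
      MP_e86632_nt.ee (ξ * (s' + δ)) * (Complex.I * ((π * ξ * δ ^ 2 : ℝ) : ℂ) - (δ : ℂ) + s' * ρ) := by
    rw [hE, hρ]
    push_cast
    linear_combination (-(MP_e86632_nt.ee (ξ * (s' + δ)) * Complex.I * π * ξ)) * h2c
  rw [e, norm_mul, MP_e86632_nt.norm_ee, one_mul]
  have hp : 0 < π * ξ := by positivity
  have b1 : ‖Complex.I * ((π * ξ * δ ^ 2 : ℝ) : ℂ)‖ = π * ξ * δ ^ 2 := by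
    rw [norm_mul, Complex.norm_I, one_mul, Complex.norm_real, Real.norm_eq_abs,
      abs_of_nonneg (by positivity)]
  have b2 : ‖(δ : ℂ)‖ = δ := by rw [Complex.norm_real, Real.norm_eq_abs, abs_of_nonneg hδ]
  have b3 : ‖(s' : ℂ) * ρ‖ ≤ s' * (2 * (2 * π * -(ξ * δ)) ^ 2) := by
    rw [norm_mul, Complex.norm_real, Real.norm_eq_abs, abs_of_nonneg h0]
    exact mul_le_mul_of_nonneg_left hT h0
  have b4 : s' * (2 * (2 * π * -(ξ * δ)) ^ 2) = 4 * (π * ξ) ^ 2 * δ * (2 * s' * δ) := by ring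
  have b5 : 4 * (π * ξ) ^ 2 * δ * (2 * s' * δ) ≤ 4 * (π * ξ) ^ 2 * δ * 1 :=
    mul_le_mul_of_nonneg_left (by nlinarith) (by positivity)
  have b6 : π * ξ * δ ^ 2 ≤ π * ξ * δ := mul_le_mul_of_nonneg_left (by nlinarith) hp.le
  refine (norm_add_le _ _).trans ((add_le_add_left (norm_sub_le _ _) _).trans ?_)
  rw [b1, b2]
  linarith

theorem UNI_tele (ξ : ℝ) (hξ : 0 < ξ) (a N : ℕ) (h : a ≤ N) :
    ‖Complex.I * ((π * ξ : ℝ) : ℂ) * ∑ n ∈ Ioc a N, MP_e86632_nt.ee (ξ * √(n : ℝ)) -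
      (((√(N : ℝ) : ℝ) : ℂ) * MP_e86632_nt.ee (ξ * √(N : ℝ)) - ((√(a : ℝ) : ℝ) : ℂ) * MP_e86632_nt.ee (ξ * √(a : ℝ)))‖ ≤
      (1 + π * ξ + 4 * (π * ξ) ^ 2) * (√(N : ℝ) - √(a : ℝ)) := by
  induction N, h using Nat.le_induction with
  | base => simp
  | succ N hN ih =>
    rw [Finset.sum_Ioc_succ_top hN]
    have hs := UNI_step ξ (√((N + 1 : ℕ) : ℝ)) (√(N : ℝ)) hξ (Real.sqrt_nonneg _)
      (Real.sqrt_le_sqrt (by push_cast; linarith))
      (by rw [Real.sq_sqrt (Nat.cast_nonneg _), Real.sq_sqrt (Nat.cast_nonneg _)]; push_cast; ring)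
    refine le_trans (le_of_eq ?_) ((norm_add_le _ _).trans ((add_le_add ih hs).trans (le_of_eq ?_)))
    · congr 1; ring
    · ring

theorem t_SQE : S_SQE := by
  refine ⟨20, by norm_num, fun ξ X1 X2 hξ => ?_⟩
  have hs := Real.sqrt_nonneg (X2 : ℝ)
  rcases le_or_gt X2 X1 with h | h
  · rw [Finset.Ioc_eq_empty (by omega)]; simp; positivity
  have ht := UNI_tele ξ hξ X1 X2 h.le
  have hp : 0 < π * ξ := by positivity
  have hs1 := Real.sqrt_nonneg (X1 : ℝ)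
  have hs2 : √(X1 : ℝ) ≤ √(X2 : ℝ) := Real.sqrt_le_sqrt (by exact_mod_cast h.le)
  have hn : ∀ (s x : ℝ), 0 ≤ s → ‖(s : ℂ) * MP_e86632_nt.ee x‖ = s := fun s x h0 => by
    rw [norm_mul, MP_e86632_nt.norm_ee, mul_one, Complex.norm_real, Real.norm_eq_abs,
      abs_of_nonneg h0]
  have b1 : ‖((√(X2 : ℝ) : ℝ) : ℂ) * MP_e86632_nt.ee (ξ * √(X2 : ℝ)) -
      ((√(X1 : ℝ) : ℝ) : ℂ) * MP_e86632_nt.ee (ξ * √(X1 : ℝ))‖ ≤ 2 * √(X2 : ℝ) := by
    refine (norm_sub_le _ _).trans ?_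
    rw [hn _ _ hs, hn _ _ hs1]
    linarith
  have b2 := (norm_sub_norm_le _ _).trans ht
  rw [norm_mul, norm_mul, Complex.norm_I, one_mul, Complex.norm_real, Real.norm_eq_abs,
    abs_of_pos hp] at b2
  have b3 : (1 + π * ξ + 4 * (π * ξ) ^ 2) * (√(X2 : ℝ) - √(X1 : ℝ)) ≤
      (1 + π * ξ + 4 * (π * ξ) ^ 2) * √(X2 : ℝ) :=
    mul_le_mul_of_nonneg_left (by linarith) (by positivity)
  refine le_of_mul_le_mul_left ?_ hp
  have e : π * ξ * (20 * (√(X2 : ℝ) / ξ + ξ * √(X2 : ℝ))) = 20 * π * (1 + ξ ^ 2) * √(X2 : ℝ) := by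
    field_simp
  rw [e]
  have p3 := Real.pi_gt_three
  have p4 := Real.pi_lt_four
  have b4 : 3 + π * ξ + 4 * (π * ξ) ^ 2 ≤ 20 * π * (1 + ξ ^ 2) := by
    have c1 : π * ξ ≤ π * (1 + ξ ^ 2) :=
      mul_le_mul_of_nonneg_left (by nlinarith [sq_nonneg (ξ - 1)]) Real.pi_pos.le
    have c2 : 4 * (π * ξ) ^ 2 ≤ 16 * (π * ξ ^ 2) := by
      have : 0 ≤ π * ξ ^ 2 := by positivity
      nlinarith
    have c3 : 0 ≤ π * ξ ^ 2 := by positivity
    nlinarith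
  have b5 := mul_le_mul_of_nonneg_right b4 hs
  nlinarith

end Pool.Agent.P.MP_e94e4b_nt.PF
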