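import Pool.Agent.P.MP_e94e4b_nt.PF.Basic

/-! Bounds for the coefficients of the bilinear blocks. -/

namespace Pool.Agent.P.MP_e94e4b_nt.PF

open Finset Real Filter Topology
open Pool.Agent.P.MP_e86632_nt (ee)
open Pool.Agent.P.MP_8be758_nt.Avg (gs gs_pos gs_le_one)

theorem UV_norm (hGB2 : S_GB2) {K Q τ : ℝ} {e f : ℕ} (hτ : 1 ≤ τ)
    (hd : ∀ m : ℕ, (m : ℝ) ≤ Q → (m.divisors.card : ℝ) ≤ τ) (ψ : DirichletCharacter ℂ f) (h : ℕ) :
    ‖dd K Q e f ψ h‖ ^ 2 ≤ τ ^ 2 / ((f : ℝ) * e) ^ 4 * ‖GG (f * e) f ψ h‖ ^ 2 := by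
  unfold dd
  split_ifs with k
  · obtain ⟨k1, k2⟩ := mem_SQ.1 k.1
    have q0 : 0 < f * e := Nat.pos_of_ne_zero k1.ne_zero
    have q1 : (0 : ℝ) < (f : ℝ) * e := by exact_mod_cast q0
    have q2 : (0 : ℝ) < (f * e).totient := by exact_mod_cast Nat.totient_pos.2 q0
    have q3 : (f : ℝ) * e ≤ (f * e).totient * ((f * e).divisors.card : ℝ) := by
      exact_mod_cast hGB2.2.2.2 (f * e) q0
    have q4 : (f : ℝ) * e ≤ (f * e).totient * τ :=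
      q3.trans (mul_le_mul_of_nonneg_left (hd _ k2) q2.le)
    have g0 := gs_pos (h / (K * (f * e)))
    have g1 := gs_le_one (h / (K * (f * e)))
    have c1 : gs (h / (K * (f * e))) / (f * e * (f * e).totient) ≤ τ / ((f : ℝ) * e) ^ 2 := by
      rw [div_le_div_iff₀ (by positivity) (by positivity)]
      nlinarith [mul_le_mul_of_nonneg_left q4 q1.le, mul_le_mul_of_nonneg_right g1 (sq_nonneg ((f : ℝ) * e))]
    rw [norm_mul, mul_pow, Complex.norm_real, Real.norm_of_nonneg (by positivity)]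
    refine mul_le_mul_of_nonneg_right ?_ (sq_nonneg _)
    calc _ ≤ (τ / ((f : ℝ) * e) ^ 2) ^ 2 := pow_le_pow_left₀ (by positivity) c1 2
      _ = _ := by rw [div_pow, ← pow_mul]
  · rw [norm_zero, zero_pow two_ne_zero]; positivity

theorem t_UV (hGB2 : S_GB2) : S_UV := by
  intro K Q τ e F H hK he hF hH hτ hd
  have e1 : (1 : ℝ) ≤ e := by exact_mod_cast he
  have F1 : (1 : ℝ) ≤ F := by exact_mod_cast hF
  have x1 : (1 : ℝ) ≤ (F : ℝ) * e := one_le_mul_of_one_le_of_one_le F1 e1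
  have K1 : 1 ≤ K ^ 2 := one_le_pow₀ hK
  have bd : ∀ f ∈ Ico F (2 * F), (F : ℝ) * e ≤ f * e ∧ (f : ℝ) ≤ 2 * F := fun f hf => by
    obtain ⟨h1, h2⟩ := mem_Ico.1 hf
    have h3 : (F : ℝ) ≤ f := by exact_mod_cast h1
    exact ⟨mul_le_mul_of_nonneg_right h3 (by linarith), by exact_mod_cast h2.le⟩
  have nz : ∀ f ψ, ∀ h ∈ Ico H (2 * H), dd K Q e f ψ h ≠ 0 →
      f * e ∈ SQ Q ∧ (H : ℝ) ≤ K ^ 2 * (f * e) + 1 := fun f ψ h hh k => by
    have h1 : (H : ℝ) ≤ h := by exact_mod_cast (mem_Ico.1 hh).1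
    unfold dd at k
    split_ifs at k with m
    exacts [⟨m.1, h1.trans m.2⟩, absurd rfl k]
  refine ⟨?_, fun f hf => ?_⟩
  · rintro ⟨f, hf, ψ, -, h, hh, k⟩
    obtain ⟨k1, k2⟩ := nz f ψ h hh k
    obtain ⟨b1, b2⟩ := bd f hf
    have k3 := (mem_SQ.1 k1).2
    push_cast at k3
    refine ⟨b1.trans k3, ?_⟩
    have b3 : (f : ℝ) * e ≤ 2 * F * e := mul_le_mul_of_nonneg_right b2 (by linarith)
    nlinarith [mul_le_mul_of_nonneg_left b3 (sq_nonneg K), one_le_mul_of_one_le_of_one_le K1 x1]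
  obtain ⟨b1, b2⟩ := bd f hf
  have f1 : 1 ≤ f := hF.trans (mem_Ico.1 hf).1
  have q1 : (1 : ℝ) ≤ (f : ℝ) * e := x1.trans b1
  have inv : 1 / ((f : ℝ) * e) ^ 2 ≤ 1 / ((F : ℝ) * e) ^ 2 :=
    one_div_le_one_div_of_le (by positivity) (pow_le_pow_left₀ (by linarith) b1 2)
  by_cases k : f * e ∈ SQ Q ∧ (H : ℝ) ≤ K ^ 2 * (f * e) + 1
  swap
  · have z : ∀ ψ, ∑ h ∈ Ico H (2 * H), ‖dd K Q e f ψ h‖ ^ 2 = 0 := fun ψ =>
      sum_eq_zero fun h hh => by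
        rw [not_not.1 fun m => k (nz f ψ h hh m), norm_zero, zero_pow two_ne_zero]
    simp only [z, sum_const_zero]
    exact ⟨fun _ _ => by positivity, by positivity⟩
  obtain ⟨k1, k2⟩ := mem_SQ.1 k.1
  have one : ∀ ψ, ∑ h ∈ Ico H (2 * H), ‖dd K Q e f ψ h‖ ^ 2 ≤
      10 * K ^ 2 * τ ^ 2 / ((F : ℝ) * e) ^ 2 := fun ψ => by
    have h1 := hGB2.1 (f * e) f H ψ (Nat.mul_pos f1 he)
    push_cast at h1
    have h2 : (H : ℝ) + f * e ≤ 10 * K ^ 2 * (f * e) := by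
      nlinarith [k.2, one_le_mul_of_one_le_of_one_le K1 q1,
        mul_le_mul_of_nonneg_right K1 (by linarith : (0 : ℝ) ≤ f * e)]
    calc _ ≤ ∑ h ∈ Ico H (2 * H), τ ^ 2 / ((f : ℝ) * e) ^ 4 * ‖GG (f * e) f ψ h‖ ^ 2 :=
          sum_le_sum fun h _ => UV_norm hGB2 hτ hd ψ h
      _ ≤ τ ^ 2 / ((f : ℝ) * e) ^ 4 * (10 * K ^ 2 * (f * e) * (f * e)) := by
          rw [← mul_sum]
          exact mul_le_mul_of_nonneg_left
            (h1.trans (mul_le_mul_of_nonneg_right h2 (by linarith))) (by positivity)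
      _ = 10 * K ^ 2 * τ ^ 2 * (1 / ((f : ℝ) * e) ^ 2) := by field_simp
      _ ≤ 10 * K ^ 2 * τ ^ 2 * (1 / ((F : ℝ) * e) ^ 2) := by gcongr
      _ = _ := by ring
  refine ⟨fun ψ _ => one ψ, ?_⟩
  have t3 : τ ^ 2 ≤ τ ^ 3 := pow_le_pow_right₀ hτ (by norm_num)
  rcases min_choice (H : ℝ) F with m | m <;> rw [m]
  · have h1 : ∀ h, ∑ ψ ∈ prim f, ‖GG (f * e) f ψ h‖ ^ 2 ≤ ((f : ℝ) * e) ^ 2 * τ := fun h => by
      have h2 := hGB2.2.1 (f * e) f h k1 (dvd_mul_right _ _)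
      push_cast at h2 k2
      refine h2.trans (mul_le_mul_of_nonneg_left (hd f (le_trans ?_ k2)) (sq_nonneg _))
      exact le_mul_of_one_le_right (by positivity) e1
    calc _ ≤ ∑ ψ ∈ prim f, ∑ h ∈ Ico H (2 * H),
            τ ^ 2 / ((f : ℝ) * e) ^ 4 * ‖GG (f * e) f ψ h‖ ^ 2 :=
          sum_le_sum fun ψ _ => sum_le_sum fun h _ => UV_norm hGB2 hτ hd ψ h
      _ ≤ ∑ _h ∈ Ico H (2 * H), τ ^ 2 / ((f : ℝ) * e) ^ 4 * (((f : ℝ) * e) ^ 2 * τ) := by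
          rw [sum_comm]
          refine sum_le_sum fun h _ => ?_
          rw [← mul_sum]
          exact mul_le_mul_of_nonneg_left (h1 h) (by positivity)
      _ = 1 * τ ^ 3 * H * (1 / ((f : ℝ) * e) ^ 2) := by
          rw [sum_const, Nat.card_Ico, show 2 * H - H = H by omega, nsmul_eq_mul]
          field_simp
      _ ≤ 20 * K ^ 2 * τ ^ 3 * H * (1 / ((F : ℝ) * e) ^ 2) := by gcongr; linarith
      _ = _ := by ring
  · have h1 : ((prim f).card : ℝ) ≤ f := by exact_mod_cast hGB2.2.2.1 f f1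
    calc _ ≤ (prim f).card • (10 * K ^ 2 * τ ^ 2 / ((F : ℝ) * e) ^ 2) :=
          sum_le_card_nsmul _ _ _ fun ψ _ => one ψ
      _ ≤ 2 * F * (10 * K ^ 2 * τ ^ 3 / ((F : ℝ) * e) ^ 2) := by
          rw [nsmul_eq_mul]; gcongr; exact h1.trans b2
      _ = _ := by ring

end Pool.Agent.P.MP_e94e4b_nt.PF
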