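import Pool.Agent.P.MP_e94e4b_nt.PF.Basic

/-! The contribution of the intermediate moduli. -/

namespace Pool.Agent.P.MP_e94e4b_nt.PF

open Finset Real Filter Topology
open Pool.Agent.P.MP_8be758_nt.Avg (gs Rough PL red ft en nsq en_nonneg nsq_nonneg
  ev_pow ev_const ev_log t_DIV)

theorem XS_pow8 {x : ℝ} (hx : 0 ≤ x) : (x ^ (1 / 8 : ℝ)) ^ 8 = x := by
  rw [← Real.rpow_natCast, ← Real.rpow_mul hx]
  norm_num

theorem XS_dy (F : ℕ → ℝ) (hF : ∀ q, 0 ≤ F q) (Q : ℕ) (D : ℝ) (hD : 0 ≤ D)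
    (h : ∀ T : ℕ, 2 ≤ T → ∑ q ∈ Ioc T (min (2 * T) Q), F q ≤ D / ((T : ℝ) ^ (1 / 8 : ℝ)) ^ 2)
    (m T : ℕ) (hT : 2 ≤ T) (hm : Q ≤ T + m) :
    ∑ q ∈ Ioc T Q, F q ≤ 8 * D / ((T : ℝ) ^ (1 / 8 : ℝ)) ^ 2 := by
  induction m generalizing T with
  | zero =>
    rw [Ioc_eq_empty (by omega), sum_empty]
    positivity
  | succ m ih =>
    have e1 := ih (2 * T) (by omega) (by omega)
    have e2 := h T hT
    have e3 : ∑ q ∈ Ioc T Q, F q ≤
        ∑ q ∈ Ioc T (min (2 * T) Q), F q + ∑ q ∈ Ioc (2 * T) Q, F q := by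
      rw [← sum_union (disjoint_left.2 fun q h1 h2 => by
        rw [mem_Ioc] at h1 h2
        omega)]
      refine sum_le_sum_of_subset_of_nonneg (fun q hq => ?_) fun q _ _ => hF q
      simp only [mem_union, mem_Ioc] at hq ⊢
      omega
    have hT' : (0 : ℝ) < T := by exact_mod_cast (show 0 < T by omega)
    have p1 := XS_pow8 hT'.le
    have p2 := XS_pow8 (x := ((2 * T : ℕ) : ℝ)) (by positivity)
    have s0 : 0 < (T : ℝ) ^ (1 / 8 : ℝ) := by positivity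
    have t0 : 0 ≤ ((2 * T : ℕ) : ℝ) ^ (1 / 8 : ℝ) := by positivity
    generalize ((2 * T : ℕ) : ℝ) ^ (1 / 8 : ℝ) = t at *
    generalize (T : ℝ) ^ (1 / 8 : ℝ) = s at *
    push_cast at p2
    have e4 : 8 / 7 * s ^ 2 ≤ t ^ 2 := le_of_pow_le_pow_left₀ (n := 4) (by norm_num) (by positivity)
      (by rw [mul_pow, ← pow_mul, ← pow_mul, show 2 * 4 = 8 from rfl, p1, p2]; nlinarith)
    have e5 : 8 * D / t ^ 2 ≤ 8 * D / (8 / 7 * s ^ 2) :=
      div_le_div_of_nonneg_left (by positivity) (by positivity) e4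
    have e6 : 8 * D / (8 / 7 * s ^ 2) + D / s ^ 2 = 8 * D / s ^ 2 := by field_simp; ring
    linarith

theorem XS_om (C : ℝ) (hC : 1 ≤ C) : ∃ K : ℝ, 0 < K ∧ ∀ q : ℕ, q ≠ 0 →
    C ^ q.primeFactors.card ≤ K * (q : ℝ) ^ (1 / 8 : ℝ) := by
  obtain ⟨k, hk⟩ := pow_unbounded_of_one_lt C (show (1 : ℝ) < 2 by norm_num)
  have k0 : k ≠ 0 := by
    rintro rfl
    simp at hk
    linarith
  have k1 : (0 : ℝ) < k := by exact_mod_cast Nat.pos_of_ne_zero k0
  obtain ⟨C', h0, h⟩ := t_DIV (1 / (8 * k)) (by positivity)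
  refine ⟨C' ^ k, by positivity, fun q hq => ?_⟩
  have e1 : 2 ^ q.primeFactors.card ≤ q.divisors.card := by
    rw [Nat.card_divisors hq]
    refine pow_card_le_prod _ _ _ fun p hp => ?_
    have := (Nat.Prime.factorization_pos_of_dvd (Nat.prime_of_mem_primeFactors hp) hq
      (Nat.dvd_of_mem_primeFactors hp))
    omega
  have e2 : (2 : ℝ) ^ q.primeFactors.card ≤ C' * (q : ℝ) ^ (1 / (8 * k) : ℝ) :=
    le_trans (by exact_mod_cast e1) (h q)
  calc C ^ q.primeFactors.card ≤ (2 ^ k) ^ q.primeFactors.card :=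
        pow_le_pow_left₀ (by linarith) hk.le _
    _ = (2 ^ q.primeFactors.card) ^ k := by rw [← pow_mul, ← pow_mul, mul_comm]
    _ ≤ (C' * (q : ℝ) ^ (1 / (8 * k) : ℝ)) ^ k := pow_le_pow_left₀ (by positivity) e2 _
    _ = _ := by
        rw [mul_pow, ← Real.rpow_natCast ((q : ℝ) ^ _), ← Real.rpow_mul (Nat.cast_nonneg q)]
        congr 2
        field_simp

theorem XS_blk (c e : ℕ → ℝ) (K B : ℝ) (T U : ℕ) (hK : 0 ≤ K) (hB : 0 ≤ B) (hT : 2 ≤ T)
    (hU : U ≤ 2 * T) (hc : ∀ q : ℕ, q ≠ 0 → c q ≤ K * (q : ℝ) ^ (1 / 8 : ℝ)) (he : ∀ q, 0 ≤ e q)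
    (h : ∑ q ∈ Ioc T U, 1 / (q : ℝ) * e q ≤ Real.log T / T * B ^ 2) :
    ∑ q ∈ Ioc T U, c q / q * √(e q) ≤ 4 * K * B / ((T : ℝ) ^ (1 / 8 : ℝ)) ^ 2 := by
  have hT' : (0 : ℝ) < T := by exact_mod_cast (show 0 < T by omega)
  have p1 := XS_pow8 hT'.le
  have s0 : 0 < (T : ℝ) ^ (1 / 8 : ℝ) := by positivity
  generalize (T : ℝ) ^ (1 / 8 : ℝ) = s at *
  have e1 : ∑ q ∈ Ioc T U, c q / q * √(e q) ≤
      ∑ q ∈ Ioc T U, K * (2 * s) * (√(1 / (q : ℝ)) * √(1 / (q : ℝ) * e q)) := by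
    refine sum_le_sum fun q hq => ?_
    obtain ⟨h1, h2⟩ := mem_Ioc.1 hq
    have q0 : (0 : ℝ) < q := by exact_mod_cast (show 0 < q by omega)
    have q1 : (q : ℝ) ≤ 2 * T := by exact_mod_cast h2.trans hU
    have q2 : (q : ℝ) ^ (1 / 8 : ℝ) ≤ 2 * s :=
      le_of_pow_le_pow_left₀ (n := 8) (by norm_num) (by positivity)
        (by rw [XS_pow8 q0.le, mul_pow, p1]; nlinarith)
    rw [Real.sqrt_mul (by positivity), ← mul_assoc (√_), Real.mul_self_sqrt (by positivity),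
      ← mul_assoc, mul_one_div]
    exact mul_le_mul_of_nonneg_right (div_le_div_of_nonneg_right
      ((hc q (by omega)).trans (mul_le_mul_of_nonneg_left q2 hK)) q0.le) (Real.sqrt_nonneg _)
  have e2 : ∑ q ∈ Ioc T U, 1 / (q : ℝ) ≤ 1 := by
    refine (sum_le_card_nsmul _ _ (1 / (T : ℝ)) fun q hq => one_div_le_one_div_of_le hT'
      (by exact_mod_cast (mem_Ioc.1 hq).1.le)).trans ?_
    rw [Nat.card_Ioc, nsmul_eq_mul, mul_one_div, div_le_one hT']
    exact_mod_cast (show U - T ≤ T by omega)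
  have e3 : Real.log T ≤ 4 * s ^ 2 := by
    have := Real.log_le_sub_one_of_pos (show 0 < s ^ 2 by positivity)
    rw [← p1, show s ^ 8 = (s ^ 2) ^ 4 by ring, Real.log_pow]
    push_cast
    linarith
  have e4 : √(∑ q ∈ Ioc T U, 1 / (q : ℝ) * e q) ≤ 2 * B / s ^ 3 := by
    refine Real.sqrt_le_iff.2 ⟨by positivity, h.trans ?_⟩
    calc Real.log T / T * B ^ 2 ≤ 4 * s ^ 2 / T * B ^ 2 := by gcongr
      _ = _ := by rw [← p1]; field_simp; ring
  have e5 := Real.sum_sqrt_mul_sqrt_le (Ioc T U) (f := fun q : ℕ => 1 / (q : ℝ))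
    (g := fun q : ℕ => 1 / (q : ℝ) * e q) (fun q => by positivity)
    fun q => mul_nonneg (by positivity) (he q)
  rw [← mul_sum] at e1
  calc _ ≤ _ := e1
    _ ≤ K * (2 * s) * (1 * (2 * B / s ^ 3)) := mul_le_mul_of_nonneg_left
        (e5.trans (mul_le_mul (Real.sqrt_le_one.2 e2) e4 (Real.sqrt_nonneg _) zero_le_one))
        (by positivity)
    _ = _ := by field_simp; ring

theorem t_XS : S_XS := by
  intro C ε hC hε
  obtain ⟨K, K0, hK⟩ := XS_om C hC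
  obtain ⟨C1, c1, h1⟩ := a_SIFT
  obtain ⟨C2, c2, h2⟩ := a_RC
  obtain ⟨R, hR, R2⟩ := ((ev_nat (ev_const (600 * K * (C1 + C2) / ε + 1)
    (show (0 : ℝ) < 1 / 8 by norm_num))).and (eventually_ge_atTop 2)).exists
  refine ⟨R, by omega, ?_⟩
  filter_upwards [ev_zz 2, eventually_gt_atTop 1] with y z2 y1 I γ hI hγ hr
  have y0 : 0 < y := by linarith
  have l0 : 0 < Real.log y := Real.log_pos y1
  have lz := log_zz y0
  have hy : ∀ a : ℝ, a ≤ 2 → y ^ a ≤ 3 * y ^ 2 := fun a ha => by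
    have := Real.rpow_le_rpow_of_exponent_le y1.le ha
    rw [Real.rpow_two] at this
    nlinarith
  have a1 : zz y ^ 5 ≤ 3 * y ^ 2 := by
    rw [zz, ← Real.rpow_natCast, ← Real.rpow_mul y0.le]
    exact hy _ (by norm_num)
  have a2 : QQ y ^ 2 * zz y ^ 2 ≤ 3 * y ^ 2 := by
    rw [← mul_pow, QQ, zz, ← Real.rpow_add y0, ← Real.rpow_natCast, ← Real.rpow_mul y0.le]
    exact hy _ (by norm_num)
  have q0 : 0 ≤ QQ y := Real.rpow_nonneg y0.le _
  set W := 3 * y ^ 2 / Real.log (zz y) with hW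
  have W0 : 0 ≤ W := by rw [hW, lz]; positivity
  have a3 : nsq I (fun n => (γ n : ℂ)) ≤ C2 * W := by
    have := h2 (zz y) 0 (3 * y ^ 2) (I.filter fun n => γ n ≠ 0) z2 a1 fun m hm => by
      obtain ⟨m1, m2⟩ := mem_filter.1 hm
      exact ⟨by exact_mod_cast (hr m m1 m2).pos z2, by simpa using hI m m1, hr m m1 m2⟩
    rw [mul_div_assoc, card_filter] at this
    refine le_trans ?_ this
    push_cast
    refine sum_le_sum fun n hn => ?_
    rw [Complex.norm_real, Real.norm_eq_abs]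
    split_ifs with h
    · exact pow_le_one₀ (abs_nonneg _) (hγ n hn)
    · simp [not_not.1 h]
  have key := XS_dy (fun q => C ^ q.primeFactors.card / q * √(en I (fun n => (γ n : ℂ)) q))
    (fun q => by positivity) ⌊QQ y⌋₊ (4 * K * ((C1 + C2) * W)) (by positivity) (fun T hT => by
      refine XS_blk _ _ K _ T _ K0.le (by positivity) hT (min_le_left _ _) hK (en_nonneg _ _) ?_
      have b1 : ((min (2 * T) ⌊QQ y⌋₊ : ℕ) : ℝ) ≤ QQ y :=
        le_trans (by exact_mod_cast min_le_right _ _) (Nat.floor_le q0)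
      have b2 : 0 ≤ Real.log T / T := by positivity
      refine (h1 (zz y) (3 * y ^ 2) T _ I _ z2 hT (le_trans (by gcongr) a2) hI
        fun a ha h => hr a ha (by simpa using h)).trans ?_
      rw [mul_div_assoc, ← hW]
      calc C1 * (Real.log T / T) * W * nsq I (fun n => (γ n : ℂ))
          ≤ C1 * (Real.log T / T) * W * (C2 * W) := by gcongr
        _ = Real.log T / T * (C1 * C2 * W ^ 2) := by ring
        _ ≤ _ := by
          rw [mul_pow]
          gcongr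
          nlinarith [mul_pos c1 c2]) ⌊QQ y⌋₊ R R2 (by omega)
  refine key.trans ?_
  have A0 : 0 < 600 * K * (C1 + C2) / ε := by positivity
  have hs : 600 * K * (C1 + C2) / ε ≤ ((R : ℝ) ^ (1 / 8 : ℝ)) ^ 2 := by nlinarith
  refine (div_le_div_of_nonneg_left (by positivity) A0 hs).trans_eq ?_
  rw [hW, lz]
  field_simp
  norm_num

end Pool.Agent.P.MP_e94e4b_nt.PF
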