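import Pool.Agent.P.MP_e94e4b_nt.PF.CB
import Pool.Agent.P.MP_e94e4b_nt.PF.HOL
import Pool.Agent.P.MP_e94e4b_nt.PF.H4
import Pool.Agent.P.MP_e94e4b_nt.PF.HLS
import Pool.Agent.P.MP_e94e4b_nt.PF.HG
import Pool.Agent.P.MP_e94e4b_nt.PF.WLS
import Pool.Agent.P.MP_e94e4b_nt.PF.MLS
import Pool.Agent.P.MP_e94e4b_nt.PF.GM
import Pool.Agent.P.MP_e94e4b_nt.PF.CM
import Pool.Agent.P.MP_e94e4b_nt.PF.RT
import Pool.Agent.P.MP_e94e4b_nt.PF.PO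
import Pool.Agent.P.MP_e94e4b_nt.PF.TB
import Pool.Agent.P.MP_e94e4b_nt.PF.GB1
import Pool.Agent.P.MP_e94e4b_nt.PF.GB2
import Pool.Agent.P.MP_e94e4b_nt.PF.UV
import Pool.Agent.P.MP_e94e4b_nt.PF.RED1
import Pool.Agent.P.MP_e94e4b_nt.PF.RED
import Pool.Agent.P.MP_e94e4b_nt.PF.BS
import Pool.Agent.P.MP_e94e4b_nt.PF.LB0
import Pool.Agent.P.MP_e94e4b_nt.PF.LB1
import Pool.Agent.P.MP_e94e4b_nt.PF.UNI
import Pool.Agent.P.MP_e94e4b_nt.PF.TI0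
import Pool.Agent.P.MP_e94e4b_nt.PF.TI1
import Pool.Agent.P.MP_e94e4b_nt.PF.TI
import Pool.Agent.P.MP_e94e4b_nt.PF.T1
import Pool.Agent.P.MP_e94e4b_nt.PF.LP
import Pool.Agent.P.MP_e94e4b_nt.PF.PFR
import Pool.Agent.P.MP_e94e4b_nt.PF.XS
import Pool.Agent.P.MP_e94e4b_nt.PF.EXP
import Pool.Agent.P.MP_e94e4b_nt.PF.GEN
import Pool.Agent.P.MP_e94e4b_nt.PF.MR1
import Pool.Agent.P.MP_e94e4b_nt.PF.MR2
import Pool.Agent.P.MP_e94e4b_nt.PF.TAB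
import Pool.Agent.P.MP_e94e4b_nt.PF.BIN
import Pool.Agent.P.MP_e94e4b_nt.PF.RS
import Pool.Agent.P.MP_e94e4b_nt.PF.TEN
import Pool.Agent.P.MP_e94e4b_nt.PF.FL
import Pool.Agent.P.MP_e94e4b_nt.PF.COMB
import Pool.Agent.P.MP_e94e4b_nt.PF.PNT
import Pool.Agent.P.MP_e94e4b_nt.PF.G2
import Pool.Agent.P.MP_e94e4b_nt.PF.EQ2
import Pool.Agent.P.MP_e94e4b_nt.PF.MC
import Pool.Agent.P.MP_e94e4b_nt.PF.MB
import Pool.Agent.P.MP_e94e4b_nt.PF.CMP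
import Pool.Agent.P.MP_e94e4b_nt.PF.SW
import Pool.Agent.P.MP_e94e4b_nt.PF.MAIN
import Pool.Agent.P.MP_e94e4b_nt.PF.SV
import Pool.Agent.P.MP_e94e4b_nt.PF.UB
import Pool.Agent.P.MP_e94e4b_nt.PF.SM

/-! Assembly of all steps. -/

namespace Pool.Agent.P.MP_e94e4b_nt.PF

theorem all_LB : S_LB :=
  have hHLS := t_HLS (t_HG (t_WLS t_MLS))
  t_LB (t_LB1 (t_LB0 (t_RED (t_RED1 t_PO t_GB1))
    (t_BS (t_CB (t_CM t_GM) (t_HOL hHLS (t_H4 hHLS))) (t_UV (t_GB2 t_RT)))) (t_TB t_RT t_PO))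

theorem all_LP : S_LP :=
  t_LP (t_TB t_RT t_PO) all_LB
    (t_T1 (t_TI t_PO t_UNI (t_TI0 t_PO t_SQE) (t_TI1 t_PO (t_TB t_RT t_PO) t_UNI))) t_VA

theorem all_FIN : S_FIN :=
  have hFL := t_FL t_MR1 t_TEN t_BLK
  have hMR2 := t_MR2 t_RT t_MR1
  t_FIN t_CMP
    (t_MAIN all_LB all_LP (t_GEN t_RT (t_PF t_RT) t_XS (t_EXP t_RT)) hMR2
      (t_COMB t_RT hMR2 t_TAB (t_RS t_BIN) hFL) (t_EQ1 t_PNT) t_G2 (t_EQ2 t_PNT t_G2 t_DEC)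
      (t_MASS t_PNT t_G2 t_DEC (t_MB t_MR1 t_MC)) (t_RO t_PO)
      (t_SW t_PO (t_TB t_RT t_PO) t_G2 t_CMP))
    (t_UB t_CMP (t_SV hFL)) (t_SM t_RT)

end Pool.Agent.P.MP_e94e4b_nt.PF
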