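import Pool.Agent.P.MP_e94e4b_nt.PF.Iface
import Pool.Agent.P.MP_8be758_nt.Avg.GS
import Pool.Agent.P.MP_8be758_nt.Avg.LS
import Pool.Agent.P.MP_8be758_nt.Avg.FAR
import Pool.Agent.P.MP_8be758_nt.Avg.GT
import Pool.Agent.P.MP_8be758_nt.Avg.SIFT
import Pool.Agent.P.MP_8be758_nt.Avg.NU

/-! Small facts about the definitions, shared by all steps. -/

namespace Pool.Agent.P.MP_e94e4b_nt.PF

open Finset Real Filter Topology
open Pool.Agent.P.MP_e86632_nt (ee)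
open Pool.Agent.P.MP_8be758_nt.Avg (gs Rough PL red ft en nsq gs_pos gs_le_one prime_of_mem_PL
  ev_pow ev_const ev_log)
open ArithmeticFunction (cardFactors)

theorem a_SIFT : Pool.Agent.P.MP_8be758_nt.Avg.S_SIFT :=
  open Pool.Agent.P.MP_8be758_nt.Avg in t_SIFT t_LS t_FAR t_GT

theorem a_RC : Pool.Agent.P.MP_8be758_nt.Avg.S_RC :=
  open Pool.Agent.P.MP_8be758_nt.Avg in t_RC (t_NU t_FAR t_GT)

theorem mN_cast (ν : ℕ) : (mN ν : ℤ) = 2 * MM ν := by simp [mN, MM]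

theorem mem_rts {q n ν : ℕ} : ν ∈ rts q n ↔ ν < q ∧ mN ν ≡ n [MOD q] := by
  rw [rts, mem_filter, mem_range, ← mN_cast, Nat.ModEq.comm, Nat.modEq_iff_dvd]

theorem rh_le (q n : ℕ) : rh q n ≤ q := (card_filter_le _ _).trans (card_range q).le

theorem om_nonneg {K : ℝ} (hK : 0 ≤ K) (N : ℤ) (n : ℕ) : 0 ≤ om K N n :=
  mul_nonneg hK (gs_pos _).le

theorem om_le {K : ℝ} (hK : 0 ≤ K) (N : ℤ) (n : ℕ) : om K N n ≤ K :=
  mul_le_of_le_one_right hK (gs_le_one _)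

theorem mem_SQ {Q : ℝ} {q : ℕ} : q ∈ SQ Q ↔ Squarefree q ∧ (q : ℝ) ≤ Q := by
  rw [SQ, mem_filter, mem_Icc]
  constructor
  · rintro ⟨⟨h1, h2⟩, h3⟩
    exact ⟨h3, (Nat.le_floor_iff' (by omega)).1 h2⟩
  · rintro ⟨h1, h2⟩
    exact ⟨⟨Nat.pos_of_ne_zero h1.ne_zero, Nat.le_floor h2⟩, h1⟩

theorem SQ_mono {Q Q' : ℝ} (h : Q ≤ Q') : SQ Q ⊆ SQ Q' := fun _ hq =>
  mem_SQ.2 ⟨(mem_SQ.1 hq).1, (mem_SQ.1 hq).2.trans h⟩

theorem card_SQ_le {Q : ℝ} (h : 0 ≤ Q) : ((SQ Q).card : ℝ) ≤ Q := by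
  have h1 : (SQ Q).card ≤ ⌊Q⌋₊ := (card_filter_le _ _).trans (by simp)
  exact le_trans (by exact_mod_cast h1) (Nat.floor_le h)

/-- the Gaussian at a multiple of the logarithm is smaller than every power -/
theorem ev_gs {c : ℝ} (hc : 0 < c) (k : ℝ) :
    ∀ᶠ y : ℝ in atTop, gs (c * Real.log y) ≤ y ^ (-k) := by
  filter_upwards [ev_log (|k| / (π * c ^ 2)), eventually_gt_atTop 1] with y h1 h2
  have h3 : 0 < Real.log y := Real.log_pos h2
  rw [gs, Real.rpow_def_of_pos (by linarith)]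
  refine Real.exp_le_exp.2 ?_
  rw [div_le_iff₀ (by positivity)] at h1
  have := le_abs_self k
  nlinarith

/-- the divisor bound up to a fixed power of `y` -/
theorem ev_tau (k : ℕ) {ε : ℝ} (hε : 0 < ε) :
    ∀ᶠ y : ℝ in atTop, ∀ m : ℕ, (m : ℝ) ≤ y ^ k → (m.divisors.card : ℝ) ≤ y ^ ε := by
  obtain ⟨C, hC, h⟩ := Pool.Agent.P.MP_8be758_nt.Avg.t_DIV (ε / (2 * (k + 1))) (by positivity)
  filter_upwards [ev_const C (half_pos hε), eventually_ge_atTop 1] with y h1 h2 m hm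
  have h0 : 0 < y := by linarith
  have h3 : (m : ℝ) ^ (ε / (2 * (k + 1))) ≤ y ^ (ε / 2) := by
    refine (Real.rpow_le_rpow (Nat.cast_nonneg m) (hm.trans (pow_le_pow_right₀ h2 k.le_succ))
      (by positivity)).trans_eq ?_
    rw [← Real.rpow_natCast, ← Real.rpow_mul h0.le]
    congr 1
    push_cast
    field_simp
  calc (m.divisors.card : ℝ) ≤ C * (m : ℝ) ^ (ε / (2 * (k + 1))) := h m
    _ ≤ y ^ (ε / 2) * y ^ (ε / 2) := mul_le_mul h1 h3 (by positivity) (by positivity)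
    _ = y ^ ε := by rw [← Real.rpow_add h0]; congr 1; ring

theorem log_zz {y : ℝ} (hy : 0 < y) : Real.log (zz y) = 4 / 25 * Real.log y := Real.log_rpow hy _

theorem ev_zz (C : ℝ) : ∀ᶠ y : ℝ in atTop, C ≤ zz y := ev_const C (by norm_num)

/-- transfer from real to natural parameters -/
theorem ev_nat {p : ℝ → Prop} (h : ∀ᶠ y : ℝ in atTop, p y) : ∀ᶠ y : ℕ in atTop, p y :=
  tendsto_natCast_atTop_atTop.eventually h

theorem mem_prim {f : ℕ} {ψ : DirichletCharacter ℂ f} : ψ ∈ prim f ↔ ψ.IsPrimitive := by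
  simp [prim]

theorem prim_one : prim 1 = {1} := by
  ext ψ
  rw [mem_prim, mem_singleton]
  exact ⟨fun _ => DirichletCharacter.level_one ψ,
    fun h => h ▸ DirichletCharacter.isPrimitive_one_level_one⟩

theorem one_level_one (a : ZMod 1) : (1 : DirichletCharacter ℂ 1) a = 1 :=
  MulChar.one_apply (isUnit_of_subsingleton a)

/-! ### Products of sets of primes -/

theorem pr_empty : pr ∅ = 1 := prod_empty

theorem pr_pos {E : Finset ℕ} (h : ∀ p ∈ E, p.Prime) : 0 < pr E := prod_pos fun p hp => (h p hp).pos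

theorem pr_cast (E : Finset ℕ) : (pr E : ℝ) = ∏ p ∈ E, (p : ℝ) := by simp [pr]

theorem pr_union {E F : Finset ℕ} (h : Disjoint E F) : pr (E ∪ F) = pr E * pr F := prod_union h

theorem primeFactors_pr {E : Finset ℕ} (h : ∀ p ∈ E, p.Prime) : (pr E).primeFactors = E :=
  Nat.primeFactors_prod h

theorem pr_primeFactors {q : ℕ} (h : Squarefree q) : pr q.primeFactors = q :=
  Nat.prod_primeFactors_of_squarefree h

theorem squarefree_pr {E : Finset ℕ} (h : ∀ p ∈ E, p.Prime) : Squarefree (pr E) := by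
  refine Finset.squarefree_prod_of_pairwise_isCoprime (fun p hp q hq hpq => ?_)
    fun p hp => (h p hp).squarefree
  exact Nat.coprime_iff_isRelPrime.1 ((Nat.coprime_primes (h p hp) (h q hq)).2 hpq)

theorem pr_le_of_subset {E F : Finset ℕ} (h : E ⊆ F) (hF : ∀ p ∈ F, p.Prime) : pr E ≤ pr F :=
  Nat.le_of_dvd (pr_pos hF) (prod_dvd_prod_of_subset _ _ _ h)

theorem pr_dvd_iff {E : Finset ℕ} (h : ∀ p ∈ E, p.Prime) (m : ℤ) :
    (pr E : ℤ) ∣ m ↔ ∀ p ∈ E, (p : ℤ) ∣ m := by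
  simp only [Int.natCast_dvd]
  refine ⟨fun h1 p hp => (dvd_prod_of_mem _ hp).trans h1, fun h1 => ?_⟩
  exact Finset.prod_primes_dvd _ (fun p hp => (h p hp).prime) h1

theorem coprime_pr {z : ℝ} {n : ℕ} {E : Finset ℕ} (hn : Rough z n) (hE : E ⊆ PL z) :
    n.Coprime (pr E) :=
  Nat.Coprime.prod_right fun p hp => ((Nat.Prime.coprime_iff_not_dvd (prime_of_mem_PL (hE hp))).2
    (Pool.Agent.P.MP_8be758_nt.Avg.rough_iff.1 hn p (hE hp))).symm

/-- a sum over sets of primes is bounded by a sum over their products -/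
theorem sum_pr_le {S : Finset (Finset ℕ)} {T : Finset ℕ} (hS : ∀ E ∈ S, ∀ p ∈ E, p.Prime)
    (hT : ∀ E ∈ S, pr E ∈ T) {F : ℕ → ℝ} (hF : ∀ q ∈ T, 0 ≤ F q) :
    ∑ E ∈ S, F (pr E) ≤ ∑ q ∈ T, F q := by
  rw [← sum_image (s := S) (g := pr) (f := F) fun E hE E' hE' e => by
    rw [← primeFactors_pr (hS E hE), e, primeFactors_pr (hS E' hE')]]
  refine sum_le_sum_of_subset_of_nonneg (fun q hq => ?_) fun q hq _ => hF q hq
  obtain ⟨E, hE, rfl⟩ := mem_image.1 hq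
  exact hT E hE

/-! ### Multilinear polynomials -/

theorem tw_empty (P : Finset ℕ) (lam : Finset ℕ → ℝ) (g : ℕ → ℝ) : tw P lam g ∅ = ev P lam g := by
  simp [tw, ev]

theorem sum_powerset_union {P1 P2 : Finset ℕ} (h : Disjoint P1 P2) (G : Finset ℕ → ℝ) :
    ∑ E ∈ (P1 ∪ P2).powerset, G E = ∑ E1 ∈ P1.powerset, ∑ E2 ∈ P2.powerset, G (E1 ∪ E2) := by
  rw [← sum_product']
  refine sum_bij' (fun E _ => (E ∩ P1, E ∩ P2)) (fun x _ => x.1 ∪ x.2) ?_ ?_ ?_ ?_ ?_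
  · intro E _
    simp [mem_product]
  · intro x hx
    rw [mem_product, mem_powerset, mem_powerset] at hx
    exact mem_powerset.2 (union_subset_union hx.1 hx.2)
  · intro E hE
    rw [← inter_union_distrib_left, inter_eq_left.2 (mem_powerset.1 hE)]
  · intro x hx
    rw [mem_product, mem_powerset, mem_powerset] at hx
    have h1 := disjoint_iff_inter_eq_empty.1 (h.mono_left hx.1)
    have h2 := disjoint_iff_inter_eq_empty.1 (h.symm.mono_left hx.2)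
    ext1 <;> simp [union_inter_distrib_right, inter_eq_left.2 hx.1, inter_eq_left.2 hx.2, h1, h2]
  · intro E hE
    rw [← inter_union_distrib_left, inter_eq_left.2 (mem_powerset.1 hE)]

theorem tens_union {P1 P2 E1 E2 : Finset ℕ} (h : Disjoint P1 P2) (h1 : E1 ⊆ P1) (h2 : E2 ⊆ P2)
    (l1 l2 : Finset ℕ → ℝ) : tens P1 P2 l1 l2 (E1 ∪ E2) = l1 E1 * l2 E2 := by
  have h3 := disjoint_iff_inter_eq_empty.1 (h.mono_left h1)
  have h4 := disjoint_iff_inter_eq_empty.1 (h.symm.mono_left h2)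
  simp [tens, union_inter_distrib_right, inter_eq_left.2 h1, inter_eq_left.2 h2, h3, h4]

theorem tw_tens {P1 P2 f : Finset ℕ} (h : Disjoint P1 P2) (hf : f ⊆ P1 ∪ P2)
    (l1 l2 : Finset ℕ → ℝ) (g : ℕ → ℝ) :
    tw (P1 ∪ P2) (tens P1 P2 l1 l2) g f = tw P1 l1 g (f ∩ P1) * tw P2 l2 g (f ∩ P2) := by
  simp only [tw, sum_filter]
  rw [sum_powerset_union h, sum_mul_sum]
  refine sum_congr rfl fun E1 h1 => sum_congr rfl fun E2 h2 => ?_
  rw [mem_powerset] at h1 h2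
  have hd := disjoint_left.1 h
  have e1 : f ⊆ E1 ∪ E2 ↔ f ∩ P1 ⊆ E1 ∧ f ∩ P2 ⊆ E2 := by
    constructor
    · intro h3
      refine ⟨fun x hx => ?_, fun x hx => ?_⟩ <;> rw [mem_inter] at hx <;>
        rcases mem_union.1 (h3 hx.1) with h4 | h4
      exacts [h4, (hd hx.2 (h2 h4)).elim, (hd (h1 h4) hx.2).elim, h4]
    · intro h3 x hx
      rcases mem_union.1 (hf hx) with h4 | h4
      exacts [mem_union_left _ (h3.1 (mem_inter.2 ⟨hx, h4⟩)),
        mem_union_right _ (h3.2 (mem_inter.2 ⟨hx, h4⟩))]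
  have e2 : (E1 ∪ E2) \ f = E1 \ (f ∩ P1) ∪ E2 \ (f ∩ P2) := by
    ext x
    have h3 := @h1 x
    have h4 := @h2 x
    simp only [Finset.mem_sdiff, Finset.mem_union, Finset.mem_inter]
    tauto
  rw [tens_union h h1 h2, e2, prod_union ((h.mono h1 h2).mono sdiff_subset sdiff_subset)]
  by_cases h3 : f ∩ P1 ⊆ E1 <;> by_cases h4 : f ∩ P2 ⊆ E2 <;> simp [e1, h3, h4]
  ring

theorem ev_tens {P1 P2 : Finset ℕ} (h : Disjoint P1 P2) (l1 l2 : Finset ℕ → ℝ) (x : ℕ → ℝ) :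
    ev (P1 ∪ P2) (tens P1 P2 l1 l2) x = ev P1 l1 x * ev P2 l2 x := by
  rw [← tw_empty, tw_tens h (empty_subset _), empty_inter, empty_inter, tw_empty, tw_empty]

theorem tw_add (P : Finset ℕ) (l1 l2 : Finset ℕ → ℝ) (g : ℕ → ℝ) (f : Finset ℕ) :
    tw P (fun E => l1 E + l2 E) g f = tw P l1 g f + tw P l2 g f := by
  simp [tw, add_mul, sum_add_distrib]

theorem ev_add (P : Finset ℕ) (l1 l2 : Finset ℕ → ℝ) (x : ℕ → ℝ) :
    ev P (fun E => l1 E + l2 E) x = ev P l1 x + ev P l2 x := by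
  simp [ev, add_mul, sum_add_distrib]

theorem card_inter_add {P1 P2 f : Finset ℕ} (h : Disjoint P1 P2) (hf : f ⊆ P1 ∪ P2) :
    (f ∩ P1).card + (f ∩ P2).card = f.card := by
  rw [← card_union_of_disjoint (h.mono inter_subset_right inter_subset_right),
    ← inter_union_distrib_left, inter_eq_left.2 hf]

theorem pr_inter_mul {P1 P2 f : Finset ℕ} (h : Disjoint P1 P2) (hf : f ⊆ P1 ∪ P2) :
    pr (f ∩ P1) * pr (f ∩ P2) = pr f := by
  rw [← pr_union (h.mono inter_subset_right inter_subset_right),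
    ← inter_union_distrib_left, inter_eq_left.2 hf]

theorem Sup.tens {P1 P2 : Finset ℕ} {Q1 Q2 : ℝ} {l1 l2 : Finset ℕ → ℝ} (h : Disjoint P1 P2)
    (h1 : Sup P1 Q1 l1) (h2 : Sup P2 Q2 l2) : Sup (P1 ∪ P2) (Q1 * Q2) (tens P1 P2 l1 l2) := by
  refine ⟨fun E => ?_, fun E hE h0 => ?_⟩
  · rw [PF.tens, abs_mul]
    exact mul_le_one₀ (h1.1 _) (abs_nonneg _) (h2.1 _)
  · have h3 := h1.2 _ inter_subset_right (left_ne_zero_of_mul h0)
    have h4 := h2.2 _ inter_subset_right (right_ne_zero_of_mul h0)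
    rw [← pr_inter_mul h hE, Nat.cast_mul]
    exact mul_le_mul h3 h4 (Nat.cast_nonneg _) ((Nat.cast_nonneg _).trans h3)

theorem Sup.mono {P : Finset ℕ} {Q Q' : ℝ} {l : Finset ℕ → ℝ} (h : Sup P Q l) (hQ : Q ≤ Q') :
    Sup P Q' l := ⟨h.1, fun E hE h0 => (h.2 E hE h0).trans hQ⟩

theorem VP_union {P1 P2 : Finset ℕ} (h : Disjoint P1 P2) (x : ℕ → ℝ) :
    VP (P1 ∪ P2) x = VP P1 x * VP P2 x := prod_union h

theorem VP_nonneg {P : Finset ℕ} {x : ℕ → ℝ} (h : ∀ p ∈ P, x p ≤ 1) : 0 ≤ VP P x :=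
  prod_nonneg fun p hp => sub_nonneg.2 (h p hp)

theorem VP_le_one {P : Finset ℕ} {x : ℕ → ℝ} (h : ∀ p ∈ P, 0 ≤ x p ∧ x p ≤ 1) : VP P x ≤ 1 :=
  prod_le_one (fun p hp => sub_nonneg.2 (h p hp).2) fun p hp => sub_le_self _ (h p hp).1

/-- the trivial bound for the mixed derivatives -/
theorem abs_tw_le {P f : Finset ℕ} {lam : Finset ℕ → ℝ} {g : ℕ → ℝ} (hl : ∀ E, |lam E| ≤ 1)
    (hg : ∀ p ∈ P, 0 ≤ g p) : |tw P lam g f| ≤ ∏ p ∈ P, (1 + g p) := by
  rw [prod_one_add]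
  refine (abs_sum_le_sum_abs _ _).trans ?_
  calc ∑ E ∈ P.powerset.filter (f ⊆ ·), |lam E * ∏ p ∈ E \ f, g p|
      ≤ ∑ E ∈ P.powerset.filter (f ⊆ ·), ∏ p ∈ E \ f, g p := sum_le_sum fun E hE => by
        have h1 : 0 ≤ ∏ p ∈ E \ f, g p := prod_nonneg fun p hp =>
          hg p (mem_powerset.1 (mem_filter.1 hE).1 (sdiff_subset hp))
        rw [abs_mul, abs_of_nonneg h1]
        exact mul_le_of_le_one_left h1 (hl E)
    _ = ∑ E ∈ (P.powerset.filter (f ⊆ ·)).image (· \ f), ∏ p ∈ E, g p := by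
        rw [sum_image fun E hE E' hE' e => ?_]
        rw [← sdiff_union_of_subset (mem_filter.1 hE).2, ← sdiff_union_of_subset (mem_filter.1 hE').2]
        exact congrArg (· ∪ f) e
    _ ≤ _ := by
        refine sum_le_sum_of_subset_of_nonneg (fun E hE => ?_) fun E hE _ =>
          prod_nonneg fun p hp => hg p (mem_powerset.1 hE hp)
        obtain ⟨E', hE', rfl⟩ := mem_image.1 hE
        exact mem_powerset.2 (sdiff_subset.trans (mem_powerset.1 (mem_filter.1 hE').1))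

/-- the identity of Buchstab -/
theorem VP_buchstab (P : Finset ℕ) (x : ℕ → ℝ) :
    VP P x = 1 - ∑ p ∈ P, x p * VP (below P p) x := by
  rw [VP, prod_one_sub_ordered]
  simp only [VP, below, Nat.cast_lt]

theorem Reg.mono {P : Finset ℕ} {g : ℕ → ℝ} {w z δ δ' : ℝ} (h : Reg P g w z δ) (hδ : δ ≤ δ') :
    Reg P g w z δ' := fun y1 y2 h1 h2 h3 => (h y1 y2 h1 h2 h3).trans hδ

theorem Reg.below {P : Finset ℕ} {g : ℕ → ℝ} {w z z' δ : ℝ} (h : Reg P g w z δ) (hz : z' ≤ z) :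
    Reg (below P z') g w z' δ := fun y1 y2 h1 h2 h3 => by
  have e : (PF.below P z').filter (fun p : ℕ => y1 ≤ (p : ℝ) ∧ (p : ℝ) < y2) =
      P.filter (fun p : ℕ => y1 ≤ (p : ℝ) ∧ (p : ℝ) < y2) := by
    rw [PF.below, filter_filter]
    exact filter_congr fun p _ => ⟨fun h4 => h4.2, fun h4 => ⟨h4.2.trans_le h3, h4⟩⟩
  rw [e]
  exact h y1 y2 h1 h2 (h3.trans hz)

/-! ### The level of distribution -/

theorem lev_nonneg (K Q : ℝ) (S : Finset ℕ) (γ : ℕ → ℝ) : 0 ≤ lev K Q S γ :=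
  sum_nonneg fun _ _ => abs_nonneg _

theorem lev_congr (K Q : ℝ) {S : Finset ℕ} {γ γ' : ℕ → ℝ} (h : ∀ n ∈ S, γ n = γ' n) :
    lev K Q S γ = lev K Q S γ' :=
  sum_congr rfl fun _ _ => congrArg _ (sum_congr rfl fun n hn => by rw [h n (mem_filter.1 hn).1])

theorem lev_add (K Q : ℝ) (S : Finset ℕ) (γ γ' : ℕ → ℝ) :
    lev K Q S (fun n => γ n + γ' n) ≤ lev K Q S γ + lev K Q S γ' := by
  rw [lev, lev, lev, ← sum_add_distrib]
  refine sum_le_sum fun q _ => ?_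
  simp only [add_mul, sum_add_distrib]
  exact abs_add_le _ _

theorem lev_le (K Q : ℝ) (S : Finset ℕ) (γ : ℕ → ℝ) :
    lev K Q S γ ≤ ∑ n ∈ S, |γ n| * ∑ q ∈ SQ Q, |Dl K q n| := by
  simp only [lev, mul_sum]
  rw [sum_comm]
  refine sum_le_sum fun q _ => (abs_sum_le_sum_abs _ _).trans ?_
  simp only [abs_mul]
  exact sum_le_sum_of_subset_of_nonneg (filter_subset _ _) fun _ _ _ => by positivity

theorem cv_comm (α β : ℕ → ℝ) (n : ℕ) : cv α β n = cv β α n := by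
  rw [cv, cv]
  conv_lhs => rw [← Nat.map_swap_divisorsAntidiagonal, sum_map]
  exact sum_congr rfl fun _ _ => mul_comm _ _

end Pool.Agent.P.MP_e94e4b_nt.PF
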