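import Pool.Agent.P.MP_e94e4b_nt.PF.Basic

/-! Separation of variables in a block of the bilinear form. -/

namespace Pool.Agent.P.MP_e94e4b_nt.PF

open Finset Real Filter Topology MeasureTheory
open Pool.Agent.P.MP_e86632_nt renaming ee → eE, ee_add → eE_add, norm_ee → norm_eE

/-- the multiplicative weights -/
noncomputable def CBph (k : ℕ) (s : ℝ) : ℝ := s ^ k / √s

theorem CBph_nonneg (k : ℕ) {s : ℝ} (h : 0 ≤ s) : 0 ≤ CBph k s := by unfold CBph; positivity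

theorem CBph_le (k : ℕ) {s M : ℝ} (h1 : 1 ≤ s) (h2 : s ≤ M) : |CBph k s / M ^ k| ≤ 1 := by
  have h0 : 0 < M := by linarith
  rw [abs_of_nonneg (div_nonneg (CBph_nonneg k (by linarith)) (by positivity)),
    div_le_one (by positivity)]
  exact (div_le_self (by positivity) (Real.one_le_sqrt.2 h1)).trans
    (pow_le_pow_left₀ (by linarith) h2 k)

theorem CBph_le' (k : ℕ) {s : ℝ} (h1 : 1 / 2 ≤ s) (h2 : s ≤ 1) : |CBph k s / 2| ≤ 1 := by
  have h3 : 1 / 2 ≤ √s := Real.le_sqrt_of_sq_le (by linarith)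
  rw [abs_of_nonneg (div_nonneg (CBph_nonneg k (by linarith)) (by positivity)),
    div_le_one (by positivity), CBph, div_le_iff₀ (by linarith)]
  have := pow_le_one₀ (n := k) (by linarith : 0 ≤ s) h2
  linarith

theorem CB_real (k : ℕ) {Z x y z r : ℝ} (hZ : 0 < Z) (hx : 0 < x) (hy : 0 < y) (hz : 0 < z)
    (hr : 0 < r) : (x * y * z * r) ^ k / k.factorial * (1 / √(Z * (x * y * z * r))) =
      2 * 16 ^ k / (k.factorial * √Z) * (CBph k x / 2 ^ k * (CBph k r / 2)) *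
        (CBph k y / 2 ^ k) * (CBph k z / 4 ^ k) := by
  have h1 := Real.sqrt_pos.2 hZ
  have h2 := Real.sqrt_pos.2 hx
  have h3 := Real.sqrt_pos.2 hy
  have h4 := Real.sqrt_pos.2 hz
  have h5 := Real.sqrt_pos.2 hr
  rw [Real.sqrt_mul hZ.le, Real.sqrt_mul (by positivity), Real.sqrt_mul (by positivity),
    Real.sqrt_mul hx.le, show (16 : ℝ) ^ k = 2 ^ k * 2 ^ k * 4 ^ k by
      rw [← mul_pow, ← mul_pow]; norm_num]
  simp only [CBph, mul_pow]
  field_simp

theorem CB_int_exp {Z : ℝ} (hZ : 0 < Z) : Integrable fun t : ℝ => Real.exp (-(|t| / Z)) := by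
  rw [← integrableOn_univ, ← Set.Iic_union_Ioi (a := (0 : ℝ))]
  refine IntegrableOn.union ?_ ?_
  · refine (integrableOn_exp_mul_Iic (a := 1 / Z) (by positivity) 0).congr_fun (fun t ht => ?_)
      measurableSet_Iic
    simp only [abs_of_nonpos (Set.mem_Iic.1 ht)]
    congr 1; ring
  · refine (exp_neg_integrableOn_Ioi 0 (b := 1 / Z) (by positivity)).congr_fun (fun t ht => ?_)
      measurableSet_Ioi
    simp only [abs_of_pos (Set.mem_Ioi.1 ht)]
    congr 1; ring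

theorem CB_cont_ee : Continuous eE := by unfold MP_e86632_nt.ee; fun_prop

theorem CB_norm_sum {s : Finset ℕ} (c : ℕ → ℂ) (l : ℕ → ℝ) :
    ‖∑ n ∈ s, c n * eE (l n)‖ ≤ ∑ n ∈ s, ‖c n‖ :=
  norm_sum_le_of_le _ fun n _ => by rw [norm_mul, norm_eE, mul_one]

theorem CB_int_main {Z : ℝ} (hZ : 0 < Z) (f : ℕ) (ψ : DirichletCharacter ℂ f) (S I J : Finset ℕ)
    (d α β : ℕ → ℂ) : Integrable fun t : ℝ => Real.exp (-(|t| / Z)) *
      (‖∑ h ∈ S, d h * eE (-(t * Real.log h))‖ * ‖dp f ψ I α (1 / 2 * t)‖ *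
        ‖dp f ψ J β (1 / 2 * t)‖) := by
  have hc := CB_cont_ee
  refine (CB_int_exp hZ).mul_bdd (c := (∑ h ∈ S, ‖d h‖) * (∑ n ∈ I, ‖α n * ψ (n : ZMod f)‖) *
    ∑ n ∈ J, ‖β n * ψ (n : ZMod f)‖) (Continuous.aestronglyMeasurable ?_) (.of_forall fun t => ?_)
  · unfold dp; fun_prop
  · rw [Real.norm_of_nonneg (by positivity)]
    unfold dp
    gcongr <;> exact CB_norm_sum _ _

theorem CB_term {C Z Z' : ℝ} {w : ℂ} {γ : ℝ → ℂ} (hZ : 0 < Z) (hZ' : 0 < Z') (hγ : Continuous γ)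
    (hb : ∀ t, ‖γ t‖ ≤ C * Real.exp (-(|t| / Z')))
    (hw : ∀ u : ℝ, 0 < u → Complex.exp (-(w * u)) =
      ∫ t : ℝ, γ t * ((1 / √u : ℝ) : ℂ) * eE (-(t * Real.log u)))
    (k f : ℕ) (ψ : DirichletCharacter ℂ f) (S I J : Finset ℕ) (d α β : ℕ → ℂ) (x y z : ℕ → ℝ)
    (r l : ℝ) (hx : ∀ h ∈ S, 0 < x h) (hy : ∀ a ∈ I, 0 < y a) (hz : ∀ b ∈ J, 0 < z b) (hr : 0 < r)
    (hl : ∀ h ∈ S, ∀ a ∈ I, ∀ b ∈ J, Real.log (Z * (x h * y a * z b * r)) =
      Real.log h + 1 / 2 * Real.log a + 1 / 2 * Real.log b - l) :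
    ‖∑ h ∈ S, d h * ∑ a ∈ I, ∑ b ∈ J, α a * β b * ψ (a : ZMod f) * ψ (b : ZMod f) *
      ((((x h * y a * z b * r) ^ k / k.factorial : ℝ) : ℂ) *
        Complex.exp (-(w * (Z * (x h * y a * z b * r) : ℝ))))‖ ≤
      C * (2 * 16 ^ k / (k.factorial * √Z)) * ∫ t : ℝ, Real.exp (-(|t| / Z')) *
        (‖∑ h ∈ S, d h * ((CBph k (x h) / 2 ^ k * (CBph k r / 2) : ℝ) : ℂ) *
            eE (-(t * Real.log h))‖ *
          ‖dp f ψ I (fun a => α a * ((CBph k (y a) / 2 ^ k : ℝ) : ℂ)) (1 / 2 * t)‖ *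
          ‖dp f ψ J (fun b => β b * ((CBph k (z b) / 4 ^ k : ℝ) : ℂ)) (1 / 2 * t)‖) := by
  have hc := CB_cont_ee
  have hi : ∀ (c c' : ℂ) (l : ℝ), Integrable fun t : ℝ => c * (γ t * c' * eE (-(t * l))) :=
    fun c c' l => (((CB_int_exp hZ').const_mul (C * ‖c'‖)).mono'
      (Continuous.aestronglyMeasurable (by fun_prop)) (.of_forall fun t => by
        rw [norm_mul, norm_mul, norm_eE, mul_one, mul_right_comm]
        exact mul_le_mul_of_nonneg_right (hb t) (norm_nonneg _))).const_mul c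
  set κ : ℝ := 2 * 16 ^ k / (k.factorial * √Z) with hκ
  have hκ0 : 0 ≤ κ := by positivity
  have e : ∑ h ∈ S, d h * ∑ a ∈ I, ∑ b ∈ J, α a * β b * ψ (a : ZMod f) * ψ (b : ZMod f) *
      ((((x h * y a * z b * r) ^ k / k.factorial : ℝ) : ℂ) *
        Complex.exp (-(w * (Z * (x h * y a * z b * r) : ℝ)))) =
      ∫ t : ℝ, ∑ h ∈ S, ∑ a ∈ I, ∑ b ∈ J, (d h * (α a * β b * ψ (a : ZMod f) * ψ (b : ZMod f) *
        (((x h * y a * z b * r) ^ k / k.factorial : ℝ) : ℂ))) *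
        (γ t * ((1 / √(Z * (x h * y a * z b * r)) : ℝ) : ℂ) *
          eE (-(t * Real.log (Z * (x h * y a * z b * r))))) := by
    rw [integral_finsetSum _ fun h _ => integrable_finsetSum _ fun a _ =>
      integrable_finsetSum _ fun b _ => hi _ _ _]
    refine sum_congr rfl fun h h1 => ?_
    rw [integral_finsetSum _ fun a _ => integrable_finsetSum _ fun b _ => hi _ _ _, mul_sum]
    refine sum_congr rfl fun a h2 => ?_
    rw [integral_finsetSum _ fun b _ => hi _ _ _, mul_sum]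
    refine sum_congr rfl fun b h3 => ?_
    have := hx h h1
    have := hy a h2
    have := hz b h3
    rw [integral_const_mul, ← hw _ (by positivity)]
    ring
  rw [e, ← integral_const_mul]
  refine norm_integral_le_of_norm_le ((CB_int_main hZ' f ψ S I J _ _ _).const_mul _)
    (.of_forall fun t => ?_)
  have e2 : ∑ h ∈ S, ∑ a ∈ I, ∑ b ∈ J, (d h * (α a * β b * ψ (a : ZMod f) * ψ (b : ZMod f) *
        (((x h * y a * z b * r) ^ k / k.factorial : ℝ) : ℂ))) *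
        (γ t * ((1 / √(Z * (x h * y a * z b * r)) : ℝ) : ℂ) *
          eE (-(t * Real.log (Z * (x h * y a * z b * r))))) =
      γ t * κ * eE (t * l) * ((∑ h ∈ S, d h * ((CBph k (x h) / 2 ^ k * (CBph k r / 2) : ℝ) : ℂ) *
        eE (-(t * Real.log h))) *
        (dp f ψ I (fun a => α a * ((CBph k (y a) / 2 ^ k : ℝ) : ℂ)) (1 / 2 * t) *
          dp f ψ J (fun b => β b * ((CBph k (z b) / 4 ^ k : ℝ) : ℂ)) (1 / 2 * t))) := by
    simp only [dp]
    rw [sum_mul_sum I J, sum_mul, mul_sum]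
    refine sum_congr rfl fun h h1 => ?_
    rw [mul_sum, mul_sum]
    refine sum_congr rfl fun a h2 => ?_
    rw [mul_sum, mul_sum]
    refine sum_congr rfl fun b h3 => ?_
    have e3 := congrArg (fun s : ℝ => (s : ℂ)) (CB_real k hZ (hx h h1) (hy a h2) (hz b h3) hr)
    simp only [← hκ, Complex.ofReal_mul (_ / _), Complex.ofReal_mul (_ * _),
      Complex.ofReal_mul κ] at e3
    rw [hl h h1 a h2 b h3, show -(t * (Real.log h + 1 / 2 * Real.log a + 1 / 2 * Real.log b - l)) =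
      t * l + -(t * Real.log h) + -(1 / 2 * t * Real.log a) + -(1 / 2 * t * Real.log b) by ring,
      eE_add, eE_add, eE_add, Complex.ofReal_mul (CBph k (x h) / 2 ^ k)]
    linear_combination d h * α a * β b * ψ (a : ZMod f) * ψ (b : ZMod f) * γ t * eE (t * l) *
      eE (-(t * Real.log h)) * eE (-(1 / 2 * t * Real.log a)) *
      eE (-(1 / 2 * t * Real.log b)) * e3
  rw [e2, norm_mul, norm_mul, norm_mul, norm_mul, norm_mul, norm_eE, mul_one, Complex.norm_real,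
    Real.norm_of_nonneg hκ0, ← mul_assoc ‖_‖, ← mul_assoc (C * κ), mul_right_comm C]
  gcongr
  exact hb t

theorem t_CB (hCM : S_CM) (hHOL : S_HOL) : S_CB := by
  obtain ⟨C1, hC1, hCM⟩ := hCM
  obtain ⟨C2, hC2, hHOL⟩ := hHOL
  refine ⟨(C1 * 2 * Real.exp 16) ^ 4 * (C2 * 8 ^ 4), by positivity, ?_⟩
  intro e F H A B Z τ U V I J α β d he hF hH hA hB hZ hZ1 hU hV hI hJ hα hβ hτ h1 h2
  have he' : (0 : ℝ) < e := by exact_mod_cast he
  have hF' : (0 : ℝ) < F := by exact_mod_cast hF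
  have hH' : (0 : ℝ) < H := by exact_mod_cast hH
  have hA' : 0 < A := by linarith
  have hB' : 0 < B := by linarith
  have hZ0 : 0 < Z := by linarith
  have hτ0 : 0 ≤ τ := by simpa using hτ 0 (by rw [Nat.cast_zero]; positivity)
  set w : ℂ := ⟨1 / Z, -(2 * π)⟩ with hw
  have hπ := Real.pi_gt_three
  have hπ' := Real.pi_lt_d2
  obtain ⟨γ, hγ, hb, hγw⟩ := hCM (8 * Z) w (by linarith)
    (le_trans (by rw [hw, abs_neg, abs_of_pos (by positivity)]; linarith)
      (Complex.abs_im_le_norm w))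
    ((Complex.norm_le_abs_re_add_abs_im w).trans (by
      have : 1 / Z ≤ 1 := by rw [div_le_one hZ0]; exact hZ1
      simp only [hw]
      rw [abs_neg, abs_of_pos (by positivity), abs_of_pos (by positivity), mul_assoc 8,
        mul_one_div_cancel hZ0.ne']
      linarith))
  have mf : ∀ f ∈ Ico F (2 * F), (F : ℝ) ≤ f ∧ (f : ℝ) ≤ 2 * F := fun f hf => by
    have := mem_Ico.1 hf
    exact ⟨by exact_mod_cast this.1, by exact_mod_cast this.2.le⟩
  have mh : ∀ h ∈ Ico H (2 * H), (H : ℝ) ≤ h ∧ (h : ℝ) ≤ 2 * H := fun f hf => by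
    have := mem_Ico.1 hf
    exact ⟨by exact_mod_cast this.1, by exact_mod_cast this.2.le⟩
  have key : ∀ f ∈ Ico F (2 * F), ∀ h a b : ℝ, Z * (h / H * √(a / A) * √(b / B) * (F / f)) =
      h / (f * e) * (√a * √b) := fun f hf h a b => by
    have := (mf f hf).1
    have h3 := Real.sqrt_pos.2 hA'
    have h4 := Real.sqrt_pos.2 hB'
    have h5 : (0 : ℝ) < f := by linarith
    rw [hZ, Real.sqrt_div' _ hA'.le, Real.sqrt_div' _ hB'.le, Real.sqrt_mul hA'.le]
    field_simp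
  set Bd := C2 * ((8 * Z + (H : ℝ) ^ 2) * τ * F * U * V) *
    (((F : ℝ) ^ 2 * (8 * Z) + A ^ 2) * τ * A ^ 2) * (((F : ℝ) ^ 2 * (8 * Z) + B) * B) ^ 2 with hBd
  have hBd0 : 0 ≤ Bd := by positivity
  set T : ℕ → (f : ℕ) → DirichletCharacter ℂ f → ℂ := fun k f ψ =>
    ∑ h ∈ Ico H (2 * H), d f ψ h * ∑ a ∈ I, ∑ b ∈ J, α a * β b * ψ (a : ZMod f) * ψ (b : ZMod f) *
      (((((h : ℝ) / H * √(a / A) * √(b / B) * (F / f)) ^ k / k.factorial : ℝ) : ℂ) *
        Complex.exp (-(w * (Z * ((h : ℝ) / H * √(a / A) * √(b / B) * (F / f)) : ℝ)))) with hT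
  have hs : ∀ f ∈ Ico F (2 * F), ∀ ψ, HasSum (fun k => T k f ψ)
      (∑ h ∈ Ico H (2 * H), d f ψ h * bx f ψ I J α β ((h : ℝ) / (f * e))) := fun f hf ψ => by
    refine hasSum_sum fun h _ => HasSum.mul_left _ (hasSum_sum fun a _ => hasSum_sum fun b _ =>
      HasSum.mul_left _ ?_)
    rw [Real.sqrt_mul (Nat.cast_nonneg a), ← key f hf]
    generalize (h : ℝ) / H * √(a / A) * √(b / B) * (F / f) = v
    have h3 := (Complex.hasSum_ofReal.2 (NormedSpace.expSeries_div_hasSum_exp v)).mul_right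
      (Complex.exp (-(w * (Z * v : ℝ))))
    convert h3 using 1
    rw [← Real.exp_eq_exp_ℝ, Complex.ofReal_exp, ← Complex.exp_add]
    unfold MP_e86632_nt.ee
    congr 1
    apply Complex.ext
    · simp [hw]; field_simp; ring
    · simp [hw]
  have hk : ∀ k, ∑ f ∈ Ico F (2 * F), ∑ ψ ∈ prim f, ‖T k f ψ‖ ≤
      C1 * 2 / √Z * √(√Bd) * (16 ^ k / k.factorial) := fun k => by
    have hd : ∀ f ∈ Ico F (2 * F), ∀ ψ : DirichletCharacter ℂ f, ∑ h ∈ Ico H (2 * H),
        ‖d f ψ h * ((CBph k (h / H) / 2 ^ k * (CBph k (F / f) / 2) : ℝ) : ℂ)‖ ^ 2 ≤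
          ∑ h ∈ Ico H (2 * H), ‖d f ψ h‖ ^ 2 := fun f hf ψ => sum_le_sum fun h hh => by
      have h3 := mf f hf
      have h4 := mh h hh
      have h5 : (0 : ℝ) < f := by linarith
      refine pow_le_pow_left₀ (norm_nonneg _) ?_ 2
      rw [norm_mul, Complex.norm_real, Real.norm_eq_abs, abs_mul]
      exact mul_le_of_le_one_right (norm_nonneg _) (mul_le_one₀
        (CBph_le k ((one_le_div hH').2 h4.1) ((div_le_iff₀ hH').2 h4.2)) (abs_nonneg _)
        (CBph_le' k (by rw [div_le_div_iff₀ two_pos h5]; linarith) ((div_le_one h5).2 h3.1)))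
    have h3 := hHOL F H A B (8 * Z) τ U V I J
      (fun a => α a * ((CBph k √(a / A) / 2 ^ k : ℝ) : ℂ))
      (fun b => β b * ((CBph k √(b / B) / 4 ^ k : ℝ) : ℂ))
      (fun f ψ h => d f ψ h * ((CBph k (h / H) / 2 ^ k * (CBph k (F / f) / 2) : ℝ) : ℂ))
      hF hH hA hB (by linarith) hU hV hI hJ
      (fun a ha => by
        rw [norm_mul, Complex.norm_real, Real.norm_eq_abs]
        exact mul_le_one₀ (hα a) (abs_nonneg _) (CBph_le k
          (Real.one_le_sqrt.2 ((one_le_div hA').2 (hI a ha).1))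
          (Real.sqrt_le_iff.2 ⟨by norm_num, (div_le_iff₀ hA').2 (by linarith [(hI a ha).2])⟩)))
      (fun b hb => by
        rw [norm_mul, Complex.norm_real, Real.norm_eq_abs]
        exact mul_le_one₀ (hβ b) (abs_nonneg _) (CBph_le k
          (Real.one_le_sqrt.2 ((one_le_div hB').2 (hJ b hb).1))
          (Real.sqrt_le_iff.2 ⟨by norm_num, (div_le_iff₀ hB').2 (by linarith [(hJ b hb).2])⟩)))
      hτ (fun f hf ψ hψ => (hd f hf ψ).trans (h1 f hf ψ hψ))
      (fun f hf => (sum_le_sum fun ψ _ => hd f hf ψ).trans (h2 f hf))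
    rw [← hBd, show (4 : ℕ) = 2 * 2 from rfl, pow_mul] at h3
    have h4 := Real.le_sqrt_of_sq_le (Real.le_sqrt_of_sq_le h3)
    simp only [mul_sum] at h4
    rw [integral_finsetSum _ fun f _ => integrable_finsetSum _ fun ψ _ =>
      CB_int_main (by linarith) f ψ _ _ _ _ _ _] at h4
    rw [show C1 * 2 / √Z * √(√Bd) * (16 ^ k / k.factorial) =
      C1 * (2 * 16 ^ k / (k.factorial * √Z)) * √(√Bd) by ring]
    refine le_trans ?_ (mul_le_mul_of_nonneg_left h4 (by positivity))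
    rw [mul_sum]
    refine sum_le_sum fun f hf => ?_
    rw [integral_finsetSum _ fun ψ _ => CB_int_main (by linarith) f ψ _ _ _ _ _ _, mul_sum]
    refine sum_le_sum fun ψ _ => ?_
    have h5 : (0 : ℝ) < f := by linarith [(mf f hf).1]
    refine CB_term hZ0 (by linarith) hγ hb hγw k f ψ _ I J _ α β (fun h => (h : ℝ) / H)
      (fun a => √(a / A)) (fun b => √(b / B)) (F / f) (Real.log (f * e))
      (fun h hh => div_pos (by linarith [(mh h hh).1]) hH')
      (fun a ha => Real.sqrt_pos.2 (div_pos (by linarith [(hI a ha).1]) hA'))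
      (fun b hb => Real.sqrt_pos.2 (div_pos (by linarith [(hJ b hb).1]) hB')) (by positivity)
      fun h hh a ha b hb => ?_
    have h6 : (0 : ℝ) < h := by linarith [(mh h hh).1]
    have h7 : (0 : ℝ) < a := by linarith [(hI a ha).1]
    have h8 : (0 : ℝ) < b := by linarith [(hJ b hb).1]
    rw [key f hf, Real.log_mul (by positivity) (by positivity),
      Real.log_div (by positivity) (by positivity), Real.log_mul (x := √a) (by positivity)
        (by positivity), Real.log_sqrt h7.le, Real.log_sqrt h8.le]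
    ring
  have hb : blk e F H d I J α β ≤ C1 * 2 / √Z * √(√Bd) * Real.exp 16 := by
    refine le_of_tendsto' (tendsto_finsetSum _ fun f hf => tendsto_finsetSum _ fun ψ _ =>
      (hs f hf ψ).tendsto_sum_nat.norm) fun N => ?_
    refine le_trans (sum_le_sum fun f _ => sum_le_sum fun ψ _ => norm_sum_le _ _) ?_
    rw [sum_congr rfl fun f _ => sum_comm, sum_comm]
    refine (sum_le_sum fun k _ => hk k).trans ?_
    rw [← mul_sum]
    exact mul_le_mul_of_nonneg_left (Real.sum_le_exp_of_nonneg (by norm_num) N) (by positivity)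
  have hb0 : 0 ≤ blk e F H d I J α β := sum_nonneg fun _ _ => sum_nonneg fun _ _ => norm_nonneg _
  refine (pow_le_pow_left₀ hb0 hb 4).trans ?_
  have e1 : √(√Bd) ^ 4 = Bd := by
    rw [show (4 : ℕ) = 2 * 2 from rfl, pow_mul, Real.sq_sqrt (Real.sqrt_nonneg _), Real.sq_sqrt hBd0]
  have e2 : √Z ^ 4 = (H : ℝ) ^ 2 * (A * B) / ((F : ℝ) * e) ^ 2 := by
    rw [show (4 : ℕ) = 2 * 2 from rfl, pow_mul, Real.sq_sqrt hZ0.le, hZ, div_pow, mul_pow,
      Real.sq_sqrt (by positivity)]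
  have e3 : Bd ≤ C2 * ((8 * (Z + (H : ℝ) ^ 2)) * τ * F * U * V) *
      ((8 * ((F : ℝ) ^ 2 * Z + A ^ 2)) * τ * A ^ 2) * ((8 * ((F : ℝ) ^ 2 * Z + B)) * B) ^ 2 := by
    rw [hBd]
    have k1 : 8 * Z + (H : ℝ) ^ 2 ≤ 8 * (Z + (H : ℝ) ^ 2) := by linarith [sq_nonneg (H : ℝ)]
    have k2 : ∀ X, 0 ≤ X → (F : ℝ) ^ 2 * (8 * Z) + X ≤ 8 * ((F : ℝ) ^ 2 * Z + X) :=
      fun X hX => by linarith
    have k3 := k2 _ (sq_nonneg A)
    have k4 := k2 _ hB'.le
    gcongr
  rw [show (C1 * 2 / √Z * √(√Bd) * Real.exp 16) ^ 4 =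
    (C1 * 2 * Real.exp 16) ^ 4 / √Z ^ 4 * √(√Bd) ^ 4 by ring, e1, e2]
  refine (mul_le_mul_of_nonneg_left e3 (by positivity)).trans (le_of_eq ?_)
  field_simp

end Pool.Agent.P.MP_e94e4b_nt.PF
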