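import Pool.Agent.P.MP_e94e4b_nt.PF.Basic

/-! Comparison of the weights of an integer and of its partner; sieve bounds for the windows. -/

namespace Pool.Agent.P.MP_e94e4b_nt.PF

open Finset Real Filter Topology
open Pool.Agent.P.MP_8be758_nt.Avg (gs Rough PL red ft en nsq gs_pos gs_le_one prime_of_mem_PL
  ev_pow ev_const ev_log)
open ArithmeticFunction (cardFactors)

theorem CMP_gs {K x x' η ε : ℝ} (hε : 0 < ε) (h : x' ^ 2 ≤ x ^ 2 + η)
    (h2 : π * K ^ 2 * η ≤ Real.log (1 + ε)) : gs (K * x) ≤ (1 + ε) * gs (K * x') := by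
  have h3 : (1 + ε) = Real.exp (Real.log (1 + ε)) := (Real.exp_log (by linarith)).symm
  rw [h3, gs, gs, ← Real.exp_add]
  refine Real.exp_le_exp.2 ?_
  have h4 : 0 ≤ π * K ^ 2 := by positivity
  have h5 := mul_le_mul_of_nonneg_left h h4
  nlinarith

theorem CMP_sq {y s T m : ℝ} (hy : 2 ≤ y) (hs : y ≤ s) (hx : |T - s| ≤ 1 / 4)
    (hm : m = 2 * T ^ 2 + 3 / 2 - s ^ 2) : (T - √m) ^ 2 ≤ (T - s) ^ 2 + 2 / y := by
  obtain ⟨h1, h2⟩ := abs_le.1 hx
  set x := T - s with hxd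
  have hT : T = s + x := by linarith
  have hx2 : x ^ 2 ≤ 1 / 16 := by nlinarith
  have ha : 3 / 4 * y ≤ s + 2 * x := by linarith
  have e : m = (s + 2 * x) ^ 2 + (3 / 2 - 2 * x ^ 2) := by rw [hm, hT]; ring
  have hm0 : 0 ≤ m := by nlinarith [sq_nonneg (s + 2 * x)]
  have hr : s + 2 * x ≤ √m := Real.le_sqrt_of_sq_le (by nlinarith)
  have hr2 : √m ^ 2 = m := Real.sq_sqrt hm0
  set d := √m - (s + 2 * x) with hd
  have hd0 : 0 ≤ d := by linarith
  have hd1 : d * y ≤ 1 := by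
    have e2 : √m = d + (s + 2 * x) := by linarith
    rw [e2] at hr2
    nlinarith [sq_nonneg d, sq_nonneg x]
  have hd2 : d ≤ 1 / y := by rw [le_div_iff₀ (by linarith)]; exact hd1
  have hd3 : d ≤ 1 := by nlinarith
  have e3 : T - √m = -(x + d) := by rw [hT, hd]; ring
  have e4 : 2 / y = 2 * (1 / y) := by ring
  rw [e3, e4]
  nlinarith

theorem CMP_rng {y s T m : ℝ} (hy : 10 ≤ y) (hs : y ≤ s) (hs' : s ≤ 3 / 2 * y) (h3 : y ^ 2 < s ^ 2)
    (h4 : s ^ 2 ≤ 2 * y ^ 2) (hx : |T - s| ≤ 1 / 4) (hm : m = 2 * T ^ 2 + 3 / 2 - s ^ 2) :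
    y ^ 2 < m + 2 * y ∧ m ≤ 2 * y ^ 2 + 2 * y := by
  obtain ⟨h1, h2⟩ := abs_le.1 hx
  set x := T - s with hxd
  have hT : T = s + x := by linarith
  have hx2 : x ^ 2 ≤ 1 / 16 := by nlinarith
  have e : m = s ^ 2 + 4 * (x * s) + 2 * x ^ 2 + 3 / 2 := by rw [hm, hT]; ring
  have h5 : x * s ≤ 1 / 4 * s := mul_le_mul_of_nonneg_right h2 (by linarith)
  have h6 : -(1 / 4) * s ≤ x * s := mul_le_mul_of_nonneg_right h1 (by linarith)
  have h7 := sq_nonneg x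
  constructor <;> linarith

theorem CMP_k {N s : ℝ} (hN : 9 ≤ N) (hx : |N + 1 / 2 - s| ≤ 1 / 4) :
    N ^ 2 + 3 ≤ s ^ 2 ∧ s ^ 2 ≤ N ^ 2 + 2 * N + 1 := by
  obtain ⟨h1, h2⟩ := abs_le.1 hx
  constructor <;> nlinarith

theorem t_CMP : S_CMP := by
  intro ε hε
  have hl : 0 < Real.log (1 + ε) := Real.log_pos (by linarith)
  filter_upwards [ev_nat (ev_pow (2 * π / Real.log (1 + ε)) 2 (a := 0) (b := 1) one_pos),
    eventually_ge_atTop 10] with y h1 h2 N n hn1 hn2 hN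
  have hy : (10 : ℝ) ≤ y := by exact_mod_cast h2
  have hn1' : (y : ℝ) ^ 2 < n := by exact_mod_cast hn1
  have hn2' : (n : ℝ) ≤ 2 * (y : ℝ) ^ 2 := by exact_mod_cast hn2
  have hs2 : √(n : ℝ) ^ 2 = n := Real.sq_sqrt (Nat.cast_nonneg n)
  have hs0 : (y : ℝ) ≤ √(n : ℝ) := Real.le_sqrt_of_sq_le hn1'.le
  have hs1 : √(n : ℝ) ≤ 3 / 2 * y := Real.sqrt_le_iff.2 ⟨by positivity, by nlinarith⟩
  have hN' := hN
  rw [Near] at hN'
  obtain ⟨a1, a2⟩ := abs_le.1 hN'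
  have hN0 : 0 ≤ N := by
    have : (0 : ℝ) ≤ N := by linarith
    exact_mod_cast this
  obtain ⟨N', rfl⟩ := Int.eq_ofNat_of_zero_le hN0
  push_cast at a1 a2 hN'
  have b1 : (9 : ℝ) ≤ N' := by linarith
  have b2 : (N' : ℝ) ≤ 2 * y := by linarith
  obtain ⟨c1, c2⟩ := CMP_k b1 hN'
  rw [hs2] at c1 c2
  have c1' : N' ^ 2 + 3 ≤ n := by exact_mod_cast c1
  have c2' : n ≤ N' ^ 2 + 2 * N' + 1 := by exact_mod_cast c2
  have hle : n ≤ mN N' := by rw [mN]; nlinarith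
  have hpar : (par N' n : ℤ) = 2 * MM N' - n := by rw [par, Nat.cast_sub hle, mN_cast]
  have hparR : (par N' n : ℝ) = 2 * ((N' : ℝ) + 1 / 2) ^ 2 + 3 / 2 - √(n : ℝ) ^ 2 := by
    rw [par, Nat.cast_sub hle, mN, hs2]
    push_cast
    ring
  obtain ⟨d1, d2⟩ := CMP_rng hy hs0 hs1 (by rw [hs2]; exact hn1') (by rw [hs2]; exact hn2') hN'
    hparR
  have d1' : y ^ 2 < par N' n + 2 * y := by exact_mod_cast d1
  have d3 : 2 * y ≤ y ^ 2 := by nlinarith
  refine ⟨N', rfl, by exact_mod_cast (by linarith : (1 : ℝ) ≤ N'), by exact_mod_cast b2, hpar,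
    by omega, by exact_mod_cast d2, ?_, fun hp hc => ⟨n - N' ^ 2 - 1, by omega, by omega, ?_, ?_⟩⟩
  · have hK : 0 ≤ Real.log y := Real.log_natCast_nonneg y
    have h3 := CMP_sq (by linarith : (2 : ℝ) ≤ y) hs0 hN' hparR
    have h4 : π * Real.log y ^ 2 * (2 / y) ≤ Real.log (1 + ε) := by
      rw [Real.rpow_zero, Real.rpow_one, mul_one, div_mul_eq_mul_div, div_le_iff₀ hl] at h1
      rw [← mul_div_assoc, div_le_iff₀ (by linarith)]
      linarith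
    have h5 := CMP_gs hε h3 h4
    rw [om, om]
    push_cast
    nlinarith [mul_le_mul_of_nonneg_left h5 hK]
  · rwa [show N' ^ 2 + (n - N' ^ 2 - 1) + 1 = n by omega]
  · have e : (N' + 1) ^ 2 - (n - N' ^ 2 - 1) = par N' n := by
      rw [par, mN, add_sq]
      omega
    rwa [e]

open Classical in
/-- the indicator of the primes dividing the partner -/
noncomputable def CMPx (n : ℕ) (N : ℤ) (p : ℕ) : ℝ := if (p : ℤ) ∣ 2 * MM N - n then 1 else 0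

theorem CMPx_01 (n : ℕ) (N : ℤ) (p : ℕ) : CMPx n N p = 0 ∨ CMPx n N p = 1 := by
  unfold CMPx
  split_ifs <;> simp

theorem CMP_prod {E : Finset ℕ} (h : ∀ p ∈ E, p.Prime) (n : ℕ) (N : ℤ) (w : ℝ) :
    (if (pr E : ℤ) ∣ 2 * MM N - n then w else 0) = w * ∏ p ∈ E, CMPx n N p := by
  split_ifs with h1
  · rw [prod_eq_one, mul_one]
    exact fun p hp => if_pos ((pr_dvd_iff h _).1 h1 p hp)
  · rw [pr_dvd_iff h] at h1
    push Not at h1
    obtain ⟨p, hp, h2⟩ := h1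
    rw [prod_eq_zero hp (if_neg h2), mul_zero]

open Classical in
theorem CMP_VP (P : Finset ℕ) (n : ℕ) (N : ℤ) (w : ℝ) :
    (if ∀ p ∈ P, ¬ (p : ℤ) ∣ 2 * MM N - n then w else 0) = w * VP P (CMPx n N) := by
  rw [VP]
  split_ifs with h1
  · rw [prod_eq_one, mul_one]
    intro p hp
    rw [CMPx, if_neg (h1 p hp), sub_zero]
  · push Not at h1
    obtain ⟨p, hp, h2⟩ := h1
    rw [prod_eq_zero hp (by rw [CMPx, if_pos h2, sub_self]), mul_zero]

theorem CMP_ite_summable {f : ℤ → ℝ} (hf : Summable f) (h0 : ∀ N, 0 ≤ f N) (p : ℤ → Prop)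
    [DecidablePred p] : Summable fun N => if p N then f N else 0 :=
  hf.of_nonneg_of_le (fun N => by split_ifs; exacts [h0 N, le_rfl])
    fun N => by split_ifs; exacts [le_rfl, h0 N]

theorem CMP_SS (hPO : S_PO) {K : ℝ} (hK : 0 < K) (z : ℝ) (n : ℕ) (l : Finset ℕ → ℝ) :
    HasSum (fun N : ℤ => om K N n * ev (PL z) l (CMPx n N)) (SS K (PL z) l n) := by
  have hs := (hPO K n hK).1
  simp only [ev, SS, mul_sum]
  refine hasSum_sum fun E hE => ?_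
  have hp : ∀ p ∈ E, p.Prime := fun p hp => prime_of_mem_PL (mem_powerset.1 hE hp)
  have h1 := (CMP_ite_summable hs (fun N => om_nonneg hK.le N n)
    (fun N => (pr E : ℤ) ∣ 2 * MM N - n)).hasSum.mul_left (l E)
  have e : (fun N : ℤ => om K N n * (l E * ∏ p ∈ E, CMPx n N p)) =
      fun N : ℤ => l E * if (pr E : ℤ) ∣ 2 * MM N - n then om K N n else 0 := by
    funext N
    rw [CMP_prod hp]
    ring
  rw [e]
  exact h1

theorem CMP_RO (hPO : S_PO) {K : ℝ} (hK : 0 < K) (z : ℝ) (n : ℕ) :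
    HasSum (fun N : ℤ => om K N n * VP (PL z) (CMPx n N)) (RO K z n) := by
  classical
  have hs := (hPO K n hK).1
  have h1 := (CMP_ite_summable hs (fun N => om_nonneg hK.le N n)
    (fun N => ∀ p ∈ PL z, ¬ (p : ℤ) ∣ 2 * MM N - n)).hasSum
  simp only [CMP_VP] at h1
  simp only [RO, CMP_VP]
  exact h1

theorem t_RO (hPO : S_PO) : S_RO := by
  intro K z n lP l1 l2 hK h
  refine ⟨hasSum_le (fun N => ?_) ((CMP_SS hPO hK z n l1).sub (CMP_SS hPO hK z n l2))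
    (CMP_RO hPO hK z n), hasSum_le (fun N => ?_) (CMP_RO hPO hK z n) (CMP_SS hPO hK z n lP)⟩
  · rw [← mul_sub]
    exact mul_le_mul_of_nonneg_left (h _ (CMPx_01 n N)).1 (om_nonneg hK.le N n)
  · exact mul_le_mul_of_nonneg_left (h _ (CMPx_01 n N)).2 (om_nonneg hK.le N n)

end Pool.Agent.P.MP_e94e4b_nt.PF
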