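import Pool.Agent.P.MP_8be758_nt.Avg.Basic

/-! Definitions for the theorem on a prime and an almost prime with fixed sum. -/

namespace Pool.Agent.P.MP_e94e4b_nt.PF

open Finset Real Filter Topology
open Pool.Agent.P.MP_e86632_nt (ee)
open Pool.Agent.P.MP_8be758_nt.Avg (gs Rough PL red ft en nsq)
open ArithmeticFunction (cardFactors)

noncomputable section

/-- half of the common sum -/
def MM (N : ℤ) : ℤ := N ^ 2 + N + 1

/-- the common sum, as a natural number -/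
def mN (ν : ℕ) : ℕ := 2 * (ν ^ 2 + ν + 1)

/-- the window weight -/
def om (K : ℝ) (N : ℤ) (n : ℕ) : ℝ := K * gs (K * (N + 1 / 2 - √(n : ℝ)))

/-- `n` is in the central half of the window of `N` -/
def Near (N : ℤ) (n : ℕ) : Prop := |(N : ℝ) + 1 / 2 - √(n : ℝ)| ≤ 1 / 4

instance decNear (N : ℤ) (n : ℕ) : Decidable (Near N n) := Classical.dec _

/-- weight of the windows with index in a residue class -/
def TC (K : ℝ) (q ν n : ℕ) : ℝ := ∑' N : ℤ, if (q : ℤ) ∣ N - ν then om K N n else 0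

/-- weight of the windows in which the partner of `n` is divisible by `q` -/
def TT (K : ℝ) (q n : ℕ) : ℝ := ∑' N : ℤ, if (q : ℤ) ∣ 2 * MM N - n then om K N n else 0

/-- classes of window indices for which the partner of `n` is divisible by `q` -/
def rts (q n : ℕ) : Finset ℕ := (range q).filter fun ν => (q : ℤ) ∣ 2 * MM ν - n

/-- number of such classes -/
def rh (q n : ℕ) : ℕ := (rts q n).card

/-- the discrepancy -/
def Dl (K : ℝ) (q n : ℕ) : ℝ := TT K q n - rh q n / q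

/-- the sieve density -/
def gg (p : ℕ) : ℝ := ((p : ℝ) - rh p 0) / (p * (p - 1))

/-- the local fluctuation -/
def xi (p n : ℕ) : ℝ := if p ∣ n then 0 else rh p n - p * gg p

/-- squarefree moduli up to `Q` -/
def SQ (Q : ℝ) : Finset ℕ := (Icc 1 ⌊Q⌋₊).filter Squarefree

/-- the error in the level of distribution -/
def lev (K Q : ℝ) (S : Finset ℕ) (γ : ℕ → ℝ) : ℝ :=
  ∑ q ∈ SQ Q, |∑ n ∈ S.filter (fun n => n.Coprime q), γ n * Dl K q n|

/-- Dirichlet convolution -/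
def cv (α β : ℕ → ℝ) (n : ℕ) : ℝ := ∑ d ∈ n.divisorsAntidiagonal, α d.1 * β d.2

open Classical in
/-- primitive characters -/
def prim (f : ℕ) : Finset (DirichletCharacter ℂ f) := univ.filter fun ψ => ψ.IsPrimitive

/-- the complete sums attached to a character -/
def GG (q f : ℕ) (ψ : DirichletCharacter ℂ f) (h : ℕ) : ℂ :=
  ∑ ν ∈ (range q).filter (fun ν => (mN ν).Coprime q),
    (starRingEnd ℂ) (ψ (mN ν : ZMod f)) * ee (-(h * (ν + 1 / 2) / q))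

/-- the twisted bilinear exponential sum -/
def bx (f : ℕ) (ψ : DirichletCharacter ℂ f) (I J : Finset ℕ) (α β : ℕ → ℂ) (ξ : ℝ) : ℂ :=
  ∑ a ∈ I, ∑ b ∈ J, α a * β b * ψ (a : ZMod f) * ψ (b : ZMod f) * ee (ξ * √((a : ℝ) * b))

/-- a block of the bilinear form with coefficients `d` -/
def blk (e F H : ℕ) (d : (f : ℕ) → DirichletCharacter ℂ f → ℕ → ℂ) (I J : Finset ℕ)
    (α β : ℕ → ℂ) : ℝ :=
  ∑ f ∈ Ico F (2 * F), ∑ ψ ∈ prim f,
    ‖∑ h ∈ Ico H (2 * H), d f ψ h * bx f ψ I J α β ((h : ℝ) / (f * e))‖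

/-- the coefficients coming from the discrepancy -/
def dd (K Q : ℝ) (e f : ℕ) (ψ : DirichletCharacter ℂ f) (h : ℕ) : ℂ :=
  if f * e ∈ SQ Q ∧ (h : ℝ) ≤ K ^ 2 * (f * e) + 1 then
    ((gs (h / (K * (f * e))) / (f * e * (f * e).totient) : ℝ) : ℂ) * GG (f * e) f ψ h else 0

/-- restriction to integers coprime to `e` -/
def cop (e : ℕ) (α : ℕ → ℝ) (a : ℕ) : ℂ := if a.Coprime e then (α a : ℂ) else 0

/-- product of a set of primes -/
def pr (E : Finset ℕ) : ℕ := ∏ p ∈ E, p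

/-- multilinear polynomial with coefficients `lam` -/
def ev (P : Finset ℕ) (lam : Finset ℕ → ℝ) (x : ℕ → ℝ) : ℝ :=
  ∑ E ∈ P.powerset, lam E * ∏ p ∈ E, x p

/-- mixed derivative of the multilinear polynomial -/
def tw (P : Finset ℕ) (lam : Finset ℕ → ℝ) (g : ℕ → ℝ) (f : Finset ℕ) : ℝ :=
  ∑ E ∈ P.powerset.filter (f ⊆ ·), lam E * ∏ p ∈ E \ f, g p

/-- tensor product of weights -/
def tens (P1 P2 : Finset ℕ) (l1 l2 : Finset ℕ → ℝ) (E : Finset ℕ) : ℝ := l1 (E ∩ P1) * l2 (E ∩ P2)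

/-- bounded weights of level `Q` -/
def Sup (P : Finset ℕ) (Q : ℝ) (lam : Finset ℕ → ℝ) : Prop :=
  (∀ E, |lam E| ≤ 1) ∧ ∀ E ⊆ P, lam E ≠ 0 → (pr E : ℝ) ≤ Q

/-- bounds for the mixed derivatives -/
def Twb (P : Finset ℕ) (W C : ℝ) (g : ℕ → ℝ) (lam : Finset ℕ → ℝ) : Prop :=
  ∀ f ⊆ P, |tw P lam g f| ≤ W * C ^ (f.card + 1)

/-- values in the unit interval -/
def Unit01 (x : ℕ → ℝ) : Prop := ∀ p, 0 ≤ x p ∧ x p ≤ 1

/-- the product of the complementary densities -/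
def VP (P : Finset ℕ) (g : ℕ → ℝ) : ℝ := ∏ p ∈ P, (1 - g p)

/-- admissible densities -/
def Adm (P : Finset ℕ) (g : ℕ → ℝ) : Prop := ∀ p ∈ P, 0 ≤ g p ∧ g p ≤ 1 / 2 ∧ g p ≤ 2 / p

/-- upper sieve weights `lam` with a majorant `Del` for the loss -/
def Pack (P : Finset ℕ) (Q a C : ℝ) (lam Del : Finset ℕ → ℝ) : Prop :=
  (∀ E, |lam E| + |Del E| ≤ 1) ∧ (∀ E ⊆ P, lam E ≠ 0 ∨ Del E ≠ 0 → (pr E : ℝ) ≤ Q) ∧
  (∀ x, Unit01 x → VP P x ≤ ev P lam x ∧ ev P lam x - ev P Del x ≤ VP P x ∧ 0 ≤ ev P Del x) ∧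
  ∀ g, Adm P g → ∀ f ⊆ P, |tw P lam g f| + |tw P Del g f| ≤ a * C ^ f.card * VP P g

/-- index of the sifting parameter on a mesh of one tenth -/
def idx (D z : ℝ) : ℕ := ⌈10 * Real.log D / Real.log z⌉₊ - 1

/-- the members of `P` below `z` -/
def below (P : Finset ℕ) (z : ℝ) : Finset ℕ := P.filter fun p : ℕ => (p : ℝ) < z

/-- twisted Dirichlet polynomial -/
def dp (f : ℕ) (ψ : DirichletCharacter ℂ f) (I : Finset ℕ) (a : ℕ → ℂ) (t : ℝ) : ℂ :=
  ∑ n ∈ I, a n * ψ (n : ZMod f) * ee (-(t * Real.log n))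

/-- sieve weights evaluated on the partners of `n` -/
def SS (K : ℝ) (P : Finset ℕ) (lam : Finset ℕ → ℝ) (n : ℕ) : ℝ :=
  ∑ E ∈ P.powerset, lam E * TT K (pr E) n

open Classical in
/-- weight of the windows in which the partner of `n` has no prime factor up to `z` -/
def RO (K z : ℝ) (n : ℕ) : ℝ :=
  ∑' N : ℤ, if ∀ p ∈ PL z, ¬ (p : ℤ) ∣ 2 * MM N - n then om K N n else 0

/-- equidistribution in the reduced classes to small moduli -/
def Eqd (S : Finset ℕ) (γ : ℕ → ℝ) (R : ℕ) (δ : ℝ) : Prop :=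
  ∀ f r r' : ℕ, 1 ≤ f → f ≤ R → r.Coprime f → r'.Coprime f →
    |∑ n ∈ S.filter (· ≡ r [MOD f]), γ n - ∑ n ∈ S.filter (· ≡ r' [MOD f]), γ n| ≤ δ

/-- inequalities for the tables of the linear sieve with mesh one tenth -/
def Tab (pa qa : ℕ → ℝ) (κ : ℝ) : Prop :=
  (∀ j, 0 ≤ pa j ∧ 0 ≤ qa j) ∧
  (∀ j n : ℕ, 10 ≤ j → κ * ∑ i ∈ Ico j n, (if i < 30 then 1 else qa (i - 10)) ≤ j * pa j) ∧
  ∀ j n : ℕ, 20 ≤ j → κ * ∑ i ∈ Ico j n, pa (i - 10) ≤ j * qa j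

/-- regularity of the density on the primes in `[w, z)` -/
def Reg (P : Finset ℕ) (g : ℕ → ℝ) (w z δ : ℝ) : Prop :=
  ∀ y1 y2 : ℝ, w ≤ y1 → y1 ≤ y2 → y2 ≤ z →
    |VP (P.filter fun p : ℕ => y1 ≤ (p : ℝ) ∧ (p : ℝ) < y2) g * (Real.log y2 / Real.log y1) - 1| ≤ δ

/-- the sifting limit -/
def zz (y : ℝ) : ℝ := y ^ (4 / 25 : ℝ)

/-- the level -/
def QQ (y : ℝ) : ℝ := y ^ (49 / 100 : ℝ)

/-- weighted primes -/
def gam1 (y : ℝ) (n : ℕ) : ℝ := if n.Prime then Real.log n / Real.log (3 * y ^ 2) else 0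

/-- primes above `z` -/
def al (z : ℝ) (a : ℕ) : ℝ := if a.Prime ∧ z < a then 1 else 0

open Classical in
/-- the cofactors -/
def be (z : ℝ) (b : ℕ) : ℝ :=
  if Squarefree b ∧ Rough z b ∧ 4 ≤ cardFactors b then 1 / ((cardFactors b : ℝ) + 1) else 0

/-- majorant for the rough squarefree numbers with at least five prime factors -/
def gam2 (z : ℝ) : ℕ → ℝ := cv (al z) (be z)

/-- the partner of `n` in the window of `N` -/
def par (N n : ℕ) : ℕ := mN N - n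

open Classical in
/-- weighted number of representations -/
def RR (y N : ℕ) : ℝ :=
  ∑ n ∈ (Ioc (y ^ 2) (2 * y ^ 2)).filter (fun n => Near N n ∧ n.Prime ∧
    Rough (zz y) (par N n) ∧ cardFactors (par N n) ≤ 4), om (Real.log y) N n

/-- majorant for the singular series -/
def sgm (M : ℕ) : ℝ := ∏ p ∈ M.primeFactors.filter (5 ≤ ·), (1 - 2 / (p : ℝ))⁻¹

/-- the property in the theorem -/
def Good (N : ℕ) : Prop :=
  ∃ k : ℕ, 2 ≤ k ∧ k ≤ 2 * N ∧ (N ^ 2 + k + 1).Prime ∧ cardFactors ((N + 1) ^ 2 - k) ≤ 4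

end

end Pool.Agent.P.MP_e94e4b_nt.PF
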