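import Pool.Agent.P.MP_e94e4b_nt.PF.Defs

/-! Statements of the steps of the proof. -/

namespace Pool.Agent.P.MP_e94e4b_nt.PF

open Finset Real Filter Topology
open Pool.Agent.P.MP_e86632_nt (ee)
open Pool.Agent.P.MP_8be758_nt.Avg (gs Rough PL red ft en nsq)
open ArithmeticFunction (cardFactors)

/-! ### Local densities, Poisson summation, trivial bounds -/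

def S_RT : Prop :=
  (∀ q1 q2 n : ℕ, q1.Coprime q2 → rh (q1 * q2) n = rh q1 n * rh q2 n) ∧
  (∀ (E : Finset ℕ) (n : ℕ), (∀ p ∈ E, p.Prime) → rh (pr E) n = ∏ p ∈ E, rh p n) ∧
  (∀ q n : ℕ, Squarefree q → rh q n ≤ q.divisors.card) ∧
  (∀ q n n' : ℕ, n ≡ n' [MOD q] → rh q n = rh q n') ∧
  (∀ p : ℕ, p.Prime → 0 ≤ gg p ∧ gg p ≤ 1 / 2 ∧ gg p ≤ 2 / p ∧ |gg p - 1 / p| ≤ 2 / (p : ℝ) ^ 2) ∧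
  (∀ p n : ℕ, p.Prime → |xi p n| ≤ 2) ∧
  (∀ p : ℕ, p.Prime → ∑ n ∈ range p, xi p n = 0) ∧
  ∀ q f : ℕ, Squarefree q → f ∣ q →
    ((range q ×ˢ range q).filter fun x => mN x.1 ≡ mN x.2 [MOD f]).card * f ≤
      q ^ 2 * f.divisors.card

def S_PO : Prop := ∀ (K : ℝ) (n : ℕ), 0 < K →
  Summable (fun N : ℤ => om K N n) ∧ ∑' N : ℤ, om K N n ≤ 4 * (K + 1) ∧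
  ∀ q : ℕ, 1 ≤ q → TT K q n = ∑ ν ∈ rts q n, TC K q ν n ∧ ∀ ν H0 : ℕ,
    |TC K q ν n - 1 / q - 2 / q * (∑ h ∈ Icc 1 H0,
      (gs (h / (K * q)) : ℂ) * ee (h * (√(n : ℝ) - 1 / 2 - ν) / q)).re| ≤
      8 / q * (1 + K * q) * gs (H0 / (2 * K * q))

def S_TB : Prop :=
  (∀ (K : ℝ) (n : ℕ), 1 ≤ K →
    ∑' N : ℤ, (if Near N n then 0 else om K N n) ≤ 10 * K * gs (K / 8)) ∧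
  ∀ ε : ℝ, 0 < ε → ∀ᶠ y : ℝ in atTop, ∀ n : ℕ, y ^ 2 / 4 ≤ n → (n : ℝ) ≤ 4 * y ^ 2 →
    ∑ q ∈ SQ y, |Dl (Real.log y) q n| ≤ y ^ ε

/-! ### Separation of variables and the large sieve -/

def S_GM : Prop := ∀ s w : ℂ, 0 < s.re → 0 < w.re →
  ∫ u in Set.Ioi (0 : ℝ), (u : ℂ) ^ (s - 1) * Complex.exp (-(w * u)) = Complex.Gamma s * w ^ (-s)

def S_CM : Prop := ∃ C : ℝ, 0 < C ∧ ∀ (Z : ℝ) (w : ℂ), 1 ≤ Z → 1 ≤ ‖w‖ → ‖w‖ ≤ Z * w.re →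
  ∃ γ : ℝ → ℂ, Continuous γ ∧ (∀ t, ‖γ t‖ ≤ C * Real.exp (-(|t| / Z))) ∧
    ∀ u : ℝ, 0 < u → Complex.exp (-(w * u)) =
      ∫ t : ℝ, γ t * ((1 / √u : ℝ) : ℂ) * ee (-(t * Real.log u))

def S_MLS : Prop := ∃ C : ℝ, 0 < C ∧ ∀ (F : ℕ) (L x : ℝ) (I : Finset ℕ) (a : ℕ → ℂ), 1 ≤ F → 0 ≤ L →
  (∀ n ∈ I, |(n : ℝ) - x| ≤ L) →
  ∑ f ∈ Icc 1 F, ∑ ψ ∈ prim f, ‖∑ n ∈ I, a n * ψ (n : ZMod f)‖ ^ 2 ≤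
    C * ((F : ℝ) ^ 2 + L) * nsq I a

def S_WLS : Prop := ∃ C : ℝ, 0 < C ∧ ∀ (F : ℕ) (Z X c v : ℝ) (I : Finset ℕ) (a : ℕ → ℂ),
  1 ≤ F → 1 ≤ Z → 1 / 2 ≤ c → c ≤ 1 → (∀ n ∈ I, 1 ≤ n ∧ (n : ℝ) ≤ X) →
  ∑ f ∈ Icc 1 F, ∑ ψ ∈ prim f,
      ‖∑ n ∈ I, a n * (gs (√2 * Z * (v - c * Real.log n)) : ℂ) * ψ (n : ZMod f)‖ ^ 2 ≤
    C * ((F : ℝ) ^ 2 + X / Z) * ∑ n ∈ I, ‖a n‖ ^ 2 * gs (Z * (v - c * Real.log n))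

def S_HG : Prop := ∃ C : ℝ, 0 < C ∧ ∀ (F : ℕ) (Z X c : ℝ) (I : Finset ℕ) (a : ℕ → ℂ),
  1 ≤ F → 1 ≤ Z → 1 / 2 ≤ c → c ≤ 1 → (∀ n ∈ I, 1 ≤ n ∧ (n : ℝ) ≤ X) →
  ∫ t : ℝ, gs (t / Z) * ∑ f ∈ Icc 1 F, ∑ ψ ∈ prim f, ‖dp f ψ I a (c * t)‖ ^ 2 ≤
    C * ((F : ℝ) ^ 2 * Z + X) * nsq I a

def S_HLS : Prop := ∃ C : ℝ, 0 < C ∧ ∀ (F : ℕ) (Z X c : ℝ) (I : Finset ℕ) (a : ℕ → ℂ),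
  1 ≤ F → 1 ≤ Z → 1 / 2 ≤ c → c ≤ 1 → (∀ n ∈ I, 1 ≤ n ∧ (n : ℝ) ≤ X) →
  ∫ t : ℝ, Real.exp (-(|t| / Z)) * ∑ f ∈ Icc 1 F, ∑ ψ ∈ prim f, ‖dp f ψ I a (c * t)‖ ^ 2 ≤
    C * ((F : ℝ) ^ 2 * Z + X) * nsq I a

def S_H4 : Prop := ∃ C : ℝ, 0 < C ∧ ∀ (F : ℕ) (Z X c τ : ℝ) (I : Finset ℕ) (a : ℕ → ℂ),
  1 ≤ F → 1 ≤ Z → 1 / 2 ≤ c → c ≤ 1 → (∀ n ∈ I, 1 ≤ n ∧ (n : ℝ) ≤ X) →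
  (∀ m : ℕ, (m : ℝ) ≤ X ^ 2 → (m.divisors.card : ℝ) ≤ τ) →
  ∫ t : ℝ, Real.exp (-(|t| / Z)) * ∑ f ∈ Icc 1 F, ∑ ψ ∈ prim f, ‖dp f ψ I a (c * t)‖ ^ 4 ≤
      C * ((F : ℝ) ^ 2 * Z + X ^ 2) * τ * nsq I a ^ 2 ∧
    ∫ t : ℝ, Real.exp (-(|t| / Z)) * ‖∑ n ∈ I, a n * ee (-(c * t * Real.log n))‖ ^ 4 ≤
      C * (Z + X ^ 2) * τ * nsq I a ^ 2

def S_HOL : Prop := ∃ C : ℝ, 0 < C ∧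
  ∀ (F H : ℕ) (A B Z τ U V : ℝ) (I J : Finset ℕ) (α β : ℕ → ℂ)
    (d : (f : ℕ) → DirichletCharacter ℂ f → ℕ → ℂ),
    1 ≤ F → 1 ≤ H → 1 ≤ A → 1 ≤ B → 1 ≤ Z → 0 ≤ U → 0 ≤ V →
    (∀ a ∈ I, A ≤ a ∧ (a : ℝ) ≤ 2 * A) → (∀ b ∈ J, B ≤ b ∧ (b : ℝ) ≤ 16 * B) →
    (∀ a ∈ I, ‖α a‖ ≤ 1) → (∀ b ∈ J, ‖β b‖ ≤ 1) →
    (∀ m : ℕ, (m : ℝ) ≤ 4 * A ^ 2 + 4 * (H : ℝ) ^ 2 → (m.divisors.card : ℝ) ≤ τ) →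
    (∀ f ∈ Ico F (2 * F), ∀ ψ ∈ prim f, ∑ h ∈ Ico H (2 * H), ‖d f ψ h‖ ^ 2 ≤ U) →
    (∀ f ∈ Ico F (2 * F), ∑ ψ ∈ prim f, ∑ h ∈ Ico H (2 * H), ‖d f ψ h‖ ^ 2 ≤ V) →
    (∫ t : ℝ, Real.exp (-(|t| / Z)) * ∑ f ∈ Ico F (2 * F), ∑ ψ ∈ prim f,
        ‖∑ h ∈ Ico H (2 * H), d f ψ h * ee (-(t * Real.log h))‖ *
          ‖dp f ψ I α (1 / 2 * t)‖ * ‖dp f ψ J β (1 / 2 * t)‖) ^ 4 ≤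
      C * ((Z + (H : ℝ) ^ 2) * τ * F * U * V) * (((F : ℝ) ^ 2 * Z + A ^ 2) * τ * A ^ 2) *
        (((F : ℝ) ^ 2 * Z + B) * B) ^ 2

def S_CB : Prop := ∃ C : ℝ, 0 < C ∧
  ∀ (e F H : ℕ) (A B Z τ U V : ℝ) (I J : Finset ℕ) (α β : ℕ → ℂ)
    (d : (f : ℕ) → DirichletCharacter ℂ f → ℕ → ℂ),
    1 ≤ e → 1 ≤ F → 1 ≤ H → 1 ≤ A → 1 ≤ B → Z = H * √(A * B) / (F * e) → 1 ≤ Z → 0 ≤ U → 0 ≤ V →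
    (∀ a ∈ I, A ≤ a ∧ (a : ℝ) ≤ 2 * A) → (∀ b ∈ J, B ≤ b ∧ (b : ℝ) ≤ 16 * B) →
    (∀ a, ‖α a‖ ≤ 1) → (∀ b, ‖β b‖ ≤ 1) →
    (∀ m : ℕ, (m : ℝ) ≤ 4 * A ^ 2 + 4 * (H : ℝ) ^ 2 → (m.divisors.card : ℝ) ≤ τ) →
    (∀ f ∈ Ico F (2 * F), ∀ ψ ∈ prim f, ∑ h ∈ Ico H (2 * H), ‖d f ψ h‖ ^ 2 ≤ U) →
    (∀ f ∈ Ico F (2 * F), ∑ ψ ∈ prim f, ∑ h ∈ Ico H (2 * H), ‖d f ψ h‖ ^ 2 ≤ V) →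
    blk e F H d I J α β ^ 4 ≤ C * ((F : ℝ) * e) ^ 2 * (A * B) *
      ((Z + (H : ℝ) ^ 2) * τ * F * U * V / (H : ℝ) ^ 2) * (((F : ℝ) ^ 2 * Z + A ^ 2) * τ) *
      ((F : ℝ) ^ 2 * Z + B) ^ 2

def S_GB1 : Prop := ∀ q n h : ℕ, 1 ≤ q → n.Coprime q →
  ∑ ν ∈ rts q n, ee (-(h * (ν + 1 / 2) / q)) =
    ((1 / q.totient : ℝ) : ℂ) * ∑ f ∈ q.divisors, ∑ ψ ∈ prim f, GG q f ψ h * ψ (n : ZMod f)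

def S_GB2 : Prop :=
  (∀ (q f H : ℕ) (ψ : DirichletCharacter ℂ f), 1 ≤ q →
    ∑ h ∈ Ico H (2 * H), ‖GG q f ψ h‖ ^ 2 ≤ ((H : ℝ) + q) * q) ∧
  (∀ q f h : ℕ, Squarefree q → f ∣ q →
    ∑ ψ ∈ prim f, ‖GG q f ψ h‖ ^ 2 ≤ (q : ℝ) ^ 2 * f.divisors.card) ∧
  (∀ f : ℕ, 1 ≤ f → (prim f).card ≤ f) ∧
  ∀ q : ℕ, 1 ≤ q → q ≤ q.totient * q.divisors.card

def S_UV : Prop := ∀ (K Q τ : ℝ) (e F H : ℕ), 1 ≤ K → 1 ≤ e → 1 ≤ F → 1 ≤ H → 1 ≤ τ →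
  (∀ m : ℕ, (m : ℝ) ≤ Q → (m.divisors.card : ℝ) ≤ τ) →
  ((∃ f ∈ Ico F (2 * F), ∃ ψ ∈ prim f, ∃ h ∈ Ico H (2 * H), dd K Q e f ψ h ≠ 0) →
    (F : ℝ) * e ≤ Q ∧ (H : ℝ) ≤ 3 * K ^ 2 * (F * e)) ∧
  ∀ f ∈ Ico F (2 * F),
    (∀ ψ ∈ prim f, ∑ h ∈ Ico H (2 * H), ‖dd K Q e f ψ h‖ ^ 2 ≤
      10 * K ^ 2 * τ ^ 2 / ((F : ℝ) * e) ^ 2) ∧
    ∑ ψ ∈ prim f, ∑ h ∈ Ico H (2 * H), ‖dd K Q e f ψ h‖ ^ 2 ≤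
      20 * K ^ 2 * τ ^ 3 * min (H : ℝ) F / ((F : ℝ) * e) ^ 2

/-! ### Level of distribution -/

def S_RED1 : Prop := ∀ (K : ℝ) (q n : ℕ), 1 ≤ K → 1 ≤ q → n.Coprime q →
  |Dl K q n - 2 * (∑ f ∈ q.divisors, ∑ ψ ∈ prim f, ∑ h ∈ Icc 1 ⌊K ^ 2 * q + 1⌋₊,
      ((gs (h / (K * q)) / (q * q.totient) : ℝ) : ℂ) * GG q f ψ h * ψ (n : ZMod f) *
        ee ((h : ℝ) / q * √(n : ℝ))).re| ≤ 8 * (1 + K * q) * gs (K / 2)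

def S_RED : Prop := ∀ (K Q : ℝ) (T : ℕ) (I J : Finset ℕ) (α β : ℕ → ℝ), 1 ≤ K → 1 ≤ Q →
  K ^ 2 * Q + 1 < 2 ^ T → (∀ a, |α a| ≤ 1) → (∀ b, |β b| ≤ 1) →
  ∑ q ∈ SQ Q, |∑ a ∈ I, ∑ b ∈ J, if (a * b).Coprime q then α a * β b * Dl K q (a * b) else 0| ≤
    2 * ∑ e ∈ Icc 1 ⌊Q⌋₊, ∑ i ∈ range T, ∑ j ∈ range T,
        blk e (2 ^ i) (2 ^ j) (dd K Q e) I J (cop e α) (cop e β) +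
      Q * I.card * J.card * (8 * (1 + K * Q) * gs (K / 2))

def S_BS : Prop := ∀ η : ℝ, 0 < η → η ≤ 1 / 4 → ∀ᶠ y : ℝ in atTop,
  ∀ (e F H : ℕ) (A B : ℝ) (I J : Finset ℕ) (α β : ℕ → ℂ), 1 ≤ e → 1 ≤ F → 1 ≤ H →
    y ^ η / 2 ≤ A → A ≤ 2 * y → y ^ 2 / 2 ≤ A * B → A * B ≤ 3 * y ^ 2 →
    (∀ a ∈ I, A ≤ a ∧ (a : ℝ) ≤ 2 * A) → (∀ b ∈ J, B ≤ b ∧ (b : ℝ) ≤ 16 * B) →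
    (∀ a, ‖α a‖ ≤ 1) → (∀ b, ‖β b‖ ≤ 1) →
    blk e F H (dd (Real.log y) (y ^ (1 / 2 - η)) e) I J α β ≤ y ^ (2 - η / 3) / e

def S_LB0 : Prop := ∀ η : ℝ, 0 < η → η ≤ 1 / 4 → ∀ᶠ y : ℝ in atTop,
  ∀ (A B : ℝ) (I J : Finset ℕ) (α β : ℕ → ℝ),
    y ^ η / 2 ≤ A → A ≤ 2 * y → y ^ 2 / 2 ≤ A * B → A * B ≤ 3 * y ^ 2 →
    (∀ a ∈ I, A ≤ a ∧ (a : ℝ) ≤ 2 * A) → (∀ b ∈ J, B ≤ b ∧ (b : ℝ) ≤ 16 * B) →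
    (∀ a, |α a| ≤ 1) → (∀ b, |β b| ≤ 1) →
    ∑ q ∈ SQ (y ^ (1 / 2 - η)), |∑ a ∈ I, ∑ b ∈ J,
      if (a * b).Coprime q then α a * β b * Dl (Real.log y) q (a * b) else 0| ≤ y ^ (2 - η / 4)

def S_LB1 : Prop := ∀ η : ℝ, 0 < η → η ≤ 1 / 4 → ∀ᶠ y : ℝ in atTop,
  ∀ (X1 X2 : ℕ) (α β : ℕ → ℝ), y ^ 2 / 2 ≤ X1 → (X2 : ℝ) ≤ 3 * y ^ 2 →
    (∀ a, |α a| ≤ 1) → (∀ b, |β b| ≤ 1) → (∀ a, α a ≠ 0 → y ^ η ≤ a ∧ (a : ℝ) ≤ 2 * y) →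
    lev (Real.log y) (y ^ (1 / 2 - η)) (Ioc X1 X2) (cv α β) ≤ y ^ (2 - η / 9)

def S_LB : Prop := ∀ η : ℝ, 0 < η → η ≤ 1 / 4 → ∀ᶠ y : ℝ in atTop,
  ∀ (X1 X2 : ℕ) (α β : ℕ → ℝ), y ^ 2 / 2 ≤ X1 → (X2 : ℝ) ≤ 3 * y ^ 2 →
    (∀ a, |α a| ≤ 1) → (∀ b, |β b| ≤ 1) → (∀ a, α a ≠ 0 → y ^ η ≤ a) → (∀ b, β b ≠ 0 → y ^ η ≤ b) →
    lev (Real.log y) (y ^ (1 / 2 - η)) (Ioc X1 X2) (cv α β) ≤ y ^ (2 - η / 10)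

def S_UNI : Prop := ∀ (f : ℕ → ℝ) (S : ℝ) (X1 X2 t r c : ℕ), 1 ≤ r → (∀ n, 0 ≤ f n ∧ f n ≤ S) →
  (∀ m n, m ≤ n → n ≤ t → f m ≤ f n) → (∀ m n, t < m → m ≤ n → f n ≤ f m) →
  |∑ n ∈ (Ioc X1 X2).filter (· ≡ c [MOD r]), f n - 1 / r * ∑ n ∈ Ioc X1 X2, f n| ≤ 4 * S

def S_SQE : Prop := ∃ C : ℝ, 0 < C ∧ ∀ (ξ : ℝ) (X1 X2 : ℕ), 0 < ξ →
  ‖∑ n ∈ Ioc X1 X2, ee (ξ * √(n : ℝ))‖ ≤ C * (√(X2 : ℝ) / ξ + ξ * √(X2 : ℝ))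

def S_TI0 : Prop := ∀ ε : ℝ, 0 < ε → ∀ᶠ y : ℝ in atTop, ∀ X1 X2 q ν : ℕ,
  (X2 : ℝ) ≤ 4 * y ^ 2 → 1 ≤ q → (q : ℝ) ≤ y →
  |∑ n ∈ Ioc X1 X2, (TC (Real.log y) q ν n - 1 / q)| ≤ y ^ (1 + ε)

def S_TI1 : Prop := ∀ ε : ℝ, 0 < ε → ∀ᶠ y : ℝ in atTop,
  ∀ (X1 X2 q r : ℕ) (S : Finset ℕ) (c : ℕ → ℕ), y ^ 2 / 4 ≤ X1 → (X2 : ℝ) ≤ 4 * y ^ 2 → 1 ≤ q →
    1 ≤ r → S ⊆ range q →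
    ∑ ν ∈ S, |∑ n ∈ (Ioc X1 X2).filter (· ≡ c ν [MOD r]), TC (Real.log y) q ν n -
      1 / r * ∑ n ∈ Ioc X1 X2, TC (Real.log y) q ν n| ≤ y ^ (1 + ε)

def S_TI : Prop := ∀ ε : ℝ, 0 < ε → ∀ᶠ y : ℝ in atTop, ∀ X1 X2 a q : ℕ,
  y ^ 2 / 4 ≤ X1 → (X2 : ℝ) ≤ 4 * y ^ 2 → 1 ≤ a → 1 ≤ q → (q : ℝ) ≤ y →
  |∑ n ∈ (Ioc X1 X2).filter (fun n => a ∣ n ∧ n.Coprime q), Dl (Real.log y) q n| ≤ y ^ (1 + ε)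

def S_T1 : Prop := ∀ᶠ y : ℝ in atTop, ∀ (X1 X2 : ℕ) (c g : ℕ → ℝ),
  y ^ 2 / 2 ≤ X1 → (X2 : ℝ) ≤ 3 * y ^ 2 → (∀ d, |c d| ≤ 1) →
  (∀ d, c d ≠ 0 → (d : ℝ) ≤ y ^ (1 / 50 : ℝ)) → Monotone g →
  (∀ m : ℕ, 0 ≤ g m ∧ ((m : ℝ) ≤ 3 * y ^ 2 → g m ≤ 1)) →
  lev (Real.log y) (QQ y) (Ioc X1 X2) (cv c g) ≤ y ^ (8 / 5 : ℝ)

def S_VA : Prop := ∀ U X : ℝ, 1 ≤ U → U ^ 2 ≤ X → 1 < X → ∃ c1 c2 α β : ℕ → ℝ,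
  (∀ d, |c1 d| ≤ 1 ∧ |c2 d| ≤ 1 ∧ |α d| ≤ 1 ∧ |β d| ≤ 1) ∧
  (∀ d, (c1 d ≠ 0 → (d : ℝ) ≤ U ^ 2) ∧ (c2 d ≠ 0 → (d : ℝ) ≤ U ^ 2) ∧
    (α d ≠ 0 → U ≤ d) ∧ (β d ≠ 0 → U ≤ d)) ∧
  ∀ n : ℕ, U < n → (n : ℝ) ≤ X → ArithmeticFunction.vonMangoldt n / Real.log X =
    cv c1 (fun m => Real.log m / Real.log X) n + cv c2 (fun _ => 1) n + cv α β n

def S_LP : Prop := ∃ c : ℝ, 0 < c ∧ ∀ᶠ y : ℝ in atTop, ∀ X1 X2 : ℕ,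
  y ^ 2 / 2 ≤ X1 → (X2 : ℝ) ≤ 3 * y ^ 2 →
  lev (Real.log y) (QQ y) (Ioc X1 X2) (gam1 y) ≤ y ^ (2 - c)

/-! ### The zero frequency -/

def S_PF : Prop := ∀ E : Finset ℕ, (∀ p ∈ E, p.Prime) →
  (∀ (I : Finset ℕ) (γ : ℕ → ℝ), (∑ n ∈ I, γ n * ∏ p ∈ E, xi p n) ^ 2 ≤
    4 ^ E.card * en I (fun n => (γ n : ℂ)) (pr E)) ∧
  (E.Nonempty → ∑ n ∈ range (pr E), ∏ p ∈ E, xi p n = 0)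

def S_XS : Prop := ∀ C ε : ℝ, 1 ≤ C → 0 < ε → ∃ R : ℕ, 1 ≤ R ∧ ∀ᶠ y : ℝ in atTop,
  ∀ (I : Finset ℕ) (γ : ℕ → ℝ), (∀ n ∈ I, (n : ℝ) ≤ 3 * y ^ 2) → (∀ n ∈ I, |γ n| ≤ 1) →
    (∀ n ∈ I, γ n ≠ 0 → Rough (zz y) n) →
    ∑ q ∈ Ioc R ⌊QQ y⌋₊, C ^ q.primeFactors.card / q * √(en I (fun n => (γ n : ℂ)) q) ≤
      ε * y ^ 2 / Real.log y

def S_EXP : Prop := ∀ (K z Q : ℝ) (I : Finset ℕ) (γ : ℕ → ℝ) (lam : Finset ℕ → ℝ),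
  (∀ n ∈ I, γ n ≠ 0 → Rough z n) → Sup (PL z) Q lam →
  |∑ n ∈ I, γ n * SS K (PL z) lam n -
      ∑ f ∈ (PL z).powerset, tw (PL z) lam gg f / pr f * ∑ n ∈ I, γ n * ∏ p ∈ f, xi p n| ≤
    lev K Q I γ

def S_GEN : Prop := ∀ C ε : ℝ, 1 ≤ C → 0 < ε → ∃ (R : ℕ) (ε' : ℝ), 0 < ε' ∧ ∀ᶠ y : ℝ in atTop,
  ∀ (I : Finset ℕ) (γ : ℕ → ℝ) (lam : Finset ℕ → ℝ) (W : ℝ), (∀ n ∈ I, (n : ℝ) ≤ 3 * y ^ 2) →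
    (∀ n ∈ I, |γ n| ≤ 1) → (∀ n ∈ I, γ n ≠ 0 → Rough (zz y) n) → 0 ≤ W →
    Sup (PL (zz y)) (QQ y) lam → Twb (PL (zz y)) W C gg lam →
    Eqd I γ R (ε' * y ^ 2 / Real.log y) →
    |∑ n ∈ I, γ n * SS (Real.log y) (PL (zz y)) lam n -
        (∑ n ∈ I, γ n) * ev (PL (zz y)) lam gg| ≤
      lev (Real.log y) (QQ y) I γ + ε * W * y ^ 2 / Real.log y

/-! ### Sieve weights -/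

def S_MR1 : Prop :=
  (∀ δ : ℝ, 0 < δ → ∀ᶠ w : ℝ in atTop, ∀ y1 y2 : ℝ, w ≤ y1 → y1 ≤ y2 →
    |∑ p ∈ (PL y2).filter (fun p : ℕ => y1 ≤ (p : ℝ) ∧ (p : ℝ) < y2), 1 / (p : ℝ) -
      Real.log (Real.log y2 / Real.log y1)| ≤ δ) ∧
  ∃ L : ℝ, 0 < L ∧ ∀ u : ℝ, 1 ≤ u →
    ∑ p ∈ (PL (u ^ 2)).filter (fun p : ℕ => u < (p : ℝ)), 1 / (p : ℝ) ≤ L

def S_MR2 : Prop :=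
  (∀ δ : ℝ, 0 < δ → ∀ᶠ w : ℝ in atTop, ∀ (z : ℝ) (P : Finset ℕ),
    (∀ p : ℕ, p ∈ P ↔ p.Prime ∧ w < p ∧ (p : ℝ) < z) → Reg P gg w z δ) ∧
  ∃ c : ℝ, 0 < c ∧ ∀ z : ℝ, 2 ≤ z → c / Real.log z ≤ VP (PL z) gg

def S_TAB : Prop := ∃ pa qa : ℕ → ℝ, Tab pa qa (1001 / 1000) ∧
  ∀ j, 30 ≤ j → pa j ≤ 27 / 100 ∧ qa j ≤ 24 / 100

def S_BIN : Prop := ∀ κ S : ℝ, 1 < κ → 0 < S → ∃ δ : ℝ, 0 < δ ∧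
  ∀ (P : Finset ℕ) (g u : ℕ → ℝ) (w z D : ℝ), 2 ≤ w → w ≤ z → (∀ p ∈ P, w ≤ p ∧ (p : ℝ) < z) →
    (∀ p ∈ P, 0 ≤ g p ∧ g p ≤ 1 / 2) → Reg P g w z δ → z < D → Real.log D ≤ S * Real.log w →
    (∀ i, 0 ≤ u i) → ∃ n : ℕ,
      ∑ p ∈ P, g p * VP (below P p) g * u (idx D p) ≤
        κ * (∑ i ∈ Ico (idx D z) n, u i) / idx D z * VP P g

def S_RS : Prop := ∀ (pa qa : ℕ → ℝ) (κ S a b : ℝ), Tab pa qa κ → 1 < κ → 0 < S →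
  (∀ j, 30 ≤ j → pa j ≤ a ∧ qa j ≤ b) → ∃ δ : ℝ, 0 < δ ∧
    ∀ (P : Finset ℕ) (g : ℕ → ℝ) (w z D : ℝ), 2 ≤ w → w ≤ z → (∀ p ∈ P, w ≤ p ∧ (p : ℝ) < z) →
      (∀ p ∈ P, 0 ≤ g p ∧ g p ≤ 1 / 2) → Reg P g w z δ → z ^ 3 < D →
      Real.log D ≤ S * Real.log w →
      ∃ lU lL : Finset ℕ → ℝ, Sup P D lU ∧ Sup P D lL ∧
        (∀ x, Unit01 x → ev P lL x ≤ VP P x ∧ VP P x ≤ ev P lU x) ∧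
        ev P lU g ≤ (1 + a) * VP P g ∧ (1 - b) * VP P g ≤ ev P lL g

def S_TEN : Prop := ∀ (P1 P2 : Finset ℕ) (Q1 Q2 a1 a2 C : ℝ) (l1 D1 l2 D2 : Finset ℕ → ℝ),
  Disjoint P1 P2 → Pack P1 Q1 a1 C l1 D1 → Pack P2 Q2 a2 C l2 D2 →
  Pack (P1 ∪ P2) (Q1 * Q2) (a1 * a2) C (tens P1 P2 l1 l2)
    fun E => tens P1 P2 D1 l2 E + tens P1 P2 l1 D2 E

def S_BLK : Prop := ∀ (P : Finset ℕ) (L u : ℝ) (m : ℕ), Even m → 1 ≤ u → (∀ p ∈ P, (p : ℝ) ≤ u) →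
  ∑ p ∈ P, 1 / (p : ℝ) ≤ L → ∃ lam Del : Finset ℕ → ℝ,
    Pack P (u ^ (m + 1)) (1 + 2 * Real.exp (4 * L) * (2 * L) ^ (m + 1) / (m + 1).factorial)
      (Real.exp (6 * L)) lam Del

def S_FL : Prop := ∀ η : ℝ, 0 < η → ∃ (s : ℕ) (C : ℝ), 1 ≤ s ∧ 1 ≤ C ∧ ∀ w : ℝ, 2 ≤ w →
  ∃ lam Del : Finset ℕ → ℝ, Sup (PL w) (w ^ s) lam ∧ Sup (PL w) (w ^ s) Del ∧
    (∀ x, Unit01 x → VP (PL w) x ≤ ev (PL w) lam x ∧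
      ev (PL w) lam x - ev (PL w) Del x ≤ VP (PL w) x ∧ 0 ≤ ev (PL w) Del x) ∧
    ∀ g : ℕ → ℝ, Adm (PL w) g →
      ev (PL w) Del g ≤ η * VP (PL w) g ∧
      Twb (PL w) (VP (PL w) g) C g lam ∧ Twb (PL w) (VP (PL w) g) C g Del

def S_COMB : Prop := ∃ C : ℝ, 1 ≤ C ∧ ∀ᶠ y : ℝ in atTop, ∃ lP l1 l2 : Finset ℕ → ℝ,
  (∀ l ∈ [lP, l1, l2], Sup (PL (zz y)) (QQ y) l ∧ Twb (PL (zz y)) (VP (PL (zz y)) gg) C gg l) ∧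
  (∀ x : ℕ → ℝ, (∀ p, x p = 0 ∨ x p = 1) →
    ev (PL (zz y)) l1 x - ev (PL (zz y)) l2 x ≤ VP (PL (zz y)) x ∧
      VP (PL (zz y)) x ≤ ev (PL (zz y)) lP x) ∧
  ev (PL (zz y)) lP gg ≤ 128 / 100 * VP (PL (zz y)) gg ∧
  75 / 100 * VP (PL (zz y)) gg ≤ ev (PL (zz y)) l1 gg - ev (PL (zz y)) l2 gg

/-! ### The two sequences -/

def S_PNT : Prop := ∀ (f : ℕ) (ε : ℝ), 1 ≤ f → 0 < ε → ∀ᶠ u : ℝ in atTop, ∀ (v : ℝ) (r : ℕ),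
  u ≤ v → v ≤ 8 * u → r.Coprime f →
  |(((Ioc ⌊u⌋₊ ⌊v⌋₊).filter fun p => p.Prime ∧ p ≡ r [MOD f]).card : ℝ) -
    (v - u) / (f.totient * Real.log u)| ≤ ε * u / Real.log u

def S_EQ1 : Prop := ∀ (R : ℕ) (ε : ℝ), 0 < ε → ∀ᶠ y : ℝ in atTop, ∀ X1 X2 : ℕ,
  y ^ 2 / 2 ≤ X1 → X1 ≤ X2 → (X2 : ℝ) ≤ 3 * y ^ 2 →
  ((X2 : ℝ) - X1) / (2 * Real.log y) - ε * y ^ 2 / Real.log y ≤ ∑ n ∈ Ioc X1 X2, gam1 y n ∧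
    Eqd (Ioc X1 X2) (gam1 y) R (ε * y ^ 2 / Real.log y)

def S_G2 : Prop := ∀ z : ℝ,
  (∀ a, |al z a| ≤ 1 ∧ (al z a ≠ 0 → z < a)) ∧ (∀ b, |be z b| ≤ 1 ∧ (be z b ≠ 0 → z < b)) ∧
  ∀ n, 0 ≤ gam2 z n ∧ gam2 z n ≤ 1 ∧ (gam2 z n ≠ 0 → Rough z n) ∧
    (Squarefree n → Rough z n → 5 ≤ cardFactors n → 1 ≤ gam2 z n)

def S_DEC : Prop := ∀ (z : ℝ) (X1 X2 f r : ℕ), 0 ≤ z →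
  ∑ n ∈ (Ioc X1 X2).filter (· ≡ r [MOD f]), gam2 z n = ∑ b ∈ Icc 1 X2, be z b *
    (((Ioc ⌊max ((X1 : ℝ) / b) z⌋₊ ⌊(X2 : ℝ) / b⌋₊).filter
      fun a => a.Prime ∧ a * b ≡ r [MOD f]).card : ℝ)

def S_EQ2 : Prop := ∀ (R : ℕ) (ε : ℝ), 0 < ε → ∀ᶠ y : ℝ in atTop, ∀ X1 X2 : ℕ,
  y ^ 2 / 2 ≤ X1 → X1 ≤ X2 → (X2 : ℝ) ≤ 3 * y ^ 2 →
  Eqd (Ioc X1 X2) (gam2 (zz y)) R (ε * y ^ 2 / Real.log y)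

def S_MC : Prop := ∀ (P : Finset ℕ) (bin : ℕ → ℕ) (w : ℕ → ℝ), (∀ p ∈ P, 8 ≤ bin p ∧ 0 ≤ w p) →
  (∀ k : ℕ, 8 ≤ k → k ≤ 92 →
    ∑ p ∈ P.filter (fun p => bin p = k), w p ≤ 1001 / 1000 * ((1 / (k : ℝ) + 1 / (k + 1)) / 2)) →
  ∑ E ∈ P.powerset.filter (fun E => 4 ≤ E.card ∧ ∑ p ∈ E, bin p ≤ 92),
    1 / ((E.card : ℝ) + 1) * (∏ p ∈ E, w p) /
      max (2 / 25) (99 / 100 - (((∑ p ∈ E, bin p : ℕ) : ℝ) + E.card) / 100) ≤ 44 / 100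

def S_MB : Prop := ∀ᶠ y : ℝ in atTop, ∀ X1 : ℝ, y ^ 2 / 2 ≤ X1 →
  ∑ b ∈ Icc 1 ⌊3 * y ^ 2 / zz y⌋₊, be (zz y) b / b / Real.log (max (X1 / b) (zz y)) ≤
    44 / 100 / (2 * Real.log y)

def S_MASS : Prop := ∀ ε : ℝ, 0 < ε → ∀ᶠ y : ℝ in atTop, ∀ X1 X2 : ℕ,
  y ^ 2 / 2 ≤ X1 → X1 ≤ X2 → (X2 : ℝ) ≤ 3 * y ^ 2 →
  ∑ n ∈ Ioc X1 X2, gam2 (zz y) n ≤
    45 / 100 * (((X2 : ℝ) - X1) / (2 * Real.log y)) + ε * y ^ 2 / Real.log y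

/-! ### Assembly -/

def S_CMP : Prop := ∀ ε : ℝ, 0 < ε → ∀ᶠ y : ℕ in atTop, ∀ (N : ℤ) (n : ℕ),
  y ^ 2 < n → n ≤ 2 * y ^ 2 → Near N n → ∃ N' : ℕ, (N' : ℤ) = N ∧ 1 ≤ N' ∧ N' ≤ 2 * y ∧
    (par N' n : ℤ) = 2 * MM N - n ∧ y ^ 2 - 2 * y < par N' n ∧ par N' n ≤ 2 * y ^ 2 + 2 * y ∧
    om (Real.log y) N n ≤ (1 + ε) * om (Real.log y) N (par N' n) ∧
    (n.Prime → cardFactors (par N' n) ≤ 4 → Good N')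

def S_RO : Prop := ∀ (K z : ℝ) (n : ℕ) (lP l1 l2 : Finset ℕ → ℝ), 0 < K →
  (∀ x : ℕ → ℝ, (∀ p, x p = 0 ∨ x p = 1) →
    ev (PL z) l1 x - ev (PL z) l2 x ≤ VP (PL z) x ∧ VP (PL z) x ≤ ev (PL z) lP x) →
  SS K (PL z) l1 n - SS K (PL z) l2 n ≤ RO K z n ∧ RO K z n ≤ SS K (PL z) lP n

def S_SW : Prop := ∀ ε : ℝ, 0 < ε → ∀ᶠ y : ℕ in atTop,
  ∑ n ∈ Ioc (y ^ 2) (2 * y ^ 2), gam1 y n * RO (Real.log y) (zz y) n ≤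
    ∑ N ∈ Icc 1 (2 * y), RR y N +
      (1 + ε) * ∑ m ∈ Ioc (y ^ 2 - 2 * y) (2 * y ^ 2 + 2 * y),
        gam2 (zz y) m * RO (Real.log y) (zz y) m + (y : ℝ) ^ (19 / 10 : ℝ)

def S_MAIN : Prop := ∃ c : ℝ, 0 < c ∧ ∀ᶠ y : ℕ in atTop,
  c * (y : ℝ) ^ 2 / Real.log y ^ 2 ≤ ∑ N ∈ Icc 1 (2 * y), RR y N

def S_SV : Prop := ∃ C : ℝ, 0 < C ∧ ∀ᶠ H : ℝ in atTop, ∀ (x : ℝ) (M : ℕ) (S : Finset ℕ), 0 ≤ x → 0 < M →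
  (∀ n ∈ S, x < n ∧ (n : ℝ) ≤ x + H ∧ ∀ p : ℕ, p.Prime → (p : ℝ) ≤ H ^ (1 / 10 : ℝ) →
    ¬ p ∣ n ∧ ¬ (p : ℤ) ∣ 2 * M - n) →
  (S.card : ℝ) ≤ C * sgm M * H / Real.log H ^ 2

def S_UB : Prop := ∃ C : ℝ, 0 < C ∧ ∀ᶠ y : ℕ in atTop, ∀ N ∈ Icc 1 (2 * y),
  RR y N ≤ C * sgm (N ^ 2 + N + 1) * y / Real.log y ^ 2

def S_SM : Prop := ∃ C : ℝ, 0 < C ∧ ∀ Y : ℕ, ∑ N ∈ Icc 1 Y, sgm (N ^ 2 + N + 1) ^ 2 ≤ C * Y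

open Classical in
def S_FIN : Prop := ∃ c : ℝ, 0 < c ∧ ∃ Y0 : ℕ, ∀ Y : ℕ, Y0 ≤ Y →
  c * Y ≤ (((Icc 1 Y).filter Good).card : ℝ)

end Pool.Agent.P.MP_e94e4b_nt.PF
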