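import Pool.Agent.P.MP_e94e4b_nt.PF.Basic

/-! Poisson summation for the windows in a residue class. -/

namespace Pool.Agent.P.MP_e94e4b_nt.PF

open Finset Real Filter Topology
open Pool.Agent.P.MP_8be758_nt.Avg (gs Rough PL red ft en nsq gs_pos gs_le_one prime_of_mem_PL
  ev_pow ev_const ev_log t_GS1 t_GS2 gs_neg gs_zero)
open ArithmeticFunction (cardFactors)

theorem PO_om (K : ℝ) (N : ℤ) (n : ℕ) : om K N n = K * gs (K * (N - (√(n : ℝ) - 1 / 2))) := by
  rw [om]; congr 3; ring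

theorem PO_summable {K : ℝ} (hK : 0 < K) (n : ℕ) : Summable fun N : ℤ => om K N n := by
  simp only [PO_om]
  exact (t_GS1 K 0 _ hK).1.mul_left K

theorem PO_ite {K : ℝ} (hK : 0 < K) (n : ℕ) (p : ℤ → Prop) [DecidablePred p] :
    Summable fun N : ℤ => if p N then om K N n else 0 :=
  (PO_summable hK n).of_nonneg_of_le (fun N => by split_ifs; exacts [om_nonneg hK.le N n, le_rfl])
    fun N => by split_ifs; exacts [le_rfl, om_nonneg hK.le N n]

theorem PO_split {q : ℕ} (hq : 1 ≤ q) (n : ℕ) (N : ℤ) (x : ℝ) :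
    (if (q : ℤ) ∣ 2 * MM N - n then x else 0) =
      ∑ ν ∈ rts q n, if (q : ℤ) ∣ N - ν then x else 0 := by
  have hq' : (0 : ℤ) < q := by exact_mod_cast hq
  obtain ⟨a, ha⟩ : ∃ a : ℕ, (a : ℤ) = N % q := Int.eq_ofNat_of_zero_le (Int.emod_nonneg N hq'.ne') |>.imp
    fun _ h => h.symm
  have ha1 : a < q := by
    have := Int.emod_lt_of_pos N hq'
    omega
  have ha2 : (q : ℤ) ∣ N - a := ⟨N / q, by rw [ha, Int.emod_def]; ring⟩
  have h1 : ∀ ν ∈ rts q n, ((q : ℤ) ∣ N - ν ↔ ν = a) := fun ν hν => by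
    refine ⟨fun h => ?_, fun h => h ▸ ha2⟩
    have h2 : (q : ℤ) ∣ (a : ℤ) - ν := by
      have := dvd_sub h ha2
      rwa [show N - ν - (N - a) = (a : ℤ) - ν by ring] at this
    exact Nat.ModEq.eq_of_lt_of_lt (Nat.modEq_iff_dvd.2 h2) (mem_rts.1 hν).1 ha1
  have h3 : (q : ℤ) ∣ 2 * MM N - n ↔ a ∈ rts q n := by
    rw [rts, mem_filter, mem_range, and_iff_right ha1,
      show 2 * MM N - n = 2 * MM a - n + (N - a) * (2 * (N + a + 1)) by unfold MM; ring]
    exact dvd_add_left (ha2.mul_right _)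
  rw [sum_congr rfl fun ν hν => if_congr (h1 ν hν) rfl rfl, sum_ite_eq']
  exact if_congr h3 rfl rfl

/-- Poisson summation -/
theorem PO_TC {K : ℝ} (hK : 0 < K) {q : ℕ} (hq : 1 ≤ q) (ν n : ℕ) :
    TC K q ν n = 1 / q * ∑' m : ℤ,
      gs (m / (K * q)) * (MP_e86632_nt.ee (m * ((√(n : ℝ) - 1 / 2 - ν) / q))).re := by
  have hq' : (0 : ℝ) < q := by exact_mod_cast hq
  have hq2 : (q : ℤ) ≠ 0 := by omega
  have hr : 0 < K * q := mul_pos hK hq'
  set c := (√(n : ℝ) - 1 / 2 - ν) / q with hc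
  have h1 : TC K q ν n = K * ∑' m : ℤ, gs (K * q * (m - c)) := by
    have hi : Function.Injective fun m : ℤ => q * m + ν := fun a b e =>
      mul_left_cancel₀ hq2 (add_right_cancel e)
    rw [TC, ← hi.tsum_eq, ← tsum_mul_left]
    · refine tsum_congr fun m => ?_
      rw [if_pos ⟨m, by ring⟩, PO_om]
      congr 2
      rw [hc]
      push_cast
      field_simp
      ring
    · intro N hN
      have : (q : ℤ) ∣ N - ν := by
        by_contra h
        exact hN (if_neg h)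
      obtain ⟨m, hm⟩ := this
      exact ⟨m, by simp only [← hm]; ring⟩
  have h2 := (t_GS1 (K * q) 0 c hr).2
  simp only [zero_mul, MP_e86632_nt.ee_zero, one_mul, sub_zero, zero_sub] at h2
  rw [← Complex.ofReal_tsum] at h2
  have h3 : Summable fun m : ℤ => (gs (m / (K * q)) : ℂ) * MP_e86632_nt.ee (-m * c) := by
    refine Summable.of_norm ?_
    simp only [norm_mul, MP_e86632_nt.norm_ee, mul_one, Complex.norm_real, Real.norm_eq_abs,
      abs_of_pos (gs_pos _)]
    refine (t_GS1 (1 / (K * q)) 0 0 (by positivity)).1.congr fun m => ?_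
    congr 1; ring
  have h4 := congrArg Complex.re h2
  rw [Complex.ofReal_re, Complex.re_ofReal_mul, Complex.re_tsum h3] at h4
  rw [h1, h4, ← mul_assoc]
  congr 1
  · field_simp
  · refine tsum_congr fun m => ?_
    rw [Complex.re_ofReal_mul, neg_mul, MP_e86632_nt.ee_neg, Complex.conj_re]

theorem PO_tail {r : ℝ} (hr : 0 < r) (c : ℝ) (H : ℕ) :
    |∑' m : ℤ, gs (m / r) * (MP_e86632_nt.ee (m * c)).re - 1 -
      2 * ∑ h ∈ Icc 1 H, gs (h / r) * (MP_e86632_nt.ee (h * c)).re| ≤ 8 * (1 + r) * gs (H / (2 * r)) := by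
  set f : ℤ → ℝ := fun m => gs (m / r) * (MP_e86632_nt.ee (m * c)).re with hf
  have he : f.Even := fun m => by
    simp only [hf, Int.cast_neg, neg_div, gs_neg, neg_mul, MP_e86632_nt.ee_neg, Complex.conj_re]
  have hb : ∀ m, |f m| ≤ gs (m / r) := fun m => by
    rw [hf, abs_mul, abs_of_pos (gs_pos _)]
    exact mul_le_of_le_one_right (gs_pos _).le ((Complex.abs_re_le_norm _).trans (MP_e86632_nt.norm_ee _).le)
  have s1 : Summable fun m : ℤ => gs (m / r) :=
    (t_GS1 (1 / r) 0 0 (by positivity)).1.congr fun m => by congr 1; ring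
  have sf : Summable f := Summable.of_norm_bounded s1 hb
  have e1 : ∑ m ∈ Icc (-H : ℤ) H, f m = 1 + 2 * ∑ h ∈ Icc 1 H, gs (h / r) * (MP_e86632_nt.ee (h * c)).re := by
    rw [sum_Icc_of_even_eq_range he, range_eq_Ico, sum_eq_sum_Ico_succ_bot H.succ_pos]
    have f0 : f 0 = 1 := by simp [hf, gs_zero]
    have : ∑ k ∈ Ico (0 + 1) (H + 1), f (k : ℕ) =
        ∑ h ∈ Icc 1 H, gs (h / r) * (MP_e86632_nt.ee (h * c)).re :=
      sum_congr rfl fun k _ => by simp only [hf, Int.cast_natCast]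
    rw [Nat.succ_eq_add_one, this, Nat.cast_zero, f0, nsmul_eq_mul]
    push_cast
    ring
  have e2 := sf.sum_add_tsum_compl (s := Icc (-H : ℤ) H)
  rw [_root_.tsum_subtype] at e2
  have s2 := t_GS1 (1 / (2 * r)) 0 0 (by positivity)
  have b2 := t_GS2 (1 / (2 * r)) 0 (by positivity)
  have hb2 : ∀ m : ℤ, ‖(↑(Icc (-H : ℤ) H) : Set ℤ)ᶜ.indicator f m‖ ≤
      gs (H / (2 * r)) * gs (1 / (2 * r) * (m - 0)) := fun m => by
    by_cases hm : m ∈ (↑(Icc (-H : ℤ) H) : Set ℤ)ᶜ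
    · rw [Set.indicator_of_mem hm]
      refine (hb m).trans ?_
      have h1 : (H : ℤ) ≤ |m| := by
        simp only [coe_Icc, Set.mem_compl_iff, Set.mem_Icc, not_and_or, not_le] at hm
        rcases hm with hm | hm
        exacts [le_abs.2 (Or.inr (by omega)), le_abs.2 (Or.inl hm.le)]
      have h2 : (H : ℝ) ^ 2 ≤ (m : ℝ) ^ 2 := by
        have : (H : ℤ) ^ 2 ≤ m ^ 2 := by
          rw [← sq_abs m]; exact pow_le_pow_left₀ (by positivity) h1 2
        exact_mod_cast this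
      rw [gs, gs, gs, ← Real.exp_add]
      refine Real.exp_le_exp.2 ?_
      have h3 : (H / (2 * r)) ^ 2 + (1 / (2 * r) * ((m : ℝ) - 0)) ^ 2 ≤ (m / r) ^ 2 := by
        rw [show (H / (2 * r)) ^ 2 + (1 / (2 * r) * ((m : ℝ) - 0)) ^ 2 =
          ((H : ℝ) ^ 2 / 4 + m ^ 2 / 4) / r ^ 2 by field_simp; ring, div_pow]
        refine div_le_div_of_nonneg_right ?_ (by positivity)
        nlinarith [sq_nonneg (m : ℝ)]
      nlinarith [Real.pi_pos]
    · rw [Set.indicator_of_notMem hm, norm_zero]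
      exact (mul_pos (gs_pos _) (gs_pos _)).le
  have b3 := tsum_of_norm_bounded (s2.1.mul_left (gs (H / (2 * r)))).hasSum hb2
  rw [tsum_mul_left] at b3
  rw [← e2, e1, show ∀ a b : ℝ, 1 + 2 * a + b - 1 - 2 * a = b by intro a b; ring]
  refine b3.trans ?_
  rw [mul_comm]
  refine mul_le_mul_of_nonneg_right (b2.trans ?_) (gs_pos _).le
  rw [one_div_one_div]
  linarith

theorem t_PO : S_PO := by
  intro K n hK
  refine ⟨PO_summable hK n, ?_, fun q hq => ⟨?_, fun ν H => ?_⟩⟩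
  · simp only [PO_om]
    rw [tsum_mul_left]
    refine (mul_le_mul_of_nonneg_left (t_GS2 K _ hK) hK.le).trans_eq ?_
    field_simp
  · unfold TT TC
    rw [← Summable.tsum_finsetSum fun ν _ => PO_ite hK n _]
    exact tsum_congr fun N => PO_split hq n N _
  · have hq' : (0 : ℝ) < q := by exact_mod_cast hq
    have h := PO_tail (mul_pos hK hq') ((√(n : ℝ) - 1 / 2 - ν) / q) H
    rw [PO_TC hK hq, Complex.re_sum]
    simp only [Complex.re_ofReal_mul, mul_div_assoc]
    rw [show ∀ a b : ℝ, 1 / (q : ℝ) * a - 1 / q - 2 / q * b = 1 / q * (a - 1 - 2 * b) by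
      intro a b; ring, abs_mul, abs_of_pos (by positivity : (0 : ℝ) < 1 / q)]
    refine (mul_le_mul_of_nonneg_left h (by positivity : (0 : ℝ) ≤ 1 / q)).trans_eq ?_
    rw [mul_assoc 2 K]
    ring

end Pool.Agent.P.MP_e94e4b_nt.PF
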