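import Pool.Agent.P.MP_e94e4b_nt.PF.Basic

/-! Explicit tables for the linear sieve with mesh one tenth. -/

namespace Pool.Agent.P.MP_e94e4b_nt.PF

open Finset

/-- a finite table continued by a geometric sequence -/
def TABf (L : List ℕ) (s j : ℕ) : ℚ :=
  if j < 60 then (L.getD (j - s) 0 : ℚ) / 10000 else 1 / 2000 * (4 / 5) ^ (j - 60)

def TABp : ℕ → ℚ := TABf [27868, 24424, 21555, 19127, 17046, 15242, 13664, 12271, 11033, 9926,
  8929, 8027, 7207, 6459, 5773, 5141, 4559, 4019, 3518, 3052, 2616, 2139, 1751, 1435, 1176, 963,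
  788, 644, 526, 428, 348, 281, 227, 182, 146, 116, 92, 73, 58, 45, 35, 28, 22, 17, 13, 11, 8, 7,
  5, 4] 10

def TABq : ℕ → ℚ := TABf [12165, 10257, 8680, 7364, 6260, 5327, 4535, 3861, 3284, 2790, 2366,
  2001, 1688, 1418, 1186, 987, 817, 671, 548, 444, 356, 284, 226, 180, 143, 114, 90, 72, 57, 45,
  35, 28, 22, 17, 14, 11, 8, 7, 5, 4] 20

theorem TAB_nonneg (L : List ℕ) (s j : ℕ) : 0 ≤ TABf L s j := by
  unfold TABf
  split_ifs <;> positivity

theorem TAB_tail (L : List ℕ) (s : ℕ) {j : ℕ} (h : 60 ≤ j) :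
    TABf L s j = 1 / 2000 * (4 / 5) ^ (j - 60) := if_neg (by omega)

theorem TAB_small (L : List ℕ) (s : ℕ) {j : ℕ} (h : 60 ≤ j) : TABf L s j ≤ 1 / 2000 := by
  rw [TAB_tail L s h]
  have : ((4 : ℚ) / 5) ^ (j - 60) ≤ 1 := pow_le_one₀ (by norm_num) (by norm_num)
  linarith

theorem TAB_geo (u : ℕ → ℚ) (hu : ∀ i, 70 ≤ i → u i = 1 / 2000 * (4 / 5) ^ (i - 70)) {j : ℕ}
    (hj : 70 ≤ j) (n : ℕ) : ∑ i ∈ Ico j n, u i ≤ 1 / 400 * (4 / 5) ^ (j - 70) := by
  rcases le_total n j with h | h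
  · rw [Ico_eq_empty_of_le h, sum_empty]
    positivity
  · have key : ∑ i ∈ Ico j n, u i =
        1 / 400 * (4 / 5) ^ (j - 70) - 1 / 400 * (4 / 5) ^ (n - 70) := by
      induction n, h using Nat.le_induction with
      | base => simp
      | succ n h ih =>
        rw [sum_Ico_succ_top h, ih, hu n (by omega), show n + 1 - 70 = n - 70 + 1 by omega,
          pow_succ]
        ring
    have : (0 : ℚ) ≤ 1 / 400 * (4 / 5) ^ (n - 70) := by positivity
    linarith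

theorem TAB_main (u v : ℕ → ℚ) (s : ℕ) (h0 : ∀ i, 0 ≤ u i)
    (hu : ∀ i, 70 ≤ i → u i = 1 / 2000 * (4 / 5) ^ (i - 70))
    (hv : ∀ i, 60 ≤ i → v i = 1 / 2000 * (4 / 5) ^ (i - 60))
    (hf : ∀ j < 70, s ≤ j → 1001 / 1000 * (∑ i ∈ Ico j 70, u i + 1 / 400) ≤ j * v j)
    (j n : ℕ) (hj : s ≤ j) : 1001 / 1000 * ∑ i ∈ Ico j n, u i ≤ j * v j := by
  rcases lt_or_ge j 70 with h | h
  · refine le_trans (mul_le_mul_of_nonneg_left ?_ (by norm_num)) (hf j h hj)
    have a1 : ∑ i ∈ Ico j n, u i ≤ ∑ i ∈ Ico j (max n 70), u i :=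
      sum_le_sum_of_subset_of_nonneg (Ico_subset_Ico_right (le_max_left _ _)) fun i _ _ => h0 i
    have a2 := sum_Ico_consecutive u h.le (le_max_right n 70)
    have a3 := TAB_geo u hu le_rfl (max n 70)
    norm_num at a3
    linarith
  · have a1 := TAB_geo u hu h n
    have a2 : (70 : ℚ) ≤ j := by exact_mod_cast h
    have a3 : (0 : ℚ) ≤ (4 / 5) ^ (j - 70) := by positivity
    have a4 := mul_le_mul_of_nonneg_right a2 a3
    rw [hv j (by omega), show j - 60 = j - 70 + 10 by omega, pow_add]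
    linarith

theorem TAB_p (j n : ℕ) (hj : 10 ≤ j) :
    1001 / 1000 * ∑ i ∈ Ico j n, (if i < 30 then 1 else TABq (i - 10)) ≤ j * TABp j := by
  refine TAB_main _ TABp 10 (fun i => ?_) (fun i hi => ?_) (fun i hi => TAB_tail _ _ hi)
    (by decide +kernel) j n hj
  · split_ifs
    exacts [zero_le_one, TAB_nonneg _ _ _]
  · rw [if_neg (by omega), TABq, TAB_tail _ _ (by omega), show i - 10 - 60 = i - 70 by omega]

theorem TAB_q (j n : ℕ) (hj : 20 ≤ j) :
    1001 / 1000 * ∑ i ∈ Ico j n, TABp (i - 10) ≤ j * TABq j := by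
  refine TAB_main _ TABq 20 (fun i => TAB_nonneg _ _ _) (fun i hi => ?_)
    (fun i hi => TAB_tail _ _ hi) (by decide +kernel) j n hj
  exact (TAB_tail _ _ (by omega)).trans (by rw [show i - 10 - 60 = i - 70 by omega])

theorem TAB_le (j : ℕ) (hj : 30 ≤ j) : TABp j ≤ 27 / 100 ∧ TABq j ≤ 24 / 100 := by
  rcases lt_or_ge j 60 with h | h
  · exact (by decide +kernel : ∀ j < 60, 30 ≤ j → TABp j ≤ 27 / 100 ∧ TABq j ≤ 24 / 100) j h hj
  · exact ⟨(TAB_small _ _ h).trans (by norm_num), (TAB_small _ _ h).trans (by norm_num)⟩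

theorem t_TAB : S_TAB := by
  refine ⟨fun j => TABp j, fun j => TABq j, ⟨fun j => ⟨?_, ?_⟩, fun j n hj => ?_,
    fun j n hj => ?_⟩, fun j hj => ⟨?_, ?_⟩⟩
  · exact Rat.cast_nonneg.2 (TAB_nonneg _ _ _)
  · exact Rat.cast_nonneg.2 (TAB_nonneg _ _ _)
  · have := (Rat.cast_le (K := ℝ)).2 (TAB_p j n hj)
    push_cast [apply_ite ((↑) : ℚ → ℝ)] at this
    exact this
  · have := (Rat.cast_le (K := ℝ)).2 (TAB_q j n hj)
    push_cast at this
    exact this
  · have := (Rat.cast_le (K := ℝ)).2 (TAB_le j hj).1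
    push_cast at this
    exact this
  · have := (Rat.cast_le (K := ℝ)).2 (TAB_le j hj).2
    push_cast at this
    exact this

end Pool.Agent.P.MP_e94e4b_nt.PF
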