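import Pool.Agent.P.MP_e94e4b_nt.PF.Basic

/-! The mean value of the class weights over an interval. -/

namespace Pool.Agent.P.MP_e94e4b_nt.PF

open Finset Real Filter Topology
open Pool.Agent.P.MP_8be758_nt.Avg (gs Rough PL red ft en nsq gs_pos gs_le_one prime_of_mem_PL
  ev_pow ev_const ev_log)

/-- the oscillating part -/
theorem TI0_osc {C y K : ℝ} (hC : 0 < C) (hy : 0 ≤ y)
    (h : ∀ (ξ : ℝ) (X1 X2 : ℕ), 0 < ξ →
      ‖∑ n ∈ Ioc X1 X2, MP_e86632_nt.ee (ξ * √(n : ℝ))‖ ≤ C * (√(X2 : ℝ) / ξ + ξ * √(X2 : ℝ)))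
    (X1 X2 q ν H : ℕ) (hX : (X2 : ℝ) ≤ 4 * y ^ 2) (hq : 1 ≤ q) :
    |∑ n ∈ Ioc X1 X2, 2 / q * (∑ h ∈ Icc 1 H,
      (gs (h / (K * q)) : ℂ) * MP_e86632_nt.ee (h * (√(n : ℝ) - 1 / 2 - ν) / q)).re| ≤
      4 * C * y * (1 + Real.log H) + 4 * C * y * ((H : ℝ) / q) ^ 2 := by
  have hq0 : (0 : ℝ) < q := by exact_mod_cast hq
  have hs : √(X2 : ℝ) ≤ 2 * y := Real.sqrt_le_iff.2 ⟨by positivity, by nlinarith⟩
  have e1 : ∀ k ∈ Icc 1 H, ‖∑ n ∈ Ioc X1 X2,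
      (gs (k / (K * q)) : ℂ) * MP_e86632_nt.ee (k * (√(n : ℝ) - 1 / 2 - ν) / q)‖ ≤
      2 * C * y * q * (1 / k) + 2 * C * y * (H / q) := by
    intro k hk
    obtain ⟨k1, k2⟩ := mem_Icc.1 hk
    have k0 : (0 : ℝ) < k := by exact_mod_cast k1
    have k3 : (k : ℝ) ≤ H := by exact_mod_cast k2
    have e2 : ∀ n : ℕ, (gs (k / (K * q)) : ℂ) * MP_e86632_nt.ee (k * (√(n : ℝ) - 1 / 2 - ν) / q) =
        (gs (k / (K * q)) : ℂ) * MP_e86632_nt.ee (-(k * (1 / 2 + ν) / q)) * MP_e86632_nt.ee (k / q * √(n : ℝ)) := by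
      intro n
      rw [mul_assoc, ← Pool.Agent.P.MP_e86632_nt.ee_add]
      congr 2
      ring
    simp only [e2]
    rw [← mul_sum, norm_mul, norm_mul, Pool.Agent.P.MP_e86632_nt.norm_ee, mul_one,
      Complex.norm_real, Real.norm_of_nonneg (gs_pos _).le]
    have e3 := h (k / q) X1 X2 (by positivity)
    have e4 : √(X2 : ℝ) / (k / q) ≤ 2 * y * q * (1 / k) := by
      rw [div_div_eq_mul_div, mul_one_div]
      gcongr
    have e5 : (k : ℝ) / q * √(X2 : ℝ) ≤ H / q * (2 * y) := by gcongr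
    calc _ ≤ 1 * (C * (√(X2 : ℝ) / (k / q) + k / q * √(X2 : ℝ))) :=
          mul_le_mul (gs_le_one _) e3 (norm_nonneg _) zero_le_one
      _ ≤ 1 * (C * (2 * y * q * (1 / k) + H / q * (2 * y))) := by gcongr
      _ = _ := by ring
  have e6 : ∑ k ∈ Icc 1 H, (1 / (k : ℝ)) ≤ 1 + Real.log H := by
    have := Pool.Agent.P.MP_e86632_nt.sum_inv_le H
    rwa [← Icc_add_one_left_eq_Ioc, zero_add] at this
  rw [← mul_sum, ← Complex.re_sum, sum_comm, abs_mul, abs_of_pos (by positivity : (0 : ℝ) < 2 / q)]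
  have e7 := (Complex.abs_re_le_norm _).trans ((norm_sum_le _ _).trans (sum_le_sum e1))
  rw [sum_add_distrib, ← mul_sum, sum_const, Nat.card_Icc, Nat.add_sub_cancel, nsmul_eq_mul] at e7
  calc _ ≤ 2 / q * (2 * C * y * q * (1 + Real.log H) + H * (2 * C * y * (H / q))) := by
        refine mul_le_mul_of_nonneg_left (e7.trans ?_) (by positivity)
        gcongr
    _ = _ := by field_simp; ring

theorem t_TI0 (hPO : S_PO) (hSQE : S_SQE) : S_TI0 := by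
  intro ε hε
  obtain ⟨C, hC, h⟩ := hSQE
  filter_upwards [ev_gs (c := 1 / 2) (by norm_num) 2, ev_log 1, eventually_ge_atTop 2,
    ev_pow (36 * C + 64) 4 (show (1 : ℝ) < 1 + ε by linarith)] with y h1 h2 h3 h4
  intro X1 X2 q ν hX hq hqy
  rw [Real.rpow_one] at h4
  set K := Real.log y with hK
  have y0 : 0 < y := by linarith
  have K0 : 0 < K := by linarith
  have Ky : K ≤ y := (Real.log_le_sub_one_of_pos y0).trans (by linarith)
  have hq1 : (1 : ℝ) ≤ q := by exact_mod_cast hq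
  have hq0 : (0 : ℝ) < q := by linarith
  set H := ⌊K ^ 2 * q + 1⌋₊ with hH
  have H1 : (H : ℝ) ≤ K ^ 2 * q + 1 := Nat.floor_le (by positivity)
  have H2 : K ^ 2 * q ≤ H := by
    have := Nat.lt_floor_add_one (K ^ 2 * q + 1)
    linarith
  have K2 : 1 ≤ K ^ 2 := one_le_pow₀ h2
  have H3 : (H : ℝ) ≤ 2 * K ^ 2 * q := by nlinarith
  have H0 : (0 : ℝ) < H := lt_of_lt_of_le (by positivity) H2
  have H4 : Real.log H ≤ 4 * K := by
    have : (H : ℝ) ≤ y ^ 4 := by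
      calc (H : ℝ) ≤ 2 * K ^ 2 * q := H3
        _ ≤ y * y ^ 2 * y := by gcongr
        _ = y ^ 4 := by ring
    have := Real.log_le_log H0 this
    rwa [Real.log_pow, Nat.cast_ofNat] at this
  have H5 : ((H : ℝ) / q) ^ 2 ≤ 4 * K ^ 4 := by
    have : (H : ℝ) / q ≤ 2 * K ^ 2 := by rwa [div_le_iff₀ hq0]
    calc _ ≤ (2 * K ^ 2) ^ 2 := by gcongr
      _ = _ := by ring
  have K4 : K ≤ K ^ 4 := le_self_pow₀ h2 (by norm_num)
  have g1 : gs (H / (2 * K * q)) ≤ y ^ (-2 : ℝ) := by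
    refine le_trans (Pool.Agent.P.MP_8be758_nt.Avg.gs_anti ?_) h1
    rw [abs_of_pos (by positivity), abs_of_pos (by positivity), le_div_iff₀ (by positivity)]
    nlinarith
  have g2 : 8 / (q : ℝ) * (1 + K * q) ≤ 16 * K := by
    rw [div_mul_eq_mul_div, div_le_iff₀ hq0]
    nlinarith [mul_le_mul h2 hq1 zero_le_one K0.le]
  have g3 : y ^ 2 * y ^ (-2 : ℝ) = 1 := by
    rw [Real.rpow_neg y0.le, Real.rpow_two, mul_inv_cancel₀ (by positivity)]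
  have e1 := TI0_osc (K := K) hC y0.le h X1 X2 q ν H hX hq
  have e2 : |∑ n ∈ Ioc X1 X2, (TC K q ν n - 1 / q - 2 / q * (∑ h ∈ Icc 1 H,
      (gs (h / (K * q)) : ℂ) * MP_e86632_nt.ee (h * (√(n : ℝ) - 1 / 2 - ν) / q)).re)| ≤ 64 * K := by
    refine (abs_sum_le_sum_abs _ _).trans ((sum_le_sum fun n _ =>
      (((hPO K n K0).2.2 q hq).2 ν H).trans (mul_le_mul g2 g1 (gs_pos _).le (by positivity))).trans ?_)
    rw [sum_const, nsmul_eq_mul, Nat.card_Ioc]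
    have : ((X2 - X1 : ℕ) : ℝ) ≤ 4 * y ^ 2 := le_trans (by exact_mod_cast Nat.sub_le X2 X1) hX
    calc _ ≤ 4 * y ^ 2 * (16 * K * y ^ (-2 : ℝ)) := by gcongr
      _ = 64 * K * (y ^ 2 * y ^ (-2 : ℝ)) := by ring
      _ = 64 * K := by rw [g3, mul_one]
  rw [sum_sub_distrib] at e2
  have e3 := abs_add_le (∑ n ∈ Ioc X1 X2, (TC K q ν n - 1 / q) - ∑ n ∈ Ioc X1 X2,
    2 / q * (∑ h ∈ Icc 1 H,
      (gs (h / (K * q)) : ℂ) * MP_e86632_nt.ee (h * (√(n : ℝ) - 1 / 2 - ν) / q)).re) (∑ n ∈ Ioc X1 X2,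
    2 / q * (∑ h ∈ Icc 1 H,
      (gs (h / (K * q)) : ℂ) * MP_e86632_nt.ee (h * (√(n : ℝ) - 1 / 2 - ν) / q)).re)
  rw [sub_add_cancel] at e3
  have e4 : 4 * C * y * (1 + Real.log H) ≤ 4 * C * y * (5 * K ^ 4) := by
    gcongr; linarith
  have e5 : 4 * C * y * ((H : ℝ) / q) ^ 2 ≤ 4 * C * y * (4 * K ^ 4) := by gcongr
  have e6 : 64 * K ≤ 64 * y * K ^ 4 := by nlinarith
  nlinarith

end Pool.Agent.P.MP_e94e4b_nt.PF
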